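import Pool.Agent.Lib.MP_177a0e_gt.Sig.TbD
import Pool.Agent.Lib.MP_177a0e_gt.OneMin

/-!
# smoothing a crossing of parallel strands is one saddle.

PROOFS.
* `smooth_anti`: the `key` in the proof of `change_anti` (`MP_177a0e_gt/TangleMain.lean`): copy it.
* `smooth_par`: `turn s x x p q` (`TangleMain.lean`, see `change_par` there): the crossing becomes `[⟨p, cup x, x :: x :: q⟩, ⟨p ++ [x], cross (!s) (!x) x, x :: q⟩, ⟨p ++ [x, x], cap (!x), q⟩]`; `smooth_anti` in the middle (with `!x` for `x`, `p ++ [x]` for `p`, `x :: q` for `q`):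
  `[⟨p, cup x, ..⟩, ⟨p ++ [x], cap (!x), x :: q⟩, ⟨p ++ [x], cup x, x :: q⟩, ⟨p ++ [x, x], cap (!x), q⟩]`; then `Rel.zigzag₂ x p (x :: q)` and `Rel.zigzag₂ x (p ++ [x]) q`.
-/

namespace Pool.Agent.Lib.MP_177a0e_gt.Sig

open Pool.Agent.Lib.MP_177a0e_gt.Tangle Pool.Agent.Lib.MP_177a0e_gt.Tangle.Gen

theorem smooth_anti (s x : Bool) (p q : List Bool) : Cob (p ++ [x, !x] ++ q) (p ++ [!x, x] ++ q) 0 1 0
      [⟨p, cross s x (!x), q⟩] [⟨p, cap x, q⟩, ⟨p, cup (!x), q⟩] := by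
  have v0 : Valid (p ++ [x, !x] ++ q) [⟨p, cross s x (!x), q⟩] (p ++ [!x, x] ++ q) := by
    simp [Valid, Slice.src, Slice.tgt, Gen.src, Gen.tgt]
  have v1 : Valid (p ++ [x, !x] ++ q)
      [⟨p, cap x, q⟩, ⟨p, cup x, q⟩, ⟨p, cross s x (!x), q⟩] (p ++ [!x, x] ++ q) := by
    simp [Valid, Slice.src, Slice.tgt, Gen.src, Gen.tgt]
  have v2 : Valid (p ++ [x, !x] ++ q)
      [⟨p, cap x, q⟩, ⟨p, cup (!x), q⟩] (p ++ [!x, x] ++ q) := by
    simp [Valid, Slice.src, Slice.tgt, Gen.src, Gen.tgt]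
  refine ((Cob.refl v0).saddle (w₂ := [⟨p, cap x, q⟩, ⟨p, cup x, q⟩, ⟨p, cross s x (!x), q⟩])
    (Or.inl ?_)).iso (Or.inl ?_)
  · exact Local.mk [] [] [⟨p, cap x, q⟩, ⟨p, cup x, q⟩] [⟨p, cross s x (!x), q⟩]
      (SaddleRel.mk x p q) v0 v1
  · have := Local.mk [⟨p, cap x, q⟩] _ _ [] (Rel.r1_cup s x p q) v1 v2
    exact this

theorem smooth_par (s x : Bool) (p q : List Bool) :
    Cob (p ++ [x, x] ++ q) (p ++ [x, x] ++ q) 0 1 0 [⟨p, cross s x x, q⟩] [] := by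
  have h1 := smooth_anti (!s) (!x) (p ++ [x]) (x :: q)
  simp only [Bool.not_not] at h1
  have hu : Valid (p ++ [x, x] ++ q) [⟨p, cup x, x :: x :: q⟩]
      (p ++ [x] ++ [!x, x] ++ (x :: q)) := by
    simp [Valid, Slice.src, Slice.tgt, Gen.src, Gen.tgt]
  have hv : Valid (p ++ [x] ++ [x, !x] ++ (x :: q)) [⟨p ++ [x, x], cap (!x), q⟩]
      (p ++ [x, x] ++ q) := by
    simp [Valid, Slice.src, Slice.tgt, Gen.src, Gen.tgt]
  have h2 := h1.ctx hu hv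
  have h3 := turn s x x p q
  simp only [turned] at h3
  have h4 := (h3.trans h2).cast (Nat.zero_add 0) (Nat.zero_add 1) (Nat.zero_add 0)
  have v0 : Valid (p ++ [x, x] ++ q) [⟨p, cup x, x :: x :: q⟩, ⟨p ++ [x], cap (!x), x :: q⟩,
      ⟨p ++ [x], cup x, x :: q⟩, ⟨p ++ [x, x], cap (!x), q⟩] (p ++ [x, x] ++ q) := by
    simp [Valid, Slice.src, Slice.tgt, Gen.src, Gen.tgt]
  have v1 : Valid (p ++ [x, x] ++ q) [⟨p ++ [x], cup x, x :: q⟩, ⟨p ++ [x, x], cap (!x), q⟩]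
      (p ++ [x, x] ++ q) := by
    simp [Valid, Slice.src, Slice.tgt, Gen.src, Gen.tgt]
  have v2 : Valid (p ++ [x, x] ++ q) [] (p ++ [x, x] ++ q) := rfl
  refine (Cob.iso (w₂ := [⟨p ++ [x], cup x, x :: q⟩, ⟨p ++ [x, x], cap (!x), q⟩]) h4
    (Or.inl ?_)).iso (Or.inl ?_)
  · have z := Rel.zigzag₂ x p (x :: q)
    exact Local.mk [] _ _ [⟨p ++ [x], cup x, x :: q⟩, ⟨p ++ [x, x], cap (!x), q⟩] z v0 v1
  · have z : Rel [⟨p ++ [x], cup x, x :: q⟩, ⟨p ++ [x, x], cap (!x), q⟩] [] := by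
      have := Rel.zigzag₂ x (p ++ [x]) q
      simpa using this
    exact Local.mk [] _ _ [] z v1 v2

end Pool.Agent.Lib.MP_177a0e_gt.Sig
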