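import Pool.Agent.Lib.MP_177a0e_gt.Sig.Gl

/-!
# the states of `u`, saddle, `v` as pairs.

`L = |p|`. Runs of `[cap, cup]` at `p`: `(t 0, t 1, t 2)`, `t 0 i = t 1 i`, `t 2 i = t 1 i` for `i ≤ L`, `t 0 (i + 2) = t 1 i`, `t 2 (i + 2) = t 1 i` for `i ≥ L`. So `t 0 L = t 0 (L + 2)`, `t 2 i = t 0 i` for `i ≠ L + 1`, and `t 1` is determined by `t 0`: `t 1 i = if i ≤ L then t 0 i else t 0 (i + 2)`.
Hence the states of `u ++ [cap, cup] ++ v` are the pairs `(y, z)` in `Pair P Λ u v (L + 1)` with `al = y_L - y_{L+2} = 0`.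
PROOF. Hypotheses: `P` is `fitM` at cups and caps (`hP`), `Λ` is closed under the deletion of two neighbouring gaps (`hΛ`). `glue3` for `a = [cap, cup]`, then `Tri → ker al`, `(y, t, z) ↦ (y, z)`, with inverse `(y, z) ↦ (y, (y_|u|, t 1, z 0), z)`; the form of `a` is `0` (`jmp = 0` at cups and caps).
-/

namespace Pool.Agent.Lib.MP_177a0e_gt.Sig

open Pool.Agent.Lib.MP_177a0e_gt.Tangle Pool.Agent.Lib.MP_177a0e_gt.Tangle.Gen

variable {R : Type} [Field R] {P : Slice → Submodule R ((ℕ → R) × (ℕ → R))} {Λ : Submodule R (ℕ → R)}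

private theorem cut2_facts (hP : ∀ (p q : List Bool) (x : Bool), P ⟨p, cup x, q⟩ = fitM R ⟨p, cup x, q⟩ ∧ P ⟨p, cap x, q⟩ = fitM R ⟨p, cap x, q⟩)
    (a : Word) (x : Bool) (p q : List Bool) (ha : a = [⟨p, cap x, q⟩, ⟨p, cup x, q⟩]) {t : ℕ → ℕ → R} :
    Run P a t ↔ ((∀ i, i ≤ p.length → t 0 i = t 1 i) ∧ ∀ i, p.length ≤ i → t 0 (i + 2) = t 1 i) ∧
      ((∀ i, i ≤ p.length → t 2 i = t 1 i) ∧ ∀ i, p.length ≤ i → t 2 (i + 2) = t 1 i) := by
  subst ha
  have h1 : Run P [⟨p, cap x, q⟩, ⟨p, cup x, q⟩] t ↔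
      (t 0, t 1) ∈ P ⟨p, cap x, q⟩ ∧ (t 1, t 2) ∈ P ⟨p, cup x, q⟩ ∧ True := Iff.rfl
  rw [h1, (hP p q x).1, (hP p q x).2]
  have h2 : (t 0, t 1) ∈ fitM R ⟨p, cap x, q⟩ ↔
      ((∀ i, i ≤ p.length → t 0 i = t 1 i) ∧ ∀ i, p.length ≤ i → t 0 (i + 2) = t 1 i) := Iff.rfl
  have h3 : (t 1, t 2) ∈ fitM R ⟨p, cup x, q⟩ ↔
      ((∀ i, i ≤ p.length → t 2 i = t 1 i) ∧ ∀ i, p.length ≤ i → t 2 (i + 2) = t 1 i) := Iff.rfl
  rw [h2, h3, and_true]

private theorem cut2_mem (hP : ∀ (p q : List Bool) (x : Bool), P ⟨p, cup x, q⟩ = fitM R ⟨p, cup x, q⟩ ∧ P ⟨p, cap x, q⟩ = fitM R ⟨p, cap x, q⟩)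
    (u v a : Word) (x : Bool) (p q : List Bool) (ha : a = [⟨p, cap x, q⟩, ⟨p, cup x, q⟩])
    (τ : Tri P Λ u a v) : (τ.1.1, τ.1.2.2) ∈ Pair P Λ u v (p.length + 1) := by
  obtain ⟨⟨y, t, z⟩, hy, ht, hz, h1, h2⟩ := τ
  have hr := (cut2_facts (t := t) hP a x p q ha).1 ht.1
  have hl : a.length = 2 := by rw [ha]; rfl
  have h1' : y u.length = t 0 := h1
  have h2' : t a.length = z 0 := h2
  rw [hl] at h2'
  refine ⟨hy, hz, fun i hi => ?_⟩
  change z 0 i = y u.length i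
  rw [h1', ← h2']
  rcases Nat.lt_or_ge p.length i with h | h
  · obtain ⟨j, rfl⟩ : ∃ j, i = j + 2 := ⟨i - 2, by omega⟩
    rw [hr.2.2 j (by omega), hr.1.2 j (by omega)]
  · rw [hr.2.1 i h, hr.1.1 i h]

private theorem cut2_ker (hP : ∀ (p q : List Bool) (x : Bool), P ⟨p, cup x, q⟩ = fitM R ⟨p, cup x, q⟩ ∧ P ⟨p, cap x, q⟩ = fitM R ⟨p, cap x, q⟩)
    (u v a : Word) (x : Bool) (p q : List Bool) (ha : a = [⟨p, cap x, q⟩, ⟨p, cup x, q⟩])
    (τ : Tri P Λ u a v) : (⟨(τ.1.1, τ.1.2.2), cut2_mem hP u v a x p q ha τ⟩ :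
      Pair P Λ u v (p.length + 1)) ∈ LinearMap.ker (al P Λ u v p.length) := by
  rw [LinearMap.mem_ker]
  obtain ⟨⟨y, t, z⟩, hy, ht, hz, h1, h2⟩ := τ
  have hr := (cut2_facts (t := t) hP a x p q ha).1 ht.1
  have h1' : y u.length = t 0 := h1
  change y u.length p.length - y u.length (p.length + 2) = 0
  rw [h1', hr.1.1 _ le_rfl, hr.1.2 _ le_rfl, sub_self]

private def cut2_map (hP : ∀ (p q : List Bool) (x : Bool), P ⟨p, cup x, q⟩ = fitM R ⟨p, cup x, q⟩ ∧ P ⟨p, cap x, q⟩ = fitM R ⟨p, cap x, q⟩)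
    (u v a : Word) (x : Bool) (p q : List Bool) (ha : a = [⟨p, cap x, q⟩, ⟨p, cup x, q⟩]) :
    Tri P Λ u a v →ₗ[R] LinearMap.ker (al P Λ u v p.length) where
  toFun τ := ⟨⟨(τ.1.1, τ.1.2.2), cut2_mem hP u v a x p q ha τ⟩, cut2_ker hP u v a x p q ha τ⟩
  map_add' _ _ := rfl
  map_smul' _ _ := rfl

private theorem cut2_bij (hP : ∀ (p q : List Bool) (x : Bool), P ⟨p, cup x, q⟩ = fitM R ⟨p, cup x, q⟩ ∧ P ⟨p, cap x, q⟩ = fitM R ⟨p, cap x, q⟩)
    (hΛ : ∀ x ∈ Λ, ∀ L : ℕ, (fun i => if i ≤ L then x i else x (i + 2)) ∈ Λ)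
    (u v a : Word) (x : Bool) (p q : List Bool) (ha : a = [⟨p, cap x, q⟩, ⟨p, cup x, q⟩]) :
    Function.Bijective (cut2_map (Λ := Λ) hP u v a x p q ha) := by
  have hl : a.length = 2 := by rw [ha]; rfl
  constructor
  · rw [injective_iff_map_eq_zero]
    intro τ h0
    obtain ⟨⟨y, t, z⟩, hy, ht, hz, h1, h2⟩ := τ
    have hy0 : y = 0 := congrArg (fun s => s.1.1.1) h0
    have hz0 : z = 0 := congrArg (fun s => s.1.1.2) h0
    have hr := (cut2_facts (t := t) hP a x p q ha).1 ht.1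
    have h1' : y u.length = t 0 := h1
    have h2' : t a.length = z 0 := h2
    have ht0 : t = 0 := by
      funext j
      match j with
      | 0 =>
        rw [← h1', hy0]
        rfl
      | 1 =>
        funext i
        rcases Nat.lt_or_ge p.length i with h | h
        · rw [← hr.1.2 i h.le, ← h1', hy0]
          rfl
        · rw [← hr.1.1 i h, ← h1', hy0]
          rfl
      | 2 =>
        rw [← hl, h2', hz0]
        rfl
      | j + 3 => exact ht.2.2 (j + 3) (by omega)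
    subst hy0 hz0 ht0
    rfl
  · rintro ⟨⟨⟨y, z⟩, hy, hz, hyz⟩, hk⟩
    rw [LinearMap.mem_ker] at hk
    have hk' : y u.length p.length = y u.length (p.length + 2) := sub_eq_zero.1 hk
    have hyz' : ∀ i, i ≠ p.length + 1 → z 0 i = y u.length i := hyz
    let t : ℕ → ℕ → R := fun j => match j with
      | 0 => y u.length
      | 1 => fun i => if i ≤ p.length then y u.length i else y u.length (i + 2)
      | 2 => z 0
      | _ => 0
    have ht0 : t 0 = y u.length := rfl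
    have ht1 : t 1 = fun i => if i ≤ p.length then y u.length i else y u.length (i + 2) := rfl
    have ht2 : t 2 = z 0 := rfl
    have hyL : y u.length ∈ Λ := hy.1.2.1 _
    have ht : t ∈ Runs P Λ a := by
      refine ⟨(cut2_facts hP a x p q ha).2 ⟨⟨fun i hi => ?_, fun i hi => ?_⟩,
        ⟨fun i hi => ?_, fun i hi => ?_⟩⟩, fun j => ?_, fun j hj => ?_⟩
      · rw [ht0, ht1]
        simp only [if_pos hi]
      · rw [ht0, ht1]
        rcases Nat.lt_or_ge p.length i with h | h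
        · simp only [if_neg (not_le.2 h)]
        · simp only [if_pos h]
          obtain rfl : i = p.length := le_antisymm h hi
          exact hk'.symm
      · rw [ht2, ht1]
        simp only [if_pos hi]
        exact hyz' i (by omega)
      · rw [ht2, ht1, hyz' (i + 2) (by omega)]
        rcases Nat.lt_or_ge p.length i with h | h
        · simp only [if_neg (not_le.2 h)]
        · simp only [if_pos h]
          obtain rfl : i = p.length := le_antisymm h hi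
          exact hk'.symm
      · match j with
        | 0 => exact hyL
        | 1 => exact hΛ _ hyL p.length
        | 2 => exact hz.2.1 0
        | j + 3 => exact Λ.zero_mem
      · rw [hl] at hj
        match j, hj with
        | j + 3, _ => rfl
    refine ⟨⟨(y, t, z), hy, ht, hz, rfl, ?_⟩, rfl⟩
    change t a.length = z 0
    rw [hl]
    exact ht2

theorem cut_saddle (hP : ∀ (p q : List Bool) (x : Bool), P ⟨p, cup x, q⟩ = fitM R ⟨p, cup x, q⟩ ∧ P ⟨p, cap x, q⟩ = fitM R ⟨p, cap x, q⟩)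
    (hΛ : ∀ x ∈ Λ, ∀ L : ℕ, (fun i => if i ≤ L then x i else x (i + 2)) ∈ Λ) (u v a : Word) (x : Bool) (p q : List Bool)
    (ha : a = [⟨p, cap x, q⟩, ⟨p, cup x, q⟩]) :
    ∃ Φ : Closed P Λ (u ++ a ++ v) ≃ₗ[R] LinearMap.ker (al P Λ u v p.length), ∀ t t' : Closed P Λ (u ++ a ++ v),
      gq (u ++ a ++ v) t.1 t'.1 = gq u (Φ t).1.1.1 (Φ t').1.1.1 + gq v (Φ t).1.1.2 (Φ t').1.1.2 := by
  obtain ⟨Φ, hΦ⟩ := glue3 (P := P) (Λ := Λ) u a v
  refine ⟨Φ.trans (LinearEquiv.ofBijective _ (cut2_bij hP hΛ u v a x p q ha)), fun t t' => ?_⟩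
  rw [hΦ t t']
  have h0 : ∀ y y' : ℕ → ℕ → R, gq a y y' = 0 := by
    intro y y'
    rw [ha]
    simp [gq, eps]
  rw [h0, add_zero]
  rfl

theorem cup_fit (x : Bool) (p q : List Bool) : colM R ⟨p, cup x, q⟩ = fitM R ⟨p, cup x, q⟩ ∧ colM R ⟨p, cap x, q⟩ = fitM R ⟨p, cap x, q⟩ :=
  ⟨Submodule.ext fun _ => ⟨fun h => h.1, fun h => ⟨h, trivial⟩⟩,
    Submodule.ext fun _ => ⟨fun h => h.1, fun h => ⟨h, trivial⟩⟩⟩

theorem white_del {x : ℕ → R} (h : x ∈ whiteM R) (L : ℕ) : (fun i => if i ≤ L then x i else x (i + 2)) ∈ whiteM R := by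
  intro i hi
  have h' : ∀ i, i % 2 = 0 → x i = 0 := h
  dsimp only
  split_ifs
  · exact h' i hi
  · exact h' (i + 2) (by omega)

end Pool.Agent.Lib.MP_177a0e_gt.Sig
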