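import Pool.Agent.Lib.MP_177a0e_gt.Sig.Defs

/-!
# cutting states at a level.

PROOFS. All by induction on the word (`u`), `sh_sh`: `sh a (sh b x) = sh (a + b) x` (`sh n x j = x (j + n)`, `Nat.add_assoc`, `Nat.add_comm`), `sh 1 (ct (n + 1) x) = ct n (sh 1 x)`.
* `run_append`, `gq_append`: induction on `u`. `run_congr`, `gq_congr`: only the levels `0, …, |w|` matter.
* `glue3`: `x ↦ (ct |u| x, ct |a| (sh |u| x), sh (|u| + |a|) x)`; inverse `(y, t, z) ↦ fun j => if j ≤ |u| then y j else if j ≤ |u| + |a| then t (j - |u|) else z (j - |u| - |a|)`.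
-/

namespace Pool.Agent.Lib.MP_177a0e_gt.Sig

open Pool.Agent.Lib.MP_177a0e_gt.Tangle Pool.Agent.Lib.MP_177a0e_gt.Tangle.Gen

variable {R : Type} [Field R] {P : Slice → Submodule R ((ℕ → R) × (ℕ → R))} {Λ : Submodule R (ℕ → R)}

theorem sh_sh (a b : ℕ) (x : ℕ → ℕ → R) : sh a (sh b x) = sh (a + b) x := by
  funext j
  show x (j + a + b) = x (j + (a + b))
  rw [Nat.add_assoc]

theorem run_congr {w : Word} {x y : ℕ → ℕ → R} (h : ∀ j, j ≤ w.length → x j = y j) : Run P w x ↔ Run P w y := by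
  induction w generalizing x y with
  | nil => exact Iff.rfl
  | cons s w ih =>
    have h1 : ∀ j, j ≤ w.length → sh 1 x j = sh 1 y j := fun j hj => h (j + 1) (by
      rw [List.length_cons]
      omega)
    have h2 : x 0 = y 0 := h 0 (Nat.zero_le _)
    have h3 : x 1 = y 1 := h 1 (by
      rw [List.length_cons]
      omega)
    show (x 0, x 1) ∈ P s ∧ Run P w (sh 1 x) ↔ (y 0, y 1) ∈ P s ∧ Run P w (sh 1 y)
    rw [ih h1, h2, h3]

theorem gq_congr {w : Word} {x y x' y' : ℕ → ℕ → R} (h : ∀ j, j ≤ w.length → x j = x' j) (h' : ∀ j, j ≤ w.length → y j = y' j) :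
    gq w x y = gq w x' y' := by
  induction w generalizing x y x' y' with
  | nil => rfl
  | cons s w ih =>
    have h1 : ∀ j, j ≤ w.length → sh 1 x j = sh 1 x' j := fun j hj => h (j + 1) (by
      rw [List.length_cons]
      omega)
    have h1' : ∀ j, j ≤ w.length → sh 1 y j = sh 1 y' j := fun j hj => h' (j + 1) (by
      rw [List.length_cons]
      omega)
    have h2 : x 0 = x' 0 := h 0 (Nat.zero_le _)
    have h2' : y 0 = y' 0 := h' 0 (Nat.zero_le _)
    have h3 : x 1 = x' 1 := h 1 (by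
      rw [List.length_cons]
      omega)
    have h3' : y 1 = y' 1 := h' 1 (by
      rw [List.length_cons]
      omega)
    show (eps s : R) * (jmp s (x 0) (x 1) * jmp s (y 0) (y 1)) + gq w (sh 1 x) (sh 1 y) =
      (eps s : R) * (jmp s (x' 0) (x' 1) * jmp s (y' 0) (y' 1)) + gq w (sh 1 x') (sh 1 y')
    rw [ih h1 h1', h2, h2', h3, h3']

theorem run_append (u v : Word) (x : ℕ → ℕ → R) : Run P (u ++ v) x ↔ Run P u x ∧ Run P v (sh u.length x) := by
  induction u generalizing x with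
  | nil =>
    show Run P v x ↔ True ∧ Run P v x
    rw [true_and]
  | cons s u ih =>
    show (x 0, x 1) ∈ P s ∧ Run P (u ++ v) (sh 1 x) ↔
      ((x 0, x 1) ∈ P s ∧ Run P u (sh 1 x)) ∧ Run P v (sh (u.length + 1) x)
    rw [ih (sh 1 x), sh_sh, and_assoc]

theorem gq_append (u v : Word) (x y : ℕ → ℕ → R) :
    gq (u ++ v) x y = gq u x y + gq v (sh u.length x) (sh u.length y) := by
  induction u generalizing x y with
  | nil =>
    show gq v x y = 0 + gq v x y
    rw [zero_add]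
  | cons s u ih =>
    show (eps s : R) * (jmp s (x 0) (x 1) * jmp s (y 0) (y 1)) + gq (u ++ v) (sh 1 x) (sh 1 y) =
      (eps s : R) * (jmp s (x 0) (x 1) * jmp s (y 0) (y 1)) + gq u (sh 1 x) (sh 1 y) +
        gq v (sh (u.length + 1) x) (sh (u.length + 1) y)
    rw [ih (sh 1 x) (sh 1 y), sh_sh, sh_sh, add_assoc]

/-- triples of states of `u`, `a`, `v` which fit together -/
def Tri (P : Slice → Submodule R ((ℕ → R) × (ℕ → R))) (Λ : Submodule R (ℕ → R)) (u a v : Word) :
    Submodule R ((ℕ → ℕ → R) × (ℕ → ℕ → R) × (ℕ → ℕ → R)) where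
  carrier := {p | p.1 ∈ Closed P Λ u ∧ p.2.1 ∈ Runs P Λ a ∧ p.2.2 ∈ Runs P Λ v ∧ p.1 u.length = p.2.1 0 ∧
    p.2.1 a.length = p.2.2 0}
  add_mem' := fun {x y} h1 h2 => ⟨(Closed P Λ u).add_mem h1.1 h2.1, (Runs P Λ a).add_mem h1.2.1 h2.2.1,
    (Runs P Λ v).add_mem h1.2.2.1 h2.2.2.1, congrArg₂ (· + ·) h1.2.2.2.1 h2.2.2.2.1,
    congrArg₂ (· + ·) h1.2.2.2.2 h2.2.2.2.2⟩
  zero_mem' := ⟨(Closed P Λ u).zero_mem, (Runs P Λ a).zero_mem, (Runs P Λ v).zero_mem, rfl, rfl⟩
  smul_mem' := fun r {x} h => ⟨(Closed P Λ u).smul_mem r h.1, (Runs P Λ a).smul_mem r h.2.1,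
    (Runs P Λ v).smul_mem r h.2.2.1, congrArg (r • ·) h.2.2.2.1, congrArg (r • ·) h.2.2.2.2⟩

/-- the levels of three states -/
private def Gl_g (U A : ℕ) (y t z : ℕ → ℕ → R) : ℕ → ℕ → R :=
  fun j => if j ≤ U then y j else if j ≤ U + A then t (j - U) else z (j - U - A)

private theorem Gl_g1 {U A : ℕ} {y t z : ℕ → ℕ → R} (j : ℕ) (hj : j ≤ U) : Gl_g U A y t z j = y j :=
  if_pos hj

private theorem Gl_g2 {U A : ℕ} {y t z : ℕ → ℕ → R} (h1 : y U = t 0) (j : ℕ) (hj : j ≤ A) :
    Gl_g U A y t z (j + U) = t j := by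
  unfold Gl_g
  by_cases h0 : j = 0
  · subst h0
    rw [if_pos (by omega), Nat.zero_add, h1]
  · rw [if_neg (by omega), if_pos (by omega), Nat.add_sub_cancel]

private theorem Gl_g3 {U A : ℕ} {y t z : ℕ → ℕ → R} (h1 : y U = t 0) (h2 : t A = z 0) (j : ℕ) :
    Gl_g U A y t z (j + (U + A)) = z j := by
  by_cases h0 : j = 0
  · subst h0
    have h3 := Gl_g2 (z := z) h1 A le_rfl
    have h4 : 0 + (U + A) = A + U := by omega
    rw [h4, h3, h2]
  · unfold Gl_g
    have h5 : j + (U + A) - U - A = j := by omega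
    rw [if_neg (by omega), if_neg (by omega), h5]

private theorem Gl_ct {n : ℕ} {x : ℕ → ℕ → R} (j : ℕ) (hj : j ≤ n) : ct n x j = x j := if_pos hj

private theorem Gl_ct' {n : ℕ} {x : ℕ → ℕ → R} (j : ℕ) (hj : n < j) : ct n x j = 0 :=
  if_neg (by omega)

private theorem Gl_ct_mem {n : ℕ} {x : ℕ → ℕ → R} (h : ∀ j, x j ∈ Λ) (j : ℕ) : ct n x j ∈ Λ := by
  unfold ct
  split_ifs
  · exact h j
  · exact Λ.zero_mem

private theorem Gl_ct_add (n : ℕ) (x y : ℕ → ℕ → R) : ct n (x + y) = ct n x + ct n y := by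
  funext j
  show (if j ≤ n then (x + y) j else 0) = (if j ≤ n then x j else 0) + (if j ≤ n then y j else 0)
  split_ifs
  · rfl
  · rw [add_zero]

private theorem Gl_ct_smul (n : ℕ) (r : R) (x : ℕ → ℕ → R) : ct n (r • x) = r • ct n x := by
  funext j
  show (if j ≤ n then (r • x) j else 0) = r • (if j ≤ n then x j else 0)
  split_ifs
  · rfl
  · rw [smul_zero]

private theorem Gl_fwd {u a v : Word} {x : ℕ → ℕ → R} (hx : x ∈ Closed P Λ (u ++ a ++ v)) :
    (ct u.length x, ct a.length (sh u.length x), sh (u.length + a.length) x) ∈ Tri P Λ u a v := by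
  obtain ⟨⟨h1, h2, h3⟩, h4⟩ := hx
  rw [run_append, run_append, List.length_append] at h1
  rw [List.length_append, List.length_append] at h3
  obtain ⟨⟨h5, h6⟩, h7⟩ := h1
  refine ⟨⟨⟨?_, Gl_ct_mem h2, fun j hj => Gl_ct' j hj⟩, ?_⟩,
    ⟨?_, Gl_ct_mem (fun j => h2 (j + u.length)), fun j hj => Gl_ct' j hj⟩,
    ⟨h7, fun j => h2 _, fun j hj => ?_⟩, ?_, ?_⟩
  · exact (run_congr fun j hj => Gl_ct j hj).2 h5
  · exact (Gl_ct (n := u.length) (x := x) 0 (Nat.zero_le _)).trans h4
  · exact (run_congr fun j hj => Gl_ct j hj).2 h6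
  · exact h3 _ (by omega)
  · show ct u.length x u.length = ct a.length (sh u.length x) 0
    rw [Gl_ct _ le_rfl, Gl_ct _ (Nat.zero_le _)]
    show x u.length = x (0 + u.length)
    rw [Nat.zero_add]
  · show ct a.length (sh u.length x) a.length = sh (u.length + a.length) x 0
    rw [Gl_ct _ le_rfl]
    show x (a.length + u.length) = x (0 + (u.length + a.length))
    congr 1
    omega

private theorem Gl_bwd {u a v : Word} {y t z : ℕ → ℕ → R} (h : (y, t, z) ∈ Tri P Λ u a v) :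
    Gl_g u.length a.length y t z ∈ Closed P Λ (u ++ a ++ v) := by
  obtain ⟨⟨⟨h1, h2, h3⟩, h4⟩, ⟨h5, h6, h7⟩, ⟨h8, h9, h10⟩, h11, h12⟩ := h
  have e11 : y u.length = t 0 := h11
  have e12 : t a.length = z 0 := h12
  refine ⟨⟨?_, fun j => ?_, fun j hj => ?_⟩, ?_⟩
  · rw [run_append, run_append, List.length_append]
    refine ⟨⟨?_, ?_⟩, ?_⟩
    · exact (run_congr fun j hj => Gl_g1 j hj).2 h1
    · exact (run_congr fun j hj => Gl_g2 e11 j hj).2 h5
    · exact (run_congr fun j hj => Gl_g3 e11 e12 j).2 h8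
  · unfold Gl_g
    split_ifs
    · exact h2 _
    · exact h6 _
    · exact h9 _
  · rw [List.length_append, List.length_append] at hj
    have e := Gl_g3 e11 e12 (j - (u.length + a.length))
    have k : j - (u.length + a.length) + (u.length + a.length) = j := by omega
    rw [k] at e
    rw [e]
    exact h10 _ (by omega)
  · exact (Gl_g1 0 (Nat.zero_le _)).trans h4

theorem glue3 (u a v : Word) : ∃ Φ : Closed P Λ (u ++ a ++ v) ≃ₗ[R] Tri P Λ u a v, ∀ x x' : Closed P Λ (u ++ a ++ v),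
    gq (u ++ a ++ v) x.1 x'.1 = gq u (Φ x).1.1 (Φ x').1.1 + gq a (Φ x).1.2.1 (Φ x').1.2.1 + gq v (Φ x).1.2.2 (Φ x').1.2.2 := by
  refine ⟨{
    toFun := fun x => ⟨(ct u.length x.1, ct a.length (sh u.length x.1), sh (u.length + a.length) x.1), Gl_fwd x.2⟩
    map_add' := fun x x' => Subtype.ext (Prod.ext (Gl_ct_add _ _ _) (Prod.ext (Gl_ct_add _ _ _) rfl))
    map_smul' := fun r x => Subtype.ext (Prod.ext (Gl_ct_smul _ _ _) (Prod.ext (Gl_ct_smul _ _ _) rfl))
    invFun := fun p => ⟨Gl_g u.length a.length p.1.1 p.1.2.1 p.1.2.2, Gl_bwd p.2⟩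
    left_inv := fun x => Subtype.ext ?_
    right_inv := fun p => Subtype.ext ?_ }, fun x x' => ?_⟩
  · funext j
    show (if j ≤ u.length then ct u.length x.1 j else if j ≤ u.length + a.length then
      ct a.length (sh u.length x.1) (j - u.length) else sh (u.length + a.length) x.1 (j - u.length - a.length)) = x.1 j
    split_ifs with h1 h2
    · exact Gl_ct j h1
    · rw [Gl_ct _ (by omega)]
      show x.1 (j - u.length + u.length) = x.1 j
      have k : j - u.length + u.length = j := by omega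
      rw [k]
    · show x.1 (j - u.length - a.length + (u.length + a.length)) = x.1 j
      have k : j - u.length - a.length + (u.length + a.length) = j := by omega
      rw [k]
  · obtain ⟨⟨y, t, z⟩, hp⟩ := p
    obtain ⟨⟨⟨h1, h2, h3⟩, h4⟩, ⟨h5, h6, h7⟩, ⟨h8, h9, h10⟩, h11, h12⟩ := hp
    refine Prod.ext ?_ (Prod.ext ?_ ?_)
    · funext j
      show ct u.length (Gl_g u.length a.length y t z) j = y j
      rcases Nat.lt_or_ge u.length j with h | h
      · rw [Gl_ct' j h]
        exact (h3 j h).symm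
      · rw [Gl_ct j h, Gl_g1 j h]
    · funext j
      show ct a.length (sh u.length (Gl_g u.length a.length y t z)) j = t j
      rcases Nat.lt_or_ge a.length j with h | h
      · rw [Gl_ct' j h]
        exact (h7 j h).symm
      · rw [Gl_ct j h]
        exact Gl_g2 h11 j h
    · funext j
      exact Gl_g3 h11 h12 j
  · show gq (u ++ a ++ v) x.1 x'.1 = gq u (ct u.length x.1) (ct u.length x'.1) +
      gq a (ct a.length (sh u.length x.1)) (ct a.length (sh u.length x'.1)) +
      gq v (sh (u.length + a.length) x.1) (sh (u.length + a.length) x'.1)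
    rw [gq_append, gq_append, List.length_append,
      gq_congr (fun j hj => (Gl_ct (x := x.1) j hj).symm) (fun j hj => (Gl_ct (x := x'.1) j hj).symm),
      gq_congr (w := a) (fun j hj => (Gl_ct (x := sh u.length x.1) j hj).symm)
        (fun j hj => (Gl_ct (x := sh u.length x'.1) j hj).symm)]

end Pool.Agent.Lib.MP_177a0e_gt.Sig
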