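import Pool.Agent.Lib.MP_177a0e_gt.Sig.Fd
import Pool.Agent.Lib.MP_177a0e_gt.Sig.Gl

/-!
# the pairs form a finite-dimensional space.

PROOF. The linear map `Pair P Λ u v k → Closed P Λ u × R × (Fin v.length → R)`, `(y, z) ↦ (y, z 0 k, (j ↦ z (j + 1) (lp v[j] + 1)))`, is injective: if the image is zero then `y = 0`, `z 0 i = y_|u| i = 0` for `i ≠ k`, `z 0 k = 0`, and `fd_inj` for `z`. `fd` for `Closed P Λ u`; `Module.Finite.of_injective`.
-/

namespace Pool.Agent.Lib.MP_177a0e_gt.Sig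

open Pool.Agent.Lib.MP_177a0e_gt.Tangle Pool.Agent.Lib.MP_177a0e_gt.Tangle.Gen

variable {R : Type} [Field R] {P : Slice → Submodule R ((ℕ → R) × (ℕ → R))} {Λ : Submodule R (ℕ → R)}

/-- the bottom level zero state, the free value and the new values -/
private def FdP_map (P : Slice → Submodule R ((ℕ → R) × (ℕ → R))) (Λ : Submodule R (ℕ → R)) (u v : Word) (k : ℕ) :
    Pair P Λ u v k →ₗ[R] Closed P Λ u × R × (Fin v.length → R) where
  toFun p := (⟨p.1.1, p.2.1⟩, p.1.2 0 k, fun j => p.1.2 ((j : ℕ) + 1) (lp v[j] + 1))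
  map_add' _ _ := rfl
  map_smul' _ _ := rfl

private theorem FdP_inj (hP : ∀ s, P s ≤ fitM R s) (Λ : Submodule R (ℕ → R)) (u v : Word) (k : ℕ) :
    Function.Injective (FdP_map P Λ u v k) := by
  rw [injective_iff_map_eq_zero]
  rintro ⟨⟨y, z⟩, h⟩ h0
  have h1 : y = 0 := congrArg (fun q : Closed P Λ u × R × (Fin v.length → R) => q.1.1) h0
  have h2 : z 0 k = 0 := congrArg (fun q : Closed P Λ u × R × (Fin v.length → R) => q.2.1) h0
  have h3 : ∀ j : Fin v.length, z ((j : ℕ) + 1) (lp v[j] + 1) = 0 := fun j =>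
    congrFun (congrArg (fun q : Closed P Λ u × R × (Fin v.length → R) => q.2.2) h0) j
  have hz : z ∈ Runs P Λ v := h.2.1
  have hyz : ∀ i, i ≠ k → z 0 i = y u.length i := h.2.2
  have h4 : z 0 = 0 := by
    funext i
    by_cases hi : i = k
    · rw [hi, h2]
      rfl
    · rw [hyz i hi, h1]
      rfl
  have h5 := fd_inj hP v z hz.1 h4 fun j hj => h3 ⟨j, hj⟩
  have h6 : z = 0 := by
    funext j
    rcases Nat.lt_or_ge v.length j with hj | hj
    · exact hz.2.2 j hj
    · exact h5 j hj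
  apply Subtype.ext
  exact Prod.ext h1 h6

theorem fdp (hP : ∀ s, P s ≤ fitM R s) (Λ : Submodule R (ℕ → R)) (u v : Word) (k : ℕ) : FiniteDimensional R (Pair P Λ u v k) := by
  have := fd hP Λ u
  exact Module.Finite.of_injective (FdP_map P Λ u v k) (FdP_inj hP Λ u v k)

end Pool.Agent.Lib.MP_177a0e_gt.Sig
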