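import Pool.Agent.Lib.MP_177a0e_gt.Sig.Defs

/-!
# the correction term under the elementary moves.

PROOFS. `corr_append`: `List.map_append`, `List.sum_append`. The others: `simp [corr, cor, eps, lp, sz]`, cases for the Booleans `s, x, y, z` and the parity of `p.length` (`List.length_append`; `(-1) ^ (n + 1) = - (-1) ^ n`; `(-1) ^ n = 1` or `-1` by `Even`/`Odd`, from `Nat.even_or_odd' `).
For `cor_inter`: cases for `g`, `g'` (cup, cap, crossing): the position of a crossing changes by `0`, `2`, `-2`.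
-/

namespace Pool.Agent.Lib.MP_177a0e_gt.Sig

open Pool.Agent.Lib.MP_177a0e_gt.Tangle Pool.Agent.Lib.MP_177a0e_gt.Tangle.Gen

private theorem Cor_pw (n : ℕ) : ((-1 : ℤ)) ^ n = if n % 2 = 0 then 1 else -1 := by
  rcases Nat.mod_two_eq_zero_or_one n with h | h
  · rw [if_pos h]
    exact Even.neg_one_pow (Nat.even_iff.mpr h)
  · rw [if_neg (by omega)]
    exact Odd.neg_one_pow (Nat.odd_iff.mpr h)

private theorem Cor_congr (g : Gen) (p p' q q' : List Bool) (h : p.length % 2 = p'.length % 2) :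
    cor ⟨p, g, q⟩ = cor ⟨p', g, q'⟩ := by
  rcases g with x | x | ⟨c, x, y⟩
  · rfl
  · rfl
  · simp only [cor, eps, lp, Cor_pw, h]

private theorem Cor_two (a b : Slice) : corr [a, b] = cor a + cor b := by
  simp [corr]

private theorem Cor_three (a b c : Slice) : corr [a, b, c] = cor a + (cor b + cor c) := by
  simp [corr]

private theorem Cor_cr (c x y : Bool) (p q : List Bool) : cor ⟨p, cross c x y, q⟩ =
    if (x = y) ↔ p.length % 2 = 0 then 0 else sz c * (if p.length % 2 = 0 then 1 else -1) := by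
  simp only [cor, eps, lp, Cor_pw]

theorem corr_append (u v : Word) : corr (u ++ v) = corr u + corr v := by
  simp [corr]

theorem cor_inter (g g' : Gen) (p q r : List Bool) :
    corr [⟨p, g, q ++ g'.src ++ r⟩, ⟨p ++ g.tgt ++ q, g', r⟩] = corr [⟨p ++ g.src ++ q, g', r⟩, ⟨p, g, q ++ g'.tgt ++ r⟩] := by
  rw [Cor_two, Cor_two, Cor_congr g p p (q ++ g'.src ++ r) (q ++ g'.tgt ++ r) rfl,
    Cor_congr g' (p ++ g.tgt ++ q) (p ++ g.src ++ q) r r, add_comm]
  rcases g with x | x | ⟨c, x, y⟩ <;>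
    simp only [Gen.src, Gen.tgt, List.length_append, List.length_cons, List.length_nil] <;> omega

theorem cor_zig (x y : Bool) (p q p' q' : List Bool) : corr [⟨p, cup x, q⟩, ⟨p', cap y, q'⟩] = 0 := by
  rw [Cor_two]
  rfl

theorem cor_saddle (x y : Bool) (p q p' q' : List Bool) : corr [⟨p, cap x, q⟩, ⟨p', cup y, q'⟩] = 0 := by
  rw [Cor_two]
  rfl

theorem cor_r1cup (s x : Bool) (p q : List Bool) :
    corr [⟨p, cup x, q⟩, ⟨p, cross s x (!x), q⟩] = if p.length % 2 = 0 then sz s else 0 := by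
  rw [Cor_two, Cor_cr]
  show 0 + _ = _
  rcases Nat.mod_two_eq_zero_or_one p.length with h | h <;> cases x <;> simp [h]

theorem cor_r1cap (s x : Bool) (p q : List Bool) :
    corr [⟨p, cross s x (!x), q⟩, ⟨p, cap (!x), q⟩] = if p.length % 2 = 0 then sz s else 0 := by
  rw [Cor_two, Cor_cr]
  show _ + 0 = _
  rcases Nat.mod_two_eq_zero_or_one p.length with h | h <;> cases x <;> simp [h]

theorem cor_cup (x : Bool) (p q : List Bool) : corr [⟨p, cup x, q⟩] = 0 := by
  simp [corr, cor]

theorem cor_cap (x : Bool) (p q : List Bool) : corr [⟨p, cap x, q⟩] = 0 := by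
  simp [corr, cor]

theorem cor_r2 (s x y : Bool) (p q : List Bool) : corr [⟨p, cross s x y, q⟩, ⟨p, cross (!s) y x, q⟩] = 0 := by
  rw [Cor_two, Cor_cr, Cor_cr]
  rcases Nat.mod_two_eq_zero_or_one p.length with h | h <;> cases s <;> cases x <;> cases y <;>
    simp [h, sz]

theorem cor_r3 (s x y z : Bool) (p q : List Bool) :
    corr [⟨p, cross s x y, [z] ++ q⟩, ⟨p ++ [y], cross s x z, q⟩, ⟨p, cross s y z, [x] ++ q⟩] =
      corr [⟨p ++ [x], cross s y z, q⟩, ⟨p, cross s x z, [y] ++ q⟩, ⟨p ++ [z], cross s x y, q⟩] +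
        (if p.length % 2 = 0 then sz s else -sz s) := by
  rw [Cor_three, Cor_three, Cor_cr, Cor_cr, Cor_cr, Cor_cr, Cor_cr, Cor_cr]
  simp only [List.length_append, List.length_cons, List.length_nil]
  rcases Nat.mod_two_eq_zero_or_one p.length with h | h
  · have h' : (p.length + (0 + 1)) % 2 = 1 := by omega
    cases x <;> cases y <;> cases z <;> simp [h, h']
  · have h' : (p.length + (0 + 1)) % 2 = 0 := by omega
    cases x <;> cases y <;> cases z <;> simp [h, h']

theorem cor_slide_cup (s e x : Bool) (p q : List Bool) :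
    corr [⟨p, cup e, [x] ++ q⟩, ⟨p ++ [e], cross s (!e) x, q⟩] = corr [⟨p ++ [x], cup e, q⟩, ⟨p, cross (!s) x e, [!e] ++ q⟩] := by
  rw [Cor_two, Cor_two, Cor_cr, Cor_cr]
  show 0 + _ = 0 + _
  simp only [List.length_append, List.length_cons, List.length_nil]
  rcases Nat.mod_two_eq_zero_or_one p.length with h | h
  · have h' : (p.length + (0 + 1)) % 2 = 1 := by omega
    cases s <;> cases e <;> cases x <;> simp [h, h', sz]
  · have h' : (p.length + (0 + 1)) % 2 = 0 := by omega
    cases s <;> cases e <;> cases x <;> simp [h, h', sz]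

theorem cor_slide_cap (s e x : Bool) (p q : List Bool) :
    corr [⟨p ++ [e], cross s x (!e), q⟩, ⟨p, cap e, [x] ++ q⟩] = corr [⟨p, cross (!s) e x, [!e] ++ q⟩, ⟨p ++ [x], cap e, q⟩] := by
  rw [Cor_two, Cor_two, Cor_cr, Cor_cr]
  show _ + 0 = _ + 0
  simp only [List.length_append, List.length_cons, List.length_nil]
  rcases Nat.mod_two_eq_zero_or_one p.length with h | h
  · have h' : (p.length + (0 + 1)) % 2 = 1 := by omega
    cases s <;> cases e <;> cases x <;> simp [h, h', sz]
  · have h' : (p.length + (0 + 1)) % 2 = 0 := by omega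
    cases s <;> cases e <;> cases x <;> simp [h, h', sz]

end Pool.Agent.Lib.MP_177a0e_gt.Sig
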