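import Pool.Agent.Lib.MP_177a0e_gt.Sig.Gl

/-!
# the values at the first and at the last gap.

PROOFS. `edg0`: the gap `0` is never changed (`0 ≤ L`, `0 ≠ L + 1`): induction on `w`. `edg_last`: if `x 0 i = 0` for `i ≥ c.length` then `x (w.length) i = 0` for `i ≥ e.length` (`Valid c w e`): induction on `w`: for a slice with `L` strands on the left, `c.length = L + |src| + |right|`: a cup: `y i` for `i ≥ c.length + 2` is `x (i - 2)`;
a cap: `y i = x (i + 2)` for `i ≥ c.length - 2 ≥ L`; a crossing: `y i = x i` for `i ≥ c.length ≥ L + 2`.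
`edg_top`: for `e = [true]` (or any list with one element) and `x 0 = 0`: `x w.length i = 0` for `i ≥ 1` and for `i = 0`. `sh_closed`: so the part of a closed state of `u ++ v` above `u` is a closed state of `v`.
-/

namespace Pool.Agent.Lib.MP_177a0e_gt.Sig

open Pool.Agent.Lib.MP_177a0e_gt.Tangle Pool.Agent.Lib.MP_177a0e_gt.Tangle.Gen

variable {R : Type} [Field R] {P : Slice → Submodule R ((ℕ → R) × (ℕ → R))} {Λ : Submodule R (ℕ → R)}

omit [Field R] in
private theorem Edg_one (s : Slice) {x y : ℕ → R} (h : Fit s x y) : y 0 = x 0 := by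
  rcases s with ⟨p, _ | _ | _, q⟩
  · exact h.1 0 (Nat.zero_le _)
  · exact (h.1 0 (Nat.zero_le _)).symm
  · exact h 0 (Nat.succ_ne_zero _).symm

private theorem Edg_last (s : Slice) {x y : ℕ → R} (h : Fit s x y)
    (h0 : ∀ i, s.src.length ≤ i → x i = 0) : ∀ i, s.tgt.length ≤ i → y i = 0 := by
  intro i hi
  rcases s with ⟨p, a | a | ⟨a, b, c⟩, q⟩
  · simp only [Slice.src, Slice.tgt, Gen.src, Gen.tgt, List.length_append, List.length_cons,
      List.length_nil] at h0 hi
    obtain ⟨k, rfl⟩ : ∃ k, i = k + 2 := ⟨i - 2, by omega⟩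
    have h1 := h.2 k (by simp only [lp]; omega)
    rw [h1]
    exact h0 k (by omega)
  · simp only [Slice.src, Slice.tgt, Gen.src, Gen.tgt, List.length_append, List.length_cons,
      List.length_nil] at h0 hi
    have h1 := h.2 i (by simp only [lp]; omega)
    rw [← h1]
    exact h0 (i + 2) (by omega)
  · simp only [Slice.src, Slice.tgt, Gen.src, Gen.tgt, List.length_append, List.length_cons,
      List.length_nil] at h0 hi
    have h1 := h i (by simp only [lp]; omega)
    rw [h1]
    exact h0 i (by omega)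

theorem edg0 (hP : ∀ s, P s ≤ fitM R s) {w : Word} {x : ℕ → ℕ → R} (h : Run P w x) : ∀ j, j ≤ w.length → x j 0 = x 0 0 := by
  induction w generalizing x with
  | nil =>
    intro j hj
    have : j = 0 := Nat.le_zero.1 hj
    rw [this]
  | cons s w ih =>
    intro j hj
    have h1 : Fit s (x 0) (x 1) := hP s h.1
    rcases j with _ | j
    · rfl
    · have h2 := ih h.2 j (Nat.le_of_succ_le_succ hj)
      have h3 : x (j + 1) 0 = x 1 0 := h2
      rw [h3]
      exact Edg_one s h1

theorem edg_last (hP : ∀ s, P s ≤ fitM R s) {w : Word} {c e : List Bool} (hv : Valid c w e) {x : ℕ → ℕ → R} (h : Run P w x)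
    (h0 : ∀ i, c.length ≤ i → x 0 i = 0) : ∀ i, e.length ≤ i → x w.length i = 0 := by
  induction w generalizing x c with
  | nil =>
    intro i hi
    have h1 : c = e := hv
    subst h1
    exact h0 i hi
  | cons s w ih =>
    intro i hi
    obtain ⟨h1, h2⟩ := hv
    subst h1
    have h3 : Fit s (x 0) (x 1) := hP s h.1
    exact ih h2 h.2 (Edg_last s h3 h0) i hi

theorem edg_top (hP : ∀ s, P s ≤ fitM R s) {w : Word} {c e : List Bool} (hv : Valid c w e) (he : e.length = 1) {x : ℕ → ℕ → R}
    (h : x ∈ Closed P Λ w) : x w.length = 0 := by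
  obtain ⟨⟨h1, -, -⟩, h2⟩ := h
  funext i
  rcases i with _ | i
  · rw [edg0 hP h1 w.length le_rfl, h2]
  · exact edg_last hP hv h1 (fun i _ => by rw [h2]; rfl) (i + 1) (by omega)

end Pool.Agent.Lib.MP_177a0e_gt.Sig
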