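import Pool.Agent.Lib.MP_177a0e_gt.Sig.La0b

/-!
# orthogonal sums.

PROOFS.
* `sg_prod`: orthogonal bases `v` of `E` and `v'` of `E'` (`ex_orth`); the basis `v.prod v'` of `E × E'` (index type a sum type), transported to `F` by `e.symm` (`Module.Basis.map`), is orthogonal for `B'`: `sg_orth` for all three; the cardinality of the filter of a sum type: `Finset.card_filter`, `Fintype.sum_sum_type`. (`F` is finite-dimensional: `Module.Finite.equiv e.symm`.)
* `sg_add`: `sg_prod` with `E' = ℚ` and the form `ε x y` (`LinearMap.mul' `, or `ε • LinearMap.mul ℚ ℚ`), whose signature is `ε`: `sg_orth` with `Module.Basis.singleton Unit ℚ`. Cases `ε = 1, -1, 0`.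
-/

namespace Pool.Agent.Lib.MP_177a0e_gt.Sig

variable {E E' F : Type*} [AddCommGroup E] [Module ℚ E] [AddCommGroup E'] [Module ℚ E'] [AddCommGroup F] [Module ℚ F]

private theorem la1_val [FiniteDimensional ℚ E] [FiniteDimensional ℚ E'] (B : LinearMap.BilinForm ℚ E)
    (B₂ : LinearMap.BilinForm ℚ E') (B' : LinearMap.BilinForm ℚ F) (e : F ≃ₗ[ℚ] E × E')
    (h : ∀ z z', B' z z' = B (e z).1 (e z').1 + B₂ (e z).2 (e z').2)
    {ι ι' : Type} (v : Module.Basis ι ℚ E) (v' : Module.Basis ι' ℚ E') :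
    (∀ i j, B' ((v.prod v').map e.symm (Sum.inl i)) ((v.prod v').map e.symm (Sum.inl j)) = B (v i) (v j)) ∧
    (∀ i j, B' ((v.prod v').map e.symm (Sum.inr i)) ((v.prod v').map e.symm (Sum.inr j)) = B₂ (v' i) (v' j)) ∧
    (∀ i j, B' ((v.prod v').map e.symm (Sum.inl i)) ((v.prod v').map e.symm (Sum.inr j)) = 0) ∧
    (∀ i j, B' ((v.prod v').map e.symm (Sum.inr i)) ((v.prod v').map e.symm (Sum.inl j)) = 0) := by
  refine ⟨fun i j => ?_, fun i j => ?_, fun i j => ?_, fun i j => ?_⟩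
  all_goals
    rw [h, Module.Basis.map_apply, Module.Basis.map_apply, LinearEquiv.apply_symm_apply,
      LinearEquiv.apply_symm_apply]
    simp

theorem sg_prod [FiniteDimensional ℚ E] [FiniteDimensional ℚ E'] (B : LinearMap.BilinForm ℚ E) (hB : ∀ x y, B x y = B y x)
    (B₂ : LinearMap.BilinForm ℚ E') (hB₂ : ∀ x y, B₂ x y = B₂ y x)
    (B' : LinearMap.BilinForm ℚ F) (e : F ≃ₗ[ℚ] E × E')
    (h : ∀ z z', B' z z' = B (e z).1 (e z').1 + B₂ (e z).2 (e z').2) : sg B' = sg B + sg B₂ := by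
  classical
  obtain ⟨v, hv⟩ := ex_orth hB
  obtain ⟨v', hv'⟩ := ex_orth hB₂
  have : FiniteDimensional ℚ F := Module.Finite.equiv e.symm
  obtain ⟨h1, h2, h3, h4⟩ := la1_val B B₂ B' e h v v'
  have ho : ∀ i j, i ≠ j → B' ((v.prod v').map e.symm i) ((v.prod v').map e.symm j) = 0 := by
    rintro (i | i) (j | j) hij
    · rw [h1]
      exact hv i j fun hh => hij (by rw [hh])
    · exact h3 i j
    · exact h4 i j
    · rw [h2]
      exact hv' i j fun hh => hij (by rw [hh])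
  rw [sg_orth _ ho, sg_orth v hv, sg_orth v' hv']
  simp only [Finset.card_filter, Fintype.sum_sum_type, h1, h2]
  push_cast
  ring

private theorem la1_line (ε : ℤ) (hε : ε = 1 ∨ ε = -1 ∨ ε = 0) :
    sg ((ε : ℚ) • (LinearMap.mul ℚ ℚ : LinearMap.BilinForm ℚ ℚ)) = ε := by
  rw [sg_orth (Module.Basis.singleton Unit ℚ) (fun i j hij => absurd (Subsingleton.elim i j) hij)]
  rcases hε with rfl | rfl | rfl
  · simp
  · simp
  · simp

theorem sg_add [FiniteDimensional ℚ E] (B : LinearMap.BilinForm ℚ E) (hB : ∀ x y, B x y = B y x)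
    (B' : LinearMap.BilinForm ℚ F) (e : F ≃ₗ[ℚ] E × ℚ) (ε : ℤ) (hε : ε = 1 ∨ ε = -1 ∨ ε = 0)
    (h : ∀ z z', B' z z' = B (e z).1 (e z').1 + (ε : ℚ) * ((e z).2 * (e z').2)) : sg B' = sg B + ε := by
  have := sg_prod B hB ((ε : ℚ) • (LinearMap.mul ℚ ℚ : LinearMap.BilinForm ℚ ℚ))
    (fun x y => by
      simp only [LinearMap.smul_apply, LinearMap.mul_apply', smul_eq_mul]
      ring) B' e (fun z z' => by
      rw [h]
      simp only [LinearMap.smul_apply, LinearMap.mul_apply', smul_eq_mul])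
  rw [this, la1_line ε hε]

end Pool.Agent.Lib.MP_177a0e_gt.Sig
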