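import Pool.Agent.Lib.MP_177a0e_gt.Sig.Fd
import Pool.Agent.Lib.MP_177a0e_gt.Sig.Edg
import Pool.Agent.Lib.MP_177a0e_gt.Sig.La1
import Pool.Agent.Lib.MP_177a0e_gt.Sig.Cor

/-!
# the signature is additive under connected sum.

PROOF. `Valid [true] u [true]`, `Valid [true] v [true]`. `White (u ++ v) ≅ White u × White v`, `x ↦ (ct |u| x, sh |u| x)`: the level `|u|` of a closed state is zero (`edg_top` for `ct |u| x`, a closed state of `u`), so `sh |u| x` is closed; inverse `(y, z) ↦ fun j => if j ≤ |u| then y j else z (j - |u|)` (`y |u| = 0 = z 0`).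
`gq_append`, `gq_congr`; `sg_prod`; `corr_append`.
-/

namespace Pool.Agent.Lib.MP_177a0e_gt.Sig

open Pool.Agent.Lib.MP_177a0e_gt.Tangle Pool.Agent.Lib.MP_177a0e_gt.Tangle.Gen

section

variable {R : Type} [Field R] {P : Slice → Submodule R ((ℕ → R) × (ℕ → R))} {Λ : Submodule R (ℕ → R)}

private def SumA_g (U : ℕ) (y z : ℕ → ℕ → R) : ℕ → ℕ → R := fun j => if j ≤ U then y j else z (j - U)

omit [Field R] in
private theorem SumA_g1 {U : ℕ} {y z : ℕ → ℕ → R} (j : ℕ) (hj : j ≤ U) : SumA_g U y z j = y j :=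
  if_pos hj

omit [Field R] in
private theorem SumA_g2 {U : ℕ} {y z : ℕ → ℕ → R} (h1 : y U = z 0) (j : ℕ) : SumA_g U y z (j + U) = z j := by
  unfold SumA_g
  by_cases h0 : j = 0
  · subst h0
    rw [if_pos (by omega), Nat.zero_add, h1]
  · rw [if_neg (by omega), Nat.add_sub_cancel]

private theorem SumA_ct {n : ℕ} {x : ℕ → ℕ → R} (j : ℕ) (hj : j ≤ n) : ct n x j = x j := if_pos hj

private theorem SumA_ct' {n : ℕ} {x : ℕ → ℕ → R} (j : ℕ) (hj : n < j) : ct n x j = 0 :=
  if_neg (by omega)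

private theorem SumA_ct_add (n : ℕ) (x y : ℕ → ℕ → R) : ct n (x + y) = ct n x + ct n y := by
  funext j
  show (if j ≤ n then (x + y) j else 0) = (if j ≤ n then x j else 0) + (if j ≤ n then y j else 0)
  split_ifs
  · rfl
  · rw [add_zero]

private theorem SumA_ct_smul (n : ℕ) (r : R) (x : ℕ → ℕ → R) : ct n (r • x) = r • ct n x := by
  funext j
  show (if j ≤ n then (r • x) j else 0) = r • (if j ≤ n then x j else 0)
  split_ifs
  · rfl
  · rw [smul_zero]

private theorem SumA_low {u v : Word} {x : ℕ → ℕ → R} (hx : x ∈ Closed P Λ (u ++ v)) :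
    ct u.length x ∈ Closed P Λ u := by
  obtain ⟨⟨h1, h2, h3⟩, h4⟩ := hx
  rw [run_append] at h1
  refine ⟨⟨?_, fun j => ?_, fun j hj => SumA_ct' j hj⟩, ?_⟩
  · exact (run_congr fun j hj => SumA_ct j hj).2 h1.1
  · unfold ct
    split_ifs
    · exact h2 j
    · exact Λ.zero_mem
  · exact (SumA_ct (n := u.length) (x := x) 0 (Nat.zero_le _)).trans h4

private theorem SumA_up (hP : ∀ s, P s ≤ fitM R s) {u v : Word} (hu : Valid [true] u [true]) {x : ℕ → ℕ → R}
    (hx : x ∈ Closed P Λ (u ++ v)) : sh u.length x ∈ Closed P Λ v := by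
  have h5 := edg_top hP hu rfl (SumA_low hx)
  rw [SumA_ct _ le_rfl] at h5
  obtain ⟨⟨h1, h2, h3⟩, h4⟩ := hx
  rw [run_append] at h1
  rw [List.length_append] at h3
  refine ⟨⟨h1.2, fun j => h2 _, fun j hj => h3 _ (by omega)⟩, ?_⟩
  show x (0 + u.length) = 0
  rw [Nat.zero_add]
  exact h5

private theorem SumA_bwd (hP : ∀ s, P s ≤ fitM R s) {u v : Word} (hu : Valid [true] u [true]) {y z : ℕ → ℕ → R}
    (hy : y ∈ Closed P Λ u) (hz : z ∈ Closed P Λ v) : SumA_g u.length y z ∈ Closed P Λ (u ++ v) := by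
  have h5 := edg_top hP hu rfl hy
  obtain ⟨⟨h1, h2, h3⟩, h4⟩ := hy
  obtain ⟨⟨h1', h2', h3'⟩, h4'⟩ := hz
  have e : y u.length = z 0 := by rw [h5, h4']
  refine ⟨⟨?_, fun j => ?_, fun j hj => ?_⟩, ?_⟩
  · rw [run_append]
    refine ⟨?_, ?_⟩
    · exact (run_congr fun j hj => SumA_g1 j hj).2 h1
    · exact (run_congr fun j hj => SumA_g2 e j).2 h1'
  · unfold SumA_g
    split_ifs
    · exact h2 _
    · exact h2' _
  · rw [List.length_append] at hj
    have e2 := SumA_g2 e (j - u.length)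
    have k : j - u.length + u.length = j := by omega
    rw [k] at e2
    rw [e2]
    exact h3' _ (by omega)
  · exact (SumA_g1 0 (Nat.zero_le _)).trans h4

private theorem SumA_equiv (hP : ∀ s, P s ≤ fitM R s) {u v : Word} (hu : Valid [true] u [true]) :
    ∃ Φ : Closed P Λ (u ++ v) ≃ₗ[R] Closed P Λ u × Closed P Λ v, ∀ x x' : Closed P Λ (u ++ v),
      gq (u ++ v) x.1 x'.1 = gq u (Φ x).1.1 (Φ x').1.1 + gq v (Φ x).2.1 (Φ x').2.1 := by
  refine ⟨{
    toFun := fun x => (⟨ct u.length x.1, SumA_low x.2⟩, ⟨sh u.length x.1, SumA_up hP hu x.2⟩)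
    map_add' := fun x x' => Prod.ext (Subtype.ext (SumA_ct_add _ _ _)) (Subtype.ext rfl)
    map_smul' := fun r x => Prod.ext (Subtype.ext (SumA_ct_smul _ _ _)) (Subtype.ext rfl)
    invFun := fun p => ⟨SumA_g u.length p.1.1 p.2.1, SumA_bwd hP hu p.1.2 p.2.2⟩
    left_inv := fun x => Subtype.ext ?_
    right_inv := fun p => Prod.ext (Subtype.ext ?_) (Subtype.ext ?_) }, fun x x' => ?_⟩
  · funext j
    show (if j ≤ u.length then ct u.length x.1 j else sh u.length x.1 (j - u.length)) = x.1 j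
    split_ifs with h1
    · exact SumA_ct j h1
    · show x.1 (j - u.length + u.length) = x.1 j
      have k : j - u.length + u.length = j := by omega
      rw [k]
  · funext j
    show ct u.length (SumA_g u.length p.1.1 p.2.1) j = p.1.1 j
    rcases Nat.lt_or_ge u.length j with h | h
    · rw [SumA_ct' j h]
      exact (p.1.2.1.2.2 j h).symm
    · rw [SumA_ct j h, SumA_g1 j h]
  · funext j
    have e : p.1.1 u.length = p.2.1 0 := by
      rw [edg_top hP hu rfl p.1.2]
      exact p.2.2.2.symm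
    exact SumA_g2 e j
  · show gq (u ++ v) x.1 x'.1 = gq u (ct u.length x.1) (ct u.length x'.1) +
      gq v (sh u.length x.1) (sh u.length x'.1)
    rw [gq_append,
      gq_congr (fun j hj => (SumA_ct (x := x.1) j hj).symm) (fun j hj => (SumA_ct (x := x'.1) j hj).symm)]

end

theorem sig_append {u v : Word} (hu : Valid [true] u [true]) (hv : Valid [true] v [true]) :
    signature (u ++ v) = signature u + signature v := by
  obtain ⟨Φ, hΦ⟩ := SumA_equiv (P := fitM ℚ) (Λ := whiteM ℚ) (fun _ => le_refl _) (v := v) hu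
  have h1 : sg (gw (u ++ v)) = sg (gw u) + sg (gw v) :=
    sg_prod (gw u) (fun x y => gform_symm u x.1 y.1) (gw v) (fun x y => gform_symm v x.1 y.1)
      (gw (u ++ v)) Φ (fun z z' => hΦ z z')
  unfold signature
  rw [h1, corr_append]
  ring

end Pool.Agent.Lib.MP_177a0e_gt.Sig
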