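import Pool.Agent.Lib.MP_177a0e_gt.Sig.Gl

/-!
# the states of `u ++ v` as pairs.

`Pair P Λ u v (L + 1)`: `y` a closed state of `u`, `z` a state of `v`, `z 0` and the last level of `y` agree except at the gap `L + 1`; the kernel of `be` are the pairs which agree everywhere.
PROOFS. `cut_app`: `x ↦ (ct |u| x, sh |u| x)`; inverse `(y, z) ↦ fun j => if j ≤ |u| then y j else z (j - |u|)` (at `j = |u|` both are equal). `run_append`, `gq_append`, `run_congr`, `gq_congr` (compare `glue3`).
-/

namespace Pool.Agent.Lib.MP_177a0e_gt.Sig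

open Pool.Agent.Lib.MP_177a0e_gt.Tangle Pool.Agent.Lib.MP_177a0e_gt.Tangle.Gen

variable {R : Type} [Field R] {P : Slice → Submodule R ((ℕ → R) × (ℕ → R))} {Λ : Submodule R (ℕ → R)}

private theorem cut1_ct_add (n : ℕ) (x y : ℕ → ℕ → R) : ct n (x + y) = ct n x + ct n y := by
  funext j
  by_cases h : j ≤ n <;> simp [ct, h]

private theorem cut1_ct_smul (n : ℕ) (r : R) (x : ℕ → ℕ → R) : ct n (r • x) = r • ct n x := by
  funext j
  by_cases h : j ≤ n <;> simp [ct, h]

private theorem cut1_mem (u v : Word) (L : ℕ) {x : ℕ → ℕ → R} (hx : x ∈ Closed P Λ (u ++ v)) :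
    (ct u.length x, sh u.length x) ∈ Pair P Λ u v (L + 1) := by
  obtain ⟨⟨h1, h2, h3⟩, h4⟩ := hx
  rw [run_append] at h1
  refine ⟨⟨⟨?_, fun j => ?_, fun j hj => ?_⟩, ?_⟩, ⟨h1.2, fun j => h2 _, fun j hj => ?_⟩, fun i _ => ?_⟩
  · refine (run_congr fun j hj => ?_).1 h1.1
    simp [ct, hj]
  · by_cases h : j ≤ u.length
    · simpa [ct, h] using h2 j
    · simp [ct, h]
  · simp [ct, not_le.2 hj]
  · simpa [ct] using h4
  · refine h3 _ ?_
    rw [List.length_append]
    omega
  · simp [ct, sh]

theorem cut_app (u v : Word) (L : ℕ) : ∃ Φ : Closed P Λ (u ++ v) ≃ₗ[R] LinearMap.ker (be P Λ u v L), ∀ x x' : Closed P Λ (u ++ v),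
    gq (u ++ v) x.1 x'.1 = gq u (Φ x).1.1.1 (Φ x').1.1.1 + gq v (Φ x).1.1.2 (Φ x').1.1.2 := by
  let f : Closed P Λ (u ++ v) →ₗ[R] LinearMap.ker (be P Λ u v L) :=
    { toFun := fun x => ⟨⟨(ct u.length x.1, sh u.length x.1), cut1_mem u v L x.2⟩, by
        rw [LinearMap.mem_ker]
        simp [be, ct, sh]⟩
      map_add' := fun x y => by
        apply Subtype.ext
        apply Subtype.ext
        exact Prod.ext (cut1_ct_add _ _ _) rfl
      map_smul' := fun r x => by
        apply Subtype.ext
        apply Subtype.ext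
        exact Prod.ext (cut1_ct_smul _ _ _) rfl }
  have hf : ∀ x, (f x).1.1 = (ct u.length x.1, sh u.length x.1) := fun x => rfl
  have hinj : Function.Injective f := by
    intro x y hxy
    have h0 : (f x).1.1 = (f y).1.1 := by rw [hxy]
    rw [hf, hf] at h0
    have h1 := congrArg Prod.fst h0
    have h2 := congrArg Prod.snd h0
    apply Subtype.ext
    funext j
    by_cases hj : j ≤ u.length
    · have := congrFun h1 j
      simpa [ct, hj] using this
    · have := congrFun h2 (j - u.length)
      simp only [sh] at this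
      rwa [Nat.sub_add_cancel (not_le.1 hj).le] at this
  have hsurj : Function.Surjective f := by
    rintro ⟨⟨⟨y, z⟩, ⟨⟨hy1, hy2, hy3⟩, hy4⟩, ⟨hz1, hz2, hz3⟩, hyz⟩, hk⟩
    have hk' : z 0 (L + 1) = y u.length (L + 1) := by
      have h := LinearMap.mem_ker.1 hk
      exact sub_eq_zero.1 h
    have hglue : z 0 = y u.length := by
      funext i
      by_cases hi : i = L + 1
      · rw [hi]
        exact hk'
      · exact hyz i hi
    let x : ℕ → ℕ → R := fun j => if j ≤ u.length then y j else z (j - u.length)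
    have hxu : ∀ j, j ≤ u.length → x j = y j := fun j hj => by simp [x, hj]
    have hxs : sh u.length x = z := by
      funext j
      simp only [sh, x]
      by_cases hj : j = 0
      · subst hj
        simp [hglue]
      · rw [if_neg (by omega), Nat.add_sub_cancel]
    have hxm : x ∈ Closed P Λ (u ++ v) := by
      refine ⟨⟨?_, fun j => ?_, fun j hj => ?_⟩, ?_⟩
      · rw [run_append, hxs]
        exact ⟨(run_congr hxu).2 hy1, hz1⟩
      · by_cases hj : j ≤ u.length
        · rw [hxu j hj]
          exact hy2 j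
        · simp only [x, if_neg hj]
          exact hz2 _
      · rw [List.length_append] at hj
        have h1 : ¬ j ≤ u.length := by omega
        simp only [x, if_neg h1]
        exact hz3 _ (by omega)
      · show x 0 = 0
        rw [hxu 0 (Nat.zero_le _)]
        exact hy4
    refine ⟨⟨x, hxm⟩, ?_⟩
    apply Subtype.ext
    apply Subtype.ext
    rw [hf]
    refine Prod.ext ?_ hxs
    funext j
    by_cases hj : j ≤ u.length
    · simp only [ct, if_pos hj]
      exact hxu j hj
    · simp only [ct, if_neg hj]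
      exact (hy3 j (not_le.1 hj)).symm
  refine ⟨LinearEquiv.ofBijective f ⟨hinj, hsurj⟩, fun x x' => ?_⟩
  rw [LinearEquiv.ofBijective_apply, LinearEquiv.ofBijective_apply, hf, hf, gq_append]
  congr 1
  exact gq_congr (fun j hj => by simp [ct, hj]) (fun j hj => by simp [ct, hj])

end Pool.Agent.Lib.MP_177a0e_gt.Sig
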