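import Pool.Agent.Lib.MP_177a0e_gt.Sig.La1

/-!
# restriction to a hyperplane.

PROOFS.
* `sg_ker`: `|sg B - sg (B on ker l)| ≤ 1`: if `W` is positive for `B` then so is `W ⊓ ker l` (in `ker l`: `Submodule.comap (ker l).subtype W`), of dimension at least `dim W - 1`, and a positive subspace of `ker l` is one of `V`: `ix B - 1 ≤ ix (B|ker l) ≤ ix B` (`le_ix`, `ix_att`); the same for `-B`.
  (Dimension of `W ⊓ ker l`: it is the kernel of `l` restricted to `W`, `LinearMap.finrank_range_add_finrank_ker`, the range has dimension `≤ 1`.)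
* `sg_rad`: there is `r` with `B r e = 0` for all `e` and `l r ≠ 0`: `V ≅ ker l × ℚ`, `x ↦ (x - (l x / l r) r, l x / l r)`: `B x x' = B (first) (first)`: `sg_add` with `ε = 0`, so the signatures agree.
-/

namespace Pool.Agent.Lib.MP_177a0e_gt.Sig

variable {V : Type*} [AddCommGroup V] [Module ℚ V] [FiniteDimensional ℚ V]

private theorem la3a_up (B : LinearMap.BilinForm ℚ V) (K : Submodule ℚ V) : ix (B.restrict K) ≤ ix B := by
  obtain ⟨W, hW, hp⟩ := ix_att (B.restrict K)
  rw [← hW, ← Submodule.finrank_map_subtype_eq K W]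
  refine le_ix _ ?_
  rintro x ⟨y, hy, rfl⟩ hx
  have hy0 : y ≠ 0 := by
    rintro rfl
    exact hx (map_zero _)
  exact hp y hy hy0

private theorem la3a_low (B : LinearMap.BilinForm ℚ V) (l : V →ₗ[ℚ] ℚ) : ix B ≤ ix (B.restrict (LinearMap.ker l)) + 1 := by
  obtain ⟨W, hW, hp⟩ := ix_att B
  have h1 : Module.finrank ℚ (Submodule.comap (LinearMap.ker l).subtype W) ≤ ix (B.restrict (LinearMap.ker l)) := by
    refine le_ix _ ?_
    intro x hx hx0
    refine hp x hx ?_
    intro h
    exact hx0 (Subtype.ext h)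
  have h2 := Submodule.finrank_map_subtype_eq (LinearMap.ker l) (Submodule.comap (LinearMap.ker l).subtype W)
  rw [Submodule.map_comap_subtype] at h2
  have h3 := Submodule.finrank_sup_add_finrank_inf_eq (LinearMap.ker l) W
  have h4 := Submodule.finrank_le (LinearMap.ker l ⊔ W)
  have h5 := LinearMap.finrank_range_add_finrank_ker l
  have h6 : Module.finrank ℚ (LinearMap.range l) ≤ 1 := by
    have := Submodule.finrank_le (LinearMap.range l)
    rwa [Module.finrank_self] at this
  omega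

theorem sg_ker (B : LinearMap.BilinForm ℚ V) (l : V →ₗ[ℚ] ℚ) : |sg B - sg (B.restrict (LinearMap.ker l))| ≤ 1 := by
  have a1 := la3a_up B (LinearMap.ker l)
  have a2 := la3a_low B l
  have b1 := la3a_up (-B) (LinearMap.ker l)
  have b2 := la3a_low (-B) l
  have e : (-B).restrict (LinearMap.ker l) = -(B.restrict (LinearMap.ker l)) := rfl
  rw [e] at b1 b2
  unfold sg
  rw [abs_le]
  constructor <;> omega

theorem sg_rad (B : LinearMap.BilinForm ℚ V) (hB : ∀ x y, B x y = B y x) (l : V →ₗ[ℚ] ℚ) (r : V) (h : ∀ e, B r e = 0) (hr : l r ≠ 0) :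
    sg B = sg (B.restrict (LinearMap.ker l)) := by
  let f : V →ₗ[ℚ] V := LinearMap.id - (LinearMap.toSpanSingleton ℚ V r).comp ((l r)⁻¹ • l)
  have hf : ∀ x, f x = x - ((l r)⁻¹ * l x) • r := fun x => rfl
  have hfk : ∀ x, f x ∈ LinearMap.ker l := by
    intro x
    rw [LinearMap.mem_ker, hf, map_sub, map_smul, smul_eq_mul]
    field_simp
    ring
  let g : V →ₗ[ℚ] LinearMap.ker l × ℚ := (f.codRestrict (LinearMap.ker l) hfk).prod ((l r)⁻¹ • l)
  let i : LinearMap.ker l × ℚ →ₗ[ℚ] V := (LinearMap.ker l).subtype.coprod (LinearMap.toSpanSingleton ℚ V r)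
  have hg1 : ∀ x, ((g x).1 : V) = x - ((l r)⁻¹ * l x) • r := fun x => rfl
  have hg2 : ∀ x, (g x).2 = (l r)⁻¹ * l x := fun x => rfl
  have hi : ∀ p, i p = (p.1 : V) + p.2 • r := fun p => rfl
  have hli : ∀ p, l (i p) = p.2 * l r := by
    intro p
    have := p.1.2
    rw [LinearMap.mem_ker] at this
    rw [hi, map_add, this, map_smul, smul_eq_mul, zero_add]
  have hgi : g.comp i = LinearMap.id := by
    refine LinearMap.ext fun p => ?_
    refine Prod.ext (Subtype.ext ?_) ?_
    · show ((g (i p)).1 : V) = p.1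
      rw [hg1, hli, hi]
      have : (l r)⁻¹ * (p.2 * l r) = p.2 := by field_simp
      rw [this, add_sub_cancel_right]
    · show (g (i p)).2 = p.2
      rw [hg2, hli]
      field_simp
  have hig : i.comp g = LinearMap.id := by
    refine LinearMap.ext fun x => ?_
    show i (g x) = x
    rw [hi, hg1, hg2, sub_add_cancel]
  obtain ⟨e, he⟩ : ∃ e : V ≃ₗ[ℚ] LinearMap.ker l × ℚ, ∀ z, e z = g z :=
    ⟨LinearEquiv.ofLinearMap g i hgi hig, fun _ => rfl⟩
  have hr' : ∀ e, B e r = 0 := fun e => by rw [hB, h]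
  have key := sg_add (B.restrict (LinearMap.ker l)) (fun x y => hB x y) B e 0 (Or.inr (Or.inr rfl)) ?_
  · rw [key, add_zero]
  · intro z z'
    rw [he, he]
    have e3 : B.restrict (LinearMap.ker l) (g z).1 (g z').1 = B ((g z).1 : V) ((g z').1 : V) := rfl
    rw [e3, hg1, hg1]
    simp [h, hr']

end Pool.Agent.Lib.MP_177a0e_gt.Sig
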