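import Pool.Agent.Lib.MP_177a0e_gt.Sig.La1

/-!
# a hyperplane which is the orthogonal complement of one of its vectors.

PROOF. `r` in `ker l`, `B r e = c l(e)` for all `e`, `c ≠ 0`, `l ≠ 0`: choose `a` with `l a = 1` and replace it by `a - (B a a / (2 c)) r`: then `l a = 1`, `B a a = 0` (`B r r = c l(r) = 0`, `B r a = c`). `H = {h ∈ ker l | B h a = 0}` (a submodule of `V`: `ker l ⊓ ker (B.flip a)`).
`ker l ≅ H × ℚ`, `h ↦ (h - (B h a / c) r, B h a / c)`: the form on `ker l` is `B` on the first component (`B r h = c l(h) = 0`): `sg_add` with `ε = 0`. `V ≅ (H × ℚ) × ℚ`, `x = h + s r + t a`, `t = l x`, `s = B x a / c`, `B x x' = B h h' + c (s t' + s' t)`;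
with `p = (c s + t) / 2 * ..`: put `P = c s / 2 + t`, `N = c s / 2 - t`: `P P' - N N' = c (s t' + s' t)`: `sg_add` with `ε = 1` and `ε = -1` for the equivalence `x ↦ ((h, P), N)`. So both signatures are that of `B` on `H`.
-/

namespace Pool.Agent.Lib.MP_177a0e_gt.Sig

variable {V : Type*} [AddCommGroup V] [Module ℚ V] [FiniteDimensional ℚ V]

theorem sg_iso (B : LinearMap.BilinForm ℚ V) (hB : ∀ x y, B x y = B y x) (l : V →ₗ[ℚ] ℚ) (hl : l ≠ 0) (r : V) (c : ℚ) (hc : c ≠ 0)
    (h : ∀ e, B r e = c * l e) (hr : l r = 0) : sg B = sg (B.restrict (LinearMap.ker l)) := by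
  obtain ⟨a0, ha0⟩ : ∃ a0, l a0 ≠ 0 := by
    by_contra hcon
    push Not at hcon
    exact hl (LinearMap.ext hcon)
  have hrr : B r r = 0 := by rw [h r, hr, mul_zero]
  obtain ⟨a, hla, haa⟩ : ∃ a, l a = 1 ∧ B a a = 0 := by
    obtain ⟨a1, hl1⟩ : ∃ a1, l a1 = 1 :=
      ⟨(l a0)⁻¹ • a0, by rw [map_smul, smul_eq_mul, inv_mul_cancel₀ ha0]⟩
    have hr1 : B r a1 = c := by rw [h a1, hl1, mul_one]
    refine ⟨a1 - (B a1 a1 / (2 * c)) • r, ?_, ?_⟩
    · rw [map_sub, map_smul, hr, smul_zero, sub_zero, hl1]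
    · simp only [map_sub, map_smul, LinearMap.sub_apply, LinearMap.smul_apply, smul_eq_mul, hrr,
        hr1]
      rw [hB a1 r, hr1]
      field_simp
      ring
  have hra : B r a = c := by rw [h a, hla, mul_one]
  have har : B a r = c := by rw [hB a r, hra]
  obtain ⟨H, hH⟩ : ∃ H : Submodule ℚ V, ∀ x, x ∈ H ↔ l x = 0 ∧ B x a = 0 := by
    refine ⟨LinearMap.ker l ⊓ LinearMap.ker (LinearMap.flip B a), fun x => ?_⟩
    rw [Submodule.mem_inf, LinearMap.mem_ker, LinearMap.mem_ker, LinearMap.flip_apply]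
  have hHl : ∀ x : H, l x.1 = 0 := fun x => ((hH x.1).1 x.2).1
  have hHa : ∀ x : H, B x.1 a = 0 := fun x => ((hH x.1).1 x.2).2
  have hHa' : ∀ x : H, B a x.1 = 0 := fun x => by rw [hB, hHa]
  have hHr : ∀ x : H, B r x.1 = 0 := fun x => by rw [h, hHl, mul_zero]
  have hHr' : ∀ x : H, B x.1 r = 0 := fun x => by rw [hB, hHr]
  obtain ⟨s, hs⟩ : ∃ s : V →ₗ[ℚ] ℚ, ∀ x, s x = c⁻¹ * B x a :=
    ⟨c⁻¹ • LinearMap.flip B a, fun x => by
      rw [LinearMap.smul_apply, LinearMap.flip_apply, smul_eq_mul]⟩
  have hsr : s r = 1 := by rw [hs, hra, inv_mul_cancel₀ hc]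
  have hsa : s a = 0 := by rw [hs, haa, mul_zero]
  have hsH : ∀ x : H, s x.1 = 0 := fun x => by rw [hs, hHa, mul_zero]
  obtain ⟨pH, hpH⟩ : ∃ pH : V →ₗ[ℚ] H, ∀ x, ((pH x : H) : V) = x - s x • r - l x • a := by
    refine ⟨LinearMap.codRestrict H (LinearMap.id - s.smulRight r - l.smulRight a) ?_, ?_⟩
    · intro x
      rw [hH]
      simp only [LinearMap.sub_apply, LinearMap.id_coe, id_eq, LinearMap.smulRight_apply]
      constructor
      · rw [map_sub, map_sub, map_smul, map_smul, hr, hla]
        simp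
      · rw [map_sub, map_sub, map_smul, map_smul, LinearMap.sub_apply, LinearMap.sub_apply,
          LinearMap.smul_apply, LinearMap.smul_apply, haa, hra, hs]
        simp only [smul_eq_mul]
        field_simp
        ring
    · intro x
      rfl
  have hpHH : ∀ x : H, pH x.1 = x := by
    intro x
    apply Subtype.ext
    rw [hpH, hsH, hHl, zero_smul, zero_smul, sub_zero, sub_zero]
  have hpHr : pH r = 0 := by
    apply Subtype.ext
    rw [hpH, hsr, hr, one_smul, zero_smul, sub_self, sub_zero]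
    rfl
  have hpHa : pH a = 0 := by
    apply Subtype.ext
    rw [hpH, hsa, hla, one_smul, zero_smul, sub_zero, sub_self]
    rfl
  have hx : ∀ x : V, x = (pH x : V) + s x • r + l x • a := by
    intro x
    rw [hpH]
    abel
  have hBx : ∀ x x' : V, B x x' = B (pH x).1 (pH x').1 + c * (s x * l x' + l x * s x') := by
    intro x x'
    have e1 : B x x' = B ((pH x : V) + s x • r + l x • a) ((pH x' : V) + s x' • r + l x' • a) := by
      rw [← hx, ← hx]
    rw [e1]
    simp only [map_add, map_smul, LinearMap.add_apply, LinearMap.smul_apply, smul_eq_mul, hHr,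
      hHr', hHa, hHa', hrr, haa, hra, har]
    ring
  -- the form on `ker l`
  have hk : sg (B.restrict (LinearMap.ker l)) = sg (B.restrict H) := by
    let e1 : LinearMap.ker l ≃ₗ[ℚ] H × ℚ :=
      { ((pH.prod s) ∘ₗ (LinearMap.ker l).subtype : LinearMap.ker l →ₗ[ℚ] H × ℚ) with
        invFun := fun z => ⟨(z.1 : V) + z.2 • r, by
          rw [LinearMap.mem_ker, map_add, map_smul, hHl, hr, smul_zero, add_zero]⟩
        left_inv := by
          intro x
          apply Subtype.ext
          have hlx : l x.1 = 0 := x.2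
          show ((pH x.1 : H) : V) + s x.1 • r = x.1
          rw [hpH, hlx, zero_smul, sub_zero, sub_add_cancel]
        right_inv := by
          intro z
          show (pH ((z.1 : V) + z.2 • r), s ((z.1 : V) + z.2 • r)) = z
          rw [map_add, map_add, map_smul, map_smul, hpHH, hpHr, hsH, hsr, smul_zero, add_zero,
            zero_add, smul_eq_mul, mul_one] }
    have h1 := sg_add (B.restrict H) (fun x y => hB x.1 y.1) (B.restrict (LinearMap.ker l)) e1 0
      (Or.inr (Or.inr rfl)) ?_
    · rw [h1, add_zero]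
    · intro z z'
      show B z.1 z'.1 = B (pH z.1).1 (pH z'.1).1 + ((0 : ℤ) : ℚ) * (s z.1 * s z'.1)
      have hlz : l z.1 = 0 := z.2
      have hlz' : l z'.1 = 0 := z'.2
      rw [hBx, hlz, hlz']
      simp
  -- the form on `V`
  let B1 : LinearMap.BilinForm ℚ (H × ℚ) :=
    LinearMap.mk₂ ℚ (fun z z' => B z.1.1 z'.1.1 + z.2 * z'.2)
      (fun x y z => by
        simp only [Prod.fst_add, Prod.snd_add, Submodule.coe_add, map_add, LinearMap.add_apply]
        ring)
      (fun t x z => by
        simp only [Prod.smul_fst, Prod.smul_snd, Submodule.coe_smul, map_smul,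
          LinearMap.smul_apply, smul_eq_mul]
        ring)
      (fun x y z => by
        simp only [Prod.fst_add, Prod.snd_add, Submodule.coe_add, map_add]
        ring)
      (fun t x z => by
        simp only [Prod.smul_fst, Prod.smul_snd, Submodule.coe_smul, map_smul, smul_eq_mul]
        ring)
  have hB1 : ∀ z z' : H × ℚ, B1 z z' = B z.1.1 z'.1.1 + z.2 * z'.2 := fun z z' => rfl
  have h1 : sg B1 = sg (B.restrict H) + 1 := by
    refine sg_add (B.restrict H) (fun x y => hB x.1 y.1) B1 (LinearEquiv.refl ℚ _) 1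
      (Or.inl rfl) ?_
    intro z z'
    rw [hB1]
    show B z.1.1 z'.1.1 + z.2 * z'.2 = B z.1.1 z'.1.1 + ((1 : ℤ) : ℚ) * (z.2 * z'.2)
    push_cast
    ring
  let e2 : V ≃ₗ[ℚ] (H × ℚ) × ℚ :=
    { ((pH.prod ((c / 2) • s + l)).prod ((c / 2) • s - l) : V →ₗ[ℚ] (H × ℚ) × ℚ) with
      invFun := fun z => (z.1.1 : V) + ((z.1.2 + z.2) / c) • r + ((z.1.2 - z.2) / 2) • a
      left_inv := by
        intro x
        show ((pH x : H) : V) + (((c / 2) * s x + l x + ((c / 2) * s x - l x)) / c) • r +
          (((c / 2) * s x + l x - ((c / 2) * s x - l x)) / 2) • a = x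
        have e3 : ((c / 2) * s x + l x + ((c / 2) * s x - l x)) / c = s x := by
          field_simp
          ring
        have e4 : ((c / 2) * s x + l x - ((c / 2) * s x - l x)) / 2 = l x := by ring
        rw [e3, e4]
        exact (hx x).symm
      right_inv := by
        rintro ⟨⟨z, P⟩, N⟩
        have e5 : pH ((z : V) + ((P + N) / c) • r + ((P - N) / 2) • a) = z := by
          rw [map_add, map_add, map_smul, map_smul, hpHH, hpHr, hpHa, smul_zero, smul_zero,
            add_zero, add_zero]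
        have e6 : s ((z : V) + ((P + N) / c) • r + ((P - N) / 2) • a) = (P + N) / c := by
          rw [map_add, map_add, map_smul, map_smul, hsH, hsr, hsa, smul_zero, add_zero, zero_add,
            smul_eq_mul, mul_one]
        have e7 : l ((z : V) + ((P + N) / c) • r + ((P - N) / 2) • a) = (P - N) / 2 := by
          rw [map_add, map_add, map_smul, map_smul, hHl, hr, hla, smul_zero, add_zero, zero_add,
            smul_eq_mul, mul_one]
        show ((pH ((z : V) + ((P + N) / c) • r + ((P - N) / 2) • a),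
          (c / 2) * s ((z : V) + ((P + N) / c) • r + ((P - N) / 2) • a) +
          l ((z : V) + ((P + N) / c) • r + ((P - N) / 2) • a)),
          (c / 2) * s ((z : V) + ((P + N) / c) • r + ((P - N) / 2) • a) -
          l ((z : V) + ((P + N) / c) • r + ((P - N) / 2) • a)) = ((z, P), N)
        rw [e5, e6, e7]
        have e8 : (c / 2) * ((P + N) / c) + (P - N) / 2 = P := by
          field_simp
          ring
        have e9 : (c / 2) * ((P + N) / c) - (P - N) / 2 = N := by
          field_simp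
          ring
        rw [e8, e9] }
  have h2 : sg B = sg B1 + (-1) := by
    refine sg_add B1 ?_ B e2 (-1) (Or.inr (Or.inl rfl)) ?_
    · intro z z'
      rw [hB1, hB1, hB z.1.1, mul_comm z.2]
    · intro x x'
      show B x x' = B1 (pH x, (c / 2) * s x + l x) (pH x', (c / 2) * s x' + l x') +
        ((-1 : ℤ) : ℚ) * (((c / 2) * s x - l x) * ((c / 2) * s x' - l x'))
      rw [hB1, hBx]
      push_cast
      ring
  rw [h2, h1, hk]
  ring

end Pool.Agent.Lib.MP_177a0e_gt.Sig
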