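import Pool.Agent.Lib.MP_177a0e_gt.Sig.Defs

/-!
# colourings: interchange.

PROOF. The same formulas as for the white states: put `c = |p| + |g.src| + |q|`, `c' = |p| + |g.tgt| + |q|`. A colouring of the left side is `(t 0, t 1, t 2)` (zero beyond): `g` at the position `|p|` from `t 0` to `t 1`, `g'` at `c'` from `t 1` to `t 2`. `Φ` keeps `t 0` and `t 2` and replaces `t 1` by
`i ↦ if i ≤ c then t 0 i else t 2 (i + |g.tgt| - |g.src|)`; the inverse replaces the middle level by `i ↦ if i ≤ c' then t 2 i else t 0 (i + |g.src| - |g.tgt|)`. Cases for `g`, `g'`, then everything is a statement about indices (`simp [Run, Runs, colM, Fit, Col, lp]`, `split_ifs`, `omega`);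
the conditions `Col` of `g` and `g'` involve the same four values on both sides.
-/

namespace Pool.Agent.Lib.MP_177a0e_gt.Sig

open Pool.Agent.Lib.MP_177a0e_gt.Tangle Pool.Agent.Lib.MP_177a0e_gt.Tangle.Gen

variable {R : Type} [Field R]

/-- a piece with `s` strands below and `t` strands above at the position `l`, with the local condition `K` -/
private structure DILo (s t : ℕ) (K : (ℕ → R) → (ℕ → R) → Prop) (l : ℕ) (x y : ℕ → R) : Prop where
  low : ∀ i, i ≤ l → y i = x i
  up : ∀ i, l ≤ i → y (i + t) = x (i + s)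
  loc : K (fun j => x (l + j)) (fun j => y (l + j))

private theorem DILo.flip {s t : ℕ} {K : (ℕ → R) → (ℕ → R) → Prop} {l : ℕ} {x y : ℕ → R}
    (h : DILo s t K l x y) : DILo t s (fun a b => K b a) l y x :=
  ⟨fun i hi => (h.low i hi).symm, fun i hi => (h.up i hi).symm, h.loc⟩

/-- the condition only involves the gaps `0, …, s` below and `0, …, t` above -/
private def DILocal (s t : ℕ) (K : (ℕ → R) → (ℕ → R) → Prop) : Prop :=
  ∀ u v u' v' : ℕ → R, (∀ j, j ≤ s → u j = u' j) → (∀ j, j ≤ t → v j = v' j) → K u v → K u' v'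

private theorem DILocal.flip {s t : ℕ} {K : (ℕ → R) → (ℕ → R) → Prop} (h : DILocal s t K) :
    DILocal t s (fun a b => K b a) := fun u v u' v' h1 h2 h3 => h v u v' u' h2 h1 h3

/-- the middle level -/
private def dimid (c d : ℕ) (x y : ℕ → R) : ℕ → R := fun i => if i ≤ c then x i else y (i - c + d)

private theorem dimid_add (c d : ℕ) (x x' y y' : ℕ → R) :
    dimid c d (x + x') (y + y') = dimid c d x y + dimid c d x' y' := by
  funext i
  simp only [dimid, Pi.add_apply]
  split_ifs <;> rfl

private theorem dimid_smul (c d : ℕ) (k : R) (x y : ℕ → R) :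
    dimid c d (k • x) (k • y) = k • dimid c d x y := by
  funext i
  simp only [dimid, Pi.smul_apply]
  split_ifs <;> rfl

private theorem di_forward {s t s' t' : ℕ} {K K' : (ℕ → R) → (ℕ → R) → Prop} (hK : DILocal s t K)
    (l m : ℕ) {x y z : ℕ → R} (h1 : DILo s t K l x y) (h2 : DILo s' t' K' (l + t + m) y z) :
    DILo s' t' K' (l + s + m) x (dimid (l + s + m) (l + t + m) x z) ∧
      DILo s t K l (dimid (l + s + m) (l + t + m) x z) z := by
  have e1 : ∀ j, x (l + s + m + j) = y (l + t + m + j) := fun j => by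
    have := h1.up (l + m + j) (by omega)
    rw [show l + s + m + j = l + m + j + s by omega, show l + t + m + j = l + m + j + t by omega, this]
  have e2 : ∀ j, dimid (l + s + m) (l + t + m) x z (l + s + m + j) = z (l + t + m + j) := fun j => by
    unfold dimid
    split_ifs with h
    · obtain rfl : j = 0 := by omega
      rw [e1, h2.low _ (by omega)]
    · congr 1
      omega
  refine ⟨⟨fun i hi => if_pos hi, fun i hi => ?_, ?_⟩, ⟨fun i hi => ?_, fun i hi => ?_, ?_⟩⟩
  · obtain ⟨k, rfl⟩ := Nat.exists_eq_add_of_le hi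
    rw [show l + s + m + k + t' = l + s + m + (k + t') by omega, e2,
      show l + s + m + k + s' = l + s + m + (k + s') by omega, e1]
    have := h2.up (l + t + m + k) (by omega)
    rw [show l + t + m + (k + t') = l + t + m + k + t' by omega, this]
    congr 1
    omega
  · have := h2.loc
    rw [show (fun j => x (l + s + m + j)) = fun j => y (l + t + m + j) from funext e1,
      show (fun j => dimid (l + s + m) (l + t + m) x z (l + s + m + j)) = fun j => z (l + t + m + j) from funext e2]
    exact this
  · rw [dimid, if_pos (by omega), h2.low i (by omega), h1.low i hi]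
  · unfold dimid
    split_ifs with h
    · rw [h2.low _ (by omega), h1.up i hi]
    · congr 1
      omega
  · refine hK _ _ _ _ (fun j hj => ?_) (fun j hj => ?_) h1.loc
    · exact (if_pos (by omega)).symm
    · exact (h2.low _ (by omega)).symm

private theorem di_backward {s t s' t' : ℕ} {K K' : (ℕ → R) → (ℕ → R) → Prop} (hK : DILocal s t K)
    (l m : ℕ) {x y z : ℕ → R} (h1 : DILo s' t' K' (l + s + m) x y) (h2 : DILo s t K l y z) :
    DILo s t K l x (dimid (l + t + m) (l + s + m) z x) ∧
      DILo s' t' K' (l + t + m) (dimid (l + t + m) (l + s + m) z x) z := by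
  have := di_forward hK.flip l m h2.flip h1.flip
  exact ⟨this.2.flip, this.1.flip⟩

private theorem di_inv1 {s t s' t' : ℕ} {K K' : (ℕ → R) → (ℕ → R) → Prop}
    (l m : ℕ) {x y z : ℕ → R} (h1 : DILo s t K l x y) (h2 : DILo s' t' K' (l + t + m) y z) :
    dimid (l + t + m) (l + s + m) z x = y := by
  funext i
  unfold dimid
  split_ifs with h
  · exact h2.low i h
  · have := h1.up (i - t) (by omega)
    rw [show i - t + t = i by omega] at this
    rw [this]
    congr 1
    omega

private theorem di_inv2 {s t s' t' : ℕ} {K K' : (ℕ → R) → (ℕ → R) → Prop}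
    (l m : ℕ) {x y z : ℕ → R} (h1 : DILo s' t' K' (l + s + m) x y) (h2 : DILo s t K l y z) :
    dimid (l + s + m) (l + t + m) x z = y :=
  di_inv1 l m h2.flip h1.flip

/-- the local condition of a piece -/
private def diK : Gen → (ℕ → R) → (ℕ → R) → Prop
  | cross c _ _, u, v => v 1 - u 1 = (sz c : R) * (u 0 - u 2)
  | _, _, _ => True

private theorem diK_local (g : Gen) : DILocal (R := R) g.src.length g.tgt.length (diK g) := by
  intro u v u' v' h1 h2 h
  rcases g with _ | _ | ⟨c, a, b⟩
  · trivial
  · trivial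
  · simp only [diK] at h ⊢
    rw [← h1 0 (by simp), ← h1 1 (by simp [Gen.src]), ← h1 2 (by simp [Gen.src]), ← h2 1 (by simp [Gen.tgt])]
    exact h

private theorem di_mem (p : List Bool) (g : Gen) (q : List Bool) (x y : ℕ → R) :
    (x, y) ∈ colM R ⟨p, g, q⟩ ↔ DILo g.src.length g.tgt.length (diK g) p.length x y := by
  rcases g with a | a | ⟨c, a, b⟩
  · constructor
    · rintro ⟨h, -⟩
      exact ⟨h.1, h.2, trivial⟩
    · rintro ⟨h1, h2, -⟩
      exact ⟨⟨h1, h2⟩, trivial⟩
  · constructor
    · rintro ⟨h, -⟩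
      exact ⟨fun i hi => (h.1 i hi).symm, fun i hi => (h.2 i hi).symm, trivial⟩
    · rintro ⟨h1, h2, -⟩
      exact ⟨⟨fun i hi => (h1 i hi).symm, fun i hi => (h2 i hi).symm⟩, trivial⟩
  · constructor
    · rintro ⟨h, h'⟩
      refine ⟨fun i hi => h i ?_, fun i hi => h (i + 2) ?_, h'⟩
      · simp only [lp]
        omega
      · simp only [lp]
        omega
    · rintro ⟨h1, h2, h3⟩
      refine ⟨fun i hi => ?_, h3⟩
      simp only [lp] at hi
      rcases Nat.lt_or_ge p.length i with h | h
      · have := h2 (i - 2) (by omega)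
        simp only [Gen.src, Gen.tgt, List.length_cons, List.length_nil] at this
        rw [show i - 2 + (0 + 1 + 1) = i by omega] at this
        exact this
      · exact h1 i h

/-- the middle level replaced -/
private def diupd (x : ℕ → ℕ → R) (m : ℕ → R) : ℕ → ℕ → R := fun j => if j = 1 then m else x j

private theorem di_runs {s s' : Slice} {x : ℕ → ℕ → R} (hx : x ∈ De R [s, s']) :
    (x 0, x 1) ∈ colM R s ∧ (x 1, x 2) ∈ colM R s' :=
  ⟨hx.1.1, hx.1.2.1⟩

private theorem di_upd_mem {s s' u u' : Slice} {x : ℕ → ℕ → R} (hx : x ∈ De R [s, s']) {m : ℕ → R}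
    (h1 : (x 0, m) ∈ colM R u) (h2 : (m, x 2) ∈ colM R u') : diupd x m ∈ De R [u, u'] := by
  refine ⟨⟨h1, h2, trivial⟩, fun j => Submodule.mem_top, fun j hj => ?_⟩
  simp only [List.length_cons, List.length_nil] at hj
  rw [diupd, if_neg (by omega)]
  exact hx.2.2 j (by simpa using hj)

theorem d_inter (g g' : Gen) (p q r : List Bool) :
    DIso R [⟨p, g, q ++ g'.src ++ r⟩, ⟨p ++ g.tgt ++ q, g', r⟩] [⟨p ++ g.src ++ q, g', r⟩, ⟨p, g, q ++ g'.tgt ++ r⟩] := by
  set a : Word := [⟨p, g, q ++ g'.src ++ r⟩, ⟨p ++ g.tgt ++ q, g', r⟩] with ha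
  set b : Word := [⟨p ++ g.src ++ q, g', r⟩, ⟨p, g, q ++ g'.tgt ++ r⟩] with hb
  set c : ℕ := p.length + g.src.length + q.length with hc
  set c' : ℕ := p.length + g.tgt.length + q.length with hc'
  have la : ∀ x : De R a, DILo g.src.length g.tgt.length (diK g) p.length (x.1 0) (x.1 1) ∧
      DILo g'.src.length g'.tgt.length (diK g') c' (x.1 1) (x.1 2) := fun x => by
    obtain ⟨h1, h2⟩ := di_runs x.2
    rw [di_mem] at h1 h2
    rw [List.length_append, List.length_append] at h2
    exact ⟨h1, h2⟩
  have lb : ∀ x : De R b, DILo g'.src.length g'.tgt.length (diK g') c (x.1 0) (x.1 1) ∧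
      DILo g.src.length g.tgt.length (diK g) p.length (x.1 1) (x.1 2) := fun x => by
    obtain ⟨h1, h2⟩ := di_runs x.2
    rw [di_mem] at h1 h2
    rw [List.length_append, List.length_append] at h1
    exact ⟨h1, h2⟩
  have ma : ∀ x : De R a, diupd x.1 (dimid c c' (x.1 0) (x.1 2)) ∈ De R b := fun x => by
    have := di_forward (diK_local g) p.length q.length (la x).1 (la x).2
    refine di_upd_mem x.2 ?_ ?_
    · rw [di_mem, List.length_append, List.length_append]
      exact this.1
    · rw [di_mem]
      exact this.2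
  have mb : ∀ x : De R b, diupd x.1 (dimid c' c (x.1 2) (x.1 0)) ∈ De R a := fun x => by
    have := di_backward (diK_local g) p.length q.length (lb x).1 (lb x).2
    refine di_upd_mem x.2 ?_ ?_
    · rw [di_mem]
      exact this.1
    · rw [di_mem, List.length_append, List.length_append]
      exact this.2
  refine ⟨LinearEquiv.mk ⟨⟨fun x => ⟨diupd x.1 (dimid c c' (x.1 0) (x.1 2)), ma x⟩, fun x y => ?_⟩, fun k x => ?_⟩
    (fun x => ⟨diupd x.1 (dimid c' c (x.1 2) (x.1 0)), mb x⟩) (fun x => ?_) (fun x => ?_), fun t => ⟨rfl, rfl⟩⟩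
  · apply Subtype.ext
    funext j
    simp only [diupd, Submodule.coe_add, Pi.add_apply, dimid_add]
    split_ifs <;> rfl
  · apply Subtype.ext
    funext j
    simp only [diupd, Submodule.coe_smul, Pi.smul_apply, RingHom.id_apply, dimid_smul]
    split_ifs <;> rfl
  · apply Subtype.ext
    funext j
    have := di_inv1 p.length q.length (la x).1 (la x).2
    by_cases h : j = 1
    · subst h
      exact this
    · simp [diupd, h]
  · apply Subtype.ext
    funext j
    have := di_inv2 p.length q.length (lb x).1 (lb x).2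
    by_cases h : j = 1
    · subst h
      exact this
    · simp [diupd, h]

end Pool.Agent.Lib.MP_177a0e_gt.Sig
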