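import Pool.Agent.Lib.MP_177a0e_gt.Sig.Defs

/-!
# colourings: the first and the second Reidemeister move.

PROOFS (`L = |p|`, `σ = sz s = ± 1`).
* `d_r1cup`: a colouring of the left side is `(t 0, t 1, t 2)`; `t 1`: `t 0` with the gap `L` doubled and a new value at `L + 1`; `t 2 (L + 1) = t 1 (L + 1) + σ (t 1 L - t 1 (L + 2)) = t 1 (L + 1)`: `t 2 = t 1`, `Φ t = (t 0, t 1)`.
* `d_r1cap`: `t 1 i = t 0 i` for `i ≠ L + 1`, `t 1 L = t 1 (L + 2)` by the cap, so `t 0 L = t 0 (L + 2)` and `t 1 (L + 1) = t 0 (L + 1)`: `t 1 = t 0`, `Φ t = (t 0, t 2)`.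
* `d_r2`: `t 2 (L + 1) = t 0 (L + 1) + σ (t 0 L - t 0 (L + 2)) - σ (t 0 L - t 0 (L + 2))`: `t 2 = t 0`, `t 1` is determined by `t 0`; `Φ t = (t 0)`.
-/

namespace Pool.Agent.Lib.MP_177a0e_gt.Sig

open Pool.Agent.Lib.MP_177a0e_gt.Tangle Pool.Agent.Lib.MP_177a0e_gt.Tangle.Gen

variable {R : Type} [Field R]

/-- an equivalence given by two linear maps on all sequences of levels -/
private theorem DR1_mk {a b : Word} (f g : (ℕ → ℕ → R) →ₗ[R] (ℕ → ℕ → R))
    (hf : ∀ t ∈ De R a, f t ∈ De R b) (hg : ∀ t ∈ De R b, g t ∈ De R a)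
    (h1 : ∀ t ∈ De R a, g (f t) = t) (h2 : ∀ t ∈ De R b, f (g t) = t)
    (h3 : ∀ t ∈ De R a, f t 0 = t 0 ∧ f t b.length = t a.length) : DIso R a b := by
  refine ⟨LinearEquiv.ofLinearMap (f.restrict hf) (g.restrict hg) ?_ ?_, ?_⟩
  · ext1 t
    apply Subtype.ext
    exact h2 t.1 t.2
  · ext1 t
    apply Subtype.ext
    exact h1 t.1 t.2
  · intro t
    exact h3 t.1 t.2

private theorem DR1_mem0 (t : ℕ → ℕ → R) : t ∈ De R [] ↔ ∀ j, 0 < j → t j = 0 :=
  ⟨fun h => h.2.2, fun h => ⟨trivial, fun _ => trivial, h⟩⟩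

private theorem DR1_mem1 (s₁ : Slice) (t : ℕ → ℕ → R) : t ∈ De R [s₁] ↔
    (Fit s₁ (t 0) (t 1) ∧ Col s₁ (t 0) (t 1)) ∧ ∀ j, 1 < j → t j = 0 :=
  ⟨fun h => ⟨h.1.1, h.2.2⟩, fun h => ⟨⟨h.1, trivial⟩, fun _ => trivial, h.2⟩⟩

private theorem DR1_mem2 (s₁ s₂ : Slice) (t : ℕ → ℕ → R) : t ∈ De R [s₁, s₂] ↔
    (Fit s₁ (t 0) (t 1) ∧ Col s₁ (t 0) (t 1)) ∧ (Fit s₂ (t 1) (t 2) ∧ Col s₂ (t 1) (t 2)) ∧
      ∀ j, 2 < j → t j = 0 :=
  ⟨fun h => ⟨h.1.1, h.1.2.1, h.2.2⟩, fun h => ⟨⟨h.1, h.2.1, trivial⟩, fun _ => trivial, h.2.2⟩⟩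

/-- the sequence of levels `(A t, B t, C t, 0, …)` -/
private def DR1_seq (A B C : (ℕ → ℕ → R) →ₗ[R] (ℕ → R)) : (ℕ → ℕ → R) →ₗ[R] (ℕ → ℕ → R) :=
  LinearMap.pi fun j => match j with
    | 0 => A
    | 1 => B
    | 2 => C
    | _ + 3 => 0

private theorem DR1_seq_zero (A B C : (ℕ → ℕ → R) →ₗ[R] (ℕ → R)) (t : ℕ → ℕ → R) {j : ℕ}
    (hj : 2 < j) : DR1_seq A B C t j = 0 := by
  obtain ⟨k, rfl⟩ : ∃ k, j = k + 3 := ⟨j - 3, by omega⟩
  rfl

/-- the level `j` -/
private def DR1_pr (j : ℕ) : (ℕ → ℕ → R) →ₗ[R] (ℕ → R) := LinearMap.proj j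

/-- the level above a crossing -/
private def DR1_cr (s : Bool) (L : ℕ) : (ℕ → ℕ → R) →ₗ[R] (ℕ → R) where
  toFun t i := if i = L + 1 then t 0 (L + 1) + (sz s : R) * (t 0 L - t 0 (L + 2)) else t 0 i
  map_add' t u := by
    funext i
    simp only [Pi.add_apply]
    split_ifs
    · ring
    · rfl
  map_smul' r t := by
    funext i
    simp only [Pi.smul_apply, smul_eq_mul, RingHom.id_apply]
    split_ifs
    · ring
    · rfl

theorem d_r1cup (s x : Bool) (p q : List Bool) : DIso R [⟨p, cup x, q⟩, ⟨p, cross s x (!x), q⟩] [⟨p, cup (!x), q⟩] := by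
  have key : ∀ t ∈ De R [⟨p, cup x, q⟩, ⟨p, cross s x (!x), q⟩], t 2 = t 1 := by
    intro t ht
    obtain ⟨⟨h1, -⟩, ⟨h2, h3⟩, -⟩ := (DR1_mem2 _ _ t).1 ht
    obtain ⟨h4, h5⟩ := h1
    change ∀ i, i ≠ p.length + 1 → t 2 i = t 1 i at h2
    change t 2 (p.length + 1) - t 1 (p.length + 1) =
      (sz s : R) * (t 1 p.length - t 1 (p.length + 2)) at h3
    have h6 : t 1 p.length = t 0 p.length := h4 p.length le_rfl
    have h7 : t 1 (p.length + 2) = t 0 p.length := h5 p.length le_rfl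
    funext i
    by_cases hi : i = p.length + 1
    · subst hi
      rw [h6, h7, sub_self, mul_zero] at h3
      exact sub_eq_zero.1 h3
    · exact h2 i hi
  refine DR1_mk (DR1_seq (DR1_pr 0) (DR1_pr 1) 0) (DR1_seq (DR1_pr 0) (DR1_pr 1) (DR1_pr 1))
    ?_ ?_ ?_ ?_ ?_
  · intro t ht
    obtain ⟨⟨h1, -⟩, -, -⟩ := (DR1_mem2 _ _ t).1 ht
    refine (DR1_mem1 _ _).2 ⟨⟨h1, trivial⟩, fun j hj => ?_⟩
    rcases Nat.lt_or_ge 2 j with h | h
    · exact DR1_seq_zero _ _ _ t h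
    · obtain rfl : j = 2 := by omega
      rfl
  · intro t ht
    obtain ⟨⟨h1, -⟩, -⟩ := (DR1_mem1 _ t).1 ht
    refine (DR1_mem2 _ _ _).2 ⟨⟨h1, trivial⟩, ⟨fun i _ => rfl, ?_⟩, fun j hj => DR1_seq_zero _ _ _ t hj⟩
    obtain ⟨h4, h5⟩ := h1
    have h6 : t 1 p.length = t 0 p.length := h4 p.length le_rfl
    have h7 : t 1 (p.length + 2) = t 0 p.length := h5 p.length le_rfl
    change t 1 (p.length + 1) - t 1 (p.length + 1) =
      (sz s : R) * (t 1 p.length - t 1 (p.length + 2))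
    rw [h6, h7, sub_self, sub_self, mul_zero]
  · intro t ht
    have h0 := key t ht
    obtain ⟨-, -, h1⟩ := (DR1_mem2 _ _ t).1 ht
    funext j
    rcases Nat.lt_or_ge 2 j with h | h
    · rw [DR1_seq_zero _ _ _ _ h, h1 j h]
    · interval_cases j
      · rfl
      · rfl
      · exact h0.symm
  · intro t ht
    obtain ⟨-, h1⟩ := (DR1_mem1 _ t).1 ht
    funext j
    rcases Nat.lt_or_ge 2 j with h | h
    · rw [DR1_seq_zero _ _ _ _ h, h1 j (by omega)]
    · interval_cases j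
      · rfl
      · rfl
      · exact (h1 2 (by norm_num)).symm
  · intro t ht
    exact ⟨rfl, (key t ht).symm⟩

theorem d_r1cap (s x : Bool) (p q : List Bool) : DIso R [⟨p, cross s x (!x), q⟩, ⟨p, cap (!x), q⟩] [⟨p, cap x, q⟩] := by
  have key : ∀ t ∈ De R [⟨p, cross s x (!x), q⟩, ⟨p, cap (!x), q⟩], t 1 = t 0 := by
    intro t ht
    obtain ⟨⟨h2, h3⟩, ⟨h1, -⟩, -⟩ := (DR1_mem2 _ _ t).1 ht
    obtain ⟨h4, h5⟩ := h1
    change ∀ i, i ≠ p.length + 1 → t 1 i = t 0 i at h2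
    change t 1 (p.length + 1) - t 0 (p.length + 1) =
      (sz s : R) * (t 0 p.length - t 0 (p.length + 2)) at h3
    have h6 : t 1 p.length = t 2 p.length := h4 p.length le_rfl
    have h7 : t 1 (p.length + 2) = t 2 p.length := h5 p.length le_rfl
    have h8 : t 1 p.length = t 0 p.length := h2 p.length (by omega)
    have h9 : t 1 (p.length + 2) = t 0 (p.length + 2) := h2 (p.length + 2) (by omega)
    funext i
    by_cases hi : i = p.length + 1
    · subst hi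
      rw [← h8, ← h9, h6, h7, sub_self, mul_zero] at h3
      exact sub_eq_zero.1 h3
    · exact h2 i hi
  refine DR1_mk (DR1_seq (DR1_pr 0) (DR1_pr 2) 0) (DR1_seq (DR1_pr 0) (DR1_pr 0) (DR1_pr 1))
    ?_ ?_ ?_ ?_ ?_
  · intro t ht
    have h0 := key t ht
    obtain ⟨-, ⟨h1, -⟩, -⟩ := (DR1_mem2 _ _ t).1 ht
    rw [h0] at h1
    refine (DR1_mem1 _ _).2 ⟨⟨h1, trivial⟩, fun j hj => ?_⟩
    rcases Nat.lt_or_ge 2 j with h | h
    · exact DR1_seq_zero _ _ _ t h
    · obtain rfl : j = 2 := by omega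
      rfl
  · intro t ht
    obtain ⟨⟨h1, -⟩, -⟩ := (DR1_mem1 _ t).1 ht
    refine (DR1_mem2 _ _ _).2 ⟨⟨fun i _ => rfl, ?_⟩, ⟨h1, trivial⟩, fun j hj => DR1_seq_zero _ _ _ t hj⟩
    obtain ⟨h4, h5⟩ := h1
    have h6 : t 0 p.length = t 1 p.length := h4 p.length le_rfl
    have h7 : t 0 (p.length + 2) = t 1 p.length := h5 p.length le_rfl
    change t 0 (p.length + 1) - t 0 (p.length + 1) =
      (sz s : R) * (t 0 p.length - t 0 (p.length + 2))
    rw [h6, h7, sub_self, sub_self, mul_zero]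
  · intro t ht
    have h0 := key t ht
    obtain ⟨-, -, h1⟩ := (DR1_mem2 _ _ t).1 ht
    funext j
    rcases Nat.lt_or_ge 2 j with h | h
    · rw [DR1_seq_zero _ _ _ _ h, h1 j h]
    · interval_cases j
      · rfl
      · exact h0.symm
      · rfl
  · intro t ht
    obtain ⟨-, h1⟩ := (DR1_mem1 _ t).1 ht
    funext j
    rcases Nat.lt_or_ge 2 j with h | h
    · rw [DR1_seq_zero _ _ _ _ h, h1 j (by omega)]
    · interval_cases j
      · rfl
      · rfl
      · exact (h1 2 (by norm_num)).symm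
  · intro t ht
    exact ⟨rfl, rfl⟩

private theorem DR1_sz (s : Bool) : (sz (!s) : R) = -(sz s : R) := by
  cases s <;> simp [sz]

theorem d_r2 (s x y : Bool) (p q : List Bool) : DIso R [⟨p, cross s x y, q⟩, ⟨p, cross (!s) y x, q⟩] [] := by
  have key : ∀ t ∈ De R [⟨p, cross s x y, q⟩, ⟨p, cross (!s) y x, q⟩],
      t 2 = t 0 ∧ t 1 = DR1_cr s p.length t := by
    intro t ht
    obtain ⟨⟨h1, h2⟩, ⟨h3, h4⟩, -⟩ := (DR1_mem2 _ _ t).1 ht
    change ∀ i, i ≠ p.length + 1 → t 1 i = t 0 i at h1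
    change t 1 (p.length + 1) - t 0 (p.length + 1) =
      (sz s : R) * (t 0 p.length - t 0 (p.length + 2)) at h2
    change ∀ i, i ≠ p.length + 1 → t 2 i = t 1 i at h3
    change t 2 (p.length + 1) - t 1 (p.length + 1) =
      (sz (!s) : R) * (t 1 p.length - t 1 (p.length + 2)) at h4
    have h8 : t 1 p.length = t 0 p.length := h1 p.length (by omega)
    have h9 : t 1 (p.length + 2) = t 0 (p.length + 2) := h1 (p.length + 2) (by omega)
    rw [DR1_sz, h8, h9] at h4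
    constructor
    · funext i
      by_cases hi : i = p.length + 1
      · subst hi
        linear_combination h2 + h4
      · rw [h3 i hi, h1 i hi]
    · funext i
      change t 1 i = if i = p.length + 1 then _ else _
      by_cases hi : i = p.length + 1
      · rw [if_pos hi, hi]
        linear_combination h2
      · rw [if_neg hi]
        exact h1 i hi
  refine DR1_mk (DR1_seq (DR1_pr 0) 0 0) (DR1_seq (DR1_pr 0) (DR1_cr s p.length) (DR1_pr 0))
    ?_ ?_ ?_ ?_ ?_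
  · intro t ht
    refine (DR1_mem0 _).2 fun j hj => ?_
    rcases Nat.lt_or_ge 2 j with h | h
    · exact DR1_seq_zero _ _ _ t h
    · interval_cases j
      · rfl
      · rfl
  · intro t ht
    refine (DR1_mem2 _ _ _).2 ⟨⟨fun i hi => if_neg hi, ?_⟩, ⟨fun i hi => (if_neg hi).symm, ?_⟩,
      fun j hj => DR1_seq_zero _ _ _ t hj⟩
    · change (if p.length + 1 = p.length + 1 then
        t 0 (p.length + 1) + (sz s : R) * (t 0 p.length - t 0 (p.length + 2)) else
          t 0 (p.length + 1)) - t 0 (p.length + 1) =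
        (sz s : R) * (t 0 p.length - t 0 (p.length + 2))
      rw [if_pos rfl]
      ring
    · change t 0 (p.length + 1) - (if p.length + 1 = p.length + 1 then
        t 0 (p.length + 1) + (sz s : R) * (t 0 p.length - t 0 (p.length + 2)) else
          t 0 (p.length + 1)) =
        (sz (!s) : R) * ((if p.length = p.length + 1 then
        t 0 (p.length + 1) + (sz s : R) * (t 0 p.length - t 0 (p.length + 2)) else
          t 0 p.length) - (if p.length + 2 = p.length + 1 then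
        t 0 (p.length + 1) + (sz s : R) * (t 0 p.length - t 0 (p.length + 2)) else
          t 0 (p.length + 2)))
      rw [if_pos rfl, if_neg (by omega), if_neg (by omega), DR1_sz]
      ring
  · intro t ht
    obtain ⟨h2, h3⟩ := key t ht
    obtain ⟨-, -, h1⟩ := (DR1_mem2 _ _ t).1 ht
    funext j
    rcases Nat.lt_or_ge 2 j with h | h
    · rw [DR1_seq_zero _ _ _ _ h, h1 j h]
    · interval_cases j
      · rfl
      · exact h3.symm
      · exact h2.symm
  · intro t ht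
    have h1 := (DR1_mem0 t).1 ht
    funext j
    rcases Nat.lt_or_ge 2 j with h | h
    · rw [DR1_seq_zero _ _ _ _ h, h1 j (by omega)]
    · interval_cases j
      · rfl
      · exact (h1 1 (by norm_num)).symm
      · exact (h1 2 (by norm_num)).symm
  · intro t ht
    exact ⟨rfl, (key t ht).1.symm⟩

end Pool.Agent.Lib.MP_177a0e_gt.Sig
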