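import Pool.Agent.Lib.MP_177a0e_gt.Sig.Defs

/-!
# colourings: the third Reidemeister move.

PROOF (`L = |p|`, `σ = sz s`, `σ ^ 2 = 1`). In a colouring of a word of crossings every level is determined by `t 0`: with `a, b, c, d` the values of `t 0` at `L, L + 1, L + 2, L + 3`: left side: `b1 = b + σ (a - c)`, `c1 = c + σ (b1 - d)`, `b2 = b1 + σ (a - c1)`; right side: `c1' = c + σ (b - d)`,
`b1' = b + σ (a - c1')`, `c2' = c1' + σ (b1' - d)`. The last levels agree: `b2 = d + σ (a - c) = b1'` and `c1 = a + σ (b - d) = c2'`. `Φ`: keep `t 0` and `t 3`, the new middle levels are `Function.update`s of `t 0`.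
(`De` of a word of crossings is isomorphic to the space of all `t 0`: it is convenient to construct both isomorphisms `De .. ≃ (ℕ → R)`, `t ↦ t 0`, and to compose.)
-/

namespace Pool.Agent.Lib.MP_177a0e_gt.Sig

open Pool.Agent.Lib.MP_177a0e_gt.Tangle Pool.Agent.Lib.MP_177a0e_gt.Tangle.Gen

variable {R : Type} [Field R]

/-- the values above a crossing as a function of the values below -/
private def DR3_cr (L : ℕ) (σ : R) : (ℕ → R) →ₗ[R] (ℕ → R) where
  toFun x := fun i => if i = L + 1 then x (L + 1) + σ * (x L - x (L + 2)) else x i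
  map_add' x y := by
    funext i
    by_cases h : i = L + 1
    · simp only [h, if_true, Pi.add_apply]
      ring
    · simp only [h, if_false, Pi.add_apply]
  map_smul' r x := by
    funext i
    by_cases h : i = L + 1
    · simp only [h, if_true, Pi.smul_apply, smul_eq_mul, RingHom.id_apply]
      ring
    · simp only [h, if_false, Pi.smul_apply, smul_eq_mul, RingHom.id_apply]

private theorem DR3_cr_apply (L : ℕ) (σ : R) (x : ℕ → R) (i : ℕ) :
    DR3_cr L σ x i = if i = L + 1 then x (L + 1) + σ * (x L - x (L + 2)) else x i := rfl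

private theorem DR3_mem (p q : List Bool) (c a b : Bool) (x y : ℕ → R) :
    (x, y) ∈ colM R ⟨p, cross c a b, q⟩ ↔ y = DR3_cr p.length (sz c : R) x := by
  constructor
  · rintro ⟨h1, h2⟩
    simp only [Fit, lp] at h1
    simp only [Col, lp] at h2
    funext i
    rw [DR3_cr_apply]
    by_cases h : i = p.length + 1
    · rw [if_pos h, h]
      linear_combination h2
    · rw [if_neg h]
      exact h1 i h
  · intro h
    subst h
    refine ⟨?_, ?_⟩
    · intro i hi
      have hi' : i ≠ p.length + 1 := hi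
      simp only [DR3_cr_apply, if_neg hi']
    · show DR3_cr p.length (sz c : R) x (p.length + 1) - x (p.length + 1) = (sz c : R) * (x p.length - x (p.length + 2))
      rw [DR3_cr_apply, if_pos rfl]
      ring

/-- the colouring with the levels `x`, `f x`, `g (f x)`, `h (g (f x))` -/
private def DR3_st (f g h : (ℕ → R) →ₗ[R] (ℕ → R)) (x : ℕ → R) : ℕ → ℕ → R := fun j =>
  if j = 0 then x else if j = 1 then f x else if j = 2 then g (f x) else if j = 3 then h (g (f x)) else 0

/-- a colouring of three crossings is determined by its bottom level -/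
private def DR3_eq (s1 s2 s3 : Slice) (f g h : (ℕ → R) →ₗ[R] (ℕ → R))
    (hf : ∀ x y, (x, y) ∈ colM R s1 ↔ y = f x) (hg : ∀ x y, (x, y) ∈ colM R s2 ↔ y = g x)
    (hh : ∀ x y, (x, y) ∈ colM R s3 ↔ y = h x) : De R [s1, s2, s3] ≃ₗ[R] (ℕ → R) where
  toFun t := t.1 0
  map_add' _ _ := rfl
  map_smul' _ _ := rfl
  invFun x := ⟨DR3_st f g h x, by
    refine ⟨⟨(hf _ _).2 rfl, (hg _ _).2 rfl, (hh _ _).2 rfl, trivial⟩, fun _ => trivial, fun j hj => ?_⟩
    have h1 : 3 < j := hj
    simp only [DR3_st]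
    rw [if_neg (by omega), if_neg (by omega), if_neg (by omega), if_neg (by omega)]⟩
  left_inv t := by
    apply Subtype.ext
    obtain ⟨t, ⟨h1, h2, h3, -⟩, -, h4⟩ := t
    have e1 : t 1 = f (t 0) := (hf _ _).1 h1
    have e2 : t 2 = g (t 1) := (hg _ _).1 h2
    have e3 : t 3 = h (t 2) := (hh _ _).1 h3
    show DR3_st f g h (t 0) = t
    funext j
    simp only [DR3_st]
    by_cases j0 : j = 0
    · rw [if_pos j0, j0]
    rw [if_neg j0]
    by_cases j1 : j = 1
    · rw [if_pos j1, j1, e1]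
    rw [if_neg j1]
    by_cases j2 : j = 2
    · rw [if_pos j2, j2, e2, e1]
    rw [if_neg j2]
    by_cases j3 : j = 3
    · rw [if_pos j3, j3, e3, e2, e1]
    rw [if_neg j3]
    exact (h4 j (show 3 < j by omega)).symm
  right_inv x := rfl

private theorem DR3_last (s1 s2 s3 : Slice) (f g h : (ℕ → R) →ₗ[R] (ℕ → R))
    (hf : ∀ x y, (x, y) ∈ colM R s1 ↔ y = f x) (hg : ∀ x y, (x, y) ∈ colM R s2 ↔ y = g x)
    (hh : ∀ x y, (x, y) ∈ colM R s3 ↔ y = h x) (t : De R [s1, s2, s3]) :
    t.1 3 = h (g (f (t.1 0))) := by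
  obtain ⟨t, ⟨h1, h2, h3, -⟩, -, h4⟩ := t
  have e1 : t 1 = f (t 0) := (hf _ _).1 h1
  have e2 : t 2 = g (t 1) := (hg _ _).1 h2
  have e3 : t 3 = h (t 2) := (hh _ _).1 h3
  show t 3 = h (g (f (t 0)))
  rw [e3, e2, e1]

private theorem DR3_braid (L : ℕ) (σ : R) (hσ : σ * σ = 1) (x : ℕ → R) :
    DR3_cr (L + 1) σ (DR3_cr L σ (DR3_cr (L + 1) σ x)) = DR3_cr L σ (DR3_cr (L + 1) σ (DR3_cr L σ x)) := by
  funext i
  simp only [DR3_cr_apply]
  by_cases h1 : i = L + 1
  · subst h1
    simp only [if_true, show ¬ (L + 1 = L + 1 + 1) by omega, show ¬ (L = L + 1) by omega, show ¬ (L = L + 1 + 1) by omega,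
      show ¬ (L + 1 + 1 = L + 1) by omega, show ¬ (L + 1 + 2 = L + 1) by omega,
      show L + 2 = L + 1 + 1 by omega, if_false]
    linear_combination σ * (x L - x (L + 1 + 1)) * hσ
  · by_cases h2 : i = L + 1 + 1
    · subst h2
      simp only [if_true, show ¬ (L + 1 = L + 1 + 1) by omega, show ¬ (L = L + 1) by omega, show ¬ (L = L + 1 + 1) by omega,
        show ¬ (L + 1 + 1 = L + 1) by omega, show ¬ (L + 1 + 2 = L + 1) by omega,
        show ¬ (L + 1 + 2 = L + 1 + 1) by omega,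
        show L + 2 = L + 1 + 1 by omega, if_false]
      linear_combination σ * (x (L + 1 + 2) - x (L + 1)) * hσ
    · simp only [h1, h2, if_false]

theorem d_r3 (s x y z : Bool) (p q : List Bool) :
    DIso R [⟨p, cross s x y, [z] ++ q⟩, ⟨p ++ [y], cross s x z, q⟩, ⟨p, cross s y z, [x] ++ q⟩]
      [⟨p ++ [x], cross s y z, q⟩, ⟨p, cross s x z, [y] ++ q⟩, ⟨p ++ [z], cross s x y, q⟩] := by
  have hl : ∀ u : Bool, (p ++ [u]).length = p.length + 1 := fun u => by simp
  have hA : ∀ (c a b : Bool) (r : List Bool) (u v : ℕ → R),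
      (u, v) ∈ colM R ⟨p, cross c a b, r⟩ ↔ v = DR3_cr p.length (sz c : R) u := fun c a b r u v => DR3_mem p r c a b u v
  have hB : ∀ (w c a b : Bool) (r : List Bool) (u v : ℕ → R),
      (u, v) ∈ colM R ⟨p ++ [w], cross c a b, r⟩ ↔ v = DR3_cr (p.length + 1) (sz c : R) u := fun w c a b r u v => by
    rw [DR3_mem (p ++ [w]) r c a b u v, hl w]
  have hσ : (sz s : R) * (sz s : R) = 1 := by
    cases s <;> simp [sz]
  refine ⟨(DR3_eq _ _ _ _ _ _ (hA s x y _) (hB y s x z _) (hA s y z _)).trans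
    (DR3_eq _ _ _ _ _ _ (hB x s y z _) (hA s x z _) (hB z s x y _)).symm, fun t => ⟨rfl, ?_⟩⟩
  rw [show ([⟨p ++ [x], cross s y z, q⟩, ⟨p, cross s x z, [y] ++ q⟩, ⟨p ++ [z], cross s x y, q⟩] : Word).length = 3 from rfl,
    show ([⟨p, cross s x y, [z] ++ q⟩, ⟨p ++ [y], cross s x z, q⟩, ⟨p, cross s y z, [x] ++ q⟩] : Word).length = 3 from rfl,
    DR3_last _ _ _ _ _ _ (hA s x y _) (hB y s x z _) (hA s y z _) t]
  exact DR3_braid p.length (sz s : R) hσ (t.1 0)

end Pool.Agent.Lib.MP_177a0e_gt.Sig
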