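import Pool.Agent.Lib.MP_177a0e_gt.Sig.Defs

/-!
# colourings: a strand passes a minimum or a maximum.

PROOFS (`L = |p|`, colourings `(t 0, t 1, t 2)`, `σ = sz s`, `σ ^ 2 = 1`).
* `d_slide_cup`: left side: `t 1 i = t 0 i` (`i ≤ L`), `t 1 (i + 2) = t 0 i` (`i ≥ L`), `t 2 i = t 1 i` (`i ≠ L + 2`), `t 2 (L + 2) = t 1 (L + 2) + σ (t 1 (L + 1) - t 1 (L + 3))`; with `a = t 0 L`, `b = t 0 (L + 1)`: `t 2 (L + 1) = τ` is free, `t 2 (L + 2) = a + σ (τ - b)`. Right side: `t 1 i = t 0 i` (`i ≤ L + 1`), `t 1 (i + 2) = t 0 i`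
  (`i ≥ L + 1`), `t 2 i = t 1 i` (`i ≠ L + 1`), `τ' = t 1 (L + 2)` free, `t 2 (L + 1) = b - σ (a - τ')`: the same condition on `t 2`. `Φ` keeps `t 0`, `t 2` and replaces `t 1` by `i ↦ if i ≤ L + 1 then t 0 i else if i = L + 2 then t 2 (L + 2) else t 0 (i - 2)`; the inverse replaces it by
  `i ↦ if i ≤ L then t 0 i else if i = L + 1 then t 2 (L + 1) else t 0 (i - 2)`.
* `d_slide_cap`: left side: `t 1 i = t 0 i` (`i ≠ L + 2`), `t 1 (L + 2) = c + σ (b - d)` (`a, b, c, d` the values of `t 0` at `L, .., L + 3`), the cap requires `a = c + σ (b - d)`, `t 2 i = t 0 i` for `i ≤ L`, `t 2 i = t 0 (i + 2)` for `i ≥ L + 1`. Right side: `t 1 (L + 1) = b - σ (a - c)`, the cap requires `b - σ (a - c) = d`: the same.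
  `Φ` replaces `t 1` by `i ↦ if i ≤ L + 1 then t 2 i else if i = L + 2 then t 0 (L + 2) else t 2 (i - 2)`, inverse `i ↦ if i ≤ L then t 2 i else if i = L + 1 then t 0 (L + 1) else t 2 (i - 2)`.
-/

namespace Pool.Agent.Lib.MP_177a0e_gt.Sig

open Pool.Agent.Lib.MP_177a0e_gt.Tangle Pool.Agent.Lib.MP_177a0e_gt.Tangle.Gen

variable {R : Type} [Field R]

private theorem ds_sz (s : Bool) : ((sz s : ℤ) : R) * ((sz s : ℤ) : R) = 1 := by
  cases s <;> simp [sz]

private theorem ds_sznot (s : Bool) : ((sz (!s) : ℤ) : R) = -((sz s : ℤ) : R) := by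
  cases s <;> simp [sz]

private theorem ds_iso (a1 a2 b1 b2 : Slice)
    (hab : ∀ x y z : ℕ → R, (x, y) ∈ colM R a1 → (y, z) ∈ colM R a2 → ∃ y', (x, y') ∈ colM R b1 ∧ (y', z) ∈ colM R b2)
    (hba : ∀ x y z : ℕ → R, (x, y) ∈ colM R b1 → (y, z) ∈ colM R b2 → ∃ y', (x, y') ∈ colM R a1 ∧ (y', z) ∈ colM R a2)
    (ua : ∀ x y y' z : ℕ → R, (x, y) ∈ colM R a1 → (y, z) ∈ colM R a2 → (x, y') ∈ colM R a1 → (y', z) ∈ colM R a2 → y = y')
    (ub : ∀ x y y' z : ℕ → R, (x, y) ∈ colM R b1 → (y, z) ∈ colM R b2 → (x, y') ∈ colM R b1 → (y', z) ∈ colM R b2 → y = y') :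
    DIso R [a1, a2] [b1, b2] := by
  classical
  have ext : ∀ (c1 c2 : Slice)
      (_ : ∀ x y y' z : ℕ → R, (x, y) ∈ colM R c1 → (y, z) ∈ colM R c2 → (x, y') ∈ colM R c1 → (y', z) ∈ colM R c2 → y = y')
      (t t' : De R [c1, c2]), t.1 0 = t'.1 0 → t.1 2 = t'.1 2 → t = t' := by
    intro c1 c2 hu t t' h0 h2
    obtain ⟨⟨m1, m2, _⟩, _, m3⟩ := t.2
    obtain ⟨⟨n1, n2, _⟩, _, n3⟩ := t'.2
    apply Subtype.ext
    funext j
    rcases Nat.lt_or_ge 2 j with hj | hj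
    · rw [m3 j hj, n3 j hj]
    · have hj' : j = 0 ∨ j = 1 ∨ j = 2 := by omega
      rcases hj' with rfl | rfl | rfl
      · exact h0
      · refine hu (t.1 0) _ _ (t.1 2) m1 m2 ?_ ?_
        · rw [h0]
          exact n1
        · rw [h2]
          exact n2
      · exact h2
  have mk : ∀ (c1 c2 d1 d2 : Slice)
      (_ : ∀ x y z : ℕ → R, (x, y) ∈ colM R c1 → (y, z) ∈ colM R c2 → ∃ y', (x, y') ∈ colM R d1 ∧ (y', z) ∈ colM R d2)
      (t : De R [c1, c2]), ∃ t' : De R [d1, d2], t'.1 0 = t.1 0 ∧ t'.1 2 = t.1 2 := by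
    intro c1 c2 d1 d2 h t
    obtain ⟨⟨m1, m2, _⟩, _, m3⟩ := t.2
    obtain ⟨y, h1, h2⟩ := h _ _ _ m1 m2
    refine ⟨⟨fun j => if j = 1 then y else t.1 j, ⟨⟨?_, ?_, trivial⟩, fun _ => Submodule.mem_top, ?_⟩⟩, ?_, ?_⟩
    · simpa using h1
    · simpa [sh] using h2
    · intro j hj
      have h3 : j ≠ 1 := by
        simp at hj
        omega
      simp only [h3, if_false]
      exact m3 j hj
    · simp
    · simp
  choose f hf0 hf2 using mk a1 a2 b1 b2 hab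
  choose g hg0 hg2 using mk b1 b2 a1 a2 hba
  refine ⟨{ toFun := f, invFun := g, left_inv := ?_, right_inv := ?_, map_add' := ?_, map_smul' := ?_ }, fun t => ⟨hf0 t, hf2 t⟩⟩
  · intro t t'
    apply ext b1 b2 ub
    · rw [hf0]
      change t.1 0 + t'.1 0 = (f t).1 0 + (f t').1 0
      rw [hf0, hf0]
    · rw [hf2]
      change t.1 2 + t'.1 2 = (f t).1 2 + (f t').1 2
      rw [hf2, hf2]
  · intro r t
    apply ext b1 b2 ub
    · rw [hf0]
      change r • t.1 0 = r • (f t).1 0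
      rw [hf0]
    · rw [hf2]
      change r • t.1 2 = r • (f t).1 2
      rw [hf2]
  · intro t
    apply ext a1 a2 ua
    · rw [hg0, hf0]
    · rw [hg2, hf2]
  · intro t
    apply ext b1 b2 ub
    · rw [hf0, hg0]
    · rw [hf2, hg2]

private theorem ds_cup (p q : List Bool) (e : Bool) (u v : ℕ → R) : (u, v) ∈ colM R ⟨p, cup e, q⟩ ↔
    (∀ i, i ≤ p.length → v i = u i) ∧ ∀ i, p.length ≤ i → v (i + 2) = u i := by
  change (Fit _ _ _ ∧ Col _ _ _) ↔ _
  simp only [Fit, Col, lp, and_true]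

private theorem ds_cap (p q : List Bool) (e : Bool) (u v : ℕ → R) : (u, v) ∈ colM R ⟨p, cap e, q⟩ ↔
    (∀ i, i ≤ p.length → u i = v i) ∧ ∀ i, p.length ≤ i → u (i + 2) = v i := by
  change (Fit _ _ _ ∧ Col _ _ _) ↔ _
  simp only [Fit, Col, lp, and_true]

private theorem ds_cross (p q : List Bool) (c x y : Bool) (u v : ℕ → R) : (u, v) ∈ colM R ⟨p, cross c x y, q⟩ ↔
    (∀ i, i ≠ p.length + 1 → v i = u i) ∧
      v (p.length + 1) - u (p.length + 1) = ((sz c : ℤ) : R) * (u p.length - u (p.length + 2)) := by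
  change (Fit _ _ _ ∧ Col _ _ _) ↔ _
  simp only [Fit, Col, lp]

private theorem ds_len (p : List Bool) (x : Bool) : (p ++ [x]).length = p.length + 1 := by simp

/-! the four conditions, in terms of `L` -/

private theorem ds_cup_fwd (L : ℕ) (σ : R) (hs : σ * σ = 1) (u v w : ℕ → R) (a1 : ∀ i, i ≤ L → v i = u i)
    (a2 : ∀ i, L ≤ i → v (i + 2) = u i) (b1 : ∀ i, i ≠ L + 1 + 1 → w i = v i)
    (b2 : w (L + 1 + 1) - v (L + 1 + 1) = σ * (v (L + 1) - v (L + 1 + 2))) :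
    ∃ y : ℕ → R, ((∀ i, i ≤ L + 1 → y i = u i) ∧ ∀ i, L + 1 ≤ i → y (i + 2) = u i) ∧
      (∀ i, i ≠ L + 1 → w i = y i) ∧ w (L + 1) - y (L + 1) = -σ * (y L - y (L + 2)) := by
  refine ⟨fun i => if i ≤ L + 1 then u i else if i = L + 2 then w (L + 2) else u (i - 2), ⟨?_, ?_⟩, ?_, ?_⟩
  · intro i hi
    simp only [hi, if_true]
  · intro i hi
    have e1 : ¬ i + 2 ≤ L + 1 := by omega
    have e2 : ¬ i + 2 = L + 2 := by omega
    simp only [e1, e2, if_false]
    rw [Nat.add_sub_cancel]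
  · intro i hi
    by_cases c1 : i ≤ L
    · have e1 : i ≤ L + 1 := by omega
      simp only [e1, if_true]
      rw [b1 i (by omega), a1 i c1]
    · by_cases c2 : i = L + 2
      · subst c2
        have e1 : ¬ L + 2 ≤ L + 1 := by omega
        simp only [e1, if_true, if_false]
      · have e1 : ¬ i ≤ L + 1 := by omega
        simp only [e1, c2, if_false]
        rw [b1 i (by omega)]
        have h3 := a2 (i - 2) (by omega)
        rwa [show i - 2 + 2 = i by omega] at h3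
  · have h3 := a2 L le_rfl
    have h4 := a2 (L + 1) (by omega)
    have h5 := b1 (L + 1) (by omega)
    have e1 : ¬ L + 2 ≤ L + 1 := by omega
    have e2 : L ≤ L + 1 := by omega
    simp only [le_refl, if_true, e1, e2, if_false]
    rw [show L + 1 + 1 = L + 2 by omega] at b2
    rw [h3, h4, ← h5] at b2
    linear_combination -σ * b2 - (w (L + 1) - u (L + 1)) * hs

private theorem ds_cup_bwd (L : ℕ) (σ : R) (hs : σ * σ = 1) (u v w : ℕ → R) (a1 : ∀ i, i ≤ L + 1 → v i = u i)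
    (a2 : ∀ i, L + 1 ≤ i → v (i + 2) = u i) (b1 : ∀ i, i ≠ L + 1 → w i = v i)
    (b2 : w (L + 1) - v (L + 1) = -σ * (v L - v (L + 2))) :
    ∃ y : ℕ → R, ((∀ i, i ≤ L → y i = u i) ∧ ∀ i, L ≤ i → y (i + 2) = u i) ∧
      (∀ i, i ≠ L + 1 + 1 → w i = y i) ∧ w (L + 1 + 1) - y (L + 1 + 1) = σ * (y (L + 1) - y (L + 1 + 2)) := by
  refine ⟨fun i => if i ≤ L then u i else if i = L + 1 then w (L + 1) else u (i - 2), ⟨?_, ?_⟩, ?_, ?_⟩
  · intro i hi
    simp only [hi, if_true]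
  · intro i hi
    have e1 : ¬ i + 2 ≤ L := by omega
    have e2 : ¬ i + 2 = L + 1 := by omega
    simp only [e1, e2, if_false]
    rw [Nat.add_sub_cancel]
  · intro i hi
    by_cases c1 : i ≤ L
    · simp only [c1, if_true]
      rw [b1 i (by omega), a1 i (by omega)]
    · by_cases c2 : i = L + 1
      · subst c2
        simp only [c1, if_true, if_false]
      · simp only [c1, c2, if_false]
        rw [b1 i (by omega)]
        have h3 := a2 (i - 2) (by omega)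
        rwa [show i - 2 + 2 = i by omega] at h3
  · have h3 := a1 L (by omega)
    have h4 := a1 (L + 1) le_rfl
    have h5 := b1 (L + 2) (by omega)
    have e1 : ¬ L + 1 ≤ L := by omega
    have e2 : ¬ L + 1 + 1 ≤ L := by omega
    have e3 : ¬ L + 1 + 1 = L + 1 := by omega
    have e4 : ¬ L + 1 + 2 ≤ L := by omega
    have e5 : ¬ L + 1 + 2 = L + 1 := by omega
    simp only [if_true, e1, e2, e3, e4, e5, if_false]
    rw [show L + 1 + 1 - 2 = L by omega, show L + 1 + 2 - 2 = L + 1 by omega, show L + 1 + 1 = L + 2 by omega]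
    rw [h3, h4, ← h5] at b2
    linear_combination -σ * b2 + (u L - w (L + 2)) * hs

private theorem ds_cup_unl (L : ℕ) (u v v' w : ℕ → R) (a1 : ∀ i, i ≤ L → v i = u i)
    (a2 : ∀ i, L ≤ i → v (i + 2) = u i) (b1 : ∀ i, i ≠ L + 1 + 1 → w i = v i) (a1' : ∀ i, i ≤ L → v' i = u i)
    (a2' : ∀ i, L ≤ i → v' (i + 2) = u i) (b1' : ∀ i, i ≠ L + 1 + 1 → w i = v' i) : v = v' := by
  funext i
  by_cases c1 : i = L + 1 + 1
  · subst c1
    rw [a2 L le_rfl, a2' L le_rfl]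
  · rw [← b1 i c1, ← b1' i c1]

private theorem ds_cup_unr (L : ℕ) (u v v' w : ℕ → R) (a1 : ∀ i, i ≤ L + 1 → v i = u i)
    (b1 : ∀ i, i ≠ L + 1 → w i = v i) (a1' : ∀ i, i ≤ L + 1 → v' i = u i)
    (b1' : ∀ i, i ≠ L + 1 → w i = v' i) : v = v' := by
  funext i
  by_cases c1 : i = L + 1
  · subst c1
    rw [a1 _ le_rfl, a1' _ le_rfl]
  · rw [← b1 i c1, ← b1' i c1]

private theorem ds_cap_fwd (L : ℕ) (σ : R) (hs : σ * σ = 1) (u v w : ℕ → R) (a1 : ∀ i, i ≠ L + 1 + 1 → v i = u i)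
    (a2 : v (L + 1 + 1) - u (L + 1 + 1) = σ * (u (L + 1) - u (L + 1 + 2))) (b1 : ∀ i, i ≤ L → v i = w i)
    (b2 : ∀ i, L ≤ i → v (i + 2) = w i) :
    ∃ y : ℕ → R, ((∀ i, i ≠ L + 1 → y i = u i) ∧ y (L + 1) - u (L + 1) = -σ * (u L - u (L + 2))) ∧
      (∀ i, i ≤ L + 1 → y i = w i) ∧ ∀ i, L + 1 ≤ i → y (i + 2) = w i := by
  refine ⟨fun i => if i ≤ L + 1 then w i else if i = L + 2 then u (L + 2) else w (i - 2), ⟨?_, ?_⟩, ?_, ?_⟩
  · intro i hi
    by_cases c1 : i ≤ L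
    · have e1 : i ≤ L + 1 := by omega
      simp only [e1, if_true]
      rw [← b1 i c1, a1 i (by omega)]
    · have e1 : ¬ i ≤ L + 1 := by omega
      by_cases c2 : i = L + 2
      · subst c2
        simp only [e1, if_true, if_false]
      · simp only [e1, c2, if_false]
        have h3 := b2 (i - 2) (by omega)
        rw [show i - 2 + 2 = i by omega] at h3
        rw [← h3, a1 i (by omega)]
  · have h3 := b2 L le_rfl
    have h4 := b1 L le_rfl
    have h5 := a1 L (by omega)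
    have h6 := b2 (L + 1) (by omega)
    have h7 := a1 (L + 1 + 2) (by omega)
    simp only [le_refl, if_true]
    rw [show L + 1 + 1 = L + 2 by omega] at a2
    rw [h3, ← h4, h5, ← h7, h6] at a2
    linear_combination σ * a2 + (u (L + 1) - w (L + 1)) * hs
  · intro i hi
    simp only [hi, if_true]
  · intro i hi
    have e1 : ¬ i + 2 ≤ L + 1 := by omega
    have e2 : ¬ i + 2 = L + 2 := by omega
    simp only [e1, e2, if_false]
    rw [Nat.add_sub_cancel]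

private theorem ds_cap_bwd (L : ℕ) (σ : R) (hs : σ * σ = 1) (u v w : ℕ → R) (a1 : ∀ i, i ≠ L + 1 → v i = u i)
    (a2 : v (L + 1) - u (L + 1) = -σ * (u L - u (L + 2))) (b1 : ∀ i, i ≤ L + 1 → v i = w i)
    (b2 : ∀ i, L + 1 ≤ i → v (i + 2) = w i) :
    ∃ y : ℕ → R, ((∀ i, i ≠ L + 1 + 1 → y i = u i) ∧
        y (L + 1 + 1) - u (L + 1 + 1) = σ * (u (L + 1) - u (L + 1 + 2))) ∧
      (∀ i, i ≤ L → y i = w i) ∧ ∀ i, L ≤ i → y (i + 2) = w i := by
  refine ⟨fun i => if i ≤ L then w i else if i = L + 1 then u (L + 1) else w (i - 2), ⟨?_, ?_⟩, ?_, ?_⟩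
  · intro i hi
    by_cases c1 : i ≤ L
    · simp only [c1, if_true]
      rw [← b1 i (by omega), a1 i (by omega)]
    · by_cases c2 : i = L + 1
      · subst c2
        simp only [c1, if_true, if_false]
      · simp only [c1, c2, if_false]
        have h3 := b2 (i - 2) (by omega)
        rw [show i - 2 + 2 = i by omega] at h3
        rw [← h3, a1 i (by omega)]
  · have h3 := b1 L (by omega)
    have h4 := a1 L (by omega)
    have h5 := b1 (L + 1) le_rfl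
    have h6 := b2 (L + 1) le_rfl
    have h7 := a1 (L + 1 + 2) (by omega)
    have e2 : ¬ L + 1 + 1 ≤ L := by omega
    have e3 : ¬ L + 1 + 1 = L + 1 := by omega
    simp only [e2, e3, if_false]
    rw [show L + 1 + 1 - 2 = L by omega, show L + 1 + 1 = L + 2 by omega]
    rw [h5] at a2
    rw [← h3, h4, ← h7, h6]
    linear_combination σ * a2 - (u L - u (L + 2)) * hs
  · intro i hi
    simp only [hi, if_true]
  · intro i hi
    have e1 : ¬ i + 2 ≤ L := by omega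
    have e2 : ¬ i + 2 = L + 1 := by omega
    simp only [e1, e2, if_false]
    rw [Nat.add_sub_cancel]

private theorem ds_cap_unl (L : ℕ) (u v v' w : ℕ → R) (a1 : ∀ i, i ≠ L + 1 + 1 → v i = u i)
    (b2 : ∀ i, L ≤ i → v (i + 2) = w i) (a1' : ∀ i, i ≠ L + 1 + 1 → v' i = u i)
    (b2' : ∀ i, L ≤ i → v' (i + 2) = w i) : v = v' := by
  funext i
  by_cases c1 : i = L + 1 + 1
  · subst c1
    rw [b2 L le_rfl, b2' L le_rfl]
  · rw [a1 i c1, a1' i c1]

private theorem ds_cap_unr (L : ℕ) (u v v' w : ℕ → R) (a1 : ∀ i, i ≠ L + 1 → v i = u i)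
    (b1 : ∀ i, i ≤ L + 1 → v i = w i) (a1' : ∀ i, i ≠ L + 1 → v' i = u i)
    (b1' : ∀ i, i ≤ L + 1 → v' i = w i) : v = v' := by
  funext i
  by_cases c1 : i = L + 1
  · subst c1
    rw [b1 _ le_rfl, b1' _ le_rfl]
  · rw [a1 i c1, a1' i c1]

theorem d_slide_cup (s e x : Bool) (p q : List Bool) :
    DIso R [⟨p, cup e, [x] ++ q⟩, ⟨p ++ [e], cross s (!e) x, q⟩] [⟨p ++ [x], cup e, q⟩, ⟨p, cross (!s) x e, [!e] ++ q⟩] := by
  have hs := ds_sz (R := R) s
  apply ds_iso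
  · intro u v w h1 h2
    rw [ds_cup] at h1
    rw [ds_cross, ds_len] at h2
    obtain ⟨y, h3, h4⟩ := ds_cup_fwd p.length _ hs u v w h1.1 h1.2 h2.1 h2.2
    refine ⟨y, ?_, ?_⟩
    · rw [ds_cup, ds_len]
      exact h3
    · rw [ds_cross, ds_sznot]
      exact h4
  · intro u v w h1 h2
    rw [ds_cup, ds_len] at h1
    rw [ds_cross, ds_sznot] at h2
    obtain ⟨y, h3, h4⟩ := ds_cup_bwd p.length _ hs u v w h1.1 h1.2 h2.1 h2.2
    refine ⟨y, ?_, ?_⟩
    · rw [ds_cup]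
      exact h3
    · rw [ds_cross, ds_len]
      exact h4
  · intro u v v' w h1 h2 h3 h4
    rw [ds_cup] at h1 h3
    rw [ds_cross, ds_len] at h2 h4
    exact ds_cup_unl p.length u v v' w h1.1 h1.2 h2.1 h3.1 h3.2 h4.1
  · intro u v v' w h1 h2 h3 h4
    rw [ds_cup, ds_len] at h1 h3
    rw [ds_cross] at h2 h4
    exact ds_cup_unr p.length u v v' w h1.1 h2.1 h3.1 h4.1

theorem d_slide_cap (s e x : Bool) (p q : List Bool) :
    DIso R [⟨p ++ [e], cross s x (!e), q⟩, ⟨p, cap e, [x] ++ q⟩] [⟨p, cross (!s) e x, [!e] ++ q⟩, ⟨p ++ [x], cap e, q⟩] := by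
  have hs := ds_sz (R := R) s
  apply ds_iso
  · intro u v w h1 h2
    rw [ds_cross, ds_len] at h1
    rw [ds_cap] at h2
    obtain ⟨y, h3, h4⟩ := ds_cap_fwd p.length _ hs u v w h1.1 h1.2 h2.1 h2.2
    refine ⟨y, ?_, ?_⟩
    · rw [ds_cross, ds_sznot]
      exact h3
    · rw [ds_cap, ds_len]
      exact h4
  · intro u v w h1 h2
    rw [ds_cross, ds_sznot] at h1
    rw [ds_cap, ds_len] at h2
    obtain ⟨y, h3, h4⟩ := ds_cap_bwd p.length _ hs u v w h1.1 h1.2 h2.1 h2.2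
    refine ⟨y, ?_, ?_⟩
    · rw [ds_cross, ds_len]
      exact h3
    · rw [ds_cap]
      exact h4
  · intro u v v' w h1 h2 h3 h4
    rw [ds_cross, ds_len] at h1 h3
    rw [ds_cap] at h2 h4
    exact ds_cap_unl p.length u v v' w h1.1 h2.2 h3.1 h4.2
  · intro u v v' w h1 h2 h3 h4
    rw [ds_cross] at h1 h3
    rw [ds_cap, ds_len] at h2 h4
    exact ds_cap_unr p.length u v v' w h1.1 h2.1 h3.1 h4.1

end Pool.Agent.Lib.MP_177a0e_gt.Sig
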