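import Pool.Agent.Lib.MP_177a0e_gt.Sig.Defs

/-!
# colourings: zigzags and births, crossing changes modulo 2.

A colouring of `[]` is `(t 0)` (all other levels zero). `L = |p|`.
* `d_zig1`: a state of the left side is `(t 0, t 1, t 2)`, `t 1 i = t 0 i` for `i ≤ L + 1`, `t 1 (i + 2) = t 0 i`
  for `i ≥ L + 1`, `t 1 i = t 2 i` for `i ≤ L`, `t 1 (i + 2) = t 2 i` for `i ≥ L`. So `t 2 = t 0` and `t 1` is
  determined by `t 0`: `t 1 i = if i ≤ L + 1 then t 0 i else t 0 (i - 2)`.
* `d_zig2`: the same formula for `t 1`.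
* `d_birth`: `t 2 = t 0`, `t 1` is `t 0` shifted, with the free value `t 1 (L + 1)`.
* `d_change`: over `ZMod 2` the conditions `Col` for `s` and `!s` agree.
-/

namespace Pool.Agent.Lib.MP_177a0e_gt.Sig

open Pool.Agent.Lib.MP_177a0e_gt.Tangle Pool.Agent.Lib.MP_177a0e_gt.Tangle.Gen

variable {R : Type} [Field R]

/-- the middle level of a zigzag with the outer level `f` -/
private def zmid (L : ℕ) (f : ℕ → R) : ℕ → R := fun i => if i ≤ L + 1 then f i else f (i - 2)

/-- the levels `f`, `g`, `f` -/
private def lev3 (f g : ℕ → R) : ℕ → ℕ → R := fun j => if j = 0 then f else if j = 1 then g else if j = 2 then f else 0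

/-- the level `f` alone -/
private def lev1 (f : ℕ → R) : ℕ → ℕ → R := fun j => if j = 0 then f else 0

private theorem lev1_mem (f : ℕ → R) : lev1 f ∈ De R [] :=
  ⟨trivial, fun _ => Submodule.mem_top, fun j hj => by
    have : j ≠ 0 := by simp only [List.length_nil] at hj; omega
    simp [lev1, this]⟩

private theorem eq_lev1 {t : ℕ → ℕ → R} (h : t ∈ De R []) : t = lev1 (t 0) := by
  funext j
  by_cases hj : j = 0
  · subst hj; simp [lev1]
  · have := h.2.2 j (by simp only [List.length_nil]; omega)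
    rw [this]; simp [lev1, hj]

/-- the general form of the two zigzags: all the states have the middle level `zmid` and equal outer levels -/
private theorem zig_aux (L : ℕ) (s₁ s₂ : Slice)
    (h₁ : ∀ t : ℕ → ℕ → R, t ∈ De R [s₁, s₂] → t 1 = zmid L (t 0) ∧ t 2 = t 0)
    (h₂ : ∀ f : ℕ → R, lev3 f (zmid L f) ∈ De R [s₁, s₂]) : DIso R [s₁, s₂] [] := by
  refine ⟨{ toFun := fun t => ⟨lev1 (t.1 0), lev1_mem _⟩
            invFun := fun t => ⟨lev3 (t.1 0) (zmid L (t.1 0)), h₂ _⟩
            map_add' := ?_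
            map_smul' := ?_
            left_inv := ?_
            right_inv := ?_ }, ?_⟩
  · intro a b
    apply Subtype.ext
    funext j i
    by_cases hj : j = 0 <;> simp [lev1, hj]
  · intro r a
    apply Subtype.ext
    funext j i
    by_cases hj : j = 0 <;> simp [lev1, hj]
  · intro t
    apply Subtype.ext
    funext j
    obtain ⟨e1, e2⟩ := h₁ t.1 t.2
    show lev3 (lev1 (t.1 0) 0) (zmid L (lev1 (t.1 0) 0)) j = t.1 j
    have e0 : lev1 (t.1 0) 0 = t.1 0 := by simp [lev1]
    rw [e0]
    by_cases h0 : j = 0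
    · subst h0; simp [lev3]
    · by_cases h1 : j = 1
      · subst h1; simp [lev3, e1]
      · by_cases h2 : j = 2
        · subst h2; simp [lev3, e2]
        · have := t.2.2.2 j (by simp only [List.length_cons, List.length_nil]; omega)
          rw [this]; simp [lev3, h0, h1, h2]
  · intro t
    apply Subtype.ext
    show lev1 (lev3 (t.1 0) (zmid L (t.1 0)) 0) = t.1
    have e0 : lev3 (t.1 0) (zmid L (t.1 0)) 0 = t.1 0 := by simp [lev3]
    rw [e0]
    exact (eq_lev1 t.2).symm
  · intro t
    obtain ⟨e1, e2⟩ := h₁ t.1 t.2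
    have e0 : lev1 (t.1 0) 0 = t.1 0 := by simp [lev1]
    refine ⟨e0, ?_⟩
    show lev1 (t.1 0) 0 = t.1 2
    rw [e0, e2]

theorem d_zig1 (x : Bool) (p q : List Bool) : DIso R [⟨p ++ [x], cup (!x), q⟩, ⟨p, cap x, [x] ++ q⟩] [] := by
  refine zig_aux p.length _ _ ?_ ?_
  · intro t ht
    obtain ⟨⟨⟨a1, a2⟩, -⟩, ⟨⟨b1, b2⟩, -⟩, -⟩ := ht.1
    simp only [lp, List.length_append, List.length_cons, List.length_nil, zero_add, sh] at a1 a2 b1 b2
    have e1 : t 1 = zmid p.length (t 0) := by
      funext i
      by_cases hi : i ≤ p.length + 1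
      · simp only [zmid, hi, if_true]; exact a1 i hi
      · simp only [zmid, hi, if_false]
        by_cases h2 : i = p.length + 2
        · have c1 := b2 p.length le_rfl
          have c2 := b1 p.length le_rfl
          have c3 := a1 p.length (by omega)
          subst h2
          rw [show p.length + 2 - 2 = p.length by omega]
          simp only [Nat.reduceAdd] at c1 c2
          rw [c1, ← c2, c3]
        · have c1 := a2 (i - 2) (by omega)
          rwa [show i - 2 + 2 = i by omega] at c1
    refine ⟨e1, ?_⟩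
    funext i
    simp only [Nat.reduceAdd] at b1 b2
    by_cases hi : i ≤ p.length
    · rw [← b1 i hi, a1 i (by omega)]
    · rw [← b2 i (by omega), e1]
      simp only [zmid]
      rw [if_neg (by omega)]
      rfl
  · intro f
    refine ⟨⟨⟨⟨?_, ?_⟩, trivial⟩, ⟨⟨?_, ?_⟩, trivial⟩, trivial⟩, fun _ => Submodule.mem_top, ?_⟩
    · intro i hi
      simp only [lp, List.length_append, List.length_cons, List.length_nil, zero_add] at hi
      simp [lev3, zmid, hi]
    · intro i hi
      simp only [lp, List.length_append, List.length_cons, List.length_nil, zero_add] at hi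
      have : ¬ i + 2 ≤ p.length + 1 := by omega
      simp [lev3, zmid, this]
    · intro i hi
      simp only [lp] at hi
      have : i ≤ p.length + 1 := by omega
      simp [lev3, zmid, sh, this]
    · intro i hi
      simp only [lp] at hi
      have : ¬ i + 2 ≤ p.length + 1 := by omega
      simp [lev3, zmid, sh, this]
    · intro j hj
      simp only [List.length_cons, List.length_nil] at hj
      have h0 : j ≠ 0 := by omega
      have h1 : j ≠ 1 := by omega
      have h2 : j ≠ 2 := by omega
      simp [lev3, h0, h1, h2]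

theorem d_zig2 (x : Bool) (p q : List Bool) : DIso R [⟨p, cup x, [x] ++ q⟩, ⟨p ++ [x], cap (!x), q⟩] [] := by
  refine zig_aux p.length _ _ ?_ ?_
  · intro t ht
    obtain ⟨⟨⟨a1, a2⟩, -⟩, ⟨⟨b1, b2⟩, -⟩, -⟩ := ht.1
    simp only [lp, List.length_append, List.length_cons, List.length_nil, zero_add, sh] at a1 a2 b1 b2
    simp only [Nat.reduceAdd] at b1 b2
    have e2 : t 2 = t 0 := by
      funext i
      by_cases hi : i ≤ p.length
      · rw [← b1 i (by omega), a1 i hi]
      · rw [← b2 i (by omega), a2 i (by omega)]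
    refine ⟨?_, e2⟩
    funext i
    by_cases hi : i ≤ p.length + 1
    · simp only [zmid, hi, if_true]
      rw [b1 i hi, e2]
    · simp only [zmid, hi, if_false]
      have c1 := a2 (i - 2) (by omega)
      rwa [show i - 2 + 2 = i by omega] at c1
  · intro f
    refine ⟨⟨⟨⟨?_, ?_⟩, trivial⟩, ⟨⟨?_, ?_⟩, trivial⟩, trivial⟩, fun _ => Submodule.mem_top, ?_⟩
    · intro i hi
      simp only [lp] at hi
      have : i ≤ p.length + 1 := by omega
      simp [lev3, zmid, this]
    · intro i hi
      simp only [lp] at hi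
      have : ¬ i + 2 ≤ p.length + 1 := by omega
      simp [lev3, zmid, this]
    · intro i hi
      simp only [lp, List.length_append, List.length_cons, List.length_nil, zero_add] at hi
      simp [lev3, zmid, sh, hi]
    · intro i hi
      simp only [lp, List.length_append, List.length_cons, List.length_nil, zero_add] at hi
      have : ¬ i + 2 ≤ p.length + 1 := by omega
      simp [lev3, zmid, sh, this]
    · intro j hj
      simp only [List.length_cons, List.length_nil] at hj
      have h0 : j ≠ 0 := by omega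
      have h1 : j ≠ 1 := by omega
      have h2 : j ≠ 2 := by omega
      simp [lev3, h0, h1, h2]

/-- `f` with two gaps inserted, the middle one with the value `r` -/
private def bmid (L : ℕ) (f : ℕ → R) (r : R) : ℕ → R :=
  fun i => if i ≤ L then f i else if i = L + 1 then r else f (i - 2)

theorem d_birth (x : Bool) (p q : List Bool) : DAdd R [⟨p, cup x, q⟩, ⟨p, cap x, q⟩] [] := by
  have key : ∀ t : ℕ → ℕ → R, t ∈ De R [⟨p, cup x, q⟩, ⟨p, cap x, q⟩] →
      t 1 = bmid p.length (t 0) (t 1 (p.length + 1)) ∧ t 2 = t 0 := by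
    intro t ht
    obtain ⟨⟨⟨a1, a2⟩, -⟩, ⟨⟨b1, b2⟩, -⟩, -⟩ := ht.1
    simp only [lp, sh] at a1 a2 b1 b2
    simp only [Nat.reduceAdd] at b1 b2
    refine ⟨?_, ?_⟩
    · funext i
      by_cases hi : i ≤ p.length
      · simp only [bmid, hi, if_true]; exact a1 i hi
      · by_cases h1 : i = p.length + 1
        · subst h1; simp [bmid]
        · simp only [bmid, hi, h1, if_false]
          have c1 := a2 (i - 2) (by omega)
          rwa [show i - 2 + 2 = i by omega] at c1
    · funext i
      by_cases hi : i ≤ p.length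
      · rw [← b1 i hi, a1 i hi]
      · rw [← b2 i (by omega), a2 i (by omega)]
  have mem : ∀ (f : ℕ → R) (r : R), lev3 f (bmid p.length f r) ∈ De R [⟨p, cup x, q⟩, ⟨p, cap x, q⟩] := by
    intro f r
    refine ⟨⟨⟨⟨?_, ?_⟩, trivial⟩, ⟨⟨?_, ?_⟩, trivial⟩, trivial⟩, fun _ => Submodule.mem_top, ?_⟩
    · intro i hi
      simp only [lp] at hi
      simp [lev3, bmid, hi]
    · intro i hi
      simp only [lp] at hi
      have h1 : ¬ i + 2 ≤ p.length := by omega
      have h2 : ¬ i + 2 = p.length + 1 := by omega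
      simp only [lev3, bmid, h1, h2, if_false, if_true, one_ne_zero, Nat.add_sub_cancel]
    · intro i hi
      simp only [lp] at hi
      simp [lev3, bmid, sh, hi]
    · intro i hi
      simp only [lp] at hi
      have h1 : ¬ i + 2 ≤ p.length := by omega
      have h2 : ¬ i + 2 = p.length + 1 := by omega
      simp [lev3, bmid, sh, h1, h2]
    · intro j hj
      simp only [List.length_cons, List.length_nil] at hj
      have h0 : j ≠ 0 := by omega
      have h1 : j ≠ 1 := by omega
      have h2 : j ≠ 2 := by omega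
      simp [lev3, h0, h1, h2]
  refine ⟨{ toFun := fun t => (⟨lev1 (t.1 0), lev1_mem _⟩, t.1 1 (p.length + 1))
            invFun := fun t => ⟨lev3 (t.1.1 0) (bmid p.length (t.1.1 0) t.2), mem _ _⟩
            map_add' := ?_
            map_smul' := ?_
            left_inv := ?_
            right_inv := ?_ }, ?_⟩
  · intro a b
    refine Prod.ext (Subtype.ext ?_) rfl
    funext j i
    by_cases hj : j = 0 <;> simp [lev1, hj]
  · intro r a
    refine Prod.ext (Subtype.ext ?_) rfl
    funext j i
    by_cases hj : j = 0 <;> simp [lev1, hj]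
  · intro t
    apply Subtype.ext
    funext j
    obtain ⟨e1, e2⟩ := key t.1 t.2
    show lev3 (lev1 (t.1 0) 0) (bmid p.length (lev1 (t.1 0) 0) (t.1 1 (p.length + 1))) j = t.1 j
    have e0 : lev1 (t.1 0) 0 = t.1 0 := by simp [lev1]
    rw [e0, ← e1]
    by_cases h0 : j = 0
    · subst h0; simp [lev3]
    · by_cases h1 : j = 1
      · subst h1; simp [lev3]
      · by_cases h2 : j = 2
        · subst h2; simp [lev3, e2]
        · have := t.2.2.2 j (by simp only [List.length_cons, List.length_nil]; omega)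
          rw [this]; simp [lev3, h0, h1, h2]
  · rintro ⟨t, r⟩
    have e0 : lev3 (t.1 0) (bmid p.length (t.1 0) r) 0 = t.1 0 := by simp [lev3]
    refine Prod.ext (Subtype.ext ?_) ?_
    · show lev1 (lev3 (t.1 0) (bmid p.length (t.1 0) r) 0) = t.1
      rw [e0]
      exact (eq_lev1 t.2).symm
    · show lev3 (t.1 0) (bmid p.length (t.1 0) r) 1 (p.length + 1) = r
      simp [lev3, bmid]
  · intro t
    obtain ⟨e1, e2⟩ := key t.1 t.2
    have e0 : lev1 (t.1 0) 0 = t.1 0 := by simp [lev1]
    refine ⟨e0, ?_⟩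
    show lev1 (t.1 0) 0 = t.1 2
    rw [e0, e2]

private theorem mem_change (s x y : Bool) (p q : List Bool) (t : ℕ → ℕ → ZMod 2)
    (ht : t ∈ De (ZMod 2) [⟨p, cross s x y, q⟩]) : t ∈ De (ZMod 2) [⟨p, cross (!s) x y, q⟩] := by
  obtain ⟨⟨⟨h1, h2⟩, -⟩, h3, h4⟩ := ht
  refine ⟨⟨⟨h1, ?_⟩, trivial⟩, h3, h4⟩
  have e : ((sz (!s) : ℤ) : ZMod 2) = ((sz s : ℤ) : ZMod 2) := by
    cases s <;> decide
  simp only [Col] at h2 ⊢
  rw [e]
  exact h2

theorem d_change (s x y : Bool) (p q : List Bool) : DIso (ZMod 2) [⟨p, cross s x y, q⟩] [⟨p, cross (!s) x y, q⟩] := by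
  have hinv : ∀ t : ℕ → ℕ → ZMod 2, t ∈ De (ZMod 2) [⟨p, cross (!s) x y, q⟩] →
      t ∈ De (ZMod 2) [⟨p, cross s x y, q⟩] := by
    intro t ht
    have := mem_change (!s) x y p q t ht
    rwa [Bool.not_not] at this
  have e : De (ZMod 2) [⟨p, cross s x y, q⟩] = De (ZMod 2) [⟨p, cross (!s) x y, q⟩] :=
    le_antisymm (fun t ht => mem_change s x y p q t ht) (fun t ht => hinv t ht)
  exact ⟨LinearEquiv.ofEq _ _ e, fun t => ⟨rfl, rfl⟩⟩

end Pool.Agent.Lib.MP_177a0e_gt.Sig
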