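import Pool.Agent.Lib.MP_177a0e_gt.Sig.Cx1
import Pool.Agent.Lib.MP_177a0e_gt.Sig.DI
import Pool.Agent.Lib.MP_177a0e_gt.Sig.DZ
import Pool.Agent.Lib.MP_177a0e_gt.Sig.DR1
import Pool.Agent.Lib.MP_177a0e_gt.Sig.DR3
import Pool.Agent.Lib.MP_177a0e_gt.Sig.DS

/-!
# the dimension of the space of colourings.

PROOFS. `fr_rel`: `cases` on `Rel`, `fr_diso`. `fr_birth`: `d_birth`, `fr_dadd`. `fr_change`: `d_change`, `fr_diso`. `fr_nil`: a closed state of `[]` is `0` (`x 0 = 0` and `x j = 0` for `j > 0`). `fr_knot`: induction on `Relation.EqvGen`: all words have the same dimension over `ZMod 2`, for `[]` it is `0`.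
-/

namespace Pool.Agent.Lib.MP_177a0e_gt.Sig

open Pool.Agent.Lib.MP_177a0e_gt.Tangle Pool.Agent.Lib.MP_177a0e_gt.Tangle.Gen

variable {R : Type} [Field R]

theorem fr_rel {a b : Word} (h : Rel a b) (u v : Word) :
    Module.finrank R (Dehn R (u ++ a ++ v)) = Module.finrank R (Dehn R (u ++ b ++ v)) := by
  cases h with
  | interchange g g' p q r => exact fr_diso (d_inter g g' p q r) u v
  | zigzag₁ x p q => exact fr_diso (d_zig1 x p q) u v
  | zigzag₂ x p q => exact fr_diso (d_zig2 x p q) u v
  | r1_cup s x p q => exact fr_diso (d_r1cup s x p q) u v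
  | r1_cap s x p q => exact fr_diso (d_r1cap s x p q) u v
  | r2 s x y p q => exact fr_diso (d_r2 s x y p q) u v
  | r3 s x y z p q => exact fr_diso (d_r3 s x y z p q) u v
  | slide_cup s e x p q => exact fr_diso (d_slide_cup s e x p q) u v
  | slide_cap s e x p q => exact fr_diso (d_slide_cap s e x p q) u v

theorem fr_birth {a b : Word} (h : BirthRel a b) (u v : Word) :
    Module.finrank R (Dehn R (u ++ b ++ v)) = Module.finrank R (Dehn R (u ++ a ++ v)) + 1 := by
  cases h with
  | mk x p q => exact fr_dadd (d_birth x p q) u v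

theorem fr_change {a b : Word} (h : ChangeRel a b) (u v : Word) :
    Module.finrank (ZMod 2) (Dehn (ZMod 2) (u ++ a ++ v)) = Module.finrank (ZMod 2) (Dehn (ZMod 2) (u ++ b ++ v)) := by
  cases h with
  | mk s x y p q => exact fr_diso (d_change s x y p q) u v

theorem fr_nil : Module.finrank R (Dehn R []) = 0 := by
  have h : Dehn R [] = ⊥ := by
    rw [eq_bot_iff]
    rintro x ⟨⟨-, -, h2⟩, h3⟩
    rw [Submodule.mem_bot]
    funext j
    rcases Nat.eq_zero_or_pos j with h0 | h0
    · rw [h0]
      exact h3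
    · exact h2 j h0
  rw [h]
  exact finrank_bot R _

theorem fr_knot {w : Word} (h : IsKnot w) : Module.finrank (ZMod 2) (Dehn (ZMod 2) w) = 0 := by
  have key : ∀ a b : Word, Relation.EqvGen
      (fun a b => Local Rel [true] [true] a b ∨ Local ChangeRel [true] [true] a b) a b →
      Module.finrank (ZMod 2) (Dehn (ZMod 2) a) = Module.finrank (ZMod 2) (Dehn (ZMod 2) b) := by
    intro a b hab
    induction hab with
    | rel a b h =>
      rcases h with h | h
      · cases h with
        | mk u a b v h _ _ => exact fr_rel h u v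
      · cases h with
        | mk u a b v h _ _ => exact fr_change h u v
    | refl a => rfl
    | symm a b _ ih => exact ih.symm
    | trans a b c _ _ ih₁ ih₂ => exact ih₁.trans ih₂
  rw [key w [] h, fr_nil]

end Pool.Agent.Lib.MP_177a0e_gt.Sig
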