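import Pool.Agent.Lib.MP_177a0e_gt.Sig.Defs

/-!
# the closed states form a finite-dimensional space.

PROOFS.
* `fd_inj`: if `x` is a run of `w` for a relation contained in `fitM`, `x 0 = 0` and the new values `x (j + 1) (lp w_j + 1)` are `0` for all `j < |w|` then `x j = 0` for all `j ≤ |w|`: induction on `w` (for `sh 1 x`): for a cup `y i = x i` (`i ≤ L`), `y (i + 2) = x i` (`i ≥ L`), so `y` is zero except at `L + 1`;
  for a cap `y i = x i` or `x (i + 2)`; for a crossing `y i = x i` for `i ≠ L + 1`.
* `fd`: the linear map `Closed P Λ w → (Fin w.length → R)`, `x ↦ (j ↦ x (j + 1) (lp w[j] + 1))`, is injective: `FiniteDimensional.of_injective` (`Module.Finite.of_injective`).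
-/

namespace Pool.Agent.Lib.MP_177a0e_gt.Sig

open Pool.Agent.Lib.MP_177a0e_gt.Tangle Pool.Agent.Lib.MP_177a0e_gt.Tangle.Gen

variable {R : Type} [Field R] {P : Slice → Submodule R ((ℕ → R) × (ℕ → R))} {Λ : Submodule R (ℕ → R)}

/-- if the lower level is zero and the new value is zero then the upper level is zero -/
private theorem fd_step (s : Slice) (x y : ℕ → R) (h : Fit s x y) (hx : x = 0) (hn : y (lp s + 1) = 0) : y = 0 := by
  subst hx
  rcases s with ⟨p, _ | _ | _, q⟩
  · funext i
    rcases lt_trichotomy i (p.length + 1) with hi | hi | hi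
    · exact h.1 i (Nat.le_of_lt_succ hi)
    · rw [hi]
      exact hn
    · obtain ⟨m, rfl⟩ : ∃ m, i = m + 2 := ⟨i - 2, by omega⟩
      exact h.2 m (show p.length ≤ m by omega)
  · funext i
    rcases Nat.lt_or_ge i p.length with hi | hi
    · exact (h.1 i hi.le).symm
    · exact (h.2 i hi).symm
  · funext i
    rcases eq_or_ne i (p.length + 1) with hi | hi
    · rw [hi]
      exact hn
    · exact h i hi

theorem fd_inj (hP : ∀ s, P s ≤ fitM R s) (w : Word) (x : ℕ → ℕ → R) (h : Run P w x) (h0 : x 0 = 0)
    (h1 : ∀ j (hj : j < w.length), x (j + 1) (lp w[j] + 1) = 0) : ∀ j, j ≤ w.length → x j = 0 := by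
  induction w generalizing x with
  | nil =>
    intro j hj
    have : j = 0 := by simpa using hj
    rw [this, h0]
  | cons s w ih =>
    have hs : x 1 = 0 := fd_step s (x 0) (x 1) (hP s h.1) h0 (h1 0 (by simp))
    intro j hj
    cases j with
    | zero => exact h0
    | succ j =>
      exact ih (sh 1 x) h.2 hs (fun i hi => h1 (i + 1) (by simpa using hi)) j (by simpa using hj)

theorem fd (hP : ∀ s, P s ≤ fitM R s) (Λ : Submodule R (ℕ → R)) (w : Word) : FiniteDimensional R (Closed P Λ w) := by
  let f : Closed P Λ w →ₗ[R] (Fin w.length → R) :=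
    { toFun := fun x j => x.1 ((j : ℕ) + 1) (lp w[j] + 1)
      map_add' := fun _ _ => rfl
      map_smul' := fun _ _ => rfl }
  refine Module.Finite.of_injective f ?_
  rw [injective_iff_map_eq_zero]
  rintro ⟨x, hx⟩ h0
  apply Subtype.ext
  have hr : x ∈ Runs P Λ w := hx.1
  have h2 := fd_inj hP w x hr.1 hx.2 fun j hj => congrFun h0 (⟨j, hj⟩ : Fin w.length)
  funext j
  rcases Nat.lt_or_ge w.length j with hj | hj
  · exact hr.2.2 j hj
  · exact h2 j hj

instance fdW (w : Word) : FiniteDimensional ℚ (White w) := fd (P := fitM ℚ) (fun _ => le_refl _) _ w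

instance fdD (w : Word) : FiniteDimensional R (Dehn R w) := fd (P := colM R) (fun _ _ h => h.1) _ w

end Pool.Agent.Lib.MP_177a0e_gt.Sig
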