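import Pool.Agent.Lib.MP_177a0e_gt.Sig.TbB

/-!
# the two-bridge words are knots.

PROOFS.
* `tb_knot`: `Homotopic (twoBridge l) []` (`Homotopic` is in `TangleMain.lean`, `IsKnot w` is `Homotopic w []`): a letter `false` can be removed: change its second crossing to `cross true false true` (`ChangeRel.mk`), then `Rel.r2` (`[⟨[true], cross false true false, []⟩, ⟨[true], cross (!false) false true, []⟩] → []`). Two neighbouring letters `true`: change the first one
  (`cross false true true`) and `Rel.r2` (`[cross false true true, cross (!false) true true] → []`). Induction on the length of the list: first remove all `false`, then `true ^ (2 n + 1)`: remove pairs; `twoBridge [true]` is isotopic to `[]` (`tb_one`; a `Cob` without births, saddles, deaths gives `Homotopic`: induction on `Cob`, or repeat its three steps).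
* `tbs_knot`: induction on the list, `IsKnot.append` (`TangleMain.lean`). `tbs_saddles`: `tb_saddles` in a connected sum (`Cob.ctx`, `Cob.trans`): `count true - 1 = 2 (count true / 2)` for an odd number.
* `tbs_min`: `ext_of_saddles` (`OneMin.lean`) and `Nat.sInf_le` (`oneMinGenus`).
-/

namespace Pool.Agent.Lib.MP_177a0e_gt.Sig

open Pool.Agent.Lib.MP_177a0e_gt.Tangle Pool.Agent.Lib.MP_177a0e_gt.Tangle.Gen

private theorem TbK_false {u v : Word} (hu : Valid [true] u [true, true, false])
    (hv : Valid [true, true, false] v [true]) :
    Homotopic (u ++ [⟨[true], cross false true false, []⟩, ⟨[true], cross false false true, []⟩] ++ v)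
      (u ++ [] ++ v) := by
  have hm : Valid [true, true, false]
      [⟨[true], cross false true false, []⟩, ⟨[true], cross false false true, []⟩] [true, true, false] :=
    ⟨rfl, rfl, rfl⟩
  have hm' : Valid [true, true, false]
      [⟨[true], cross false true false, []⟩, ⟨[true], cross (!false) false true, []⟩] [true, true, false] :=
    ⟨rfl, rfl, rfl⟩
  have v1 := (hu.append hm).append hv
  have v2 := (hu.append hm').append hv
  have v3 : Valid [true] (u ++ [] ++ v) [true] := by
    rw [List.append_nil]
    exact hu.append hv
  have s1 : Local ChangeRel [true] [true]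
      (u ++ [⟨[true], cross false true false, []⟩, ⟨[true], cross false false true, []⟩] ++ v)
      (u ++ [⟨[true], cross false true false, []⟩, ⟨[true], cross (!false) false true, []⟩] ++ v) := by
    have e : ∀ x : Slice, u ++ [⟨[true], cross false true false, []⟩, x] ++ v =
        (u ++ [⟨[true], cross false true false, []⟩]) ++ [x] ++ v := by
      intro x
      simp
    rw [e, e] at *
    exact Local.mk _ _ _ _ (ChangeRel.mk false false true [true] []) v1 v2
  have s2 := Local.mk (c := [true]) (e := [true]) u _ _ v (Rel.r2 false true false [true] []) v2 v3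
  exact Relation.EqvGen.trans _ _ _ (Relation.EqvGen.rel _ _ (Or.inr s1)) (Relation.EqvGen.rel _ _ (Or.inl s2))

private theorem TbK_pair {u v : Word} (hu : Valid [true] u [true, true, false])
    (hv : Valid [true, true, false] v [true]) :
    Homotopic (u ++ [⟨[], cross true true true, [false]⟩, ⟨[], cross true true true, [false]⟩] ++ v)
      (u ++ [] ++ v) := by
  have hm : Valid [true, true, false]
      [⟨[], cross true true true, [false]⟩, ⟨[], cross true true true, [false]⟩] [true, true, false] :=
    ⟨rfl, rfl, rfl⟩
  have hm' : Valid [true, true, false]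
      [⟨[], cross (!true) true true, [false]⟩, ⟨[], cross true true true, [false]⟩] [true, true, false] :=
    ⟨rfl, rfl, rfl⟩
  have v1 := (hu.append hm).append hv
  have v2 := (hu.append hm').append hv
  have v3 : Valid [true] (u ++ [] ++ v) [true] := by
    rw [List.append_nil]
    exact hu.append hv
  have s1 : Local ChangeRel [true] [true]
      (u ++ [⟨[], cross true true true, [false]⟩, ⟨[], cross true true true, [false]⟩] ++ v)
      (u ++ [⟨[], cross (!true) true true, [false]⟩, ⟨[], cross true true true, [false]⟩] ++ v) := by
    have e : ∀ x : Slice, u ++ [x, ⟨[], cross true true true, [false]⟩] ++ v =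
        u ++ [x] ++ (⟨[], cross true true true, [false]⟩ :: v) := by
      intro x
      simp
    rw [e, e] at *
    exact Local.mk _ _ _ _ (ChangeRel.mk true true true [] [false]) v1 v2
  have s2 := Local.mk (c := [true]) (e := [true]) u _ _ v (Rel.r2 false true true [] [false]) v2 v3
  exact Relation.EqvGen.trans _ _ _ (Relation.EqvGen.rel _ _ (Or.inr s1)) (Relation.EqvGen.rel _ _ (Or.inl s2))

private theorem TbK_tail (l : List Bool) :
    Valid [true, true, false] (tbl l ++ [⟨[true], cap true, []⟩]) [true] :=
  (tbl_valid l).append (⟨rfl, rfl⟩ : Valid [true, true, false] [⟨[true], cap true, []⟩] [true])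

private theorem TbK_one : IsKnot (twoBridge [true]) := by
  have v0 : Valid [true] (twoBridge [true]) [true] := tb_valid [true]
  have v1 : Valid [true] [⟨[], cup true, [true]⟩, ⟨[true], cross false false true, []⟩, ⟨[true], cap true, []⟩] [true] :=
    ⟨rfl, rfl, rfl, rfl⟩
  have v2 : Valid [true] [⟨[], cup true, [true]⟩, ⟨[true], cap false, []⟩] [true] := ⟨rfl, rfl, rfl⟩
  have v3 : Valid [true] [] [true] := rfl
  have s1 : Local Rel [true] [true]
      [⟨[], cup true, [true]⟩, ⟨[true], cross false false true, []⟩, ⟨[true], cap true, []⟩]
      (twoBridge [true]) :=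
    Local.mk [] _ _ [⟨[true], cap true, []⟩] (Rel.slide_cup false true true [] []) v1 v0
  have s2 : Local Rel [true] [true]
      [⟨[], cup true, [true]⟩, ⟨[true], cross false false true, []⟩, ⟨[true], cap true, []⟩]
      [⟨[], cup true, [true]⟩, ⟨[true], cap false, []⟩] :=
    Local.mk [⟨[], cup true, [true]⟩] _ _ [] (Rel.r1_cap false false [true] []) v1 v2
  have s3 : Local Rel [true] [true] [⟨[], cup true, [true]⟩, ⟨[true], cap false, []⟩] [] :=
    Local.mk [] _ _ [] (Rel.zigzag₂ true [] []) v2 v3
  exact Relation.EqvGen.trans _ _ _
    (Relation.EqvGen.symm _ _ (Relation.EqvGen.rel _ _ (Or.inl s1)))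
    (Relation.EqvGen.trans _ _ _ (Relation.EqvGen.rel _ _ (Or.inl s2))
      (Relation.EqvGen.rel _ _ (Or.inl s3)))

private theorem TbK_ind (n : ℕ) : ∀ l : List Bool, l.length ≤ n → l.count true % 2 = 1 →
    IsKnot (twoBridge l) := by
  have hcup : Valid [true] [⟨[true], cup true, []⟩] [true, true, false] := ⟨rfl, rfl⟩
  have hcup1 : Valid [true] [⟨[true], cup true, []⟩, ⟨[], cross true true true, [false]⟩]
      [true, true, false] := ⟨rfl, rfl, rfl⟩
  induction n with
  | zero =>
    intro l hl hc
    rw [List.length_eq_zero_iff.1 (Nat.le_zero.1 hl)] at hc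
    simp at hc
  | succ n ih =>
    intro l hl hc
    rcases l with _ | ⟨b, l⟩
    · simp at hc
    have hl' : l.length ≤ n := by
      simpa using hl
    cases b
    · have e1 : (false :: l).count true = l.count true := List.count_cons_of_ne (by decide)
      rw [e1] at hc
      exact Relation.EqvGen.trans _ _ _ (TbK_false hcup (TbK_tail l)) (ih l hl' hc)
    · rcases l with _ | ⟨b, l⟩
      · exact TbK_one
      have hl2 : l.length + 1 ≤ n := by
        simpa using hl'
      cases b
      · have e1 : (true :: false :: l).count true = (true :: l).count true := by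
          rw [List.count_cons_self, List.count_cons_self, List.count_cons_of_ne (by decide)]
        rw [e1] at hc
        exact Relation.EqvGen.trans _ _ _ (TbK_false hcup1 (TbK_tail l))
          (ih (true :: l) (by simpa using hl2) hc)
      · have e1 : (true :: true :: l).count true = l.count true + 2 := by
          rw [List.count_cons_self, List.count_cons_self]
        rw [e1] at hc
        exact Relation.EqvGen.trans _ _ _ (TbK_pair hcup (TbK_tail l)) (ih l (by omega) (by omega))

theorem tb_knot (l : List Bool) (h : l.count true % 2 = 1) : IsKnot (twoBridge l) :=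
  TbK_ind l.length l le_rfl h

theorem tbs_knot (m : List (List Bool)) (h : TbOdd m) : IsKnot (tbSum m) := by
  induction m with
  | nil => exact Relation.EqvGen.refl _
  | cons l m ih =>
    exact IsKnot.append (tb_knot l (h l List.mem_cons_self))
      (ih fun l' hl' => h l' (List.mem_cons_of_mem _ hl'))

theorem tbs_saddles (m : List (List Bool)) (h : TbOdd m) : Cob [true] [true] 0 (2 * tbGenus m) 0 (tbSum m) [] := by
  induction m with
  | nil => exact Cob.refl rfl
  | cons l m ih =>
    have hl : l.count true % 2 = 1 := h l List.mem_cons_self
    have hm : TbOdd m := fun l' hl' => h l' (List.mem_cons_of_mem _ hl')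
    have h1 := (tb_saddles l (by omega)).ctx (u := []) (c₀ := [true]) rfl (tbs_knot m hm).valid
    have h2 := h1.trans (ih hm)
    refine h2.cast rfl ?_ rfl
    have e : tbGenus (l :: m) = l.count true / 2 + tbGenus m := by
      unfold tbGenus
      rw [List.map_cons, List.sum_cons]
    rw [e]
    omega

theorem tbs_min (m : List (List Bool)) (h : TbOdd m) : oneMinGenus (tbSum m) ≤ tbGenus m :=
  Nat.sInf_le ⟨0, ext_of_saddles ⟨tbSum m, tbs_knot m h⟩ (tbs_saddles m h)⟩

end Pool.Agent.Lib.MP_177a0e_gt.Sig
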