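import Pool.Agent.Lib.MP_177a0e_gt.Sig.Edg

/-!
# colourings with integer values.

PROOFS.
* `fin_sup`: if `x 0 = 0` and consecutive levels fit together then `x j i = 0` for `i ≥ N`, `N` depending only on `w`: by induction on `w`: from `x 0 i = 0` for `i ≥ n` follows `x j i = 0` for all `j ≤ |w|` and `i ≥ n + ∑_s (lp s + 4)` (the new value of a slice is at the gap `lp s + 1`; all other values are values of the level below at the gaps `i`, `i - 2` or `i + 2`). The levels beyond `|w|` are zero.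
* `dehn_int`: the conditions `Fit`, `Col` (`sz c = ± 1`) are equations with integer coefficients between the integers `x j i`: `Int.cast_injective` for `ℚ`, then cast to `ZMod 2`. Induction on `w` for `Run`.
-/

namespace Pool.Agent.Lib.MP_177a0e_gt.Sig

open Pool.Agent.Lib.MP_177a0e_gt.Tangle Pool.Agent.Lib.MP_177a0e_gt.Tangle.Gen

/-- the bound for the support -/
private def KnA_b : Word → ℕ
  | [] => 0
  | s :: w => lp s + 4 + KnA_b w

private theorem KnA_sup {R : Type} [Field R] (w : Word) : ∀ (n : ℕ) (x : ℕ → ℕ → R),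
    Run (colM R) w x → (∀ i, n ≤ i → x 0 i = 0) →
    ∀ j ≤ w.length, ∀ i, n + KnA_b w ≤ i → x j i = 0 := by
  induction w with
  | nil =>
    intro n x _ h0 j hj i hi
    have hj0 : j = 0 := by
      simpa using hj
    subst hj0
    exact h0 i (by omega)
  | cons s w ih =>
    intro n x hx h0 j hj i hi
    have hb : KnA_b (s :: w) = lp s + 4 + KnA_b w := rfl
    rw [hb] at hi
    rcases j with _ | j
    · exact h0 i (by omega)
    · have hF : Fit s (x 0) (x 1) := hx.1.1
      have h1 : ∀ i, n + (lp s + 4) ≤ i → (sh 1 x) 0 i = 0 := by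
        intro i hi
        show x 1 i = 0
        rcases s with ⟨p, _ | _ | _, q⟩
        · have h2 : ∀ i, lp ⟨p, cup _, q⟩ ≤ i → x 1 (i + 2) = x 0 i := hF.2
          have e : i = (i - 2) + 2 := by omega
          rw [e, h2 (i - 2) (by omega)]
          exact h0 _ (by omega)
        · have h2 : ∀ i, lp ⟨p, cap _, q⟩ ≤ i → x 0 (i + 2) = x 1 i := hF.2
          rw [← h2 i (by omega)]
          exact h0 _ (by omega)
        · have h2 : ∀ i, i ≠ lp ⟨p, cross _ _ _, q⟩ + 1 → x 1 i = x 0 i := hF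
          rw [h2 i (by omega)]
          exact h0 _ (by omega)
      have hj' : j ≤ w.length := by
        have : (s :: w).length = w.length + 1 := rfl
        omega
      exact ih (n + (lp s + 4)) (sh 1 x) hx.2 h1 j hj' i (by omega)

private theorem KnA_run (w : Word) : ∀ x : ℕ → ℕ → ℤ,
    Run (colM ℚ) w (fun j i => (x j i : ℚ)) → Run (colM (ZMod 2)) w (fun j i => (x j i : ZMod 2)) := by
  induction w with
  | nil => intro x _; trivial
  | cons s w ih =>
    intro x hx
    refine ⟨?_, ih (fun j => x (j + 1)) hx.2⟩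
    have hF : Fit s (fun i => (x 0 i : ℚ)) (fun i => (x 1 i : ℚ)) := hx.1.1
    have hC : Col s (fun i => (x 0 i : ℚ)) (fun i => (x 1 i : ℚ)) := hx.1.2
    show Fit s (fun i => (x 0 i : ZMod 2)) (fun i => (x 1 i : ZMod 2)) ∧
      Col s (fun i => (x 0 i : ZMod 2)) (fun i => (x 1 i : ZMod 2))
    have k : ∀ a b : ℤ, (a : ℚ) = (b : ℚ) → (a : ZMod 2) = (b : ZMod 2) := by
      intro a b hab
      rw [Int.cast_injective hab]
    rcases s with ⟨p, _ | _ | ⟨c, a, b⟩, q⟩
    · exact ⟨⟨fun i hi => k _ _ (hF.1 i hi), fun i hi => k _ _ (hF.2 i hi)⟩, trivial⟩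
    · exact ⟨⟨fun i hi => k _ _ (hF.1 i hi), fun i hi => k _ _ (hF.2 i hi)⟩, trivial⟩
    · refine ⟨fun i hi => k _ _ (hF i hi), ?_⟩
      simp only [Col] at hC ⊢
      have hC' : x 1 (lp ⟨p, cross c a b, q⟩ + 1) - x 0 (lp ⟨p, cross c a b, q⟩ + 1) =
          sz c * (x 0 (lp ⟨p, cross c a b, q⟩) - x 0 (lp ⟨p, cross c a b, q⟩ + 2)) := by
        exact_mod_cast hC
      exact_mod_cast congrArg (Int.cast : ℤ → ZMod 2) hC'

theorem fin_sup (w : Word) : ∃ N : ℕ, ∀ (R : Type) [Field R], ∀ x ∈ Dehn R w, ∀ j i, N ≤ i → x j i = 0 := by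
  refine ⟨KnA_b w, fun R _ x hx j i hi => ?_⟩
  rcases le_or_gt j w.length with hj | hj
  · refine KnA_sup w 0 x hx.1.1 (fun i _ => ?_) j hj i (by omega)
    rw [hx.2]
    rfl
  · rw [hx.1.2.2 j hj]
    rfl

theorem dehn_int (w : Word) (x : ℕ → ℕ → ℤ) (h : (fun j i => (x j i : ℚ)) ∈ Dehn ℚ w) : (fun j i => (x j i : ZMod 2)) ∈ Dehn (ZMod 2) w := by
  refine ⟨⟨KnA_run w x h.1.1, fun _ => Submodule.mem_top, fun j hj => ?_⟩, ?_⟩
  · funext i
    have h1 : (x j i : ℚ) = 0 := congrFun (h.1.2.2 j hj) i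
    have h2 : x j i = 0 := by exact_mod_cast h1
    show (x j i : ZMod 2) = 0
    rw [h2, Int.cast_zero]
  · funext i
    have h1 : (x 0 i : ℚ) = 0 := congrFun h.2 i
    have h2 : x 0 i = 0 := by exact_mod_cast h1
    show (x 0 i : ZMod 2) = 0
    rw [h2, Int.cast_zero]

end Pool.Agent.Lib.MP_177a0e_gt.Sig
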