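import Pool.Agent.Lib.MP_177a0e_gt.Sig.DInv
import Pool.Agent.Lib.MP_177a0e_gt.Sig.KnA

/-!
# knots have nullity zero.

PROOF of `nul_of_mod2`. Suppose `x ≠ 0` is in `Dehn ℚ w`; all its values with `i ≥ N` (`fin_sup`) or `j > |w|` are zero. A common multiple `m` of the denominators of the finitely many other values: `m x` has integer values. Among the nonzero `x : ℕ → ℕ → ℤ` with `(fun j i => (x j i : ℚ)) ∈ Dehn ℚ w` choose one with `∑_{j ≤ |w|, i < N} |x j i|` minimal (a natural number: `Nat.find`, or strong induction).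
If all values are even then `x / 2` is another one with a smaller sum; so some value is odd. Then `x mod 2` is a nonzero element of `Dehn (ZMod 2) w` (`dehn_int`; an odd integer is not `0` in `ZMod 2`: `ZMod.intCast_zmod_eq_zero_iff_dvd` / `ZMod.intCast_eq_intCast_iff_dvd_sub`), a contradiction (`Submodule.finrank_eq_zero`, `fdD`: import is available through `DInv`).
`nul w = 0`: `Dehn ℚ w = ⊥`, `finrank_bot`. `nul_knot`: `fr_knot`.
-/

namespace Pool.Agent.Lib.MP_177a0e_gt.Sig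

open Pool.Agent.Lib.MP_177a0e_gt.Tangle Pool.Agent.Lib.MP_177a0e_gt.Tangle.Gen

private theorem Kn_clear (w : Word) (x : ℕ → ℕ → ℚ) (hx : x ∈ Dehn ℚ w) (hx0 : x ≠ 0) :
    ∃ Y : ℕ → ℕ → ℤ, (fun j i => (Y j i : ℚ)) ∈ Dehn ℚ w ∧ ∃ j i, ¬ (2 : ℤ) ∣ Y j i := by
  obtain ⟨N, hN⟩ := fin_sup w
  have hN := hN ℚ x hx
  have hlen : ∀ j i, w.length < j → x j i = 0 := fun j i hj => by
    rw [hx.1.2.2 j hj]
    rfl
  set S : Finset (ℕ × ℕ) := Finset.range (w.length + 1) ×ˢ Finset.range N with hS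
  have hout : ∀ j i, (j, i) ∉ S → x j i = 0 := by
    intro j i h
    rw [hS, Finset.mem_product, Finset.mem_range, Finset.mem_range, not_and_or] at h
    rcases h with h | h
    · exact hlen j i (by simp only at h; omega)
    · exact hN j i (by simp only at h; omega)
  obtain ⟨m, hm, hint⟩ : ∃ m : ℕ, m ≠ 0 ∧ ∀ j i, ∃ z : ℤ, (z : ℚ) = (m : ℚ) * x j i := by
    refine ⟨∏ p ∈ S, (x p.1 p.2).den, Finset.prod_ne_zero_iff.2 fun p _ => Rat.den_ne_zero _, ?_⟩
    intro j i
    by_cases h : (j, i) ∈ S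
    · obtain ⟨k, hk⟩ := Finset.dvd_prod_of_mem (fun p : ℕ × ℕ => (x p.1 p.2).den) h
      refine ⟨(k : ℤ) * (x j i).num, ?_⟩
      rw [hk]
      push_cast
      have h1 : x j i * ((x j i).den : ℚ) = ((x j i).num : ℚ) := Rat.mul_den_eq_num (x j i)
      linear_combination (-(k : ℚ)) * h1
    · exact ⟨0, by rw [hout j i h]; simp⟩
  choose X hX using hint
  have hmQ : (m : ℚ) ≠ 0 := Nat.cast_ne_zero.2 hm
  obtain ⟨j0, i0, hji⟩ : ∃ j i, x j i ≠ 0 := by
    by_contra hall
    push Not at hall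
    exact hx0 (funext fun j => funext fun i => hall j i)
  have hmem : (j0, i0) ∈ S := by
    by_contra h
    exact hji (hout j0 i0 h)
  obtain ⟨g, hg, hg1⟩ := Finset.extract_gcd (fun p : ℕ × ℕ => X p.1 p.2) ⟨(j0, i0), hmem⟩
  set G : ℤ := S.gcd (fun p : ℕ × ℕ => X p.1 p.2) with hG
  have hG0 : G ≠ 0 := by
    intro h0
    have h1 : X j0 i0 = G * g (j0, i0) := hg (j0, i0) hmem
    rw [h0, zero_mul] at h1
    have h2 := hX j0 i0
    rw [h1, Int.cast_zero] at h2
    exact (mul_ne_zero hmQ hji) h2.symm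
  have hGQ : (G : ℚ) ≠ 0 := Int.cast_ne_zero.2 hG0
  refine ⟨fun j i => if (j, i) ∈ S then g (j, i) else 0, ?_, ?_⟩
  · have h1 : (fun j i => (((if (j, i) ∈ S then g (j, i) else 0 : ℤ)) : ℚ)) =
        ((G : ℚ)⁻¹ * (m : ℚ)) • x := by
      funext j i
      rw [Pi.smul_apply, Pi.smul_apply, smul_eq_mul]
      by_cases h : (j, i) ∈ S
      · rw [if_pos h]
        have h2 : X j i = G * g (j, i) := hg (j, i) h
        have h3 := hX j i
        rw [h2] at h3
        push_cast at h3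
        rw [mul_assoc, ← h3, ← mul_assoc, inv_mul_cancel₀ hGQ, one_mul]
      · rw [if_neg h, hout j i h, mul_zero, Int.cast_zero]
    rw [h1]
    exact (Dehn ℚ w).smul_mem _ hx
  · by_contra hall
    push Not at hall
    have h2 : (2 : ℤ) ∣ S.gcd g := by
      apply Finset.dvd_gcd
      intro p hp
      have h3 := hall p.1 p.2
      rw [if_pos hp] at h3
      exact h3
    rw [hg1] at h2
    norm_num at h2

theorem nul_of_mod2 {w : Word} (h : Module.finrank (ZMod 2) (Dehn (ZMod 2) w) = 0) : nul w = 0 := by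
  have hbot : Dehn (ZMod 2) w = ⊥ := Submodule.finrank_eq_zero.1 h
  have hQ : Dehn ℚ w = ⊥ := by
    rw [Submodule.eq_bot_iff]
    intro x hx
    by_contra hx0
    obtain ⟨Y, hY, j, i, hji⟩ := Kn_clear w x hx hx0
    have h1 := dehn_int w Y hY
    rw [hbot, Submodule.mem_bot] at h1
    have h2 : (Y j i : ZMod 2) = 0 := congrFun (congrFun h1 j) i
    exact hji ((ZMod.intCast_zmod_eq_zero_iff_dvd (Y j i) 2).1 h2)
  unfold nul
  rw [hQ, finrank_bot]

theorem nul_knot {w : Word} (h : IsKnot w) : nul w = 0 :=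
  nul_of_mod2 (fr_knot h)

end Pool.Agent.Lib.MP_177a0e_gt.Sig
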