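import Pool.Agent.Lib.MP_177a0e_gt.Sig.La1

/-!
# a form with a variable which occurs linearly.

`B'` on `F ≅ E × ℚ` is `B(x, x) + l(x) (m(x) - 2 c t)`, `c ≠ 0`. Then its signature is that of `B` on the kernel of `l` (`K ≅ ker l`).
PROOF. `B'` is determined by the quadratic form (polarization: `2 B' z z' = B'(z + z', z + z') - B' z z - B' z' z'`, `hB'`).
* `l = 0`: `B'` is `B` and one more variable with the form `0`: `sg_add` with `ε = 0`; `K ≅ E`: `sg_equiv`.
* `l ≠ 0`: choose `a` with `l a = 1`. `E ≅ ker l × ℚ`, `x ↦ (x - l(x) a, l(x))`. For `x = k + s a`: `B'(x, t) = B k k + 2 s B(k, a) + s ^ 2 B(a, a) + s (m(k) + s m(a) - 2 c t) = B k k + s (2 B(k, a) + s B(a, a) + m(k) + s m(a) - 2 c t) = B k k + s r`,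
  where `r = 2 B(k, a) + s B(a, a) + m(k) + s m(a) - 2 c t` is a new variable in the place of `t`: `F ≅ (ker l × ℚ) × ℚ`, `(k, s, r)`, with the form `B k k + s r`, or, with `p = (s + r) / 2`, `n = (s - r) / 2`: `B k k + p ^ 2 - n ^ 2`:
  `sg_add` twice (`ε = 1`, `-1`), `sg_equiv` for `K ≅ ker l`.
-/

namespace Pool.Agent.Lib.MP_177a0e_gt.Sig

variable {E F K : Type*} [AddCommGroup E] [Module ℚ E] [AddCommGroup F] [Module ℚ F] [AddCommGroup K] [Module ℚ K]

/-- the form `B(x, x') + ε t t'` on `E × ℚ` -/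
private def La2ext (B : LinearMap.BilinForm ℚ E) (ε : ℚ) : LinearMap.BilinForm ℚ (E × ℚ) :=
  LinearMap.mk₂ ℚ (fun z z' => B z.1 z'.1 + ε * (z.2 * z'.2))
    (fun x y z => by
      simp only [Prod.fst_add, Prod.snd_add, map_add, LinearMap.add_apply]
      ring)
    (fun r x y => by
      simp only [Prod.smul_fst, Prod.smul_snd, map_smul, LinearMap.smul_apply, smul_eq_mul]
      ring)
    (fun x y z => by
      simp only [Prod.fst_add, Prod.snd_add, map_add]
      ring)
    (fun r x y => by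
      simp only [Prod.smul_fst, Prod.smul_snd, map_smul, smul_eq_mul]
      ring)

private theorem La2ext_apply (B : LinearMap.BilinForm ℚ E) (ε : ℚ) (z z' : E × ℚ) :
    La2ext B ε z z' = B z.1 z'.1 + ε * (z.2 * z'.2) := rfl

private theorem La2ext_sg [FiniteDimensional ℚ E] (B : LinearMap.BilinForm ℚ E) (hB : ∀ x y, B x y = B y x) (ε : ℤ)
    (hε : ε = 1 ∨ ε = -1 ∨ ε = 0) : sg (La2ext B (ε : ℚ)) = sg B + ε :=
  sg_add B hB (La2ext B (ε : ℚ)) (LinearEquiv.refl ℚ (E × ℚ)) ε hε (fun _ _ => rfl)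

private theorem La2ext_symm (B : LinearMap.BilinForm ℚ E) (hB : ∀ x y, B x y = B y x) (ε : ℚ) (z z' : E × ℚ) :
    La2ext B ε z z' = La2ext B ε z' z := by
  rw [La2ext_apply, La2ext_apply, hB, mul_comm z.2]

theorem sg_hyp [FiniteDimensional ℚ E] (B : LinearMap.BilinForm ℚ E) (hB : ∀ x y, B x y = B y x) (l m : E →ₗ[ℚ] ℚ) (c : ℚ) (hc : c ≠ 0)
    (B' : LinearMap.BilinForm ℚ F) (hB' : ∀ x y, B' x y = B' y x) (e : F ≃ₗ[ℚ] E × ℚ)
    (h : ∀ z, B' z z = B (e z).1 (e z).1 + l (e z).1 * (m (e z).1 - 2 * c * (e z).2))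
    (B₂ : LinearMap.BilinForm ℚ K) (k : K ≃ₗ[ℚ] LinearMap.ker l) (hk : ∀ x : K, B₂ x x = B (k x).1 (k x).1) :
    sg B' = sg B₂ := by
  set BK : LinearMap.BilinForm ℚ (LinearMap.ker l) := B.restrict (LinearMap.ker l) with hBK
  have hBKa : ∀ x y : LinearMap.ker l, BK x y = B x y := fun _ _ => rfl
  have hBKs : ∀ x y : LinearMap.ker l, BK x y = BK y x := fun x y => by rw [hBKa, hBKa, hB]
  have e1 : sg BK = sg B₂ := sg_equiv B₂ BK k (fun x => by rw [hBKa, hk])
  rw [← e1]
  by_cases hl : l = 0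
  · have h1 : LinearMap.ker l = ⊤ := by rw [hl]; exact LinearMap.ker_zero
    have e2 : sg (La2ext B ((0 : ℤ) : ℚ)) = sg B + 0 := La2ext_sg B hB 0 (Or.inr (Or.inr rfl))
    have e3 : sg (La2ext B ((0 : ℤ) : ℚ)) = sg B' := sg_equiv B' _ e (fun z => by
      rw [La2ext_apply, h z, hl]
      simp)
    have e4 : sg B = sg BK := sg_equiv BK B (LinearEquiv.ofTop (LinearMap.ker l) h1) (fun x => rfl)
    rw [← e3, e2, e4, add_zero]
  · obtain ⟨a₀, ha₀⟩ : ∃ a, l a ≠ 0 := by
      by_contra hcon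
      push Not at hcon
      exact hl (LinearMap.ext hcon)
    set a : E := (l a₀)⁻¹ • a₀ with ha
    have hla : l a = 1 := by
      rw [ha, map_smul, smul_eq_mul, inv_mul_cancel₀ ha₀]
    -- the new coordinates
    set P : E →ₗ[ℚ] LinearMap.ker l := LinearMap.codRestrict (LinearMap.ker l) (LinearMap.id - l.smulRight a) (fun x => by
      rw [LinearMap.mem_ker, LinearMap.sub_apply, LinearMap.id_apply, LinearMap.smulRight_apply, map_sub, map_smul, hla,
        smul_eq_mul, mul_one, sub_self]) with hP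
    have hPa : ∀ x : E, ((P x : LinearMap.ker l) : E) = x - l x • a := fun _ => rfl
    set ρ : E × ℚ →ₗ[ℚ] ℚ := ((2 : ℚ) • (B a) - (B a a) • l + m).comp (LinearMap.fst ℚ E ℚ) -
      (2 * c) • LinearMap.snd ℚ E ℚ with hρ
    have hρa : ∀ z : E × ℚ, ρ z = 2 * B z.1 a - B a a * l z.1 + m z.1 - 2 * c * z.2 := by
      intro z
      rw [hρ]
      simp only [LinearMap.sub_apply, LinearMap.add_apply, LinearMap.comp_apply, LinearMap.smul_apply,
        LinearMap.fst_apply, LinearMap.snd_apply, smul_eq_mul]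
      rw [hB a z.1]
    set L : E × ℚ →ₗ[ℚ] ℚ := l.comp (LinearMap.fst ℚ E ℚ) with hL
    have hLa : ∀ z : E × ℚ, L z = l z.1 := fun _ => rfl
    set g : E × ℚ →ₗ[ℚ] (LinearMap.ker l × ℚ) × ℚ :=
      ((P.comp (LinearMap.fst ℚ E ℚ)).prod ((1 / 2 : ℚ) • (L + ρ))).prod ((1 / 2 : ℚ) • (L - ρ)) with hg
    have hga : ∀ z : E × ℚ, g z = ((P z.1, (1 / 2 : ℚ) * (l z.1 + ρ z)), (1 / 2 : ℚ) * (l z.1 - ρ z)) := fun _ => rfl
    have hinj : Function.Injective g := by
      rw [← LinearMap.ker_eq_bot, LinearMap.ker_eq_bot']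
      intro z hz
      rw [hga] at hz
      have h1 : P z.1 = 0 := congrArg (fun y => y.1.1) hz
      have h2 : (1 / 2 : ℚ) * (l z.1 + ρ z) = 0 := congrArg (fun y => y.1.2) hz
      have h3 : (1 / 2 : ℚ) * (l z.1 - ρ z) = 0 := congrArg (fun y => y.2) hz
      have h4 : l z.1 = 0 := by linarith
      have h5 : ρ z = 0 := by linarith
      have h6 : z.1 = 0 := by
        have h7 : ((P z.1 : LinearMap.ker l) : E) = 0 := by rw [h1]; rfl
        rw [hPa, h4, zero_smul, sub_zero] at h7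
        exact h7
      have h8 : z.2 = 0 := by
        rw [hρa, h6] at h5
        simp only [map_zero, LinearMap.zero_apply, mul_zero, sub_zero, add_zero, zero_sub, neg_eq_zero] at h5
        have h9 : (2 * c) ≠ 0 := mul_ne_zero two_ne_zero hc
        exact (mul_eq_zero.1 h5).resolve_left h9
      exact Prod.ext h6 h8
    have hsurj : Function.Surjective g := by
      rintro ⟨⟨k₀, p⟩, n⟩
      set x : E := (k₀ : E) + (p + n) • a with hx
      have hk0 : l (k₀ : E) = 0 := LinearMap.mem_ker.1 k₀.2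
      have hlx : l x = p + n := by
        rw [hx, map_add, map_smul, hk0, hla, smul_eq_mul, mul_one, zero_add]
      set t : ℚ := (2 * B x a - B a a * l x + m x - (p - n)) / (2 * c) with ht
      have hr : ρ (x, t) = p - n := by
        rw [hρa]
        simp only
        rw [ht]
        field_simp
        ring
      refine ⟨(x, t), ?_⟩
      rw [hga, hr]
      simp only
      rw [hlx]
      refine Prod.ext (Prod.ext (Subtype.ext ?_) ?_) ?_
      · show ((P x : LinearMap.ker l) : E) = k₀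
        rw [hPa, hlx, hx, add_sub_cancel_right]
      · show (1 / 2 : ℚ) * (p + n + (p - n)) = p
        ring
      · show (1 / 2 : ℚ) * (p + n - (p - n)) = n
        ring
    set f : F ≃ₗ[ℚ] (LinearMap.ker l × ℚ) × ℚ := e.trans (LinearEquiv.ofBijective g ⟨hinj, hsurj⟩) with hf
    have hfa : ∀ z, f z = g (e z) := fun _ => rfl
    have s1 : sg (La2ext BK ((1 : ℤ) : ℚ)) = sg BK + 1 := La2ext_sg BK hBKs 1 (Or.inl rfl)
    have s2 : sg (La2ext (La2ext BK ((1 : ℤ) : ℚ)) ((-1 : ℤ) : ℚ)) = sg (La2ext BK ((1 : ℤ) : ℚ)) + (-1) :=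
      La2ext_sg _ (La2ext_symm BK hBKs _) (-1) (Or.inr (Or.inl rfl))
    have s3 : sg (La2ext (La2ext BK ((1 : ℤ) : ℚ)) ((-1 : ℤ) : ℚ)) = sg B' := by
      refine sg_equiv B' _ f (fun z => ?_)
      rw [hfa, La2ext_apply, La2ext_apply, hga]
      simp only
      rw [hBKa, hPa, h z, hρa]
      generalize (e z).1 = x
      generalize (e z).2 = t
      simp only [map_sub, map_smul, LinearMap.sub_apply, LinearMap.smul_apply, smul_eq_mul]
      rw [hB a x]
      push_cast
      ring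
    rw [← s3, s2, s1]
    ring

end Pool.Agent.Lib.MP_177a0e_gt.Sig
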