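import Pool.Agent.Lib.MP_177a0e_gt.Sig.La0

/-!
# the signature by an orthogonal basis.

PROOFS.
* `ix_orth`: let `S = {i | 0 < B (v i) (v i)}`, `W₀ = span (v '' S)`: its dimension is `|S|` (linear independence: `finrank_span_set_eq_card` or `finrank_span_eq_card`) and the form is positive on it: `x = ∑_{i ∈ S} c_i v_i`, `B x x = ∑ c_i ^ 2 B (v i) (v i)`. So `|S| ≤ ix B` (`le_ix`).
  Conversely let `W` be as in `ix_att`: the map `W → (S → ℚ)`, `x ↦` the coordinates `v.repr x i`, `i ∈ S`, is injective: if all these coordinates vanish then `B x x = ∑_i c_i ^ 2 B (v i) (v i) ≤ 0`, so `x = 0`; `LinearMap.finrank_le_finrank_of_injective`.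
  (`B x x = ∑_i (v.repr x i) ^ 2 * B (v i) (v i)`: `v.sum_repr`, `map_sum`, `LinearMap.sum_apply`, `Finset.sum_eq_single`; `LinearMap.BilinForm.sum_repr_mul_repr_mul` may help.)
* `sg_orth`: `ix_orth` for `B` and `-B`. `sg_pos`: `ex_orth`, `sg_orth`: all `B (v i) (v i)` are positive (`v i ≠ 0`: `v.ne_zero`).
-/

namespace Pool.Agent.Lib.MP_177a0e_gt.Sig

variable {E : Type*} [AddCommGroup E] [Module ℚ E] [FiniteDimensional ℚ E]

omit [FiniteDimensional ℚ E] in
private theorem La0b_sum {ι : Type*} [Fintype ι] (v : Module.Basis ι ℚ E) {B : LinearMap.BilinForm ℚ E}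
    (h : ∀ i j, i ≠ j → B (v i) (v j) = 0) (x : E) :
    B x x = ∑ i, (v.repr x i) ^ 2 * B (v i) (v i) := by
  classical
  have h1 : B x x = B (∑ i, v.repr x i • v i) (∑ i, v.repr x i • v i) := by rw [v.sum_repr x]
  rw [h1]
  simp only [map_sum, map_smul, LinearMap.sum_apply, LinearMap.smul_apply, smul_eq_mul]
  refine Finset.sum_congr rfl fun i _ => ?_
  rw [Finset.sum_eq_single i]
  · ring
  · intro j _ hj
    rw [h j i hj]
    ring
  · intro hi
    exact absurd (Finset.mem_univ i) hi

theorem ix_orth {ι : Type*} [Fintype ι] (v : Module.Basis ι ℚ E) {B : LinearMap.BilinForm ℚ E}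
    (h : ∀ i j, i ≠ j → B (v i) (v j) = 0) : ix B = (Finset.univ.filter fun i => 0 < B (v i) (v i)).card := by
  classical
  set S : Finset ι := Finset.univ.filter fun i => 0 < B (v i) (v i) with hS
  refine le_antisymm ?_ ?_
  · obtain ⟨W, hW, hpos⟩ := ix_att B
    rw [← hW]
    have hφ : ∃ φ : W →ₗ[ℚ] (S → ℚ), ∀ x i, φ x i = v.repr (x : E) (i : ι) :=
      ⟨LinearMap.pi fun i : S => (Finsupp.lapply (i : ι)).comp (v.repr.toLinearMap.comp W.subtype),
        fun x i => rfl⟩
    obtain ⟨φ, hφ⟩ := hφ
    have hinj : Function.Injective φ := by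
      rw [← LinearMap.ker_eq_bot, LinearMap.ker_eq_bot']
      intro x hx
      by_contra hne
      have h0 : (x : E) ≠ 0 := fun h0 => hne (Subtype.ext h0)
      have h1 := hpos x x.2 h0
      rw [La0b_sum v h] at h1
      refine absurd h1 (not_lt.2 (Finset.sum_nonpos fun i _ => ?_))
      by_cases hi : i ∈ S
      · have h2 : v.repr (x : E) i = 0 := by
          rw [← hφ x ⟨i, hi⟩, hx, Pi.zero_apply]
        rw [h2]
        simp
      · have h2 : B (v i) (v i) ≤ 0 := by
          by_contra h3
          rw [not_le] at h3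
          exact hi (Finset.mem_filter.2 ⟨Finset.mem_univ i, h3⟩)
        exact mul_nonpos_of_nonneg_of_nonpos (sq_nonneg _) h2
    have h3 := LinearMap.finrank_le_finrank_of_injective hinj
    rw [Module.finrank_fintype_fun_eq_card, Fintype.card_coe] at h3
    exact h3
  · have hcard : Module.finrank ℚ (Submodule.span ℚ (v '' (S : Set ι))) = S.card := by
      have h1 : v '' (S : Set ι) = Set.range (fun i : S => v (i : ι)) := by
        rw [Set.image_eq_range]
        rfl
      have h2 : LinearIndependent ℚ (fun i : S => v (i : ι)) :=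
        v.linearIndependent.comp _ Subtype.val_injective
      rw [h1, finrank_span_eq_card h2, Fintype.card_coe]
    rw [← hcard]
    refine le_ix _ fun x hx hne => ?_
    rw [Module.Basis.mem_span_image] at hx
    rw [La0b_sum v h]
    have hrep : v.repr x ≠ 0 := by
      intro h0
      exact hne (v.repr.map_eq_zero_iff.1 h0)
    obtain ⟨i, hi⟩ := Finsupp.ne_iff.1 hrep
    rw [Finsupp.zero_apply] at hi
    have hiS : i ∈ S := by
      have : i ∈ ((v.repr x).support : Set ι) := by
        rw [Finset.mem_coe, Finsupp.mem_support_iff]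
        exact hi
      exact Finset.mem_coe.1 (hx this)
    refine Finset.sum_pos' (fun j _ => ?_) ⟨i, Finset.mem_univ i, ?_⟩
    · by_cases hj : j ∈ S
      · exact mul_nonneg (sq_nonneg _) (Finset.mem_filter.1 hj).2.le
      · have h2 : v.repr x j = 0 := by
          by_contra h3
          have : j ∈ ((v.repr x).support : Set ι) := by
            rw [Finset.mem_coe, Finsupp.mem_support_iff]
            exact h3
          exact hj (Finset.mem_coe.1 (hx this))
        rw [h2]
        simp
    · exact mul_pos (by positivity) (Finset.mem_filter.1 hiS).2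

theorem sg_orth {ι : Type*} [Fintype ι] (v : Module.Basis ι ℚ E) {B : LinearMap.BilinForm ℚ E}
    (h : ∀ i j, i ≠ j → B (v i) (v j) = 0) :
    sg B = ((Finset.univ.filter fun i => 0 < B (v i) (v i)).card : ℤ) -
      ((Finset.univ.filter fun i => B (v i) (v i) < 0).card : ℤ) := by
  have h1 : ∀ i j, i ≠ j → (-B) (v i) (v j) = 0 := by
    intro i j hij
    rw [LinearMap.neg_apply, LinearMap.neg_apply, h i j hij, neg_zero]
  have h2 : (Finset.univ.filter fun i => 0 < (-B) (v i) (v i)) =
      (Finset.univ.filter fun i => B (v i) (v i) < 0) := by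
    refine Finset.filter_congr fun i _ => ?_
    rw [LinearMap.neg_apply, LinearMap.neg_apply, neg_pos]
  unfold sg
  rw [ix_orth v h, ix_orth v h1, h2]

theorem sg_pos (B : LinearMap.BilinForm ℚ E) (hB : ∀ x y, B x y = B y x)
    (h : ∀ x, x ≠ 0 → 0 < B x x) : sg B = Module.finrank ℚ E := by
  obtain ⟨v, hv⟩ := ex_orth hB
  have h1 : (Finset.univ.filter fun i => 0 < B (v i) (v i)) = Finset.univ :=
    Finset.filter_true_of_mem fun i _ => h _ (v.ne_zero i)
  have h2 : (Finset.univ.filter fun i => B (v i) (v i) < 0) = ∅ :=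
    Finset.filter_false_of_mem fun i _ => not_lt.2 (h _ (v.ne_zero i)).le
  rw [sg_orth v hv, h1, h2]
  simp

end Pool.Agent.Lib.MP_177a0e_gt.Sig
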