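import Pool.Agent.Lib.MP_177a0e_gt.Sig.Defs

/-!
Positive two-bridge knots and their sums.

The strands are `0, 1` (upwards) and `2` (downwards); the strands `1, 2` are joined at the bottom and at the
top. The letter `true` is a positive crossing of the strands `0, 1`, the letter `false` a positive full twist
(two crossings) of the strands `1, 2`. The word `true ^ a₁ false ^ b₁ true ^ a₂ …` gives the two-bridge knot
`C(a₁, 2 b₁, a₂, …)`; `a₁ + a₂ + …` must be odd. `true ^ (2 n + 1)` is the torus knot `T(2, 2 n + 1)`.
-/

namespace Pool.Agent.Lib.MP_177a0e_gt.Sig

open Pool.Agent.Lib.MP_177a0e_gt.Tangle Pool.Agent.Lib.MP_177a0e_gt.Tangle.Gen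

/-- the crossings -/
def tbl : List Bool → Word
  | [] => []
  | true :: l => ⟨[], cross true true true, [false]⟩ :: tbl l
  | false :: l => ⟨[true], cross false true false, []⟩ :: ⟨[true], cross false false true, []⟩ :: tbl l

/-- a positive two-bridge knot as a long knot, if the number of letters `true` is odd -/
def twoBridge (l : List Bool) : Word := ⟨[true], cup true, []⟩ :: (tbl l ++ [⟨[true], cap true, []⟩])

/-- the connected sum of the two-bridge knots in the list -/
def tbSum : List (List Bool) → Word
  | [] => []
  | l :: m => csum (twoBridge l) (tbSum m)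

/-- the sum of the genera `(number of letters true - 1) / 2` -/
def tbGenus (m : List (List Bool)) : ℕ := (m.map fun l => l.count true / 2).sum

/-- all members of the list are knots -/
def TbOdd (m : List (List Bool)) : Prop := ∀ l ∈ m, l.count true % 2 = 1

end Pool.Agent.Lib.MP_177a0e_gt.Sig
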