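import Pool.Agent.Lib.MP_177a0e_gt.Sig.La3a
import Pool.Agent.Lib.MP_177a0e_gt.Sig.La3b

/-!
# the linear algebra of a saddle.

PROOF. Put `a' = l ∘ π`, `K_a = ker a'`, `K_b = ker b`. For `f, f'` in `D`: `B (π f) (π f') = b f * a' f'`, symmetric: `b f * a' f' = b f' * a' f`.
1. `l = 0`: `ker l = ⊤`: the signatures agree (`sg_equiv` with `LinearEquiv.ofTop` or `Submodule.topEquiv`), `a' = 0`, `K_a = ⊤`, and `dim D - 1 ≤ dim K_b ≤ dim D`.
2. `l ≠ 0`, there is `f` with `a' f ≠ 0`. If `b f = 0` then `b f' = 0` for all `f'`, `K_b = ⊤`, `dim K_a = dim D - 1`, and `sg_rad` with `r = π f`: the signatures agree. If `b f ≠ 0` then `K_a = K_b` (`b f * a' f' = b f' * a' f`), and `sg_ker`.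
3. `l ≠ 0`, `a' = 0`, some `b f ≠ 0`: `K_a = ⊤`, `dim K_b = dim D - 1`, `r = π f` is in `ker l` and `B r e = b f * l e`: `sg_iso`: the signatures agree.
4. `l ≠ 0`, `a' = 0`, `b = 0`: `K_a = K_b`, `sg_ker`.
(`dim ker g = dim D` for `g = 0`; `≥ dim D - 1` always: `LinearMap.finrank_range_add_finrank_ker`, `Submodule.finrank_le` for the range in `ℚ`.)
-/

namespace Pool.Agent.Lib.MP_177a0e_gt.Sig

variable {V D : Type*} [AddCommGroup V] [Module ℚ V] [AddCommGroup D] [Module ℚ D] [FiniteDimensional ℚ V]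

private theorem ker_bd [FiniteDimensional ℚ D] (g : D →ₗ[ℚ] ℚ) :
    (Module.finrank ℚ D : ℤ) - 1 ≤ (Module.finrank ℚ (LinearMap.ker g) : ℤ) ∧
      (Module.finrank ℚ (LinearMap.ker g) : ℤ) ≤ (Module.finrank ℚ D : ℤ) := by
  have h1 := LinearMap.finrank_range_add_finrank_ker g
  have h2 : Module.finrank ℚ (LinearMap.range g) ≤ 1 := by
    have h3 := Submodule.finrank_le (LinearMap.range g)
    rwa [Module.finrank_self] at h3
  omega

private theorem eq_case [FiniteDimensional ℚ D] (s t : ℤ) (g g' : D →ₗ[ℚ] ℚ) (h : s = t) :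
    |s - t| + |(Module.finrank ℚ (LinearMap.ker g) : ℤ) - (Module.finrank ℚ (LinearMap.ker g') : ℤ)| ≤ 1 := by
  have h1 := ker_bd g
  have h2 := ker_bd g'
  rw [h, sub_self, abs_zero, zero_add, abs_le]
  constructor
  · linarith [h1.1, h2.2]
  · linarith [h1.2, h2.1]

theorem sg_sad [FiniteDimensional ℚ D] (B : LinearMap.BilinForm ℚ V) (hB : ∀ x y, B x y = B y x) (l : V →ₗ[ℚ] ℚ) (π : D →ₗ[ℚ] V) (b : D →ₗ[ℚ] ℚ)
    (h : ∀ f e, B (π f) e = b f * l e) :
    |sg B - sg (B.restrict (LinearMap.ker l))| +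
      |(Module.finrank ℚ (LinearMap.ker (l ∘ₗ π)) : ℤ) - (Module.finrank ℚ (LinearMap.ker b) : ℤ)| ≤ 1 := by
  have hsym : ∀ f f', b f * l (π f') = b f' * l (π f) := by
    intro f f'
    rw [← h f (π f'), hB, h]
  by_cases hl : l = 0
  · have hk : LinearMap.ker l = ⊤ := by rw [hl]; exact LinearMap.ker_zero
    exact eq_case _ _ _ _ (sg_equiv (B.restrict (LinearMap.ker l)) B (LinearEquiv.ofTop _ hk) (fun x => rfl))
  · by_cases ha : ∃ f, l (π f) ≠ 0
    · obtain ⟨f, hf⟩ := ha
      by_cases hb : b f = 0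
      · refine eq_case _ _ _ _ (sg_rad B hB l (π f) (fun e => ?_) hf)
        rw [h, hb, zero_mul]
      · have hK : LinearMap.ker (l ∘ₗ π) = LinearMap.ker b := by
          ext f'
          rw [LinearMap.mem_ker, LinearMap.mem_ker, LinearMap.comp_apply]
          constructor
          · intro h0
            have := hsym f f'
            rw [h0, mul_zero] at this
            exact (mul_eq_zero.1 this.symm).resolve_right hf
          · intro h0
            have := hsym f f'
            rw [h0, zero_mul] at this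
            exact (mul_eq_zero.1 this).resolve_left hb
        rw [hK, sub_self, abs_zero, add_zero]
        exact sg_ker B l
    · have ha' : ∀ f, l (π f) = 0 := by
        intro f
        by_contra h0
        exact ha ⟨f, h0⟩
      by_cases hb : ∃ f, b f ≠ 0
      · obtain ⟨f, hf⟩ := hb
        exact eq_case _ _ _ _ (sg_iso B hB l hl (π f) (b f) hf (h f) (ha' f))
      · have hb' : ∀ f, b f = 0 := by
          intro f
          by_contra h0
          exact hb ⟨f, h0⟩
        have hK : LinearMap.ker (l ∘ₗ π) = LinearMap.ker b := by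
          ext f'
          rw [LinearMap.mem_ker, LinearMap.mem_ker, LinearMap.comp_apply, ha', hb']
        rw [hK, sub_self, abs_zero, add_zero]
        exact sg_ker B l

end Pool.Agent.Lib.MP_177a0e_gt.Sig
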