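import Pool.Agent.Lib.MP_177a0e_gt.Sig.Stk
import Pool.Agent.Lib.MP_177a0e_gt.Sig.Edg

/-!
# the form of a cut colouring and a cut white state.

`f = (y, z)` in `Pair (colM ℚ) ⊤ u v (L + 1)`, `e = (y', z')` in `Pair (fitM ℚ) (whiteM ℚ) u v (L + 1)`, `c` the level between `u` and `v`, `L + 2 ≤ c.length`.
`gq u y y' = om c.length (y_|u|) (y'_|u|) - om 1 (y 0) (y' 0)`, the second term is `0` (`y 0 = 0`); `gq v z z' = om 1 (z_|v|) (z'_|v|) - om c.length (z 0) (z' 0)`, the first term is `z_|v| 0 * (z'_|v| 1 - z'_|v| 0)`, and `z_|v| 0 = z 0 0 = y_|u| 0 = y 0 0 = 0` (`edg0`, `0 ≠ L + 1`).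
* `L` odd: `y'_|u| = z' 0` (they are in `whiteM` and `L + 1` is even), `y_|u|` and `z 0` differ only at the gap `L + 1 = 2 m`: the difference is `(y (2 m) - z 0 (2 m)) (y' (2 m + 1) - y' (2 m - 1)) = be f * al e`.
* `L = 2 m` even: `y_|u|`, `z 0` differ only at an odd gap, `y'_|u|`, `z' 0` at `2 m + 1`: the terms `i = m`, `m + 1`: `(y (2 m) - y (2 m + 2)) (y' (2 m + 1) - z' 0 (2 m + 1)) = - al f * be e`.
-/

namespace Pool.Agent.Lib.MP_177a0e_gt.Sig

open Pool.Agent.Lib.MP_177a0e_gt.Tangle Pool.Agent.Lib.MP_177a0e_gt.Tangle.Gen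

private theorem StC_odd (k m : ℕ) (a b x : ℕ → ℚ) (hm : m < (k + 1) / 2) (h : ∀ i, i ≠ 2 * m → b i = a i) :
    om k a x - om k b x = (a (2 * m) - b (2 * m)) * (x (2 * m + 1) - x (2 * m - 1)) := by
  unfold om
  rw [← Finset.sum_sub_distrib, Finset.sum_eq_single_of_mem m (Finset.mem_range.2 hm)]
  · ring
  · intro i _ hi
    rw [h (2 * i) (by omega)]
    ring

private theorem StC_even (k m : ℕ) (a x x' : ℕ → ℚ) (hm : m + 1 < (k + 1) / 2) (h : ∀ i, i ≠ 2 * m + 1 → x' i = x i) :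
    om k a x - om k a x' = (a (2 * m) - a (2 * m + 2)) * (x (2 * m + 1) - x' (2 * m + 1)) := by
  have key : ∀ i ∈ Finset.range ((k + 1) / 2), a (2 * i) * (x (2 * i + 1) - x (2 * i - 1)) -
      a (2 * i) * (x' (2 * i + 1) - x' (2 * i - 1)) =
      (if i = m then a (2 * i) * (x (2 * m + 1) - x' (2 * m + 1)) else 0) -
        (if i = m + 1 then a (2 * i) * (x (2 * m + 1) - x' (2 * m + 1)) else 0) := by
    intro i _
    by_cases h1 : i = m
    · subst h1
      rw [if_pos rfl, if_neg (by omega), h (2 * i - 1) (by omega)]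
      ring
    · by_cases h2 : i = m + 1
      · subst h2
        rw [if_neg h1, if_pos rfl, h (2 * (m + 1) + 1) (by omega),
          show 2 * (m + 1) - 1 = 2 * m + 1 by omega]
        ring
      · rw [if_neg h1, if_neg h2, h (2 * i + 1) (by omega), h (2 * i - 1) (by omega)]
        ring
  unfold om
  rw [← Finset.sum_sub_distrib, Finset.sum_congr rfl key, Finset.sum_sub_distrib,
    Finset.sum_ite_eq', Finset.sum_ite_eq', if_pos (Finset.mem_range.2 (by omega)),
    if_pos (Finset.mem_range.2 hm), show 2 * (m + 1) = 2 * m + 2 by omega]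
  ring

private theorem StC_col : ∀ s, colM ℚ s ≤ fitM ℚ s := fun _ _ hx => hx.1

/-- the sum of the two forms is the difference of the boundary terms at the cut -/
private theorem StC_main {u v : Word} {c : List Bool} (hu : Valid [true] u c) (hv : Valid c v [true]) {L : ℕ}
    (f : Pair (colM ℚ) ⊤ u v (L + 1)) (e : Pair (fitM ℚ) (whiteM ℚ) u v (L + 1)) :
    gq u f.1.1 e.1.1 + gq v f.1.2 e.1.2 =
      om c.length (f.1.1 u.length) (e.1.1 u.length) - om c.length (f.1.2 0) (e.1.2 0) := by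
  obtain ⟨⟨⟨hf1, _, _⟩, hf0⟩, ⟨hf2, _, _⟩, hf3⟩ := f.2
  obtain ⟨⟨⟨he1, hew, _⟩, he0⟩, ⟨he2, hew', _⟩, he3⟩ := e.2
  have hc : c.length % 2 = 1 := odd_level hu rfl
  rw [stk hu rfl f.1.1 e.1.1 hf1 he1 hew, stk hv hc f.1.2 e.1.2 hf2 he2 hew']
  have h1 : om (R := ℚ) ([true] : List Bool).length (f.1.1 0) (e.1.1 0) = 0 := by
    rw [hf0]
    unfold om
    exact Finset.sum_eq_zero fun i _ => by rw [Pi.zero_apply, zero_mul]
  have h2 : f.1.2 v.length 0 = 0 := by
    rw [edg0 StC_col hf2 v.length le_rfl, hf3 0 (by omega), edg0 StC_col hf1 u.length le_rfl, hf0]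
    rfl
  have h3 : om (R := ℚ) ([true] : List Bool).length (f.1.2 v.length) (e.1.2 v.length) = 0 := by
    unfold om
    refine Finset.sum_eq_zero fun i hi => ?_
    rw [Finset.mem_range] at hi
    have hi' : i = 0 := by
      have : (([true] : List Bool).length + 1) / 2 = 1 := rfl
      omega
    rw [hi', show 2 * 0 = 0 from rfl, h2, zero_mul]
  rw [h1, h3]
  ring

theorem st_odd {u v : Word} {c : List Bool} (hu : Valid [true] u c) (hv : Valid c v [true]) {L : ℕ} (hL : L % 2 = 1) (hc : L + 2 ≤ c.length)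
    (f : Pair (colM ℚ) ⊤ u v (L + 1)) (e : Pair (fitM ℚ) (whiteM ℚ) u v (L + 1)) :
    gq u f.1.1 e.1.1 + gq v f.1.2 e.1.2 = be _ _ u v L f * al _ _ u v L e := by
  rw [StC_main hu hv f e]
  have hf3 := f.2.2.2
  have he3 := e.2.2.2
  have hew := e.2.1.1.2.1
  have hew' := e.2.2.1.2.1
  have hk : c.length % 2 = 1 := odd_level hu rfl
  obtain ⟨m, hm⟩ : ∃ m, L + 1 = 2 * m := ⟨(L + 1) / 2, by omega⟩
  have hxx : e.1.2 0 = e.1.1 u.length := by
    funext i
    by_cases hi : i = L + 1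
    · rw [hi, hew' 0 (L + 1) (by omega), hew u.length (L + 1) (by omega)]
    · exact he3 i hi
  rw [hxx, StC_odd c.length m (f.1.1 u.length) (f.1.2 0) (e.1.1 u.length) (by omega)
    (fun i hi => hf3 i (by omega))]
  show _ = (f.1.2 0 (L + 1) - f.1.1 u.length (L + 1)) * (e.1.1 u.length L - e.1.1 u.length (L + 2))
  generalize f.1.1 u.length = a
  generalize f.1.2 0 = b
  generalize e.1.1 u.length = x
  rw [hm, show L = 2 * m - 1 by omega, show 2 * m - 1 + 2 = 2 * m + 1 by omega]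
  ring

theorem st_even {u v : Word} {c : List Bool} (hu : Valid [true] u c) (hv : Valid c v [true]) {L : ℕ} (hL : L % 2 = 0) (hc : L + 2 ≤ c.length)
    (f : Pair (colM ℚ) ⊤ u v (L + 1)) (e : Pair (fitM ℚ) (whiteM ℚ) u v (L + 1)) :
    gq u f.1.1 e.1.1 + gq v f.1.2 e.1.2 = -(al _ _ u v L f * be _ _ u v L e) := by
  rw [StC_main hu hv f e]
  have hf3 := f.2.2.2
  have he3 := e.2.2.2
  have hk : c.length % 2 = 1 := odd_level hu rfl
  obtain ⟨m, hm⟩ : ∃ m, L = 2 * m := ⟨L / 2, by omega⟩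
  have hom : om c.length (f.1.2 0) (e.1.2 0) = om c.length (f.1.1 u.length) (e.1.2 0) := by
    unfold om
    refine Finset.sum_congr rfl fun i _ => ?_
    rw [hf3 (2 * i) (by omega)]
  rw [hom, StC_even c.length m (f.1.1 u.length) (e.1.1 u.length) (e.1.2 0) (by omega)
    (fun i hi => he3 i (by omega))]
  show _ = -((f.1.1 u.length L - f.1.1 u.length (L + 2)) * (e.1.2 0 (L + 1) - e.1.1 u.length (L + 1)))
  generalize f.1.1 u.length = a
  generalize e.1.2 0 = b
  generalize e.1.1 u.length = x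
  rw [hm]
  ring

end Pool.Agent.Lib.MP_177a0e_gt.Sig
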