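import Pool.Agent.Lib.MP_177a0e_gt.Sig.Gl

/-!
# the white part of a colouring.

`wh x i = x i` for odd `i`, `0` for even `i`. If `(x, y)` is in `fitM` then so is `(wh x, wh y)` (the shift of the gaps is `2`). So the white part of a colouring (also of a pair) is a white state. The form only uses the white gaps: `jmp s (wh x) (wh y) = jmp s x y` (`lp` even: the gap `lp + 1`; `lp` odd: the gaps `lp`, `lp + 2`).
-/

namespace Pool.Agent.Lib.MP_177a0e_gt.Sig

open Pool.Agent.Lib.MP_177a0e_gt.Tangle Pool.Agent.Lib.MP_177a0e_gt.Tangle.Gen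

/-- the white part -/
def wh (x : ℕ → ℚ) : ℕ → ℚ := fun i => if i % 2 = 0 then 0 else x i

private theorem wh_zero : wh 0 = 0 := by
  funext i
  simp [wh]

private theorem wh_add (x y : ℕ → ℚ) : wh (x + y) = wh x + wh y := by
  funext i
  simp only [wh, Pi.add_apply]
  split_ifs
  · rw [add_zero]
  · rfl

private theorem wh_smul (r : ℚ) (x : ℕ → ℚ) : wh (r • x) = r • wh x := by
  funext i
  simp only [wh, Pi.smul_apply, smul_eq_mul]
  split_ifs
  · rw [mul_zero]
  · rfl

private theorem wh_congr {x y : ℕ → ℚ} {i j : ℕ} (hij : i % 2 = j % 2) (h : x i = y j) :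
    wh x i = wh y j := by
  simp only [wh]
  rw [hij, h]

theorem fit_wh {s : Slice} {x y : ℕ → ℚ} (h : (x, y) ∈ fitM ℚ s) : (wh x, wh y) ∈ fitM ℚ s := by
  have h0 : Fit s x y := h
  show Fit s (wh x) (wh y)
  rcases s with ⟨p, _ | _ | _, q⟩
  · obtain ⟨h1, h2⟩ := h0
    exact ⟨fun i hi => wh_congr rfl (h1 i hi), fun i hi => wh_congr (by omega) (h2 i hi)⟩
  · obtain ⟨h1, h2⟩ := h0
    exact ⟨fun i hi => wh_congr rfl (h1 i hi), fun i hi => wh_congr (by omega) (h2 i hi)⟩
  · exact fun i hi => wh_congr rfl (h0 i hi)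

theorem jmp_wh (s : Slice) (x y : ℕ → ℚ) : jmp s (wh x) (wh y) = jmp s x y := by
  rcases s with ⟨p, _ | _ | _, q⟩
  · rfl
  · rfl
  · simp only [jmp]
    split_ifs with h
    · simp only [wh]
      rw [if_neg (by omega), if_neg (by omega)]
    · simp only [wh]
      rw [if_neg h, if_neg (by omega)]

theorem run_wh {w : Word} {x : ℕ → ℕ → ℚ} (h : Run (colM ℚ) w x) : Run (fitM ℚ) w (fun j => wh (x j)) := by
  induction w generalizing x with
  | nil => trivial
  | cons s w ih =>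
    refine ⟨fit_wh h.1.1, ?_⟩
    exact ih h.2

theorem gq_wh (w : Word) (x y : ℕ → ℕ → ℚ) : gq w (fun j => wh (x j)) y = gq w x y := by
  induction w generalizing x y with
  | nil => rfl
  | cons s w ih =>
    simp only [gq]
    rw [jmp_wh]
    have := ih (sh 1 x) (sh 1 y)
    rw [← this]
    rfl

private theorem wh_white (x : ℕ → ℚ) : wh x ∈ whiteM ℚ := by
  intro i hi
  simp only [wh]
  rw [if_pos hi]

private theorem runs_wh {w : Word} {x : ℕ → ℕ → ℚ} (h : x ∈ Runs (colM ℚ) ⊤ w) :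
    (fun j => wh (x j)) ∈ Runs (fitM ℚ) (whiteM ℚ) w :=
  ⟨run_wh h.1, fun j => wh_white (x j), fun j hj => by
    show wh (x j) = 0
    rw [h.2.2 j hj, wh_zero]⟩

private theorem closed_wh {w : Word} {x : ℕ → ℕ → ℚ} (h : x ∈ Closed (colM ℚ) ⊤ w) :
    (fun j => wh (x j)) ∈ Closed (fitM ℚ) (whiteM ℚ) w :=
  ⟨runs_wh h.1, by
    show wh (x 0) = 0
    rw [h.2, wh_zero]⟩

/-- the white part of a pair of colourings -/
theorem pair_wh (u v : Word) (k : ℕ) : ∃ π : Pair (colM ℚ) ⊤ u v k →ₗ[ℚ] Pair (fitM ℚ) (whiteM ℚ) u v k,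
    ∀ f, (π f).1 = (fun j => wh (f.1.1 j), fun j => wh (f.1.2 j)) := by
  refine ⟨{ toFun := fun f => ⟨(fun j => wh (f.1.1 j), fun j => wh (f.1.2 j)),
              closed_wh f.2.1, runs_wh f.2.2.1, fun i hi => wh_congr rfl (f.2.2.2 i hi)⟩
            map_add' := ?_
            map_smul' := ?_ }, fun f => rfl⟩
  · intro f g
    apply Subtype.ext
    apply Prod.ext
    · funext j
      exact wh_add (f.1.1 j) (g.1.1 j)
    · funext j
      exact wh_add (f.1.2 j) (g.1.2 j)
  · intro r f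
    apply Subtype.ext
    apply Prod.ext
    · funext j
      exact wh_smul r (f.1.1 j)
    · funext j
      exact wh_smul r (f.1.2 j)

end Pool.Agent.Lib.MP_177a0e_gt.Sig
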