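import Pool.Agent.Lib.MP_177a0e_gt.Sig.Cut1
import Pool.Agent.Lib.MP_177a0e_gt.TangleMain
import Pool.Agent.Lib.MP_177a0e_gt.Sig.Cut2
import Pool.Agent.Lib.MP_177a0e_gt.Sig.FdP
import Pool.Agent.Lib.MP_177a0e_gt.Sig.StC
import Pool.Agent.Lib.MP_177a0e_gt.Sig.Whi
import Pool.Agent.Lib.MP_177a0e_gt.Sig.La3
import Pool.Agent.Lib.MP_177a0e_gt.Sig.Cor

/-!
# saddles.

`V = Pair (fitM ℚ) (whiteM ℚ) u v (L + 1)` with the form `gp u v (L + 1)`, `D = Pair (colM ℚ) ⊤ u v (L + 1)`, `π : D → V` (`pair_wh`), `L = |p|`; finite-dimensional by `fdp`. The level `c` between `u` and `v` has at least `L + 2` strands (`Valid` for the word with the saddle: `c = p ++ [x, !x] ++ q`; `valid_append` is in `MP_177a0e_gt/TangleMain.lean`, it can be imported).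
`White (u ++ v) ≅ ker be` in `V` (`cut_app`), `White (saddle) ≅ ker al` in `V` (`cut_saddle`), with the forms; the same in `D` for `Dehn ℚ` (`cup_fit`, `white_del`).
* `L` odd: `be = 0` on `V` (`L + 1` is even, everything is in `whiteM`): `sg (gw (u ++ v)) = sg (gp ..)`, `sg (gw (saddle)) = sg (restriction to ker al)`; `sg_sad` with `l = al` on `V`, `b = be` on `D` (`st_odd` and `gq_wh`: `gp (π f) e = be f * al e`), and `al ∘ π = al` on `D` (`L`, `L + 2` are odd).
* `L` even: `al = 0` on `V`: `sg (gw (saddle)) = sg (gp ..)`, `sg (gw (u ++ v)) = sg (restriction to ker be)`; `sg_sad` with `l = be` on `V`, `b = - al` on `D` (`st_even`; `ker (-al) = ker al`), `be ∘ π = be` on `D` (`L + 1` is odd).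
The correction terms agree: `corr_append`, `cor_saddle`. `nul` is the dimension of `Dehn ℚ`.
-/

namespace Pool.Agent.Lib.MP_177a0e_gt.Sig

open Pool.Agent.Lib.MP_177a0e_gt.Tangle Pool.Agent.Lib.MP_177a0e_gt.Tangle.Gen

private theorem Sad_be0 (u v : Word) (L : ℕ) (hL : L % 2 = 1) : be (fitM ℚ) (whiteM ℚ) u v L = 0 := by
  apply LinearMap.ext
  intro p
  have h1 : p.1.2 0 (L + 1) = 0 := p.2.2.1.2.1 0 (L + 1) (by omega)
  have h2 : p.1.1 u.length (L + 1) = 0 := p.2.1.1.2.1 u.length (L + 1) (by omega)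
  show p.1.2 0 (L + 1) - p.1.1 u.length (L + 1) = 0
  rw [h1, h2, sub_zero]

private theorem Sad_al0 (u v : Word) (L : ℕ) (hL : L % 2 = 0) : al (fitM ℚ) (whiteM ℚ) u v L = 0 := by
  apply LinearMap.ext
  intro p
  have h1 : p.1.1 u.length L = 0 := p.2.1.1.2.1 u.length L hL
  have h2 : p.1.1 u.length (L + 2) = 0 := p.2.1.1.2.1 u.length (L + 2) (by omega)
  show p.1.1 u.length L - p.1.1 u.length (L + 2) = 0
  rw [h1, h2, sub_zero]

private theorem Sad_wh_odd (x : ℕ → ℚ) (i : ℕ) (hi : i % 2 = 1) : wh x i = x i := by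
  unfold wh
  rw [if_neg (by omega)]

theorem saddle_bd (u v : Word) (x : Bool) (p q : List Bool) (h1 : Valid [true] (u ++ v) [true])
    (h2 : Valid [true] (u ++ [⟨p, cap x, q⟩, ⟨p, cup x, q⟩] ++ v) [true]) :
    |signature (u ++ [⟨p, cap x, q⟩, ⟨p, cup x, q⟩] ++ v) - signature (u ++ v)| +
      |(nul (u ++ [⟨p, cap x, q⟩, ⟨p, cup x, q⟩] ++ v) : ℤ) - nul (u ++ v)| ≤ 1 := by
  obtain ⟨a, ha⟩ : ∃ a : Word, a = [⟨p, cap x, q⟩, ⟨p, cup x, q⟩] := ⟨_, rfl⟩
  rw [← ha] at h2 ⊢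
  -- the level between `u` and `v`
  obtain ⟨m, hm1, hv⟩ := valid_append.1 h2
  obtain ⟨c, hu, hca⟩ := valid_append.1 hm1
  rw [ha] at hca
  obtain ⟨hc1, hc2, hc3⟩ := hca
  have hcm : c = m := by
    rw [← hc1, ← hc3]
    rfl
  have hcl : p.length + 2 ≤ c.length := by
    rw [← hc1]
    simp [Slice.src, Gen.src]
  rw [← hcm] at hv
  -- the correction terms
  have hcor : corr (u ++ a ++ v) = corr (u ++ v) := by
    rw [corr_append, corr_append, corr_append, ha, cor_saddle, add_zero]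
  -- the spaces
  have hcf : ∀ s, colM ℚ s ≤ fitM ℚ s := fun s t ht => ht.1
  have i1 : FiniteDimensional ℚ (Pair (fitM ℚ) (whiteM ℚ) u v (p.length + 1)) := fdp (fun _ => le_refl _) _ u v (p.length + 1)
  have i2 : FiniteDimensional ℚ (Pair (colM ℚ) ⊤ u v (p.length + 1)) := fdp hcf _ u v (p.length + 1)
  obtain ⟨Φ1, hΦ1⟩ := cut_app (P := fitM ℚ) (Λ := whiteM ℚ) u v p.length
  obtain ⟨Φ2, hΦ2⟩ := cut_saddle (P := fitM ℚ) (Λ := whiteM ℚ) (fun _ _ _ => ⟨rfl, rfl⟩) (fun x hx L => white_del hx L) u v a x p q ha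
  obtain ⟨Ψ1, _⟩ := cut_app (P := colM ℚ) (Λ := ⊤) u v p.length
  obtain ⟨Ψ2, _⟩ := cut_saddle (P := colM ℚ) (Λ := ⊤) (fun p q x => cup_fit x p q) (fun _ _ _ => Submodule.mem_top) u v a x p q ha
  obtain ⟨π, hπ⟩ := pair_wh u v (p.length + 1)
  have n1 : nul (u ++ v) = Module.finrank ℚ (LinearMap.ker (be (colM ℚ) ⊤ u v p.length)) := LinearEquiv.finrank_eq Ψ1
  have n2 : nul (u ++ a ++ v) = Module.finrank ℚ (LinearMap.ker (al (colM ℚ) ⊤ u v p.length)) := LinearEquiv.finrank_eq Ψ2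
  have s1 : sg (E := LinearMap.ker (be (fitM ℚ) (whiteM ℚ) u v p.length)) ((gp u v (p.length + 1)).restrict (LinearMap.ker (be (fitM ℚ) (whiteM ℚ) u v p.length))) = sg (gw (u ++ v)) := by
    refine sg_equiv _ _ Φ1 ?_
    intro t
    exact (hΦ1 t t).symm
  have s2 : sg (E := LinearMap.ker (al (fitM ℚ) (whiteM ℚ) u v p.length)) ((gp u v (p.length + 1)).restrict (LinearMap.ker (al (fitM ℚ) (whiteM ℚ) u v p.length))) = sg (gw (u ++ a ++ v)) := by
    refine sg_equiv _ _ Φ2 ?_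
    intro t
    exact (hΦ2 t t).symm
  have hsym : ∀ e f, gp u v (p.length + 1) e f = gp u v (p.length + 1) f e := by
    intro e f
    show gq u e.1.1 f.1.1 + gq v e.1.2 f.1.2 = gq u f.1.1 e.1.1 + gq v f.1.2 e.1.2
    rw [gq_comm u, gq_comm v]
  have hgp : ∀ f e, gp u v (p.length + 1) (π f) e = gq u f.1.1 e.1.1 + gq v f.1.2 e.1.2 := by
    intro f e
    show gq u (π f).1.1 e.1.1 + gq v (π f).1.2 e.1.2 = _
    rw [hπ f]
    show gq u (fun j => wh (f.1.1 j)) e.1.1 + gq v (fun j => wh (f.1.2 j)) e.1.2 = _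
    rw [gq_wh, gq_wh]
  have htop : sg (E := (⊤ : Submodule ℚ (Pair (fitM ℚ) (whiteM ℚ) u v (p.length + 1)))) ((gp u v (p.length + 1)).restrict ⊤) = sg (gp u v (p.length + 1)) :=
    sg_equiv _ _ (Submodule.topEquiv (R := ℚ) (M := Pair (fitM ℚ) (whiteM ℚ) u v (p.length + 1))).symm (fun _ => rfl)
  have hsig : |signature (u ++ a ++ v) - signature (u ++ v)| = |sg (gw (u ++ a ++ v)) - sg (gw (u ++ v))| := by
    unfold signature
    rw [hcor]
    congr 1
    ring
  rw [hsig, n1, n2, ← s1, ← s2]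
  rcases Nat.mod_two_eq_zero_or_one p.length with hL | hL
  · -- even
    have hal := Sad_al0 u v p.length hL
    have hk : LinearMap.ker (al (fitM ℚ) (whiteM ℚ) u v p.length) = ⊤ := by
      rw [hal]
      exact LinearMap.ker_zero
    have key := sg_sad (gp u v (p.length + 1)) hsym (be (fitM ℚ) (whiteM ℚ) u v p.length) π (-(al (colM ℚ) ⊤ u v p.length)) (by
      intro f e
      rw [hgp, st_even hu hv hL hcl, LinearMap.neg_apply]
      ring)
    have hcomp : be (fitM ℚ) (whiteM ℚ) u v p.length ∘ₗ π = be (colM ℚ) ⊤ u v p.length := by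
      apply LinearMap.ext
      intro f
      show (π f).1.2 0 (p.length + 1) - (π f).1.1 u.length (p.length + 1) = f.1.2 0 (p.length + 1) - f.1.1 u.length (p.length + 1)
      rw [hπ f]
      show wh (f.1.2 0) (p.length + 1) - wh (f.1.1 u.length) (p.length + 1) = _
      rw [Sad_wh_odd _ _ (by omega), Sad_wh_odd _ _ (by omega)]
    have hneg : LinearMap.ker (-(al (colM ℚ) ⊤ u v p.length)) = LinearMap.ker (al (colM ℚ) ⊤ u v p.length) := by
      ext f
      rw [LinearMap.mem_ker, LinearMap.mem_ker, LinearMap.neg_apply, neg_eq_zero]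
    rw [hcomp, hneg] at key
    rw [hk, htop, abs_sub_comm ((Module.finrank ℚ _ : ℕ) : ℤ)]
    exact key
  · -- odd
    have hbe := Sad_be0 u v p.length hL
    have hk : LinearMap.ker (be (fitM ℚ) (whiteM ℚ) u v p.length) = ⊤ := by
      rw [hbe]
      exact LinearMap.ker_zero
    have key := sg_sad (gp u v (p.length + 1)) hsym (al (fitM ℚ) (whiteM ℚ) u v p.length) π (be (colM ℚ) ⊤ u v p.length) (by
      intro f e
      rw [hgp, st_odd hu hv hL hcl])
    have hcomp : al (fitM ℚ) (whiteM ℚ) u v p.length ∘ₗ π = al (colM ℚ) ⊤ u v p.length := by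
      apply LinearMap.ext
      intro f
      show (π f).1.1 u.length p.length - (π f).1.1 u.length (p.length + 2) = f.1.1 u.length p.length - f.1.1 u.length (p.length + 2)
      rw [hπ f]
      show wh (f.1.1 u.length) p.length - wh (f.1.1 u.length) (p.length + 2) = _
      rw [Sad_wh_odd _ _ hL, Sad_wh_odd _ _ (by omega)]
    rw [hcomp] at key
    rw [hk, htop, abs_sub_comm (sg _)]
    exact key

end Pool.Agent.Lib.MP_177a0e_gt.Sig
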