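import Pool.Agent.Lib.MP_177a0e_gt.Sig.Inv
import Pool.Agent.Lib.MP_177a0e_gt.Sig.Sad
import Pool.Agent.Lib.MP_177a0e_gt.Sig.Kn
import Pool.Agent.Lib.MP_177a0e_gt.OneMin

/-!
# the signature bound for the slice genus.

PROOFS.
* `cob_bd`: for a movie with `b` births, `s` saddles, `d` deaths from `w` to `w'`: `|signature w' - signature w| + |nul w' - nul w - (b - d)| ≤ s`: induction on `Cob`: isotopies change nothing (`sig_local`, `fr_rel`), births: `sig_birth`, `fr_birth` (`nul` is `Module.finrank ℚ (Dehn ℚ w)`), saddles: `saddle_bd` (both directions), triangle inequality.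
* `ribbon_bd`: `K` a knot with `BoundsRibbon K g`: `b = 0`, `s = d + 2 g`, `nul K = 0`, `nul [] = 0` (`nul_knot`, `fr_nil`), `signature [] = 0`: `|signature K| + d ≤ d + 2 g`.
* `conc_sig`: a movie with `m` births and `m` saddles and no deaths between two knots: `|signature K' - signature K| + m ≤ m`.
* `slice_bd`: `exists_sliceGenus` (in `MP_177a0e_gt/TangleMain.lean`) gives `BoundsSurface K (sliceGenus K) m`: `conc_sig` and `ribbon_bd`.
-/

namespace Pool.Agent.Lib.MP_177a0e_gt.Sig

open Pool.Agent.Lib.MP_177a0e_gt.Tangle Pool.Agent.Lib.MP_177a0e_gt.Tangle.Gen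

private theorem Bnd_rel {w w' : Word} (h : Local Rel [true] [true] w w') :
    signature w = signature w' ∧ (nul w : ℤ) = nul w' := by
  refine ⟨sig_local h, ?_⟩
  cases h with
  | mk u a b v h h1 h2 =>
    unfold nul
    rw [fr_rel h u v]

private theorem Bnd_birth {w w' : Word} (h : Local BirthRel [true] [true] w w') :
    signature w = signature w' ∧ (nul w' : ℤ) = nul w + 1 := by
  cases h with
  | mk u a b v h h1 h2 =>
    refine ⟨sig_birth h u v, ?_⟩
    unfold nul
    rw [fr_birth h u v]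
    push_cast
    rfl

private theorem Bnd_saddle {w w' : Word} (h : Local SaddleRel [true] [true] w w') :
    |signature w' - signature w| + |(nul w' : ℤ) - nul w| ≤ 1 := by
  cases h with
  | mk u a b v h h1 h2 =>
    cases h with
    | mk x p q =>
      rw [List.append_nil] at h1 ⊢
      exact saddle_bd u v x p q h1 h2

private theorem Bnd_ar (a b c n m k t s : ℤ) (h1 : |b - a| + |m - n - t| ≤ s)
    (h2 : |c - b| + |k - m| ≤ 1) : |c - a| + |k - n - t| ≤ s + 1 := by
  have h3 := abs_sub_le c b a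
  have h4 := abs_sub_le k m (n + t)
  rw [← sub_sub, ← sub_sub] at h4
  linarith

theorem cob_bd {b s d : ℕ} {w w' : Word} (h : Cob [true] [true] b s d w w') :
    |signature w' - signature w| + |(nul w' : ℤ) - nul w - ((b : ℤ) - d)| ≤ s := by
  induction h with
  | refl h => simp
  | @iso b s d w w₁ w₂ h h' ih =>
    have h1 : signature w₂ = signature w₁ ∧ (nul w₂ : ℤ) = nul w₁ := by
      rcases h' with h' | h'
      · exact ⟨(Bnd_rel h').1.symm, (Bnd_rel h').2.symm⟩
      · exact Bnd_rel h'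
    rw [h1.1, h1.2]
    exact ih
  | @saddle b s d w w₁ w₂ h h' ih =>
    have h1 : |signature w₂ - signature w₁| + |(nul w₂ : ℤ) - nul w₁| ≤ 1 := by
      rcases h' with h' | h'
      · exact Bnd_saddle h'
      · have := Bnd_saddle h'
        rw [abs_sub_comm (signature w₂), abs_sub_comm (nul w₂ : ℤ)]
        exact this
    push_cast
    exact Bnd_ar _ _ _ _ _ _ _ _ ih h1
  | @birth b s d w w₁ w₂ h h' ih =>
    obtain ⟨h1, h2⟩ := Bnd_birth h'
    rw [← h1, h2]
    push_cast
    have e : (nul w₁ : ℤ) + 1 - nul w - ((b : ℤ) + 1 - d) = (nul w₁ : ℤ) - nul w - ((b : ℤ) - d) := by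
      ring
    rw [e]
    exact ih
  | @death b s d w w₁ w₂ h h' ih =>
    obtain ⟨h1, h2⟩ := Bnd_birth h'
    rw [h1]
    push_cast
    have e : (nul w₂ : ℤ) - nul w - ((b : ℤ) - (d + 1)) = (nul w₁ : ℤ) - nul w - ((b : ℤ) - d) := by
      rw [h2]
      ring
    rw [e]
    exact ih

private theorem Bnd_nil : nul [] = 0 := by
  unfold nul
  exact fr_nil

theorem ribbon_bd {K : Word} (hK : IsKnot K) {g : ℕ} (h : BoundsRibbon K g) : |signature K| ≤ 2 * g := by
  obtain ⟨d, hd⟩ := h
  have h1 := cob_bd hd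
  rw [sig_nil, Bnd_nil, nul_knot hK, zero_sub, abs_neg] at h1
  have h2 : ((0 : ℕ) : ℤ) - ((0 : ℕ) : ℤ) - (((0 : ℕ) : ℤ) - (d : ℤ)) = d := by
    push_cast
    ring
  rw [h2, abs_of_nonneg (Int.natCast_nonneg d)] at h1
  push_cast at h1
  linarith

theorem conc_sig {K K' : Word} (hK : IsKnot K) (hK' : IsKnot K') {m : ℕ} (h : Cob [true] [true] m m 0 K K') : signature K' = signature K := by
  have h1 := cob_bd h
  rw [nul_knot hK, nul_knot hK'] at h1
  have h2 : ((0 : ℕ) : ℤ) - ((0 : ℕ) : ℤ) - ((m : ℤ) - ((0 : ℕ) : ℤ)) = -m := by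
    push_cast
    ring
  rw [h2, abs_neg, abs_of_nonneg (Int.natCast_nonneg m)] at h1
  have h3 : |signature K' - signature K| ≤ 0 := by linarith
  exact sub_eq_zero.mp (abs_nonpos_iff.mp h3)

theorem slice_bd (K : Knot) : |signature K.1| ≤ 2 * sliceGenus K.1 := by
  obtain ⟨m, K', hK', h1, h2⟩ := exists_sliceGenus K
  rw [← conc_sig K.2 hK' h1]
  exact ribbon_bd hK' h2

end Pool.Agent.Lib.MP_177a0e_gt.Sig
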