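import Pool.Agent.Lib.MP_177a0e_gt.Sig.Gl
import Pool.Agent.Lib.MP_177a0e_gt.Sig.Fd
import Pool.Agent.Lib.MP_177a0e_gt.Sig.La1

/-!
# local equivalences inside a word.

PROOFS. `glue3` for `a` and `b`, and `Φ` on the middle component: `Tri u a v ≃ Tri u b v`, `(y, t, z) ↦ (y, Φ t, z)` (`Φ` keeps the bottom and the top level).
* `sg_viso`: an isometry `White (u ++ a ++ v) ≃ White (u ++ b ++ v)`: `sg_equiv`.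
* `sg_vadd`: `White (u ++ a ++ v) ≃ White (u ++ b ++ v) × ℚ`: `sg_add` (`gform_symm`).
* `fr_diso`, `fr_dadd`: `LinearEquiv.finrank_eq`, `Module.finrank_prod`.
-/

namespace Pool.Agent.Lib.MP_177a0e_gt.Sig

open Pool.Agent.Lib.MP_177a0e_gt.Tangle Pool.Agent.Lib.MP_177a0e_gt.Tangle.Gen

variable {R : Type} [Field R]

private theorem cx1_iso {P : Slice → Submodule R ((ℕ → R) × (ℕ → R))} {Λ : Submodule R (ℕ → R)} {a b : Word}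
    (Φ : Runs P Λ a ≃ₗ[R] Runs P Λ b)
    (hΦ : ∀ t : Runs P Λ a, (Φ t).1 0 = t.1 0 ∧ (Φ t).1 b.length = t.1 a.length) (u v : Word) :
    ∃ Ψ : Tri P Λ u a v ≃ₗ[R] Tri P Λ u b v, ∀ p : Tri P Λ u a v, (Ψ p).1.1 = p.1.1 ∧
      (Ψ p).1.2.1 = (Φ ⟨p.1.2.1, p.2.2.1⟩).1 ∧ (Ψ p).1.2.2 = p.1.2.2 := by
  have hs : ∀ s : Runs P Λ b, (Φ.symm s).1 0 = s.1 0 ∧ (Φ.symm s).1 a.length = s.1 b.length := by
    intro s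
    have h := hΦ (Φ.symm s)
    rw [LinearEquiv.apply_symm_apply] at h
    exact ⟨h.1.symm, h.2.symm⟩
  refine ⟨{ toFun := fun p => ⟨(p.1.1, (Φ ⟨p.1.2.1, p.2.2.1⟩).1, p.1.2.2), p.2.1, (Φ ⟨p.1.2.1, p.2.2.1⟩).2,
              p.2.2.2.1, p.2.2.2.2.1.trans (hΦ ⟨p.1.2.1, p.2.2.1⟩).1.symm,
              (hΦ ⟨p.1.2.1, p.2.2.1⟩).2.trans p.2.2.2.2.2⟩
            invFun := fun p => ⟨(p.1.1, (Φ.symm ⟨p.1.2.1, p.2.2.1⟩).1, p.1.2.2), p.2.1,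
              (Φ.symm ⟨p.1.2.1, p.2.2.1⟩).2,
              p.2.2.2.1, p.2.2.2.2.1.trans (hs ⟨p.1.2.1, p.2.2.1⟩).1.symm,
              (hs ⟨p.1.2.1, p.2.2.1⟩).2.trans p.2.2.2.2.2⟩
            map_add' := ?_
            map_smul' := ?_
            left_inv := ?_
            right_inv := ?_ }, fun p => ⟨rfl, rfl, rfl⟩⟩
  · intro p q
    apply Subtype.ext
    refine Prod.ext rfl (Prod.ext ?_ rfl)
    have h : (⟨(p + q).1.2.1, (p + q).2.2.1⟩ : Runs P Λ a) = ⟨p.1.2.1, p.2.2.1⟩ + ⟨q.1.2.1, q.2.2.1⟩ := rfl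
    show (Φ ⟨(p + q).1.2.1, (p + q).2.2.1⟩).1 = _
    rw [h, map_add]
    rfl
  · intro r p
    apply Subtype.ext
    refine Prod.ext rfl (Prod.ext ?_ rfl)
    have h : (⟨(r • p).1.2.1, (r • p).2.2.1⟩ : Runs P Λ a) = r • ⟨p.1.2.1, p.2.2.1⟩ := rfl
    show (Φ ⟨(r • p).1.2.1, (r • p).2.2.1⟩).1 = _
    rw [h, map_smul]
    rfl
  · intro p
    apply Subtype.ext
    refine Prod.ext rfl (Prod.ext ?_ rfl)
    show (Φ.symm (Φ ⟨p.1.2.1, p.2.2.1⟩)).1 = p.1.2.1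
    rw [LinearEquiv.symm_apply_apply]
  · intro p
    apply Subtype.ext
    refine Prod.ext rfl (Prod.ext ?_ rfl)
    show (Φ (Φ.symm ⟨p.1.2.1, p.2.2.1⟩)).1 = p.1.2.1
    rw [LinearEquiv.apply_symm_apply]

private theorem cx1_add {P : Slice → Submodule R ((ℕ → R) × (ℕ → R))} {Λ : Submodule R (ℕ → R)} {a b : Word}
    (Φ : Runs P Λ a ≃ₗ[R] Runs P Λ b × R)
    (hΦ : ∀ t : Runs P Λ a, (Φ t).1.1 0 = t.1 0 ∧ (Φ t).1.1 b.length = t.1 a.length) (u v : Word) :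
    ∃ Ψ : Tri P Λ u a v ≃ₗ[R] Tri P Λ u b v × R, ∀ p : Tri P Λ u a v, (Ψ p).1.1.1 = p.1.1 ∧
      (Ψ p).1.1.2.1 = (Φ ⟨p.1.2.1, p.2.2.1⟩).1.1 ∧ (Ψ p).1.1.2.2 = p.1.2.2 ∧
      (Ψ p).2 = (Φ ⟨p.1.2.1, p.2.2.1⟩).2 := by
  have hs : ∀ s : Runs P Λ b × R, (Φ.symm s).1 0 = s.1.1 0 ∧ (Φ.symm s).1 a.length = s.1.1 b.length := by
    intro s
    have h := hΦ (Φ.symm s)
    rw [LinearEquiv.apply_symm_apply] at h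
    exact ⟨h.1.symm, h.2.symm⟩
  refine ⟨{ toFun := fun p => (⟨(p.1.1, (Φ ⟨p.1.2.1, p.2.2.1⟩).1.1, p.1.2.2), p.2.1,
              (Φ ⟨p.1.2.1, p.2.2.1⟩).1.2,
              p.2.2.2.1, p.2.2.2.2.1.trans (hΦ ⟨p.1.2.1, p.2.2.1⟩).1.symm,
              (hΦ ⟨p.1.2.1, p.2.2.1⟩).2.trans p.2.2.2.2.2⟩, (Φ ⟨p.1.2.1, p.2.2.1⟩).2)
            invFun := fun p => ⟨(p.1.1.1, (Φ.symm (⟨p.1.1.2.1, p.1.2.2.1⟩, p.2)).1, p.1.1.2.2), p.1.2.1,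
              (Φ.symm (⟨p.1.1.2.1, p.1.2.2.1⟩, p.2)).2,
              p.1.2.2.2.1, p.1.2.2.2.2.1.trans (hs (⟨p.1.1.2.1, p.1.2.2.1⟩, p.2)).1.symm,
              (hs (⟨p.1.1.2.1, p.1.2.2.1⟩, p.2)).2.trans p.1.2.2.2.2.2⟩
            map_add' := ?_
            map_smul' := ?_
            left_inv := ?_
            right_inv := ?_ }, fun p => ⟨rfl, rfl, rfl, rfl⟩⟩
  · intro p q
    have h : (⟨(p + q).1.2.1, (p + q).2.2.1⟩ : Runs P Λ a) = ⟨p.1.2.1, p.2.2.1⟩ + ⟨q.1.2.1, q.2.2.1⟩ := rfl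
    refine Prod.ext (Subtype.ext (Prod.ext rfl (Prod.ext ?_ rfl))) ?_
    · show (Φ ⟨(p + q).1.2.1, (p + q).2.2.1⟩).1.1 = _
      rw [h, map_add]
      rfl
    · show (Φ ⟨(p + q).1.2.1, (p + q).2.2.1⟩).2 = _
      rw [h, map_add]
      rfl
  · intro r p
    have h : (⟨(r • p).1.2.1, (r • p).2.2.1⟩ : Runs P Λ a) = r • ⟨p.1.2.1, p.2.2.1⟩ := rfl
    refine Prod.ext (Subtype.ext (Prod.ext rfl (Prod.ext ?_ rfl))) ?_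
    · show (Φ ⟨(r • p).1.2.1, (r • p).2.2.1⟩).1.1 = _
      rw [h, map_smul]
      rfl
    · show (Φ ⟨(r • p).1.2.1, (r • p).2.2.1⟩).2 = _
      rw [h, map_smul]
      rfl
  · intro p
    apply Subtype.ext
    refine Prod.ext rfl (Prod.ext ?_ rfl)
    show (Φ.symm (Φ ⟨p.1.2.1, p.2.2.1⟩)).1 = p.1.2.1
    rw [LinearEquiv.symm_apply_apply]
  · intro p
    have h : Φ ⟨(Φ.symm (⟨p.1.1.2.1, p.1.2.2.1⟩, p.2)).1, (Φ.symm (⟨p.1.1.2.1, p.1.2.2.1⟩, p.2)).2⟩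
        = (⟨p.1.1.2.1, p.1.2.2.1⟩, p.2) := Φ.apply_symm_apply _
    refine Prod.ext (Subtype.ext (Prod.ext rfl (Prod.ext ?_ rfl))) ?_
    · show (Φ ⟨(Φ.symm (⟨p.1.1.2.1, p.1.2.2.1⟩, p.2)).1, (Φ.symm (⟨p.1.1.2.1, p.1.2.2.1⟩, p.2)).2⟩).1.1 = _
      rw [h]
    · show (Φ ⟨(Φ.symm (⟨p.1.1.2.1, p.1.2.2.1⟩, p.2)).1, (Φ.symm (⟨p.1.1.2.1, p.1.2.2.1⟩, p.2)).2⟩).2 = _
      rw [h]

theorem sg_viso {a b : Word} (h : VIso a b) (u v : Word) : sg (gw (u ++ a ++ v)) = sg (gw (u ++ b ++ v)) := by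
  obtain ⟨Φ, hΦ⟩ := h
  obtain ⟨Ψ, hΨ⟩ := cx1_iso Φ (fun t => ⟨(hΦ t).1, (hΦ t).2.1⟩) u v
  obtain ⟨e1, h1⟩ := glue3 (P := fitM ℚ) (Λ := whiteM ℚ) u a v
  obtain ⟨e2, h2⟩ := glue3 (P := fitM ℚ) (Λ := whiteM ℚ) u b v
  refine (sg_equiv (gw (u ++ a ++ v)) (gw (u ++ b ++ v)) (e1.trans (Ψ.trans e2.symm)) ?_).symm
  intro x
  have e3 : e2 ((e1.trans (Ψ.trans e2.symm)) x) = Ψ (e1 x) := by simp
  show gq (u ++ b ++ v) ((e1.trans (Ψ.trans e2.symm)) x).1 ((e1.trans (Ψ.trans e2.symm)) x).1 = gq (u ++ a ++ v) x.1 x.1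
  rw [h2, h1, e3, (hΨ (e1 x)).1, (hΨ (e1 x)).2.1, (hΨ (e1 x)).2.2, (hΦ ⟨(e1 x).1.2.1, (e1 x).2.2.1⟩).2.2]

theorem sg_vadd {ε : ℤ} (hε : ε = 1 ∨ ε = -1 ∨ ε = 0) {a b : Word} (h : VAdd ε a b) (u v : Word) :
    sg (gw (u ++ a ++ v)) = sg (gw (u ++ b ++ v)) + ε := by
  obtain ⟨Φ, hΦ⟩ := h
  obtain ⟨Ψ, hΨ⟩ := cx1_add Φ (fun t => ⟨(hΦ t).1, (hΦ t).2.1⟩) u v
  obtain ⟨e1, h1⟩ := glue3 (P := fitM ℚ) (Λ := whiteM ℚ) u a v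
  obtain ⟨e2, h2⟩ := glue3 (P := fitM ℚ) (Λ := whiteM ℚ) u b v
  refine sg_add (gw (u ++ b ++ v)) (fun x y => gq_comm _ _ _) (gw (u ++ a ++ v))
    (e1.trans (Ψ.trans (e2.symm.prodCongr (LinearEquiv.refl ℚ ℚ)))) ε hε ?_
  intro z z'
  have e3 : ∀ x, e2 ((e1.trans (Ψ.trans (e2.symm.prodCongr (LinearEquiv.refl ℚ ℚ)))) x).1 = (Ψ (e1 x)).1 := by
    intro x
    show e2 (e2.symm (Ψ (e1 x)).1) = _
    rw [LinearEquiv.apply_symm_apply]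
  have e4 : ∀ x, ((e1.trans (Ψ.trans (e2.symm.prodCongr (LinearEquiv.refl ℚ ℚ)))) x).2 = (Ψ (e1 x)).2 := fun _ => rfl
  show gq (u ++ a ++ v) z.1 z'.1 =
    gq (u ++ b ++ v) ((e1.trans (Ψ.trans (e2.symm.prodCongr (LinearEquiv.refl ℚ ℚ)))) z).1.1
      ((e1.trans (Ψ.trans (e2.symm.prodCongr (LinearEquiv.refl ℚ ℚ)))) z').1.1 + _
  rw [h2, h1, e3, e3, e4, e4, (hΨ (e1 z)).1, (hΨ (e1 z)).2.1, (hΨ (e1 z)).2.2.1, (hΨ (e1 z)).2.2.2,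
    (hΨ (e1 z')).1, (hΨ (e1 z')).2.1, (hΨ (e1 z')).2.2.1, (hΨ (e1 z')).2.2.2]
  have h3 := (hΦ ⟨(e1 z).1.2.1, (e1 z).2.2.1⟩).2.2 ⟨(e1 z').1.2.1, (e1 z').2.2.1⟩
  linear_combination h3

theorem fr_diso {a b : Word} (h : DIso R a b) (u v : Word) :
    Module.finrank R (Dehn R (u ++ a ++ v)) = Module.finrank R (Dehn R (u ++ b ++ v)) := by
  obtain ⟨Φ, hΦ⟩ := h
  obtain ⟨Ψ, -⟩ := cx1_iso Φ hΦ u v
  obtain ⟨e1, -⟩ := glue3 (P := colM R) (Λ := ⊤) u a v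
  obtain ⟨e2, -⟩ := glue3 (P := colM R) (Λ := ⊤) u b v
  exact (e1.trans (Ψ.trans e2.symm)).finrank_eq

theorem fr_dadd {a b : Word} (h : DAdd R a b) (u v : Word) :
    Module.finrank R (Dehn R (u ++ a ++ v)) = Module.finrank R (Dehn R (u ++ b ++ v)) + 1 := by
  obtain ⟨Φ, hΦ⟩ := h
  obtain ⟨Ψ, -⟩ := cx1_add Φ hΦ u v
  obtain ⟨e1, -⟩ := glue3 (P := colM R) (Λ := ⊤) u a v
  obtain ⟨e2, -⟩ := glue3 (P := colM R) (Λ := ⊤) u b v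
  rw [(e1.trans (Ψ.trans (e2.symm.prodCongr (LinearEquiv.refl R R)))).finrank_eq, Module.finrank_prod,
    Module.finrank_self]

end Pool.Agent.Lib.MP_177a0e_gt.Sig
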