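import Pool.Agent.Lib.MP_177a0e_gt.Sig.R2b
import Pool.Agent.Lib.MP_177a0e_gt.Sig.Cut1
import Pool.Agent.Lib.MP_177a0e_gt.Sig.FdP
import Pool.Agent.Lib.MP_177a0e_gt.Sig.La2

/-!
# the signature and the second Reidemeister move at an even position.

PROOF. `E = Pair (fitM ℚ) (whiteM ℚ) u v (L + 1)` with the form `gp u v (L + 1)` (symmetric: `gq_comm`), finite-dimensional (`fdp`). By `r2_big` the form on `E × ℚ` is `gp + σ ((τ - b) ^ 2 - (b' - τ) ^ 2) = gp + σ (b - b') (b + b' - 2 τ)`, `b = y_|u| (L + 1)`, `b' = z 0 (L + 1)`, `be = b' - b`.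
`sg_hyp` with `l = - σ be`, `m (y, z) = b + b'`, `c = 1`, and `K = White (u ++ v) ≃ ker be = ker l` (`cut_app`; the two kernels are equal as `σ = ± 1`; `LinearEquiv.ofEq`).
-/

namespace Pool.Agent.Lib.MP_177a0e_gt.Sig

open Pool.Agent.Lib.MP_177a0e_gt.Tangle Pool.Agent.Lib.MP_177a0e_gt.Tangle.Gen

private def cx3_m (u v : Word) (L : ℕ) : Pair (fitM ℚ) (whiteM ℚ) u v (L + 1) →ₗ[ℚ] ℚ where
  toFun p := p.1.1 u.length (L + 1) + p.1.2 0 (L + 1)
  map_add' p q := by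
    simp only [Submodule.coe_add, Prod.fst_add, Prod.snd_add, Pi.add_apply]
    ring
  map_smul' r p := by
    simp only [Submodule.coe_smul, Prod.smul_fst, Prod.smul_snd, Pi.smul_apply, smul_eq_mul, RingHom.id_apply]
    ring

theorem sg_r2 (s x y : Bool) (p q : List Bool) (hp : p.length % 2 = 0) (u v : Word) :
    sg (gw (u ++ [⟨p, cross s x y, q⟩, ⟨p, cross (!s) y x, q⟩] ++ v)) = sg (gw (u ++ v)) := by
  obtain ⟨Φ, hΦ⟩ := r2_big s x y p q hp u v
  obtain ⟨k, hk⟩ := cut_app (P := fitM ℚ) (Λ := whiteM ℚ) u v p.length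
  have := fdp (P := fitM ℚ) (fun s => le_rfl) (whiteM ℚ) u v (p.length + 1)
  have hσ : (sz s : ℚ) ≠ 0 := by
    cases s <;> norm_num [sz]
  have hker : LinearMap.ker (be (fitM ℚ) (whiteM ℚ) u v p.length) =
      LinearMap.ker ((-(sz s : ℚ)) • be (fitM ℚ) (whiteM ℚ) u v p.length) := by
    ext t
    rw [LinearMap.mem_ker, LinearMap.mem_ker, LinearMap.smul_apply, smul_eq_mul, mul_eq_zero, neg_eq_zero]
    constructor
    · exact fun h => Or.inr h
    · rintro (h | h)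
      · exact absurd h hσ
      · exact h
  refine sg_hyp (gp u v (p.length + 1)) ?_ ((-(sz s : ℚ)) • be (fitM ℚ) (whiteM ℚ) u v p.length)
    (cx3_m u v p.length) 1 one_ne_zero (gw _) (fun a b => gform_symm _ a.1 b.1) Φ ?_ (gw (u ++ v))
    (k.trans (LinearEquiv.ofEq _ _ hker)) ?_
  · intro a b
    show gq u a.1.1 b.1.1 + gq v a.1.2 b.1.2 = gq u b.1.1 a.1.1 + gq v b.1.2 a.1.2
    rw [gq_comm u, gq_comm v]
  · intro t
    have h1 := hΦ t
    show gq _ t.1 t.1 = _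
    rw [h1, LinearMap.smul_apply, smul_eq_mul]
    show _ = _ + -(sz s : ℚ) * ((Φ t).1.1.2 0 (p.length + 1) - (Φ t).1.1.1 u.length (p.length + 1)) *
      (((Φ t).1.1.1 u.length (p.length + 1) + (Φ t).1.1.2 0 (p.length + 1)) - 2 * 1 * (Φ t).2)
    ring
  · intro t
    show gq (u ++ v) t.1 t.1 = _
    rw [hk t t]
    rfl

end Pool.Agent.Lib.MP_177a0e_gt.Sig
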