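import Pool.Agent.Lib.MP_177a0e_gt.TangleDefs

/-!
The signature and the colourings of tangle words.

A level with `k` strands has the gaps `0, …, k` (the gap `i` has `i` strands on its left). A state of a
word gives a value to every gap of every level, `x j i` for the level `j` and the gap `i`; the values
are unchanged through a slice, except next to the elementary piece (`Fit`). The regions of the
diagram which meet the odd gaps are called white.

* White states: zero at the even gaps. The form `gform` is the sum over the crossings of `± (difference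
  of the values of the two white regions at the crossing) ^ 2`.
* Colourings: at every crossing `left - right = ± (top - bottom)` (`Col`).
-/

namespace Pool.Agent.Lib.MP_177a0e_gt.Sig

open Pool.Agent.Lib.MP_177a0e_gt.Tangle Pool.Agent.Lib.MP_177a0e_gt.Tangle.Gen

/-! ### Signature of a symmetric bilinear form -/

section Form

variable {E : Type*} [AddCommGroup E] [Module ℚ E]

/-- the largest dimension of a subspace on which the form is positive definite -/
noncomputable def ix (B : LinearMap.BilinForm ℚ E) : ℕ :=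
  sSup {n | ∃ W : Submodule ℚ E, Module.finrank ℚ W = n ∧ ∀ x ∈ W, x ≠ 0 → 0 < B x x}

/-- the signature -/
noncomputable def sg (B : LinearMap.BilinForm ℚ E) : ℤ := (ix B : ℤ) - (ix (-B) : ℤ)

end Form

/-! ### States of a word -/

/-- the number of strands to the left of the elementary piece -/
def lp (s : Slice) : ℕ := s.left.length

/-- the sign of a Boolean -/
def sz (c : Bool) : ℤ := if c then 1 else -1

/-- the sign of a crossing in the form: `± 1` if the gap between the two strands is white, `∓ 1` if it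
is black -/
def eps (s : Slice) : ℤ :=
  match s.gen with
  | cross c _ _ => sz c * (-1) ^ lp s
  | _ => 0

/-- the correction term of a crossing (Gordon, Litherland): the sign of the crossing in the form if the
directions `x`, `y` are equal and the middle gap is black or if they differ and it is white -/
def cor (s : Slice) : ℤ :=
  match s.gen with
  | cross _ x y => if (x = y) ↔ lp s % 2 = 0 then 0 else eps s
  | _ => 0

/-- the correction term of a word -/
def corr (w : Word) : ℤ := (w.map cor).sum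

section Field

variable {R : Type} [Field R]

/-- the values `x` below and `y` above a slice fit together -/
def Fit (s : Slice) (x y : ℕ → R) : Prop :=
  match s.gen with
  | cup _ => (∀ i, i ≤ lp s → y i = x i) ∧ ∀ i, lp s ≤ i → y (i + 2) = x i
  | cap _ => (∀ i, i ≤ lp s → x i = y i) ∧ ∀ i, lp s ≤ i → x (i + 2) = y i
  | cross _ _ _ => ∀ i, i ≠ lp s + 1 → y i = x i

/-- the condition on colourings at a crossing -/
def Col (s : Slice) (x y : ℕ → R) : Prop :=
  match s.gen with
  | cross c _ _ => y (lp s + 1) - x (lp s + 1) = (sz c : R) * (x (lp s) - x (lp s + 2))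
  | _ => True

/-- the difference of the values of the two white regions at a crossing -/
def jmp (s : Slice) (x y : ℕ → R) : R :=
  match s.gen with
  | cross _ _ _ => if lp s % 2 = 0 then y (lp s + 1) - x (lp s + 1) else x (lp s) - x (lp s + 2)
  | _ => 0

variable (R)

/-- `Fit` as a linear relation -/
def fitM (s : Slice) : Submodule R ((ℕ → R) × (ℕ → R)) where
  carrier := {p | Fit s p.1 p.2}
  add_mem' := by
    rintro ⟨a, b⟩ ⟨c, d⟩ h1 h2
    rcases s with ⟨p, _ | _ | _, q⟩
    · exact ⟨fun i hi => congrArg₂ (· + ·) (h1.1 i hi) (h2.1 i hi), fun i hi => congrArg₂ (· + ·) (h1.2 i hi) (h2.2 i hi)⟩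
    · exact ⟨fun i hi => congrArg₂ (· + ·) (h1.1 i hi) (h2.1 i hi), fun i hi => congrArg₂ (· + ·) (h1.2 i hi) (h2.2 i hi)⟩
    · exact fun i hi => congrArg₂ (· + ·) (h1 i hi) (h2 i hi)
  zero_mem' := by
    rcases s with ⟨p, _ | _ | _, q⟩
    · exact ⟨fun _ _ => rfl, fun _ _ => rfl⟩
    · exact ⟨fun _ _ => rfl, fun _ _ => rfl⟩
    · exact fun _ _ => rfl
  smul_mem' := by
    rintro r ⟨a, b⟩ h1
    rcases s with ⟨p, _ | _ | _, q⟩
    · exact ⟨fun i hi => congrArg (r * ·) (h1.1 i hi), fun i hi => congrArg (r * ·) (h1.2 i hi)⟩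
    · exact ⟨fun i hi => congrArg (r * ·) (h1.1 i hi), fun i hi => congrArg (r * ·) (h1.2 i hi)⟩
    · exact fun i hi => congrArg (r * ·) (h1 i hi)

/-- `Col` as a linear relation -/
def colM (s : Slice) : Submodule R ((ℕ → R) × (ℕ → R)) where
  carrier := {p | Fit s p.1 p.2 ∧ Col s p.1 p.2}
  add_mem' := by
    rintro ⟨a, b⟩ ⟨c, d⟩ ⟨h1, h1'⟩ ⟨h2, h2'⟩
    refine ⟨(fitM R s).add_mem h1 h2, ?_⟩
    rcases s with ⟨p, _ | _ | _, q⟩
    · trivial
    · trivial
    · simp only [Col] at h1' h2' ⊢
      simp only [Prod.mk_add_mk, Pi.add_apply]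
      linear_combination h1' + h2'
  zero_mem' := by
    refine ⟨(fitM R s).zero_mem, ?_⟩
    rcases s with ⟨p, _ | _ | _, q⟩
    · trivial
    · trivial
    · simp [Col]
  smul_mem' := by
    rintro r ⟨a, b⟩ ⟨h1, h1'⟩
    refine ⟨(fitM R s).smul_mem r h1, ?_⟩
    rcases s with ⟨p, _ | _ | _, q⟩
    · trivial
    · trivial
    · simp only [Col] at h1' ⊢
      simp only [Prod.smul_mk, Pi.smul_apply, smul_eq_mul]
      linear_combination r * h1'

/-- the values which are zero at the even gaps -/
def whiteM : Submodule R (ℕ → R) where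
  carrier := {x | ∀ i, i % 2 = 0 → x i = 0}
  add_mem' := fun {x y} h1 h2 i hi => by rw [Pi.add_apply, h1 i hi, h2 i hi, add_zero]
  zero_mem' := fun _ _ => rfl
  smul_mem' := fun r {x} h i hi => by rw [Pi.smul_apply, h i hi, smul_zero]

variable {R}

/-- the levels of `x` from the `n`-th on -/
def sh (n : ℕ) (x : ℕ → ℕ → R) : ℕ → ℕ → R := fun j => x (j + n)

/-- the levels `0, …, n` of `x` -/
def ct (n : ℕ) (x : ℕ → ℕ → R) : ℕ → ℕ → R := fun j => if j ≤ n then x j else 0

/-- consecutive levels of `x` are related by `P` at the slices of the word -/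
def Run (P : Slice → Submodule R ((ℕ → R) × (ℕ → R))) : Word → (ℕ → ℕ → R) → Prop
  | [], _ => True
  | s :: w, x => (x 0, x 1) ∈ P s ∧ Run P w (sh 1 x)

/-- the form: the sum over the crossings -/
def gq : Word → (ℕ → ℕ → R) → (ℕ → ℕ → R) → R
  | [], _, _ => 0
  | s :: w, x, y => (eps s : R) * (jmp s (x 0) (x 1) * jmp s (y 0) (y 1)) + gq w (sh 1 x) (sh 1 y)

theorem jmp_add (s : Slice) (x y x' y' : ℕ → R) : jmp s (x + x') (y + y') = jmp s x y + jmp s x' y' := by
  rcases s with ⟨p, _ | _ | _, q⟩ <;> simp only [jmp, Pi.add_apply]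
  · rw [add_zero]
  · rw [add_zero]
  · split_ifs <;> ring

theorem jmp_smul (s : Slice) (r : R) (x y : ℕ → R) : jmp s (r • x) (r • y) = r * jmp s x y := by
  rcases s with ⟨p, _ | _ | _, q⟩ <;> simp only [jmp, Pi.smul_apply, smul_eq_mul]
  · rw [mul_zero]
  · rw [mul_zero]
  · split_ifs <;> ring

theorem gq_comm (w : Word) : ∀ x y : ℕ → ℕ → R, gq w x y = gq w y x := by
  induction w with
  | nil => intro x y; rfl
  | cons s w ih =>
    intro x y
    simp only [gq]
    rw [ih (sh 1 x) (sh 1 y)]
    ring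

theorem gq_add (w : Word) : ∀ x x' y : ℕ → ℕ → R, gq w (x + x') y = gq w x y + gq w x' y := by
  induction w with
  | nil => intro x x' y; simp [gq]
  | cons s w ih =>
    intro x x' y
    have h : sh 1 (x + x') = sh 1 x + sh 1 x' := rfl
    simp only [gq]
    rw [h, ih, Pi.add_apply, Pi.add_apply, jmp_add]
    ring

theorem gq_smul (w : Word) (r : R) : ∀ x y : ℕ → ℕ → R, gq w (r • x) y = r * gq w x y := by
  induction w with
  | nil => intro x y; simp [gq]
  | cons s w ih =>
    intro x y
    have h : sh 1 (r • x) = r • sh 1 x := rfl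
    simp only [gq]
    rw [h, ih, Pi.smul_apply, Pi.smul_apply, jmp_smul]
    ring

theorem Run.add {P : Slice → Submodule R ((ℕ → R) × (ℕ → R))} {w : Word} : ∀ {x y : ℕ → ℕ → R},
    Run P w x → Run P w y → Run P w (x + y) := by
  induction w with
  | nil => intro x y _ _; trivial
  | cons s w ih => exact fun h1 h2 => ⟨(P s).add_mem h1.1 h2.1, ih h1.2 h2.2⟩

theorem Run.zero {P : Slice → Submodule R ((ℕ → R) × (ℕ → R))} {w : Word} : Run P w 0 := by
  induction w with
  | nil => trivial
  | cons s w ih => exact ⟨(P s).zero_mem, ih⟩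

theorem Run.smul {P : Slice → Submodule R ((ℕ → R) × (ℕ → R))} {w : Word} (r : R) : ∀ {x : ℕ → ℕ → R},
    Run P w x → Run P w (r • x) := by
  induction w with
  | nil => intro x _; trivial
  | cons s w ih => exact fun h => ⟨(P s).smul_mem r h.1, ih h.2⟩

/-- the states of the word `w`: consecutive levels related by `P`, all levels in `Λ`, zero beyond the
last level -/
def Runs (P : Slice → Submodule R ((ℕ → R) × (ℕ → R))) (Λ : Submodule R (ℕ → R)) (w : Word) :
    Submodule R (ℕ → ℕ → R) where
  carrier := {x | Run P w x ∧ (∀ j, x j ∈ Λ) ∧ ∀ j, w.length < j → x j = 0}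
  add_mem' := fun {x y} h1 h2 => ⟨h1.1.add h2.1, fun j => Λ.add_mem (h1.2.1 j) (h2.2.1 j), fun j hj => by
    rw [Pi.add_apply, h1.2.2 j hj, h2.2.2 j hj, add_zero]⟩
  zero_mem' := ⟨Run.zero, fun _ => Λ.zero_mem, fun _ _ => rfl⟩
  smul_mem' := fun r {x} h => ⟨h.1.smul r, fun j => Λ.smul_mem r (h.2.1 j), fun j hj => by
    rw [Pi.smul_apply, h.2.2 j hj, smul_zero]⟩

/-- the states with the bottom level zero -/
def Closed (P : Slice → Submodule R ((ℕ → R) × (ℕ → R))) (Λ : Submodule R (ℕ → R)) (w : Word) :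
    Submodule R (ℕ → ℕ → R) where
  carrier := {x | x ∈ Runs P Λ w ∧ x 0 = 0}
  add_mem' := fun {x y} h1 h2 => ⟨(Runs P Λ w).add_mem h1.1 h2.1, by rw [Pi.add_apply, h1.2, h2.2, add_zero]⟩
  zero_mem' := ⟨(Runs P Λ w).zero_mem, rfl⟩
  smul_mem' := fun r {x} h => ⟨(Runs P Λ w).smul_mem r h.1, by rw [Pi.smul_apply, h.2, smul_zero]⟩

/-- the form as a bilinear form -/
def gform (w : Word) : LinearMap.BilinForm R (ℕ → ℕ → R) :=
  LinearMap.mk₂ R (gq w) (gq_add w) (fun r x y => by rw [gq_smul, smul_eq_mul])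
    (fun x y y' => by rw [gq_comm, gq_add, gq_comm w y, gq_comm w y'])
    (fun r x y => by rw [gq_comm, gq_smul, gq_comm w y, smul_eq_mul])

theorem gform_apply (w : Word) (x y : ℕ → ℕ → R) : gform w x y = gq w x y := rfl

theorem gform_symm (w : Word) (x y : ℕ → ℕ → R) : gform w x y = gform w y x := gq_comm w x y

end Field

/-- the white states of a word -/
abbrev Wh (w : Word) : Submodule ℚ (ℕ → ℕ → ℚ) := Runs (fitM ℚ) (whiteM ℚ) w

/-- the white states with the bottom level zero -/
abbrev White (w : Word) : Submodule ℚ (ℕ → ℕ → ℚ) := Closed (fitM ℚ) (whiteM ℚ) w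

/-- the colourings of a word -/
abbrev De (R : Type) [Field R] (w : Word) : Submodule R (ℕ → ℕ → R) := Runs (colM R) ⊤ w

/-- the colourings with the bottom level zero -/
abbrev Dehn (R : Type) [Field R] (w : Word) : Submodule R (ℕ → ℕ → R) := Closed (colM R) ⊤ w

/-- the form on the white states with the bottom level zero -/
abbrev gw (w : Word) : LinearMap.BilinForm ℚ (White w) := (gform w).restrict (White w)

/-- the signature of a long knot (or of a tangle with closed components) given as a word -/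
noncomputable def signature (w : Word) : ℤ := sg (gw w) - corr w

/-- the nullity -/
noncomputable def nul (w : Word) : ℕ := Module.finrank ℚ (Dehn ℚ w)

/-! ### Local equivalences -/

/-- the white states of `a` and of `b` with the same bottom and top levels correspond to each other,
and so do the forms -/
def VIso (a b : Word) : Prop := ∃ Φ : Wh a ≃ₗ[ℚ] Wh b, ∀ t : Wh a, (Φ t).1 0 = t.1 0 ∧
  (Φ t).1 b.length = t.1 a.length ∧ ∀ t' : Wh a, gq b (Φ t).1 (Φ t').1 = gq a t.1 t'.1

/-- the white states of `a` are those of `b` and one more variable, with the form `ε r ^ 2` -/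
def VAdd (ε : ℤ) (a b : Word) : Prop := ∃ Φ : Wh a ≃ₗ[ℚ] Wh b × ℚ, ∀ t : Wh a,
  (Φ t).1.1 0 = t.1 0 ∧ (Φ t).1.1 b.length = t.1 a.length ∧
    ∀ t' : Wh a, gq a t.1 t'.1 = gq b (Φ t).1.1 (Φ t').1.1 + (ε : ℚ) * ((Φ t).2 * (Φ t').2)

/-- the colourings of `a` and of `b` with the same bottom and top levels correspond to each other -/
def DIso (R : Type) [Field R] (a b : Word) : Prop := ∃ Φ : De R a ≃ₗ[R] De R b, ∀ t : De R a,
  (Φ t).1 0 = t.1 0 ∧ (Φ t).1 b.length = t.1 a.length

/-- the colourings of `a` are those of `b` and one more variable -/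
def DAdd (R : Type) [Field R] (a b : Word) : Prop := ∃ Φ : De R a ≃ₗ[R] De R b × R, ∀ t : De R a,
  (Φ t).1.1 0 = t.1 0 ∧ (Φ t).1.1 b.length = t.1 a.length

/-! ### Cut states -/

/-- pairs of a state `y` of `u` with bottom level zero and a state `z` of `v` such that the last level of
`y` and the first level of `z` agree except at the gap `k` -/
def Pair {R : Type} [Field R] (P : Slice → Submodule R ((ℕ → R) × (ℕ → R))) (Λ : Submodule R (ℕ → R))
    (u v : Word) (k : ℕ) : Submodule R ((ℕ → ℕ → R) × (ℕ → ℕ → R)) where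
  carrier := {p | p.1 ∈ Closed P Λ u ∧ p.2 ∈ Runs P Λ v ∧ ∀ i, i ≠ k → p.2 0 i = p.1 u.length i}
  add_mem' := fun {x y} h1 h2 => ⟨(Closed P Λ u).add_mem h1.1 h2.1, (Runs P Λ v).add_mem h1.2.1 h2.2.1,
    fun i hi => congrArg₂ (· + ·) (h1.2.2 i hi) (h2.2.2 i hi)⟩
  zero_mem' := ⟨(Closed P Λ u).zero_mem, (Runs P Λ v).zero_mem, fun _ _ => rfl⟩
  smul_mem' := fun r {x} h => ⟨(Closed P Λ u).smul_mem r h.1, (Runs P Λ v).smul_mem r h.2.1,
    fun i hi => congrArg (r * ·) (h.2.2 i hi)⟩

section Cut

variable {R : Type} [Field R] {P : Slice → Submodule R ((ℕ → R) × (ℕ → R))} {Λ : Submodule R (ℕ → R)}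

/-- `y_{L} - y_{L+2}` at the last level of `y` -/
def al (P : Slice → Submodule R ((ℕ → R) × (ℕ → R))) (Λ : Submodule R (ℕ → R)) (u v : Word) (L : ℕ) :
    Pair P Λ u v (L + 1) →ₗ[R] R where
  toFun p := p.1.1 u.length L - p.1.1 u.length (L + 2)
  map_add' p q := by
    simp only [Submodule.coe_add, Prod.fst_add, Pi.add_apply]
    ring
  map_smul' r p := by
    simp only [Submodule.coe_smul, Prod.smul_fst, Pi.smul_apply, smul_eq_mul, RingHom.id_apply]
    ring

/-- `z_{L+1} - y_{L+1}` at the first level of `z` and the last level of `y` -/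
def be (P : Slice → Submodule R ((ℕ → R) × (ℕ → R))) (Λ : Submodule R (ℕ → R)) (u v : Word) (L : ℕ) :
    Pair P Λ u v (L + 1) →ₗ[R] R where
  toFun p := p.1.2 0 (L + 1) - p.1.1 u.length (L + 1)
  map_add' p q := by
    simp only [Submodule.coe_add, Prod.fst_add, Prod.snd_add, Pi.add_apply]
    ring
  map_smul' r p := by
    simp only [Submodule.coe_smul, Prod.smul_fst, Prod.smul_snd, Pi.smul_apply, smul_eq_mul, RingHom.id_apply]
    ring

end Cut

/-- the form on pairs of white states -/
def gp (u v : Word) (k : ℕ) : LinearMap.BilinForm ℚ (Pair (fitM ℚ) (whiteM ℚ) u v k) :=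
  LinearMap.mk₂ ℚ (fun p q => gq u p.1.1 q.1.1 + gq v p.1.2 q.1.2)
    (fun p p' q => by
      simp only [Submodule.coe_add, Prod.fst_add, Prod.snd_add, gq_add]
      ring)
    (fun r p q => by
      simp only [Submodule.coe_smul, Prod.smul_fst, Prod.smul_snd, gq_smul, smul_eq_mul]
      ring)
    (fun p q q' => by
      simp only [Submodule.coe_add, Prod.fst_add, Prod.snd_add]
      rw [gq_comm u, gq_comm v, gq_add, gq_add, gq_comm u q.1.1, gq_comm v q.1.2, gq_comm u q'.1.1, gq_comm v q'.1.2]
      ring)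
    (fun r p q => by
      simp only [Submodule.coe_smul, Prod.smul_fst, Prod.smul_snd, smul_eq_mul]
      rw [gq_comm u, gq_comm v, gq_smul, gq_smul, gq_comm u q.1.1, gq_comm v q.1.2]
      ring)

end Pool.Agent.Lib.MP_177a0e_gt.Sig
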