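import Pool.Agent.Lib.MP_177a0e_gt.Sig.TbD
import Pool.Agent.Lib.MP_177a0e_gt.Sig.Fd
import Pool.Agent.Lib.MP_177a0e_gt.Sig.Gl
import Pool.Agent.Lib.MP_177a0e_gt.Sig.La0b

/-!
# the signature of the two-bridge knots.

All crossings have `eps = 1` and `cor = 0` (letter `true`: position `0`, parallel; letter `false`: position `1`, `sz false = -1`, antiparallel): `tb_corr`. White states: the only white gaps are `1`, `3`; `x j 3 = 0`; a crossing at the position `0` contributes `(x (j + 1) 1 - x j 1) ^ 2`, a crossing at the position `1` contributes `(x j 1 - x j 3) ^ 2`.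
PROOFS.
* `tb_nonneg`: induction: all terms are squares times `eps`, `eps = 1` for the crossings of `tbl l`, `jmp = 0` for cup and cap.
* `tb_pd`: if the form vanishes on a closed white state then all new values vanish: for a letter `true` the new value is `x (j + 1) 1 = x j 1`, the cup, the cap and the crossings at the position `1` have their new value at the gap `2` (even, so zero) and keep the gap `1`; so all `x j 1 = x 0 1 = 0`: `fd_inj`.
* `tb_dim`: let `n = l.count true`, `e a` the level with the value `a` at the gap `1` and `0` elsewhere. For `a : ℕ → ℚ` the states of `tbl l`: `st [] a = (e (a 0))`, `st (true :: l) a = e (a 0), st l (a ∘ succ)`, `st (false :: l) a = e (a 0), e (a 0), st l a` (levels prepended): a run from `e (a 0)` to `e (a n)`, linear in `a`, and `st l a = 0` implies `a i = 0` for `i ≤ n`.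
  For `f : Fin (n - 1) → ℚ` let `a i = f (i - 1)` for `1 ≤ i ≤ n - 1`, `0` otherwise: with the level `0` (zero) below and the level zero above, it is a closed white state of `twoBridge l`. An injective linear map: `LinearMap.finrank_le_finrank_of_injective`.
* `tb_sig`: `sg_pos` (`gform_symm`), `tb_pd`, `tb_nonneg`, `tb_dim`, `tb_corr`.
-/

namespace Pool.Agent.Lib.MP_177a0e_gt.Sig

open Pool.Agent.Lib.MP_177a0e_gt.Tangle Pool.Agent.Lib.MP_177a0e_gt.Tangle.Gen

/-- the cap on top of the two-bridge words -/
private abbrev tbCcap : Slice := ⟨[true], cap true, []⟩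

private theorem tbC_corl : ∀ l : List Bool, ((tbl l).map cor).sum = 0
  | [] => rfl
  | true :: l => by
    rw [tbl, List.map_cons, List.sum_cons, tbC_corl l]
    simp [cor, lp]
  | false :: l => by
    rw [tbl, List.map_cons, List.map_cons, List.sum_cons, List.sum_cons, tbC_corl l]
    simp [cor, lp]

theorem tb_corr (l : List Bool) : corr (twoBridge l) = 0 := by
  simp only [corr, twoBridge, List.map_cons, List.map_append, List.sum_cons, List.sum_append,
    List.map_nil, List.sum_nil]
  rw [tbC_corl]
  simp [cor]

private theorem tbC_nonneg : ∀ (w : Word), (∀ s ∈ w, 0 ≤ eps s) → ∀ x : ℕ → ℕ → ℚ, 0 ≤ gq w x x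
  | [], _, x => le_refl _
  | s :: w, h, x => by
    have h1 : 0 ≤ eps s := h s List.mem_cons_self
    have h2 := tbC_nonneg w (fun t ht => h t (List.mem_cons_of_mem _ ht)) (sh 1 x)
    have h3 : (0 : ℚ) ≤ (eps s : ℚ) := by exact_mod_cast h1
    exact add_nonneg (mul_nonneg h3 (mul_self_nonneg _)) h2

private theorem tbC_epsl : ∀ l : List Bool, ∀ s ∈ tbl l, 0 ≤ eps s
  | [], s, hs => by simp [tbl] at hs
  | true :: l, s, hs => by
    rw [tbl, List.mem_cons] at hs
    rcases hs with rfl | hs
    · simp [eps, sz, lp]
    · exact tbC_epsl l s hs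
  | false :: l, s, hs => by
    rw [tbl, List.mem_cons, List.mem_cons] at hs
    rcases hs with rfl | rfl | hs
    · simp [eps, sz, lp]
    · simp [eps, sz, lp]
    · exact tbC_epsl l s hs

private theorem tbC_epsc (l : List Bool) : ∀ s ∈ tbl l ++ [tbCcap], 0 ≤ eps s := by
  intro s hs
  rw [List.mem_append, List.mem_singleton] at hs
  rcases hs with hs | rfl
  · exact tbC_epsl l s hs
  · simp [eps]

theorem tb_nonneg (l : List Bool) (x : ℕ → ℕ → ℚ) : 0 ≤ gq (twoBridge l) x x := by
  refine tbC_nonneg _ ?_ x
  intro s hs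
  rw [twoBridge, List.mem_cons] at hs
  rcases hs with rfl | hs
  · simp [eps]
  · exact tbC_epsc l s hs

private theorem tbC_pd : ∀ (l : List Bool) (x : ℕ → ℕ → ℚ), Run (fitM ℚ) (tbl l ++ [tbCcap]) x →
    (∀ j, x j ∈ whiteM ℚ) → gq (tbl l ++ [tbCcap]) x x = 0 → x 0 = 0 →
    ∀ j, j ≤ (tbl l).length + 1 → x j = 0
  | [], x, hr, _, _, h0, j, hj => by
    have h1 : Fit tbCcap (x 0) (x 1) := hr.1
    have h2 : x 1 = 0 := by
      funext i
      rcases Nat.lt_or_ge i 2 with hi | hi
      · have := h1.1 i (by simp only [lp, List.length_singleton]; omega)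
        rw [← this, h0]
      · have := h1.2 i (by simp only [lp, List.length_singleton]; omega)
        rw [← this, h0]
        rfl
    have hj' : j = 0 ∨ j = 1 := by
      have : (tbl []).length = 0 := rfl
      omega
    rcases hj' with rfl | rfl
    · exact h0
    · exact h2
  | true :: l, x, hr, hw, hg, h0, j, hj => by
    have h1 : Fit (⟨[], cross true true true, [false]⟩ : Slice) (x 0) (x 1) := hr.1
    have hn : 0 ≤ gq (tbl l ++ [tbCcap]) (sh 1 x) (sh 1 x) := tbC_nonneg _ (tbC_epsc l) _
    have hg' : (eps (⟨[], cross true true true, [false]⟩ : Slice) : ℚ) *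
        (jmp (⟨[], cross true true true, [false]⟩ : Slice) (x 0) (x 1) *
          jmp (⟨[], cross true true true, [false]⟩ : Slice) (x 0) (x 1)) +
        gq (tbl l ++ [tbCcap]) (sh 1 x) (sh 1 x) = 0 := hg
    have he : eps (⟨[], cross true true true, [false]⟩ : Slice) = 1 := by simp [eps, sz, lp]
    have hjm : jmp (⟨[], cross true true true, [false]⟩ : Slice) (x 0) (x 1) = x 1 1 := by
      simp [jmp, lp, h0]
    rw [he, hjm] at hg'
    have hsq : x 1 1 * x 1 1 = 0 := by
      have := mul_self_nonneg (x 1 1)
      push_cast at hg'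
      linarith
    have h11 : x 1 1 = 0 := mul_self_eq_zero.1 hsq
    have hgl : gq (tbl l ++ [tbCcap]) (sh 1 x) (sh 1 x) = 0 := by
      rw [h11] at hg'
      simpa using hg'
    have hx1 : x 1 = 0 := by
      funext i
      by_cases hi : i = 1
      · rw [hi]
        exact h11
      · have h2 := h1 i (by simpa [lp] using hi)
        rw [h2, h0]
    rcases j with _ | j
    · exact h0
    · exact tbC_pd l (sh 1 x) hr.2 (fun k => hw (k + 1)) hgl hx1 j (by
        have : (tbl (true :: l)).length = (tbl l).length + 1 := rfl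
        omega)
  | false :: l, x, hr, hw, hg, h0, j, hj => by
    have h1 : Fit (⟨[true], cross false true false, []⟩ : Slice) (x 0) (x 1) := hr.1
    have h2 : Fit (⟨[true], cross false false true, []⟩ : Slice) (x 1) (x 2) := hr.2.1
    have hx1 : x 1 = 0 := by
      funext i
      by_cases hi : i = 2
      · rw [hi]
        exact hw 1 2 rfl
      · have h3 := h1 i (by simpa [lp] using hi)
        rw [h3, h0]
    have hx2 : x 2 = 0 := by
      funext i
      by_cases hi : i = 2
      · rw [hi]
        exact hw 2 2 rfl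
      · have h3 := h2 i (by simpa [lp] using hi)
        rw [h3, hx1]
    have hsh : sh 1 (sh 1 x) = sh 2 x := rfl
    have hg' : (eps (⟨[true], cross false true false, []⟩ : Slice) : ℚ) *
        (jmp (⟨[true], cross false true false, []⟩ : Slice) (x 0) (x 1) *
          jmp (⟨[true], cross false true false, []⟩ : Slice) (x 0) (x 1)) +
        ((eps (⟨[true], cross false false true, []⟩ : Slice) : ℚ) *
        (jmp (⟨[true], cross false false true, []⟩ : Slice) (x 1) (x 2) *
          jmp (⟨[true], cross false false true, []⟩ : Slice) (x 1) (x 2)) +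
        gq (tbl l ++ [tbCcap]) (sh 2 x) (sh 2 x)) = 0 := hg
    have hj1 : jmp (⟨[true], cross false true false, []⟩ : Slice) (x 0) (x 1) = 0 := by
      simp [jmp, lp, h0]
    have hj2 : jmp (⟨[true], cross false false true, []⟩ : Slice) (x 1) (x 2) = 0 := by
      simp [jmp, lp, hx1]
    have hgl : gq (tbl l ++ [tbCcap]) (sh 2 x) (sh 2 x) = 0 := by
      rw [hj1, hj2] at hg'
      simpa using hg'
    rcases j with _ | _ | j
    · exact h0
    · exact hx1
    · exact tbC_pd l (sh 2 x) hr.2.2 (fun k => hw (k + 2)) hgl hx2 j (by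
        have : (tbl (false :: l)).length = (tbl l).length + 1 + 1 := rfl
        omega)

theorem tb_pd (l : List Bool) (x : White (twoBridge l)) (h : gq (twoBridge l) x.1 x.1 = 0) : x = 0 := by
  obtain ⟨x, ⟨⟨hr, hw, hz⟩, h0⟩⟩ := x
  have h1 : Fit (⟨[true], cup true, []⟩ : Slice) (x 0) (x 1) := hr.1
  have hx1 : x 1 = 0 := by
    funext i
    rcases Nat.lt_or_ge i 2 with hi | hi
    · have h2 := h1.1 i (by simp only [lp, List.length_singleton]; omega)
      rw [h2, h0]
    · rcases Nat.lt_or_ge i 3 with hi3 | hi3
      · have : i = 2 := by omega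
        rw [this]
        exact hw 1 2 rfl
      · have h2 := h1.2 (i - 2) (by simp only [lp, List.length_singleton]; omega)
        have e : i - 2 + 2 = i := by omega
        rw [e] at h2
        rw [h2, h0]
        rfl
  have hg' : (eps (⟨[true], cup true, []⟩ : Slice) : ℚ) *
        (jmp (⟨[true], cup true, []⟩ : Slice) (x 0) (x 1) *
          jmp (⟨[true], cup true, []⟩ : Slice) (x 0) (x 1)) +
        gq (tbl l ++ [tbCcap]) (sh 1 x) (sh 1 x) = 0 := h
  have hgl : gq (tbl l ++ [tbCcap]) (sh 1 x) (sh 1 x) = 0 := by
    simpa [jmp] using hg'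
  have hall := tbC_pd l (sh 1 x) hr.2 (fun k => hw (k + 1)) hgl hx1
  apply Subtype.ext
  show x = 0
  funext j
  rcases j with _ | j
  · exact h0
  · rcases Nat.lt_or_ge ((tbl l).length + 1) j with hj | hj
    · exact hz (j + 1) (by
        have : (twoBridge l).length = (tbl l).length + 1 + 1 := by simp [twoBridge]
        omega)
    · exact hall j hj

/-- the level with the value `a` at the gap `1` -/
private def tbCe (a : ℚ) : ℕ → ℚ := fun i => if i = 1 then a else 0

/-- the states of the crossings with the values `a` -/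
private def tbCst : List Bool → (ℕ → ℚ) → ℕ → ℕ → ℚ
  | [], a, 0 => tbCe (a 0)
  | [], _, _ + 1 => 0
  | true :: _, a, 0 => tbCe (a 0)
  | true :: l, a, j + 1 => tbCst l (fun i => a (i + 1)) j
  | false :: _, a, 0 => tbCe (a 0)
  | false :: _, a, 1 => tbCe (a 0)
  | false :: l, a, j + 2 => tbCst l a j

private theorem tbCst_zero (l : List Bool) (a : ℕ → ℚ) : tbCst l a 0 = tbCe (a 0) := by
  rcases l with _ | ⟨_ | _, l⟩ <;> rfl

private theorem tbCe_white (a : ℚ) : tbCe a ∈ whiteM ℚ := by
  intro i hi
  have : i ≠ 1 := by omega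
  simp [tbCe, this]

private theorem tbCst_white : ∀ (l : List Bool) (a : ℕ → ℚ) (j : ℕ), tbCst l a j ∈ whiteM ℚ
  | [], a, 0 => tbCe_white _
  | [], _, _ + 1 => (whiteM ℚ).zero_mem
  | true :: _, a, 0 => tbCe_white _
  | true :: l, a, j + 1 => tbCst_white l (fun i => a (i + 1)) j
  | false :: _, a, 0 => tbCe_white _
  | false :: _, a, 1 => tbCe_white _
  | false :: l, a, j + 2 => tbCst_white l a j

private theorem tbCst_top : ∀ (l : List Bool) (a : ℕ → ℚ) (j : ℕ), (tbl l).length < j →
    tbCst l a j = 0
  | [], a, 0, h => absurd h (Nat.not_lt_zero _)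
  | [], _, _ + 1, _ => rfl
  | true :: _, a, 0, h => absurd h (Nat.not_lt_zero _)
  | true :: l, a, j + 1, h => tbCst_top l (fun i => a (i + 1)) j (Nat.lt_of_succ_lt_succ h)
  | false :: _, a, 0, h => absurd h (Nat.not_lt_zero _)
  | false :: _, a, 1, h => absurd (Nat.lt_of_succ_lt_succ h) (Nat.not_lt_zero _)
  | false :: l, a, j + 2, h =>
    tbCst_top l a j (Nat.lt_of_succ_lt_succ (Nat.lt_of_succ_lt_succ h))

private theorem tbCst_add : ∀ (l : List Bool) (a b : ℕ → ℚ) (j : ℕ),
    tbCst l (a + b) j = tbCst l a j + tbCst l b j := by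
  have he : ∀ a b : ℚ, tbCe (a + b) = tbCe a + tbCe b := by
    intro a b
    funext i
    simp only [tbCe, Pi.add_apply]
    split_ifs <;> simp
  intro l
  induction l with
  | nil =>
    intro a b j
    rcases j with _ | j
    · exact he _ _
    · exact (add_zero _).symm
  | cons c l ih =>
    intro a b j
    rcases c with _ | _
    · rcases j with _ | _ | j
      · exact he _ _
      · exact he _ _
      · exact ih a b j
    · rcases j with _ | j
      · exact he _ _
      · exact ih (fun i => a (i + 1)) (fun i => b (i + 1)) j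

private theorem tbCst_smul (r : ℚ) : ∀ (l : List Bool) (a : ℕ → ℚ) (j : ℕ),
    tbCst l (r • a) j = r • tbCst l a j := by
  have he : ∀ a : ℚ, tbCe (r * a) = r • tbCe a := by
    intro a
    funext i
    simp only [tbCe, Pi.smul_apply, smul_eq_mul]
    split_ifs <;> simp
  intro l
  induction l with
  | nil =>
    intro a j
    rcases j with _ | j
    · exact he _
    · exact (smul_zero _).symm
  | cons c l ih =>
    intro a j
    rcases c with _ | _
    · rcases j with _ | _ | j
      · exact he _
      · exact he _
      · exact ih a j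
    · rcases j with _ | j
      · exact he _
      · exact ih (fun i => a (i + 1)) j

private theorem tbCst_inj : ∀ (l : List Bool) (a : ℕ → ℚ), (∀ j, tbCst l a j = 0) →
    ∀ i, i ≤ l.count true → a i = 0 := by
  have he : ∀ a : ℚ, tbCe a = 0 → a = 0 := by
    intro a h
    have := congrFun h 1
    simpa [tbCe] using this
  intro l
  induction l with
  | nil =>
    intro a h i hi
    have : i = 0 := by simpa using hi
    rw [this]
    exact he _ (h 0)
  | cons c l ih =>
    intro a h i hi
    rcases c with _ | _
    · refine ih a (fun j => h (j + 2)) i ?_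
      simpa using hi
    · rcases i with _ | i
      · exact he _ (h 0)
      · refine ih (fun i => a (i + 1)) (fun j => h (j + 1)) i ?_
        simpa using hi

private theorem tbCst_run : ∀ (l : List Bool) (a : ℕ → ℚ), a (l.count true) = 0 →
    Run (fitM ℚ) (tbl l ++ [tbCcap]) (tbCst l a) := by
  intro l
  induction l with
  | nil =>
    intro a h
    have h0 : a 0 = 0 := h
    have h1 : tbCe (a 0) = 0 := by
      rw [h0]
      funext i
      simp [tbCe]
    refine ⟨?_, trivial⟩
    show Fit tbCcap (tbCe (a 0)) 0
    rw [h1]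
    exact ⟨fun _ _ => rfl, fun _ _ => rfl⟩
  | cons c l ih =>
    intro a h
    rcases c with _ | _
    · have h' : a (l.count true) = 0 := by simpa using h
      refine ⟨?_, ?_, ih a h'⟩
      · show Fit (⟨[true], cross false true false, []⟩ : Slice) (tbCe (a 0)) (tbCe (a 0))
        exact fun _ _ => rfl
      · show Fit (⟨[true], cross false false true, []⟩ : Slice) (tbCe (a 0)) (tbCst l a 0)
        rw [tbCst_zero]
        exact fun _ _ => rfl
    · have h' : (fun i => a (i + 1)) (l.count true) = 0 := by simpa using h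
      refine ⟨?_, ih _ h'⟩
      show Fit (⟨[], cross true true true, [false]⟩ : Slice) (tbCe (a 0))
        (tbCst l (fun i => a (i + 1)) 0)
      rw [tbCst_zero]
      intro i hi
      have hi' : i ≠ 1 := by simpa [lp] using hi
      simp [tbCe, hi']

/-- the values at the gap `1` -/
private def tbCa (n : ℕ) (f : Fin (n - 1) → ℚ) : ℕ → ℚ := fun i =>
  if h : 1 ≤ i ∧ i < n then f ⟨i - 1, by omega⟩ else 0

/-- the closed state -/
private def tbCx (l : List Bool) (f : Fin (l.count true - 1) → ℚ) : ℕ → ℕ → ℚ
  | 0 => 0
  | j + 1 => tbCst l (tbCa (l.count true) f) j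

private theorem tbCx_mem (l : List Bool) (f : Fin (l.count true - 1) → ℚ) :
    tbCx l f ∈ White (twoBridge l) := by
  refine ⟨⟨⟨?_, ?_⟩, ?_, ?_⟩, rfl⟩
  · show Fit (⟨[true], cup true, []⟩ : Slice) 0 (tbCst l (tbCa (l.count true) f) 0)
    rw [tbCst_zero]
    have h0 : tbCa (l.count true) f 0 = 0 := by simp [tbCa]
    have h1 : tbCe (tbCa (l.count true) f 0) = 0 := by
      rw [h0]
      funext i
      simp [tbCe]
    rw [h1]
    exact ⟨fun _ _ => rfl, fun _ _ => rfl⟩
  · exact tbCst_run l _ (by simp [tbCa])
  · intro j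
    rcases j with _ | j
    · exact (whiteM ℚ).zero_mem
    · exact tbCst_white l _ j
  · intro j hj
    rcases j with _ | j
    · rfl
    · refine tbCst_top l _ j ?_
      have : (twoBridge l).length = (tbl l).length + 1 + 1 := by simp [twoBridge]
      omega

private def tbCL (l : List Bool) : (Fin (l.count true - 1) → ℚ) →ₗ[ℚ] White (twoBridge l) where
  toFun f := ⟨tbCx l f, tbCx_mem l f⟩
  map_add' f g := by
    apply Subtype.ext
    show tbCx l (f + g) = tbCx l f + tbCx l g
    funext j
    rcases j with _ | j
    · exact (add_zero _).symm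
    · show tbCst l (tbCa (l.count true) (f + g)) j = tbCst l (tbCa (l.count true) f) j +
        tbCst l (tbCa (l.count true) g) j
      rw [← tbCst_add]
      congr 1
      funext i
      simp only [tbCa, Pi.add_apply]
      split_ifs <;> simp
  map_smul' r f := by
    apply Subtype.ext
    show tbCx l (r • f) = r • tbCx l f
    funext j
    rcases j with _ | j
    · exact (smul_zero (A := ℕ → ℚ) r).symm
    · show tbCst l (tbCa (l.count true) (r • f)) j = r • tbCst l (tbCa (l.count true) f) j
      rw [← tbCst_smul]
      congr 1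
      funext i
      simp only [tbCa, Pi.smul_apply]
      split_ifs <;> simp

private theorem tbCL_inj (l : List Bool) : Function.Injective (tbCL l) := by
  rw [injective_iff_map_eq_zero]
  intro f hf
  have h1 : tbCx l f = 0 := congrArg Subtype.val hf
  have h2 := tbCst_inj l (tbCa (l.count true) f) (fun j => congrFun h1 (j + 1))
  funext i
  have h3 := h2 (i.1 + 1) (by have := i.2; omega)
  have h4 : (1 ≤ i.1 + 1 ∧ i.1 + 1 < l.count true) := by have := i.2; omega
  rw [tbCa, dif_pos h4] at h3
  simpa using h3

theorem tb_dim (l : List Bool) : l.count true - 1 ≤ Module.finrank ℚ (White (twoBridge l)) := by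
  have h := LinearMap.finrank_le_finrank_of_injective (tbCL_inj l)
  simpa using h

theorem tb_sig (l : List Bool) : ((l.count true - 1 : ℕ) : ℤ) ≤ signature (twoBridge l) := by
  have h1 : sg (gw (twoBridge l)) = Module.finrank ℚ (White (twoBridge l)) := by
    refine sg_pos _ (fun x y => gform_symm _ _ _) fun x hx => ?_
    show 0 < gq (twoBridge l) x.1 x.1
    refine lt_of_le_of_ne (tb_nonneg l x.1) fun h => hx (tb_pd l x h.symm)
  rw [signature, h1, tb_corr, sub_zero]
  exact_mod_cast tb_dim l

end Pool.Agent.Lib.MP_177a0e_gt.Sig
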