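import Pool.Agent.Lib.MP_177a0e_gt.Sig.Bnd
import Pool.Agent.Lib.MP_177a0e_gt.Sig.TbK
import Pool.Agent.Lib.MP_177a0e_gt.Sig.TbC
import Pool.Agent.Lib.MP_177a0e_gt.Sig.SumA

/-!
# sums of positive two-bridge knots.

PROOFS. `tbs_sig`: induction on the list: `sig_append` (`Valid`: `tb_valid`, `IsKnot.valid` with `tbs_knot`), `tb_sig`, `sig_nil`; `count true - 1 = 2 (count true / 2)` for an odd number. `tbs_genus`: `2 * tbGenus m ≤ signature ≤ 2 * sliceGenus` (`slice_bd` for `⟨tbSum m, tbs_knot m h⟩`), `sliceGenus ≤ oneMinGenus ≤ tbGenus m` (`sliceGenus_le_oneMinGenus`, `tbs_min`).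
-/

namespace Pool.Agent.Lib.MP_177a0e_gt.Sig

open Pool.Agent.Lib.MP_177a0e_gt.Tangle Pool.Agent.Lib.MP_177a0e_gt.Tangle.Gen

theorem tbs_sig (m : List (List Bool)) (h : TbOdd m) : 2 * (tbGenus m : ℤ) ≤ signature (tbSum m) := by
  induction m with
  | nil =>
    have h1 : signature (tbSum []) = 0 := sig_nil
    rw [h1]
    show 2 * ((0 : ℕ) : ℤ) ≤ 0
    norm_num
  | cons l m ih =>
    have hm : TbOdd m := fun l' hl' => h l' (List.mem_cons_of_mem _ hl')
    have hl : l.count true % 2 = 1 := h l List.mem_cons_self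
    have h1 : signature (twoBridge l ++ tbSum m) = signature (twoBridge l) + signature (tbSum m) :=
      sig_append (tb_valid l) (tbs_knot m hm).valid
    have h2 : tbSum (l :: m) = twoBridge l ++ tbSum m := rfl
    have h3 : tbGenus (l :: m) = l.count true / 2 + tbGenus m := by
      unfold tbGenus
      rw [List.map_cons, List.sum_cons]
    have h4 := tb_sig l
    have h5 : l.count true - 1 = 2 * (l.count true / 2) := by omega
    rw [h5] at h4
    have h6 := ih hm
    rw [h2, h1, h3]
    push_cast at h4 ⊢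
    linarith

theorem tbs_genus (m : List (List Bool)) (h : TbOdd m) :
    sliceGenus (tbSum m) = tbGenus m ∧ oneMinGenus (tbSum m) = tbGenus m := by
  have hk : IsKnot (tbSum m) := tbs_knot m h
  have h1 := slice_bd ⟨tbSum m, hk⟩
  have h2 := sliceGenus_le_oneMinGenus ⟨tbSum m, hk⟩
  have h3 := tbs_min m h
  have h4 := tbs_sig m h
  simp only at h1 h2
  have h5 : tbGenus m ≤ sliceGenus (tbSum m) := by
    have h6 : (tbGenus m : ℤ) ≤ (sliceGenus (tbSum m) : ℤ) := by
      have h7 := le_abs_self (signature (tbSum m))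
      linarith
    exact_mod_cast h6
  refine ⟨?_, ?_⟩ <;> omega

end Pool.Agent.Lib.MP_177a0e_gt.Sig
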