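import Pool.Agent.Lib.MP_177a0e_gt.Sig.Defs

/-!
# white states: interchange.

PROOF. Put `c = |p| + |g.src| + |q|`, `c' = |p| + |g.tgt| + |q|`. A state of the left side is `(t 0, t 1, t 2)` (zero beyond): `g` at the position `|p|` from `t 0` to `t 1`, `g'` at `c'` from `t 1` to `t 2`. `Φ` keeps `t 0` and `t 2` and replaces `t 1` by
`i ↦ if i ≤ c then t 0 i else t 2 (i + |g.tgt| - |g.src|)`; the inverse replaces the middle level by `i ↦ if i ≤ c' then t 2 i else t 0 (i + |g.src| - |g.tgt|)`. Cases for `g`, `g'` (cup, cap, crossing each: `rcases g with _ | _ | _`), then everything is a statement about indices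
(`simp [Run, Runs, fitM, Fit, lp]`, `split_ifs`, `omega`, `congr 1`). Levels zero at the even gaps: the shift is `0` or `± 2`. The form: the position of `g'` changes by `0`, `± 2`: the same sign; the values next to `g` and `g'` are the same (`jmp` in the white states: for `lp` even the values at
the gap `lp + 1` below and above, for `lp` odd the values at `lp`, `lp + 2` below).
-/

namespace Pool.Agent.Lib.MP_177a0e_gt.Sig

open Pool.Agent.Lib.MP_177a0e_gt.Tangle Pool.Agent.Lib.MP_177a0e_gt.Tangle.Gen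

/-- the relation of the levels of a state -/
private def VI_S (P Q a b a' b' : ℕ) (x0 x1 x2 : ℕ → ℚ) : Prop :=
  (∀ i, i ≤ P → x1 i = x0 i) ∧ (∀ i, P ≤ i → x1 (i + b) = x0 (i + a)) ∧
    (∀ i, i ≤ P + b + Q → x2 i = x1 i) ∧ ∀ i, P + b + Q ≤ i → x2 (i + b') = x1 (i + a')

/-- the new middle level -/
private def VI_mid (c a b : ℕ) (x y : ℕ → ℚ) : ℕ → ℚ := fun i => if i ≤ c then x i else y (i + b - a)

private theorem VI_swap {P Q a b a' b' : ℕ} {x0 x1 x2 : ℕ → ℚ} (h : VI_S P Q a b a' b' x0 x1 x2) :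
    VI_S P Q b a b' a' x2 (VI_mid (P + a + Q) a b x0 x2) x0 := by
  obtain ⟨h1, h2, h3, h4⟩ := h
  refine ⟨fun i hi => ?_, fun i hi => ?_, fun i hi => ?_, fun i hi => ?_⟩
  · unfold VI_mid
    rw [if_pos (by omega), h3 i (by omega), h1 i hi]
  · unfold VI_mid
    by_cases hc : i + a ≤ P + a + Q
    · rw [if_pos hc, ← h2 i hi, h3 (i + b) (by omega)]
    · rw [if_neg hc]
      congr 1
      omega
  · unfold VI_mid
    rw [if_pos hi]
  · unfold VI_mid
    by_cases hc : i + b' ≤ P + a + Q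
    · rw [if_pos hc]
      obtain ⟨hb, hi2⟩ : b' = 0 ∧ i = P + a + Q := by omega
      subst hb
      subst hi2
      have e1 := h2 (P + Q + a') (by omega)
      have e2 := h4 (P + b + Q) le_rfl
      have e3 := h3 (P + b + Q) le_rfl
      have e4 := h2 (P + Q) (by omega)
      have k1 : P + Q + a' + b = P + b + Q + a' := by omega
      have k2 : P + Q + a' + a = P + a + Q + a' := by omega
      have k3 : P + Q + b = P + b + Q := by omega
      have k4 : P + Q + a = P + a + Q := by omega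
      rw [k1, k2] at e1
      rw [k3, k4] at e4
      rw [← e1, ← e2, add_zero, e3, e4, add_zero]
    · rw [if_neg hc]
      obtain ⟨k, rfl⟩ := Nat.exists_eq_add_of_le hi
      have e1 := h2 (P + Q + k + a') (by omega)
      have e2 := h4 (P + b + Q + k) (by omega)
      have k1 : P + Q + k + a' + b = P + b + Q + k + a' := by omega
      have k2 : P + Q + k + a' + a = P + a + Q + k + a' := by omega
      have k3 : P + a + Q + k + b' + b - a = P + b + Q + k + b' := by omega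
      rw [k1, k2] at e1
      rw [k3, ← e1, ← e2]

private theorem VI_det {P Q a b a' b' : ℕ} {x0 x1 x2 : ℕ → ℚ} (h : VI_S P Q a b a' b' x0 x1 x2) :
    VI_mid (P + b + Q) b a x2 x0 = x1 := by
  obtain ⟨h1, h2, h3, h4⟩ := h
  funext i
  unfold VI_mid
  by_cases hc : i ≤ P + b + Q
  · rw [if_pos hc, h3 i hc]
  · rw [if_neg hc]
    have e := h2 (i - b) (by omega)
    have k1 : i - b + b = i := by omega
    have k2 : i - b + a = i + a - b := by omega
    rw [k1, k2] at e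
    exact e.symm

private theorem VI_fit (s : Slice) (x y : ℕ → ℚ) : Fit s x y ↔ (∀ i, i ≤ lp s → y i = x i) ∧
    ∀ i, lp s ≤ i → y (i + s.gen.tgt.length) = x (i + s.gen.src.length) := by
  rcases s with ⟨p, _ | _ | ⟨c, u, v⟩, q⟩
  · exact Iff.rfl
  · constructor
    · exact fun h => ⟨fun i hi => (h.1 i hi).symm, fun i hi => (h.2 i hi).symm⟩
    · exact fun h => ⟨fun i hi => (h.1 i hi).symm, fun i hi => (h.2 i hi).symm⟩
  · constructor
    · exact fun h => ⟨fun i hi => h i (by omega), fun i hi => h (i + 2) (by omega)⟩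
    · intro h i hi
      by_cases hc : i ≤ lp ⟨p, cross c u v, q⟩
      · exact h.1 i hc
      · have e : y (i - 2 + 2) = x (i - 2 + 2) := h.2 (i - 2) (by omega)
        have k : i - 2 + 2 = i := by omega
        rw [k] at e
        exact e

private theorem VI_par (g : Gen) : g.src.length % 2 = 0 ∧ g.tgt.length % 2 = 0 := by
  rcases g with _ | _ | _ <;> simp [Gen.src, Gen.tgt]

private theorem VI_memA (g g' : Gen) (p q r : List Bool) (t : ℕ → ℕ → ℚ) :
    t ∈ Wh [⟨p, g, q ++ g'.src ++ r⟩, ⟨p ++ g.tgt ++ q, g', r⟩] ↔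
      VI_S p.length q.length g.src.length g.tgt.length g'.src.length g'.tgt.length (t 0) (t 1) (t 2) ∧
        (∀ j, t j ∈ whiteM ℚ) ∧ ∀ j, 2 < j → t j = 0 := by
  have h1 : t ∈ Wh [⟨p, g, q ++ g'.src ++ r⟩, ⟨p ++ g.tgt ++ q, g', r⟩] ↔
      (Fit ⟨p, g, q ++ g'.src ++ r⟩ (t 0) (t 1) ∧ Fit ⟨p ++ g.tgt ++ q, g', r⟩ (t 1) (t 2) ∧ True) ∧
        (∀ j, t j ∈ whiteM ℚ) ∧ ∀ j, 2 < j → t j = 0 := Iff.rfl
  rw [h1, VI_fit, VI_fit]
  have e1 : lp ⟨p, g, q ++ g'.src ++ r⟩ = p.length := rfl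
  have e2 : lp ⟨p ++ g.tgt ++ q, g', r⟩ = p.length + g.tgt.length + q.length := by
    show (p ++ g.tgt ++ q).length = _
    rw [List.length_append, List.length_append]
  rw [e1, e2]
  unfold VI_S
  tauto

private theorem VI_memB (g g' : Gen) (p q r : List Bool) (t : ℕ → ℕ → ℚ) :
    t ∈ Wh [⟨p ++ g.src ++ q, g', r⟩, ⟨p, g, q ++ g'.tgt ++ r⟩] ↔
      VI_S p.length q.length g.tgt.length g.src.length g'.tgt.length g'.src.length (t 2) (t 1) (t 0) ∧
        (∀ j, t j ∈ whiteM ℚ) ∧ ∀ j, 2 < j → t j = 0 := by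
  have h1 : t ∈ Wh [⟨p ++ g.src ++ q, g', r⟩, ⟨p, g, q ++ g'.tgt ++ r⟩] ↔
      (Fit ⟨p ++ g.src ++ q, g', r⟩ (t 0) (t 1) ∧ Fit ⟨p, g, q ++ g'.tgt ++ r⟩ (t 1) (t 2) ∧ True) ∧
        (∀ j, t j ∈ whiteM ℚ) ∧ ∀ j, 2 < j → t j = 0 := Iff.rfl
  rw [h1, VI_fit, VI_fit]
  have e1 : lp ⟨p, g, q ++ g'.tgt ++ r⟩ = p.length := rfl
  have e2 : lp ⟨p ++ g.src ++ q, g', r⟩ = p.length + g.src.length + q.length := by
    show (p ++ g.src ++ q).length = _
    rw [List.length_append, List.length_append]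
  rw [e1, e2]
  have e3 : ∀ (A B : ℕ → ℚ) (S : ℕ → Prop), (∀ i, S i → A i = B i) ↔ ∀ i, S i → B i = A i :=
    fun A B S => ⟨fun h i hi => (h i hi).symm, fun h i hi => (h i hi).symm⟩
  unfold VI_S
  rw [e3 (t 1) (t 0) (fun i => i ≤ p.length + g.src.length + q.length),
    e3 (fun i => t 1 (i + g'.tgt.length)) (fun i => t 0 (i + g'.src.length))
      (fun i => p.length + g.src.length + q.length ≤ i),
    e3 (t 2) (t 1) (fun i => i ≤ p.length),
    e3 (fun i => t 2 (i + g.tgt.length)) (fun i => t 1 (i + g.src.length)) (fun i => p.length ≤ i)]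
  tauto

/-- the new state -/
private def VI_F (u v c a b : ℕ) (t : ℕ → ℕ → ℚ) : ℕ → ℕ → ℚ :=
  fun j => if j = 1 then VI_mid c a b (t u) (t v) else t j

private theorem VI_F_add (u v c a b : ℕ) (t t' : ℕ → ℕ → ℚ) :
    VI_F u v c a b (t + t') = VI_F u v c a b t + VI_F u v c a b t' := by
  funext j i
  show (if j = 1 then VI_mid c a b ((t + t') u) ((t + t') v) else (t + t') j) i =
    (if j = 1 then VI_mid c a b (t u) (t v) else t j) i + (if j = 1 then VI_mid c a b (t' u) (t' v) else t' j) i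
  split_ifs with hj
  · unfold VI_mid
    split_ifs
    · rfl
    · rfl
  · rfl

private theorem VI_F_smul (u v c a b : ℕ) (k : ℚ) (t : ℕ → ℕ → ℚ) :
    VI_F u v c a b (k • t) = k • VI_F u v c a b t := by
  funext j i
  show (if j = 1 then VI_mid c a b ((k • t) u) ((k • t) v) else (k • t) j) i =
    k * (if j = 1 then VI_mid c a b (t u) (t v) else t j) i
  split_ifs with hj
  · unfold VI_mid
    split_ifs
    · rfl
    · rfl
  · rfl

private theorem VI_F_white {u v c a b : ℕ} (ha : a % 2 = 0) (hb : b % 2 = 0) (hc : a ≤ c) {t : ℕ → ℕ → ℚ}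
    (ht : ∀ j, t j ∈ whiteM ℚ) (j : ℕ) : VI_F u v c a b t j ∈ whiteM ℚ := by
  intro i hi
  show (if j = 1 then VI_mid c a b (t u) (t v) else t j) i = 0
  split_ifs with hj
  · unfold VI_mid
    split_ifs with h1
    · exact ht u i hi
    · exact ht v _ (by omega)
  · exact ht j i hi

private theorem VI_F_top {u v c a b : ℕ} {t : ℕ → ℕ → ℚ} (ht : ∀ j, 2 < j → t j = 0) (j : ℕ) (hj : 2 < j) :
    VI_F u v c a b t j = 0 := by
  show (if j = 1 then VI_mid c a b (t u) (t v) else t j) = 0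
  rw [if_neg (by omega), ht j hj]

private theorem VI_F_0 (u v c a b : ℕ) (t : ℕ → ℕ → ℚ) : VI_F u v c a b t 0 = t 0 := rfl

private theorem VI_F_1 (u v c a b : ℕ) (t : ℕ → ℕ → ℚ) :
    VI_F u v c a b t 1 = VI_mid c a b (t u) (t v) := rfl

private theorem VI_F_2 (u v c a b : ℕ) (t : ℕ → ℕ → ℚ) : VI_F u v c a b t 2 = t 2 := rfl

private theorem VI_F_F {c a b c' a' b' : ℕ} {t : ℕ → ℕ → ℚ} (u v u' v' : ℕ) (hu : u ≠ 1) (hv : v ≠ 1)
    (h : VI_mid c a b (t u) (t v) = t 1) :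
    VI_F u v c a b (VI_F u' v' c' a' b' t) = t := by
  funext j
  by_cases hj : j = 1
  · subst hj
    rw [VI_F_1]
    have e1 : VI_F u' v' c' a' b' t u = t u := if_neg hu
    have e2 : VI_F u' v' c' a' b' t v = t v := if_neg hv
    rw [e1, e2, h]
  · have e1 : ∀ t' : ℕ → ℕ → ℚ, VI_F u v c a b t' j = t' j := fun t' => if_neg hj
    have e2 : VI_F u' v' c' a' b' t j = t j := if_neg hj
    rw [e1, e2]

private theorem VI_eps (g : Gen) (p q p' q' : List Bool) (h : p.length % 2 = p'.length % 2) :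
    eps ⟨p, g, q⟩ = eps ⟨p', g, q'⟩ := by
  rcases g with _ | _ | _
  · rfl
  · rfl
  · show sz _ * (-1) ^ p.length = sz _ * (-1) ^ p'.length
    congr 1
    rcases Nat.even_or_odd p.length with h1 | h1
    · have h2 : Even p'.length := by
        rw [Nat.even_iff] at h1 ⊢
        omega
      rw [h1.neg_one_pow, h2.neg_one_pow]
    · have h2 : Odd p'.length := by
        rw [Nat.odd_iff] at h1 ⊢
        omega
      rw [h1.neg_one_pow, h2.neg_one_pow]

private theorem VI_jmp1 (g : Gen) (p q q' : List Bool) (Q a' b' : ℕ) {x0 x1 x2 : ℕ → ℚ}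
    (h : VI_S p.length Q g.src.length g.tgt.length a' b' x0 x1 x2) :
    jmp ⟨p, g, q⟩ (VI_mid (p.length + g.src.length + Q) g.src.length g.tgt.length x0 x2) x2 =
      jmp ⟨p, g, q'⟩ x0 x1 := by
  obtain ⟨h1, h2, h3, h4⟩ := h
  rcases g with _ | _ | _
  · rfl
  · rfl
  · have e1 : ∀ i, i ≤ p.length + 2 → VI_mid (p.length + 2 + Q) 2 2 x0 x2 i = x0 i := by
      intro i hi
      unfold VI_mid
      rw [if_pos (by omega)]
    have e2 : x2 (p.length + 1) = x1 (p.length + 1) := h3 _ (by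
      show p.length + 1 ≤ p.length + 2 + Q
      omega)
    show (if p.length % 2 = 0 then x2 (p.length + 1) - VI_mid (p.length + 2 + Q) 2 2 x0 x2 (p.length + 1) else
      VI_mid (p.length + 2 + Q) 2 2 x0 x2 p.length - VI_mid (p.length + 2 + Q) 2 2 x0 x2 (p.length + 2)) =
      if p.length % 2 = 0 then x1 (p.length + 1) - x0 (p.length + 1) else x0 p.length - x0 (p.length + 2)
    rw [e1 _ (by omega), e1 _ (by omega), e1 _ (by omega), e2]

private theorem VI_jmp2 (g' : Gen) (P Q a b : ℕ) (ha : a % 2 = 0) (hb : b % 2 = 0) (p q p' q' : List Bool)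
    (hp : p.length = P + b + Q) (hp' : p'.length = P + a + Q) {x0 x1 x2 : ℕ → ℚ}
    (h : VI_S P Q a b g'.src.length g'.tgt.length x0 x1 x2) :
    jmp ⟨p', g', q'⟩ x0 (VI_mid (P + a + Q) a b x0 x2) = jmp ⟨p, g', q⟩ x1 x2 := by
  obtain ⟨h1, h2, h3, h4⟩ := h
  rcases g' with _ | _ | _
  · rfl
  · rfl
  · have e0 : VI_mid (P + a + Q) a b x0 x2 (P + a + Q + 1) = x2 (P + b + Q + 1) := by
      unfold VI_mid
      rw [if_neg (by omega)]
      congr 1
      omega
    have e1 := h2 (P + Q) (by omega)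
    have e2 := h2 (P + Q + 1) (by omega)
    have e3 := h2 (P + Q + 2) (by omega)
    have k1 : P + Q + b = P + b + Q := by omega
    have k2 : P + Q + a = P + a + Q := by omega
    have k3 : P + Q + 1 + b = P + b + Q + 1 := by omega
    have k4 : P + Q + 1 + a = P + a + Q + 1 := by omega
    have k5 : P + Q + 2 + b = P + b + Q + 2 := by omega
    have k6 : P + Q + 2 + a = P + a + Q + 2 := by omega
    rw [k1, k2] at e1
    rw [k3, k4] at e2
    rw [k5, k6] at e3
    show (if p'.length % 2 = 0 then VI_mid (P + a + Q) a b x0 x2 (p'.length + 1) - x0 (p'.length + 1) else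
      x0 p'.length - x0 (p'.length + 2)) =
      if p.length % 2 = 0 then x2 (p.length + 1) - x1 (p.length + 1) else x1 p.length - x1 (p.length + 2)
    rw [hp, hp', e0, e1, e2, e3]
    have hh : (P + a + Q) % 2 = 0 ↔ (P + b + Q) % 2 = 0 := by omega
    by_cases hc : (P + b + Q) % 2 = 0
    · rw [if_pos (hh.2 hc), if_pos hc]
    · rw [if_neg (fun h => hc (hh.1 h)), if_neg hc]

theorem v_inter (g g' : Gen) (p q r : List Bool) :
    VIso [⟨p, g, q ++ g'.src ++ r⟩, ⟨p ++ g.tgt ++ q, g', r⟩] [⟨p ++ g.src ++ q, g', r⟩, ⟨p, g, q ++ g'.tgt ++ r⟩] := by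
  obtain ⟨ha, hb⟩ := VI_par g
  have hAB : ∀ t : ℕ → ℕ → ℚ, t ∈ Wh [⟨p, g, q ++ g'.src ++ r⟩, ⟨p ++ g.tgt ++ q, g', r⟩] →
      VI_F 0 2 (p.length + g.src.length + q.length) g.src.length g.tgt.length t ∈
        Wh [⟨p ++ g.src ++ q, g', r⟩, ⟨p, g, q ++ g'.tgt ++ r⟩] := by
    intro t ht
    rw [VI_memA] at ht
    rw [VI_memB]
    refine ⟨?_, VI_F_white ha hb (by omega) ht.2.1, VI_F_top ht.2.2⟩
    rw [VI_F_0, VI_F_1, VI_F_2]
    exact VI_swap ht.1
  have hBA : ∀ t : ℕ → ℕ → ℚ, t ∈ Wh [⟨p ++ g.src ++ q, g', r⟩, ⟨p, g, q ++ g'.tgt ++ r⟩] →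
      VI_F 2 0 (p.length + g.tgt.length + q.length) g.tgt.length g.src.length t ∈
        Wh [⟨p, g, q ++ g'.src ++ r⟩, ⟨p ++ g.tgt ++ q, g', r⟩] := by
    intro t ht
    rw [VI_memB] at ht
    rw [VI_memA]
    refine ⟨?_, VI_F_white hb ha (by omega) ht.2.1, VI_F_top ht.2.2⟩
    rw [VI_F_0, VI_F_1, VI_F_2]
    exact VI_swap ht.1
  refine ⟨{
    toFun := fun t => ⟨VI_F 0 2 (p.length + g.src.length + q.length) g.src.length g.tgt.length t.1, hAB t.1 t.2⟩
    map_add' := fun t t' => Subtype.ext (VI_F_add _ _ _ _ _ t.1 t'.1)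
    map_smul' := fun k t => Subtype.ext (VI_F_smul _ _ _ _ _ k t.1)
    invFun := fun t => ⟨VI_F 2 0 (p.length + g.tgt.length + q.length) g.tgt.length g.src.length t.1, hBA t.1 t.2⟩
    left_inv := fun t => Subtype.ext (VI_F_F 2 0 0 2 (by omega) (by omega) (VI_det ((VI_memA g g' p q r t.1).1 t.2).1))
    right_inv := fun t => Subtype.ext
      (VI_F_F 0 2 2 0 (by omega) (by omega) (VI_det ((VI_memB g g' p q r t.1).1 t.2).1)) }, fun t => ⟨rfl, rfl, fun t' => ?_⟩⟩
  have hS := ((VI_memA g g' p q r t.1).1 t.2).1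
  have hS' := ((VI_memA g g' p q r t'.1).1 t'.2).1
  have hlen : (p ++ g.tgt ++ q).length = p.length + g.tgt.length + q.length := by
    rw [List.length_append, List.length_append]
  have hlen' : (p ++ g.src ++ q).length = p.length + g.src.length + q.length := by
    rw [List.length_append, List.length_append]
  show (eps ⟨p ++ g.src ++ q, g', r⟩ : ℚ) *
      (jmp ⟨p ++ g.src ++ q, g', r⟩ (t.1 0) (VI_mid (p.length + g.src.length + q.length) g.src.length g.tgt.length (t.1 0) (t.1 2)) *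
      jmp ⟨p ++ g.src ++ q, g', r⟩ (t'.1 0) (VI_mid (p.length + g.src.length + q.length) g.src.length g.tgt.length (t'.1 0) (t'.1 2))) +
    ((eps ⟨p, g, q ++ g'.tgt ++ r⟩ : ℚ) *
      (jmp ⟨p, g, q ++ g'.tgt ++ r⟩ (VI_mid (p.length + g.src.length + q.length) g.src.length g.tgt.length (t.1 0) (t.1 2)) (t.1 2) *
      jmp ⟨p, g, q ++ g'.tgt ++ r⟩ (VI_mid (p.length + g.src.length + q.length) g.src.length g.tgt.length (t'.1 0) (t'.1 2)) (t'.1 2)) + 0) =
    (eps ⟨p, g, q ++ g'.src ++ r⟩ : ℚ) *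
      (jmp ⟨p, g, q ++ g'.src ++ r⟩ (t.1 0) (t.1 1) * jmp ⟨p, g, q ++ g'.src ++ r⟩ (t'.1 0) (t'.1 1)) +
    ((eps ⟨p ++ g.tgt ++ q, g', r⟩ : ℚ) *
      (jmp ⟨p ++ g.tgt ++ q, g', r⟩ (t.1 1) (t.1 2) * jmp ⟨p ++ g.tgt ++ q, g', r⟩ (t'.1 1) (t'.1 2)) + 0)
  rw [VI_jmp1 g p _ (q ++ g'.src ++ r) _ _ _ hS, VI_jmp1 g p _ (q ++ g'.src ++ r) _ _ _ hS',
    VI_jmp2 g' _ _ _ _ ha hb (p ++ g.tgt ++ q) r _ r hlen hlen' hS,
    VI_jmp2 g' _ _ _ _ ha hb (p ++ g.tgt ++ q) r _ r hlen hlen' hS',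
    VI_eps g p (q ++ g'.tgt ++ r) p (q ++ g'.src ++ r) rfl,
    VI_eps g' (p ++ g.src ++ q) r (p ++ g.tgt ++ q) r (by rw [hlen, hlen']; omega)]
  ring

end Pool.Agent.Lib.MP_177a0e_gt.Sig
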