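import Pool.Agent.Lib.MP_177a0e_gt.Sig.Defs

/-!
# white states: the first Reidemeister move at a maximum; the second one at an odd position.

PROOFS (`L = |p|`).
* `v_r1cup_even`: a state of the left side is `(t 0, t 1, t 2)`; `t 1`: `t 0` with the gap `L` doubled and a new value at `L + 1`; `t 2 i = t 1 i` for `i ≠ L + 1`. `Φ t = ((t 0, t 2), t 2 (L + 1) - t 1 (L + 1))`; the form of the left side is `eps (t 2 (L + 1) - t 1 (L + 1)) ^ 2`, `eps = sz s`, that of the right side is `0`.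
  Inverse: `((t 0, t 2), r) ↦ (t 0, t 2 - r at the gap L + 1, t 2)` (`Function.update`).
* `v_r1cup_odd`: the gap `L + 1` is even: `t 2 = t 1`; `Φ t = (t 0, t 1)`; `jmp = t 1 L - t 1 (L + 2) = 0` (both are `t 0 L`).
* `v_r1cap_even`, `v_r1cap_odd`: a state of the left side is `(t 0, t 1, t 2)`, `t 1 i = t 0 i` for `i ≠ L + 1`, `t 2` is `t 1` with the gaps `L + 1`, `L + 2` deleted (`t 1 i = t 2 i`, `i ≤ L`; `t 1 (i + 2) = t 2 i`, `i ≥ L`). `Φ t = ((t 0, t 2), t 1 (L + 1) - t 0 (L + 1))` (even), `(t 0, t 2)` (odd).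
* `v_r2_odd`: the gap `L + 1` is even: `t 0 = t 1 = t 2`, and the form is `eps (t L - t (L + 2)) ^ 2 - eps (t L - t (L + 2)) ^ 2 = 0`. `Φ t = (t 0)`.
-/

namespace Pool.Agent.Lib.MP_177a0e_gt.Sig

open Pool.Agent.Lib.MP_177a0e_gt.Tangle Pool.Agent.Lib.MP_177a0e_gt.Tangle.Gen

private def lv1 (a : ℕ → ℚ) : ℕ → ℕ → ℚ
  | 0 => a
  | _ + 1 => 0

private def lv2 (a b : ℕ → ℚ) : ℕ → ℕ → ℚ
  | 0 => a
  | 1 => b
  | _ + 2 => 0

private def lv3 (a b c : ℕ → ℚ) : ℕ → ℕ → ℚ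
  | 0 => a
  | 1 => b
  | 2 => c
  | _ + 3 => 0

private theorem lv1_add (a a' : ℕ → ℚ) : lv1 (a + a') = lv1 a + lv1 a' := by
  funext j
  rcases j with _ | j
  · rfl
  · exact (add_zero (0 : ℕ → ℚ)).symm

private theorem lv1_smul (r : ℚ) (a : ℕ → ℚ) : lv1 (r • a) = r • lv1 a := by
  funext j
  rcases j with _ | j
  · rfl
  · exact (smul_zero r).symm

private theorem lv2_add (a a' b b' : ℕ → ℚ) : lv2 (a + a') (b + b') = lv2 a b + lv2 a' b' := by
  funext j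
  rcases j with _ | _ | j
  · rfl
  · rfl
  · exact (add_zero (0 : ℕ → ℚ)).symm

private theorem lv2_smul (r : ℚ) (a b : ℕ → ℚ) : lv2 (r • a) (r • b) = r • lv2 a b := by
  funext j
  rcases j with _ | _ | j
  · rfl
  · rfl
  · exact (smul_zero r).symm

private theorem lv1_mem {a : ℕ → ℚ} (wa : a ∈ whiteM ℚ) : lv1 a ∈ Wh [] := by
  refine ⟨trivial, fun j => ?_, fun j hj => ?_⟩
  · rcases j with _ | j
    · exact wa
    · exact (whiteM ℚ).zero_mem
  · rcases j with _ | j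
    · exact absurd hj (lt_irrefl 0)
    · rfl

private theorem lv2_mem {s : Slice} {a b : ℕ → ℚ} (h : Fit s a b) (wa : a ∈ whiteM ℚ)
    (wb : b ∈ whiteM ℚ) : lv2 a b ∈ Wh [s] := by
  refine ⟨⟨h, trivial⟩, fun j => ?_, fun j hj => ?_⟩
  · rcases j with _ | _ | j
    · exact wa
    · exact wb
    · exact (whiteM ℚ).zero_mem
  · have hj' : 1 < j := hj
    rcases j with _ | _ | j
    · omega
    · omega
    · rfl

private theorem lv3_mem {s s' : Slice} {a b c : ℕ → ℚ} (h : Fit s a b) (h' : Fit s' b c)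
    (wa : a ∈ whiteM ℚ) (wb : b ∈ whiteM ℚ) (wc : c ∈ whiteM ℚ) : lv3 a b c ∈ Wh [s, s'] := by
  refine ⟨⟨h, h', trivial⟩, fun j => ?_, fun j hj => ?_⟩
  · rcases j with _ | _ | _ | j
    · exact wa
    · exact wb
    · exact wc
    · exact (whiteM ℚ).zero_mem
  · have hj' : 2 < j := hj
    rcases j with _ | _ | _ | j
    · omega
    · omega
    · omega
    · rfl

private theorem lv1_eq (u : Wh []) : lv1 (u.1 0) = u.1 := by
  funext j
  rcases j with _ | j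
  · rfl
  · exact (u.2.2.2 (j + 1) (Nat.succ_pos j)).symm

private theorem lv2_eq {s : Slice} (u : Wh [s]) : lv2 (u.1 0) (u.1 1) = u.1 := by
  funext j
  rcases j with _ | _ | j
  · rfl
  · rfl
  · exact (u.2.2.2 (j + 2) (show 1 < j + 2 by omega)).symm

private theorem lv3_eq {s s' : Slice} (u : Wh [s, s']) : lv3 (u.1 0) (u.1 1) (u.1 2) = u.1 := by
  funext j
  rcases j with _ | _ | _ | j
  · rfl
  · rfl
  · rfl
  · exact (u.2.2.2 (j + 3) (show 2 < j + 3 by omega)).symm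

theorem v_r1cap_even (s x : Bool) (p q : List Bool) (h : p.length % 2 = 0) :
    VAdd (sz s) [⟨p, cross s x (!x), q⟩, ⟨p, cap (!x), q⟩] [⟨p, cap x, q⟩] := by
  have hw : ∀ (t : Wh [⟨p, cross s x (!x), q⟩, ⟨p, cap (!x), q⟩]) (j : ℕ), t.1 j ∈ whiteM ℚ :=
    fun t j => t.2.2.1 j
  have f1 : ∀ (t : Wh [⟨p, cross s x (!x), q⟩, ⟨p, cap (!x), q⟩]) (i : ℕ), i ≠ p.length + 1 →
      t.1 1 i = t.1 0 i := fun t => t.2.1.1
  have f2 : ∀ (t : Wh [⟨p, cross s x (!x), q⟩, ⟨p, cap (!x), q⟩]),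
      (∀ i, i ≤ p.length → t.1 1 i = t.1 2 i) ∧ ∀ i, p.length ≤ i → t.1 1 (i + 2) = t.1 2 i :=
    fun t => t.2.1.2.1
  have fb : ∀ (u : Wh [⟨p, cap x, q⟩]),
      (∀ i, i ≤ p.length → u.1 0 i = u.1 1 i) ∧ ∀ i, p.length ≤ i → u.1 0 (i + 2) = u.1 1 i :=
    fun u => u.2.1.1
  have m1 : ∀ (t : Wh [⟨p, cross s x (!x), q⟩, ⟨p, cap (!x), q⟩]),
      lv2 (t.1 0) (t.1 2) ∈ Wh [⟨p, cap x, q⟩] := by
    intro t
    refine lv2_mem ⟨fun i hi => ?_, fun i hi => ?_⟩ (hw t 0) (hw t 2)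
    · have hi' : i ≤ p.length := hi
      rw [← f1 t i (by omega)]
      exact (f2 t).1 i hi'
    · have hi' : p.length ≤ i := hi
      rw [← f1 t (i + 2) (by omega)]
      exact (f2 t).2 i hi'
  have m2 : ∀ (u : Wh [⟨p, cap x, q⟩]) (r : ℚ),
      lv3 (u.1 0) (Function.update (u.1 0) (p.length + 1) (u.1 0 (p.length + 1) + r)) (u.1 1) ∈
        Wh [⟨p, cross s x (!x), q⟩, ⟨p, cap (!x), q⟩] := by
    intro u r
    refine lv3_mem (fun i hi => ?_) ⟨fun i hi => ?_, fun i hi => ?_⟩ (u.2.2.1 0) ?_ (u.2.2.1 1)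
    · have hi' : i ≠ p.length + 1 := hi
      exact Function.update_of_ne hi' _ _
    · have hi' : i ≤ p.length := hi
      rw [Function.update_of_ne (by omega)]
      exact (fb u).1 i hi'
    · have hi' : p.length ≤ i := hi
      rw [Function.update_of_ne (by omega)]
      exact (fb u).2 i hi'
    · intro i hi
      rw [Function.update_of_ne (by omega)]
      exact u.2.2.1 0 i hi
  refine ⟨{ toFun := fun t => (⟨lv2 (t.1 0) (t.1 2), m1 t⟩,
              t.1 1 (p.length + 1) - t.1 0 (p.length + 1))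
            map_add' := fun t t' => ?_
            map_smul' := fun r t => ?_
            invFun := fun u => ⟨_, m2 u.1 u.2⟩
            left_inv := fun t => ?_
            right_inv := fun u => ?_ }, fun t => ⟨rfl, rfl, fun t' => ?_⟩⟩
  · refine Prod.ext (Subtype.ext (lv2_add _ _ _ _)) ?_
    show (t.1 1 (p.length + 1) + t'.1 1 (p.length + 1)) -
      (t.1 0 (p.length + 1) + t'.1 0 (p.length + 1)) = _
    exact add_sub_add_comm _ _ _ _
  · refine Prod.ext (Subtype.ext (lv2_smul _ _ _)) ?_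
    show r * t.1 1 (p.length + 1) - r * t.1 0 (p.length + 1) =
      r * (t.1 1 (p.length + 1) - t.1 0 (p.length + 1))
    ring
  · refine Subtype.ext ?_
    have e : Function.update (t.1 0) (p.length + 1)
        (t.1 0 (p.length + 1) + (t.1 1 (p.length + 1) - t.1 0 (p.length + 1))) = t.1 1 := by
      funext i
      by_cases hi : i = p.length + 1
      · subst hi
        rw [Function.update_self]
        ring
      · rw [Function.update_of_ne hi, f1 t i hi]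
    show lv3 (t.1 0) (Function.update (t.1 0) (p.length + 1)
        (t.1 0 (p.length + 1) + (t.1 1 (p.length + 1) - t.1 0 (p.length + 1)))) (t.1 2) = t.1
    rw [e]
    exact lv3_eq t
  · refine Prod.ext (Subtype.ext (lv2_eq u.1)) ?_
    show Function.update (u.1.1 0) (p.length + 1) (u.1.1 0 (p.length + 1) + u.2) (p.length + 1) -
      u.1.1 0 (p.length + 1) = u.2
    rw [Function.update_self]
    ring
  · have he : eps ⟨p, cross s x (!x), q⟩ = sz s := by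
      show sz s * (-1) ^ p.length = sz s
      rw [Even.neg_one_pow (Nat.even_iff.2 h), mul_one]
    have hj : ∀ t : Wh [⟨p, cross s x (!x), q⟩, ⟨p, cap (!x), q⟩],
        jmp ⟨p, cross s x (!x), q⟩ (t.1 0) (t.1 1) =
          t.1 1 (p.length + 1) - t.1 0 (p.length + 1) := by
      intro t
      show (if p.length % 2 = 0 then t.1 1 (p.length + 1) - t.1 0 (p.length + 1) else
        t.1 0 p.length - t.1 0 (p.length + 2)) = _
      rw [if_pos h]
    show (eps ⟨p, cross s x (!x), q⟩ : ℚ) * (jmp ⟨p, cross s x (!x), q⟩ (t.1 0) (t.1 1) *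
        jmp ⟨p, cross s x (!x), q⟩ (t'.1 0) (t'.1 1)) + (((0 : ℤ) : ℚ) * (0 * 0) + 0) =
      (((0 : ℤ) : ℚ) * (0 * 0) + 0) + ((sz s : ℤ) : ℚ) *
        ((t.1 1 (p.length + 1) - t.1 0 (p.length + 1)) *
          (t'.1 1 (p.length + 1) - t'.1 0 (p.length + 1)))
    rw [he, hj, hj]
    ring

theorem v_r1cap_odd (s x : Bool) (p q : List Bool) (h : p.length % 2 = 1) :
    VIso [⟨p, cross s x (!x), q⟩, ⟨p, cap (!x), q⟩] [⟨p, cap x, q⟩] := by
  have hw : ∀ (t : Wh [⟨p, cross s x (!x), q⟩, ⟨p, cap (!x), q⟩]) (j : ℕ), t.1 j ∈ whiteM ℚ :=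
    fun t j => t.2.2.1 j
  have f1 : ∀ (t : Wh [⟨p, cross s x (!x), q⟩, ⟨p, cap (!x), q⟩]), t.1 1 = t.1 0 := by
    intro t
    funext i
    by_cases hi : i = p.length + 1
    · rw [hw t 1 i (by omega), hw t 0 i (by omega)]
    · have h1 : ∀ i, i ≠ p.length + 1 → t.1 1 i = t.1 0 i := t.2.1.1
      exact h1 i hi
  have f2 : ∀ (t : Wh [⟨p, cross s x (!x), q⟩, ⟨p, cap (!x), q⟩]),
      (∀ i, i ≤ p.length → t.1 1 i = t.1 2 i) ∧ ∀ i, p.length ≤ i → t.1 1 (i + 2) = t.1 2 i :=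
    fun t => t.2.1.2.1
  have m1 : ∀ (t : Wh [⟨p, cross s x (!x), q⟩, ⟨p, cap (!x), q⟩]),
      lv2 (t.1 0) (t.1 2) ∈ Wh [⟨p, cap x, q⟩] := by
    intro t
    refine lv2_mem ?_ (hw t 0) (hw t 2)
    rw [← f1 t]
    exact f2 t
  have m2 : ∀ (u : Wh [⟨p, cap x, q⟩]), lv3 (u.1 0) (u.1 0) (u.1 1) ∈
      Wh [⟨p, cross s x (!x), q⟩, ⟨p, cap (!x), q⟩] := by
    intro u
    exact lv3_mem (fun i _ => rfl) u.2.1.1 (u.2.2.1 0) (u.2.2.1 0) (u.2.2.1 1)
  refine ⟨{ toFun := fun t => ⟨lv2 (t.1 0) (t.1 2), m1 t⟩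
            map_add' := fun t t' => Subtype.ext (lv2_add _ _ _ _)
            map_smul' := fun r t => Subtype.ext (lv2_smul _ _ _)
            invFun := fun u => ⟨_, m2 u⟩
            left_inv := fun t => ?_
            right_inv := fun u => Subtype.ext (lv2_eq u) }, fun t => ⟨rfl, rfl, fun t' => ?_⟩⟩
  · refine Subtype.ext ?_
    show lv3 (t.1 0) (t.1 0) (t.1 2) = t.1
    rw [← lv3_eq t]
    show lv3 (t.1 0) (t.1 0) (t.1 2) = lv3 (t.1 0) (t.1 1) (t.1 2)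
    rw [f1 t]
  · have hj : jmp ⟨p, cross s x (!x), q⟩ (t.1 0) (t.1 1) = 0 := by
      show (if p.length % 2 = 0 then t.1 1 (p.length + 1) - t.1 0 (p.length + 1) else
        t.1 0 p.length - t.1 0 (p.length + 2)) = 0
      rw [if_neg (by omega), ← f1 t, (f2 t).1 _ le_rfl, (f2 t).2 _ le_rfl, sub_self]
    show (((0 : ℤ) : ℚ) * (0 * 0) + 0) =
      (eps ⟨p, cross s x (!x), q⟩ : ℚ) * (jmp ⟨p, cross s x (!x), q⟩ (t.1 0) (t.1 1) *
        jmp ⟨p, cross s x (!x), q⟩ (t'.1 0) (t'.1 1)) + (((0 : ℤ) : ℚ) * (0 * 0) + 0)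
    rw [hj]
    ring

theorem v_r2_odd (s x y : Bool) (p q : List Bool) (h : p.length % 2 = 1) :
    VIso [⟨p, cross s x y, q⟩, ⟨p, cross (!s) y x, q⟩] [] := by
  have hw : ∀ (t : Wh [⟨p, cross s x y, q⟩, ⟨p, cross (!s) y x, q⟩]) (j : ℕ),
      t.1 j ∈ whiteM ℚ := fun t j => t.2.2.1 j
  have f1 : ∀ (t : Wh [⟨p, cross s x y, q⟩, ⟨p, cross (!s) y x, q⟩]), t.1 1 = t.1 0 := by
    intro t
    funext i
    by_cases hi : i = p.length + 1
    · rw [hw t 1 i (by omega), hw t 0 i (by omega)]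
    · have h1 : ∀ i, i ≠ p.length + 1 → t.1 1 i = t.1 0 i := t.2.1.1
      exact h1 i hi
  have f2 : ∀ (t : Wh [⟨p, cross s x y, q⟩, ⟨p, cross (!s) y x, q⟩]), t.1 2 = t.1 1 := by
    intro t
    funext i
    by_cases hi : i = p.length + 1
    · rw [hw t 2 i (by omega), hw t 1 i (by omega)]
    · have h1 : ∀ i, i ≠ p.length + 1 → t.1 2 i = t.1 1 i := t.2.1.2.1
      exact h1 i hi
  have m2 : ∀ (u : Wh []), lv3 (u.1 0) (u.1 0) (u.1 0) ∈
      Wh [⟨p, cross s x y, q⟩, ⟨p, cross (!s) y x, q⟩] := by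
    intro u
    exact lv3_mem (fun i _ => rfl) (fun i _ => rfl) (u.2.2.1 0) (u.2.2.1 0) (u.2.2.1 0)
  refine ⟨{ toFun := fun t => ⟨lv1 (t.1 0), lv1_mem (hw t 0)⟩
            map_add' := fun t t' => Subtype.ext (lv1_add _ _)
            map_smul' := fun r t => Subtype.ext (lv1_smul _ _)
            invFun := fun u => ⟨_, m2 u⟩
            left_inv := fun t => ?_
            right_inv := fun u => Subtype.ext (lv1_eq u) },
    fun t => ⟨rfl, ?_, fun t' => ?_⟩⟩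
  · refine Subtype.ext ?_
    show lv3 (t.1 0) (t.1 0) (t.1 0) = t.1
    rw [← lv3_eq t]
    show lv3 (t.1 0) (t.1 0) (t.1 0) = lv3 (t.1 0) (t.1 1) (t.1 2)
    rw [f2 t, f1 t]
  · show t.1 0 = t.1 2
    rw [f2 t, f1 t]
  · have hj : ∀ (t : Wh [⟨p, cross s x y, q⟩, ⟨p, cross (!s) y x, q⟩]) ,
        jmp ⟨p, cross s x y, q⟩ (t.1 0) (t.1 1) = t.1 0 p.length - t.1 0 (p.length + 2) := by
      intro t
      show (if p.length % 2 = 0 then t.1 1 (p.length + 1) - t.1 0 (p.length + 1) else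
        t.1 0 p.length - t.1 0 (p.length + 2)) = _
      rw [if_neg (by omega)]
    have hj2 : ∀ (t : Wh [⟨p, cross s x y, q⟩, ⟨p, cross (!s) y x, q⟩]) ,
        jmp ⟨p, cross (!s) y x, q⟩ (t.1 1) (t.1 2) = t.1 0 p.length - t.1 0 (p.length + 2) := by
      intro t
      show (if p.length % 2 = 0 then t.1 2 (p.length + 1) - t.1 1 (p.length + 1) else
        t.1 1 p.length - t.1 1 (p.length + 2)) = _
      rw [if_neg (by omega), f1 t]
    have he : eps ⟨p, cross (!s) y x, q⟩ = -eps ⟨p, cross s x y, q⟩ := by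
      show sz (!s) * (-1) ^ p.length = -(sz s * (-1) ^ p.length)
      cases s <;> simp [sz]
    show (0 : ℚ) = (eps ⟨p, cross s x y, q⟩ : ℚ) * (jmp ⟨p, cross s x y, q⟩ (t.1 0) (t.1 1) *
        jmp ⟨p, cross s x y, q⟩ (t'.1 0) (t'.1 1)) +
      ((eps ⟨p, cross (!s) y x, q⟩ : ℚ) * (jmp ⟨p, cross (!s) y x, q⟩ (t.1 1) (t.1 2) *
        jmp ⟨p, cross (!s) y x, q⟩ (t'.1 1) (t'.1 2)) + 0)
    rw [hj, hj, hj2, hj2, he]
    push_cast
    ring

end Pool.Agent.Lib.MP_177a0e_gt.Sig
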