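import Pool.Agent.Lib.MP_177a0e_gt.Sig.Defs

/-!
# white states: the third Reidemeister move.

PROOF (`L = |p|`, `σ = sz s`). `v_r3_even`, `L` even. A state of the left side is `(t 0, t 1, t 2, t 3)`: the crossing at `L + 1` changes only the gap `L + 2`, which is even, so `t 2 = t 1`; `t 0, t 1, t 3` differ only at the gap `L + 1`, with the values `b, τ, u` there; `d = t 0 (L + 3)`.
The form: `σ (τ - b) ^ 2 - σ (τ - d) ^ 2 + σ (u - τ) ^ 2` (`eps = σ (-1) ^ lp`). A state of the right side is `(t 0, t 0, t 3, t 3)`, with the form `- σ (b - d) ^ 2 + σ (u - b) ^ 2 - σ (u - d) ^ 2`. `Φ t = ((t 0, t 0, t 3, t 3), τ - (b + u - d))`, and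
`(τ - b) ^ 2 - (τ - d) ^ 2 + (u - τ) ^ 2 = (τ - (b + u - d)) ^ 2 - (b - d) ^ 2 + (u - b) ^ 2 - (u - d) ^ 2` (and its polarization: `ring`).
`v_r3_odd`, `L` odd: now the gaps `L`, `L + 2` are white. A state of the right side (crossings at `L + 1`, `L`, `L + 1`) is `(t 0, t 1, t 1, t 3)`, the values at the gap `L + 2` are `b, τ, τ, u`, `d = t 0 L`: the form is `σ (τ - b) ^ 2 - σ (d - τ) ^ 2 + σ (u - τ) ^ 2`; the left side: `(t 0, t 0, t 3, t 3)`, the form is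
`- σ (d - b) ^ 2 + σ (u - b) ^ 2 - σ (d - u) ^ 2`.
-/

namespace Pool.Agent.Lib.MP_177a0e_gt.Sig

open Pool.Agent.Lib.MP_177a0e_gt.Tangle Pool.Agent.Lib.MP_177a0e_gt.Tangle.Gen

private def fF (t : ℕ → ℕ → ℚ) : ℕ → ℕ → ℚ
  | 0 => t 0
  | 1 => t 0
  | 2 => t 3
  | 3 => t 3
  | _ + 4 => 0

private def fG (g e : ℕ) (s : ℕ → ℕ → ℚ) (r : ℚ) : ℕ → ℕ → ℚ
  | 0 => s 0
  | 1 => Function.update (s 0) g (r + (s 0 g + s 3 g - s 0 e))
  | 2 => Function.update (s 0) g (r + (s 0 g + s 3 g - s 0 e))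
  | 3 => s 3
  | _ + 4 => 0

private theorem core (a b : Word) (ha : a.length = 3) (hb : b.length = 3) (g e : ℕ) (hge : e ≠ g)
    (hg : g % 2 = 1) (c : ℤ)
    (hA : ∀ t : ℕ → ℕ → ℚ, t ∈ Wh a ↔ (∀ i, i ≠ g → t 1 i = t 0 i) ∧ t 2 = t 1 ∧
      (∀ i, i ≠ g → t 3 i = t 2 i) ∧ (∀ j, t j ∈ whiteM ℚ) ∧ ∀ j, 3 < j → t j = 0)
    (hB : ∀ t : ℕ → ℕ → ℚ, t ∈ Wh b ↔ t 1 = t 0 ∧ (∀ i, i ≠ g → t 2 i = t 1 i) ∧
      t 3 = t 2 ∧ (∀ j, t j ∈ whiteM ℚ) ∧ ∀ j, 3 < j → t j = 0)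
    (hqA : ∀ t t' : ℕ → ℕ → ℚ, t ∈ Wh a → t' ∈ Wh a → gq a t t' =
      (c : ℚ) * ((t 1 g - t 0 g) * (t' 1 g - t' 0 g)) - (c : ℚ) * ((t 1 g - t 0 e) * (t' 1 g - t' 0 e)) +
      (c : ℚ) * ((t 3 g - t 1 g) * (t' 3 g - t' 1 g)))
    (hqB : ∀ t t' : ℕ → ℕ → ℚ, t ∈ Wh b → t' ∈ Wh b → gq b t t' =
      - (c : ℚ) * ((t 0 g - t 0 e) * (t' 0 g - t' 0 e)) + (c : ℚ) * ((t 3 g - t 0 g) * (t' 3 g - t' 0 g)) -
      (c : ℚ) * ((t 3 g - t 0 e) * (t' 3 g - t' 0 e))) :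
    VAdd c a b := by
  have hFm : ∀ t ∈ Wh a, fF t ∈ Wh b := by
    intro t ht
    obtain ⟨h1, h2, h3, h4, h5⟩ := (hA t).mp ht
    refine (hB _).mpr ⟨rfl, ?_, rfl, ?_, ?_⟩
    · intro i hi
      show t 3 i = t 0 i
      rw [h3 i hi, h2, h1 i hi]
    · intro j
      match j with
      | 0 => exact h4 0
      | 1 => exact h4 0
      | 2 => exact h4 3
      | 3 => exact h4 3
      | _ + 4 => exact (whiteM ℚ).zero_mem
    · intro j hj
      match j with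
      | 0 => omega
      | 1 => omega
      | 2 => omega
      | 3 => omega
      | _ + 4 => rfl
  have hGm : ∀ s ∈ Wh b, ∀ r : ℚ, fG g e s r ∈ Wh a := by
    intro s hs r
    obtain ⟨h1, h2, h3, h4, h5⟩ := (hB s).mp hs
    have hw : Function.update (s 0) g (r + (s 0 g + s 3 g - s 0 e)) ∈ whiteM ℚ := by
      intro i hi
      have hig : i ≠ g := by
        rintro rfl
        omega
      rw [Function.update_of_ne hig]
      exact h4 0 i hi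
    refine (hA _).mpr ⟨?_, rfl, ?_, ?_, ?_⟩
    · intro i hi
      exact Function.update_of_ne hi _ _
    · intro i hi
      show s 3 i = Function.update (s 0) g (r + (s 0 g + s 3 g - s 0 e)) i
      rw [Function.update_of_ne hi, h3, h2 i hi, h1]
    · intro j
      match j with
      | 0 => exact h4 0
      | 1 => exact hw
      | 2 => exact hw
      | 3 => exact h4 3
      | _ + 4 => exact (whiteM ℚ).zero_mem
    · intro j hj
      match j with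
      | 0 => omega
      | 1 => omega
      | 2 => omega
      | 3 => omega
      | _ + 4 => rfl
  refine ⟨{ toFun := fun t => (⟨fF t.1, hFm t.1 t.2⟩, t.1 1 g - (t.1 0 g + t.1 3 g - t.1 0 e))
            invFun := fun s => ⟨fG g e s.1.1 s.2, hGm s.1.1 s.1.2 s.2⟩
            map_add' := ?_
            map_smul' := ?_
            left_inv := ?_
            right_inv := ?_ }, ?_⟩
  · intro t t'
    refine Prod.ext (Subtype.ext (funext fun j => ?_)) ?_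
    · match j with
      | 0 => rfl
      | 1 => rfl
      | 2 => rfl
      | 3 => rfl
      | n + 4 => exact (add_zero _).symm
    · show (t.1 1 g + t'.1 1 g) - ((t.1 0 g + t'.1 0 g) + (t.1 3 g + t'.1 3 g) - (t.1 0 e + t'.1 0 e)) =
        (t.1 1 g - (t.1 0 g + t.1 3 g - t.1 0 e)) + (t'.1 1 g - (t'.1 0 g + t'.1 3 g - t'.1 0 e))
      ring
  · intro r t
    refine Prod.ext (Subtype.ext (funext fun j => ?_)) ?_
    · match j with
      | 0 => rfl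
      | 1 => rfl
      | 2 => rfl
      | 3 => rfl
      | n + 4 => exact (smul_zero (A := ℕ → ℚ) r).symm
    · show r * t.1 1 g - (r * t.1 0 g + r * t.1 3 g - r * t.1 0 e) =
        r * (t.1 1 g - (t.1 0 g + t.1 3 g - t.1 0 e))
      ring
  · intro t
    obtain ⟨h1, h2, h3, h4, h5⟩ := (hA t.1).mp t.2
    refine Subtype.ext (funext fun j => ?_)
    have hu : Function.update (t.1 0) g ((t.1 1 g - (t.1 0 g + t.1 3 g - t.1 0 e)) +
        (t.1 0 g + t.1 3 g - t.1 0 e)) = t.1 1 := by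
      funext i
      by_cases hi : i = g
      · subst hi
        rw [Function.update_self]
        ring
      · rw [Function.update_of_ne hi, h1 i hi]
    match j with
    | 0 => rfl
    | 1 => exact hu
    | 2 => exact hu.trans h2.symm
    | 3 => rfl
    | n + 4 => exact (h5 (n + 4) (by omega)).symm
  · rintro ⟨s, r⟩
    obtain ⟨h1, h2, h3, h4, h5⟩ := (hB s.1).mp s.2
    refine Prod.ext (Subtype.ext (funext fun j => ?_)) ?_
    · match j with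
      | 0 => rfl
      | 1 => exact h1.symm
      | 2 => exact h3
      | 3 => rfl
      | n + 4 => exact (h5 (n + 4) (by omega)).symm
    · show Function.update (s.1 0) g (r + (s.1 0 g + s.1 3 g - s.1 0 e)) g -
        (s.1 0 g + s.1 3 g - s.1 0 e) = r
      rw [Function.update_self]
      ring
  · intro t
    refine ⟨rfl, ?_, ?_⟩
    · rw [ha, hb]
      rfl
    · intro t'
      rw [hqA t.1 t'.1 t.2 t'.2]
      show _ = gq b (fF t.1) (fF t'.1) + (c : ℚ) * ((t.1 1 g - (t.1 0 g + t.1 3 g - t.1 0 e)) *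
        (t'.1 1 g - (t'.1 0 g + t'.1 3 g - t'.1 0 e)))
      rw [hqB _ _ (hFm t.1 t.2) (hFm t'.1 t'.2)]
      show _ = - (c : ℚ) * ((t.1 0 g - t.1 0 e) * (t'.1 0 g - t'.1 0 e)) +
        (c : ℚ) * ((t.1 3 g - t.1 0 g) * (t'.1 3 g - t'.1 0 g)) -
        (c : ℚ) * ((t.1 3 g - t.1 0 e) * (t'.1 3 g - t'.1 0 e)) +
        (c : ℚ) * ((t.1 1 g - (t.1 0 g + t.1 3 g - t.1 0 e)) *
        (t'.1 1 g - (t'.1 0 g + t'.1 3 g - t'.1 0 e)))
      ring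

/-- membership for a word of three crossings -/
private theorem mem3 (P1 P2 P3 Q1 Q2 Q3 : List Bool) (c1 x1 y1 c2 x2 y2 c3 x3 y3 : Bool)
    (t : ℕ → ℕ → ℚ) :
    t ∈ Wh [⟨P1, cross c1 x1 y1, Q1⟩, ⟨P2, cross c2 x2 y2, Q2⟩, ⟨P3, cross c3 x3 y3, Q3⟩] ↔
      (∀ i, i ≠ P1.length + 1 → t 1 i = t 0 i) ∧ (∀ i, i ≠ P2.length + 1 → t 2 i = t 1 i) ∧
      (∀ i, i ≠ P3.length + 1 → t 3 i = t 2 i) ∧ (∀ j, t j ∈ whiteM ℚ) ∧ ∀ j, 3 < j → t j = 0 := by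
  constructor
  · rintro ⟨⟨h1, h2, h3, -⟩, h4, h5⟩
    exact ⟨h1, h2, h3, h4, h5⟩
  · rintro ⟨h1, h2, h3, h4, h5⟩
    exact ⟨⟨h1, h2, h3, trivial⟩, h4, h5⟩

/-- the form of a word of three crossings -/
private theorem gq3 (s1 s2 s3 : Slice) (t t' : ℕ → ℕ → ℚ) :
    gq [s1, s2, s3] t t' = (eps s1 : ℚ) * (jmp s1 (t 0) (t 1) * jmp s1 (t' 0) (t' 1)) +
      ((eps s2 : ℚ) * (jmp s2 (t 1) (t 2) * jmp s2 (t' 1) (t' 2)) +
      (eps s3 : ℚ) * (jmp s3 (t 2) (t 3) * jmp s3 (t' 2) (t' 3))) := by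
  show (eps s1 : ℚ) * (jmp s1 (t 0) (t 1) * jmp s1 (t' 0) (t' 1)) +
      ((eps s2 : ℚ) * (jmp s2 (t 1) (t 2) * jmp s2 (t' 1) (t' 2)) +
      ((eps s3 : ℚ) * (jmp s3 (t 2) (t 3) * jmp s3 (t' 2) (t' 3)) + 0)) = _
  rw [add_zero]

private theorem eps_even (P Q : List Bool) (s x y : Bool) (h : P.length % 2 = 0) :
    eps ⟨P, cross s x y, Q⟩ = sz s := by
  show sz s * (-1) ^ P.length = sz s
  rw [(Nat.even_iff.mpr h).neg_one_pow, mul_one]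

private theorem eps_odd (P Q : List Bool) (s x y : Bool) (h : P.length % 2 = 1) :
    eps ⟨P, cross s x y, Q⟩ = - sz s := by
  show sz s * (-1) ^ P.length = - sz s
  rw [(Nat.odd_iff.mpr h).neg_one_pow, mul_neg, mul_one]

private theorem jmp_even (P Q : List Bool) (s x y : Bool) (h : P.length % 2 = 0) (u v : ℕ → ℚ) :
    jmp ⟨P, cross s x y, Q⟩ u v = v (P.length + 1) - u (P.length + 1) := by
  show (if P.length % 2 = 0 then v (P.length + 1) - u (P.length + 1)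
    else u P.length - u (P.length + 2)) = _
  rw [if_pos h]

private theorem jmp_odd (P Q : List Bool) (s x y : Bool) (h : P.length % 2 = 1) (u v : ℕ → ℚ) :
    jmp ⟨P, cross s x y, Q⟩ u v = u P.length - u (P.length + 2) := by
  show (if P.length % 2 = 0 then v (P.length + 1) - u (P.length + 1)
    else u P.length - u (P.length + 2)) = _
  rw [if_neg (by omega)]

private theorem white_eq {k : ℕ} (hk : k % 2 = 0) {u v : ℕ → ℚ} (hu : u ∈ whiteM ℚ) (hv : v ∈ whiteM ℚ)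
    (h : ∀ i, i ≠ k → v i = u i) : v = u := by
  funext i
  by_cases hi : i = k
  · subst hi
    rw [hu i hk, hv i hk]
  · exact h i hi

private theorem even_core (L : ℕ) (hL : L % 2 = 0) (s : Bool) (P1 P2 P3 P4 P5 P6 Q1 Q2 Q3 Q4 Q5 Q6 : List Bool)
    (x1 y1 x2 y2 x3 y3 x4 y4 x5 y5 x6 y6 : Bool) (h1 : P1.length = L) (h2 : P2.length = L + 1)
    (h3 : P3.length = L) (h4 : P4.length = L + 1) (h5 : P5.length = L) (h6 : P6.length = L + 1) :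
    VAdd (sz s) [⟨P1, cross s x1 y1, Q1⟩, ⟨P2, cross s x2 y2, Q2⟩, ⟨P3, cross s x3 y3, Q3⟩]
      [⟨P4, cross s x4 y4, Q4⟩, ⟨P5, cross s x5 y5, Q5⟩, ⟨P6, cross s x6 y6, Q6⟩] := by
  have hA : ∀ t : ℕ → ℕ → ℚ, t ∈ Wh [⟨P1, cross s x1 y1, Q1⟩, ⟨P2, cross s x2 y2, Q2⟩,
      ⟨P3, cross s x3 y3, Q3⟩] ↔ (∀ i, i ≠ L + 1 → t 1 i = t 0 i) ∧ t 2 = t 1 ∧
      (∀ i, i ≠ L + 1 → t 3 i = t 2 i) ∧ (∀ j, t j ∈ whiteM ℚ) ∧ ∀ j, 3 < j → t j = 0 := by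
    intro t
    rw [mem3, h1, h2, h3]
    constructor
    · rintro ⟨e1, e2, e3, e4, e5⟩
      exact ⟨e1, white_eq (by omega) (e4 1) (e4 2) e2, e3, e4, e5⟩
    · rintro ⟨e1, e2, e3, e4, e5⟩
      exact ⟨e1, fun i _ => by rw [e2], e3, e4, e5⟩
  have hB : ∀ t : ℕ → ℕ → ℚ, t ∈ Wh [⟨P4, cross s x4 y4, Q4⟩, ⟨P5, cross s x5 y5, Q5⟩,
      ⟨P6, cross s x6 y6, Q6⟩] ↔ t 1 = t 0 ∧ (∀ i, i ≠ L + 1 → t 2 i = t 1 i) ∧
      t 3 = t 2 ∧ (∀ j, t j ∈ whiteM ℚ) ∧ ∀ j, 3 < j → t j = 0 := by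
    intro t
    rw [mem3, h4, h5, h6]
    constructor
    · rintro ⟨e1, e2, e3, e4, e5⟩
      exact ⟨white_eq (by omega) (e4 0) (e4 1) e1, e2, white_eq (by omega) (e4 2) (e4 3) e3, e4, e5⟩
    · rintro ⟨e1, e2, e3, e4, e5⟩
      exact ⟨fun i _ => by rw [e1], e2, fun i _ => by rw [e3], e4, e5⟩
  refine core _ _ rfl rfl (L + 1) (L + 3) (by omega) (by omega) (sz s) hA hB ?_ ?_
  · intro t t' ht ht'
    obtain ⟨e1, e2, e3, e4, e5⟩ := (hA t).mp ht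
    obtain ⟨f1, f2, f3, f4, f5⟩ := (hA t').mp ht'
    rw [gq3, eps_even _ _ _ _ _ (by omega), eps_odd _ _ _ _ _ (by omega), eps_even _ _ _ _ _ (by omega)]
    simp only [jmp_even P1 _ _ _ _ (by omega), jmp_odd P2 _ _ _ _ (by omega),
      jmp_even P3 _ _ _ _ (by omega)]
    rw [h1, h2, h3, e2, f2, ← e1 (L + 3) (by omega), ← f1 (L + 3) (by omega)]
    push_cast
    ring
  · intro t t' ht ht'
    obtain ⟨e1, e2, e3, e4, e5⟩ := (hB t).mp ht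
    obtain ⟨f1, f2, f3, f4, f5⟩ := (hB t').mp ht'
    rw [gq3, eps_odd _ _ _ _ _ (by omega), eps_even _ _ _ _ _ (by omega), eps_odd _ _ _ _ _ (by omega)]
    simp only [jmp_odd P4 _ _ _ _ (by omega), jmp_even P5 _ _ _ _ (by omega),
      jmp_odd P6 _ _ _ _ (by omega)]
    have g1 : t 2 (L + 1 + 2) = t 0 (L + 3) := by rw [← e1]; exact e2 _ (by omega)
    have g2 : t' 2 (L + 1 + 2) = t' 0 (L + 3) := by rw [← f1]; exact f2 _ (by omega)
    rw [h4, h5, h6, g1, g2, e3, f3, e1, f1]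
    push_cast
    ring

private theorem odd_core (L : ℕ) (hL : L % 2 = 1) (s : Bool) (P1 P2 P3 P4 P5 P6 Q1 Q2 Q3 Q4 Q5 Q6 : List Bool)
    (x1 y1 x2 y2 x3 y3 x4 y4 x5 y5 x6 y6 : Bool) (h1 : P1.length = L + 1) (h2 : P2.length = L)
    (h3 : P3.length = L + 1) (h4 : P4.length = L) (h5 : P5.length = L + 1) (h6 : P6.length = L) :
    VAdd (sz s) [⟨P1, cross s x1 y1, Q1⟩, ⟨P2, cross s x2 y2, Q2⟩, ⟨P3, cross s x3 y3, Q3⟩]
      [⟨P4, cross s x4 y4, Q4⟩, ⟨P5, cross s x5 y5, Q5⟩, ⟨P6, cross s x6 y6, Q6⟩] := by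
  have hA : ∀ t : ℕ → ℕ → ℚ, t ∈ Wh [⟨P1, cross s x1 y1, Q1⟩, ⟨P2, cross s x2 y2, Q2⟩,
      ⟨P3, cross s x3 y3, Q3⟩] ↔ (∀ i, i ≠ L + 2 → t 1 i = t 0 i) ∧ t 2 = t 1 ∧
      (∀ i, i ≠ L + 2 → t 3 i = t 2 i) ∧ (∀ j, t j ∈ whiteM ℚ) ∧ ∀ j, 3 < j → t j = 0 := by
    intro t
    rw [mem3, h1, h2, h3]
    constructor
    · rintro ⟨e1, e2, e3, e4, e5⟩
      exact ⟨e1, white_eq (by omega) (e4 1) (e4 2) e2, e3, e4, e5⟩
    · rintro ⟨e1, e2, e3, e4, e5⟩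
      exact ⟨e1, fun i _ => by rw [e2], e3, e4, e5⟩
  have hB : ∀ t : ℕ → ℕ → ℚ, t ∈ Wh [⟨P4, cross s x4 y4, Q4⟩, ⟨P5, cross s x5 y5, Q5⟩,
      ⟨P6, cross s x6 y6, Q6⟩] ↔ t 1 = t 0 ∧ (∀ i, i ≠ L + 2 → t 2 i = t 1 i) ∧
      t 3 = t 2 ∧ (∀ j, t j ∈ whiteM ℚ) ∧ ∀ j, 3 < j → t j = 0 := by
    intro t
    rw [mem3, h4, h5, h6]
    constructor
    · rintro ⟨e1, e2, e3, e4, e5⟩
      exact ⟨white_eq (by omega) (e4 0) (e4 1) e1, e2, white_eq (by omega) (e4 2) (e4 3) e3, e4, e5⟩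
    · rintro ⟨e1, e2, e3, e4, e5⟩
      exact ⟨fun i _ => by rw [e1], e2, fun i _ => by rw [e3], e4, e5⟩
  refine core _ _ rfl rfl (L + 2) L (by omega) (by omega) (sz s) hA hB ?_ ?_
  · intro t t' ht ht'
    obtain ⟨e1, e2, e3, e4, e5⟩ := (hA t).mp ht
    obtain ⟨f1, f2, f3, f4, f5⟩ := (hA t').mp ht'
    rw [gq3, eps_even _ _ _ _ _ (by omega), eps_odd _ _ _ _ _ (by omega), eps_even _ _ _ _ _ (by omega)]
    simp only [jmp_even P1 _ _ _ _ (by omega), jmp_odd P2 _ _ _ _ (by omega),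
      jmp_even P3 _ _ _ _ (by omega)]
    rw [h1, h2, h3, e2, f2, ← e1 L (by omega), ← f1 L (by omega)]
    push_cast
    ring
  · intro t t' ht ht'
    obtain ⟨e1, e2, e3, e4, e5⟩ := (hB t).mp ht
    obtain ⟨f1, f2, f3, f4, f5⟩ := (hB t').mp ht'
    rw [gq3, eps_odd _ _ _ _ _ (by omega), eps_even _ _ _ _ _ (by omega), eps_odd _ _ _ _ _ (by omega)]
    simp only [jmp_odd P4 _ _ _ _ (by omega), jmp_even P5 _ _ _ _ (by omega),
      jmp_odd P6 _ _ _ _ (by omega)]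
    have g1 : t 2 L = t 0 L := by rw [← e1]; exact e2 _ (by omega)
    have g2 : t' 2 L = t' 0 L := by rw [← f1]; exact f2 _ (by omega)
    rw [h4, h5, h6, g1, g2, e3, f3, e1, f1]
    push_cast
    ring

theorem v_r3_even (s x y z : Bool) (p q : List Bool) (h : p.length % 2 = 0) :
    VAdd (sz s) [⟨p, cross s x y, [z] ++ q⟩, ⟨p ++ [y], cross s x z, q⟩, ⟨p, cross s y z, [x] ++ q⟩]
      [⟨p ++ [x], cross s y z, q⟩, ⟨p, cross s x z, [y] ++ q⟩, ⟨p ++ [z], cross s x y, q⟩] := by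
  exact even_core p.length h s _ _ _ _ _ _ _ _ _ _ _ _ _ _ _ _ _ _ _ _ _ _ _ _
    rfl (by simp) rfl (by simp) rfl (by simp)

theorem v_r3_odd (s x y z : Bool) (p q : List Bool) (h : p.length % 2 = 1) :
    VAdd (sz s) [⟨p ++ [x], cross s y z, q⟩, ⟨p, cross s x z, [y] ++ q⟩, ⟨p ++ [z], cross s x y, q⟩]
      [⟨p, cross s x y, [z] ++ q⟩, ⟨p ++ [y], cross s x z, q⟩, ⟨p, cross s y z, [x] ++ q⟩] := by
  exact odd_core p.length h s _ _ _ _ _ _ _ _ _ _ _ _ _ _ _ _ _ _ _ _ _ _ _ _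
    (by simp) rfl (by simp) rfl (by simp) rfl

end Pool.Agent.Lib.MP_177a0e_gt.Sig
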