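import Pool.Agent.Lib.MP_177a0e_gt.Sig.Defs

/-!
# white states: a strand passes a minimum or a maximum.

PROOFS (`L = |p|`, states `(t 0, t 1, t 2)`).
* `v_slide_cup`: left side: `t 1 i = t 0 i` (`i ≤ L`), `t 1 (i + 2) = t 0 i` (`i ≥ L`), `t 2 i = t 1 i` (`i ≠ L + 2`); right side: `t 1 i = t 0 i` (`i ≤ L + 1`), `t 1 (i + 2) = t 0 i` (`i ≥ L + 1`), `t 2 i = t 1 i` (`i ≠ L + 1`). `Φ` keeps `t 0`, `t 2` and replaces `t 1` by
  `i ↦ if i ≤ L + 1 then t 0 i else if i = L + 2 then t 2 (L + 2) else t 0 (i - 2)`; the inverse replaces it by `i ↦ if i ≤ L then t 0 i else if i = L + 1 then t 2 (L + 1) else t 0 (i - 2)`. The forms: with `σ = sz s`; `L` even: left: `eps = - σ` at the odd position `L + 1`, difference `t 1 (L + 1) - t 1 (L + 3) = t 2 (L + 1) - t 0 (L + 1)`;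
  right: `eps = - σ` (`!s`, even position `L`), difference `t 2 (L + 1) - t 1 (L + 1) = t 2 (L + 1) - t 0 (L + 1)`. `L` odd: left: `eps = σ` at the even position `L + 1`, difference `t 2 (L + 2) - t 1 (L + 2) = t 2 (L + 2) - t 0 L`; right: `eps = σ`, difference `t 1 L - t 1 (L + 2) = t 0 L - t 2 (L + 2)`.
* `v_slide_cap`: left side: `t 1 i = t 0 i` (`i ≠ L + 2`), `t 1 i = t 2 i` (`i ≤ L`), `t 1 (i + 2) = t 2 i` (`i ≥ L`); right side: `t 1 i = t 0 i` (`i ≠ L + 1`), `t 1 i = t 2 i` (`i ≤ L + 1`), `t 1 (i + 2) = t 2 i` (`i ≥ L + 1`): the mirror image: `t 1` is replaced by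
  `i ↦ if i ≤ L + 1 then t 2 i else if i = L + 2 then t 0 (L + 2) else t 2 (i - 2)`, inverse `i ↦ if i ≤ L then t 2 i else if i = L + 1 then t 0 (L + 1) else t 2 (i - 2)`.
All levels vanish at the even gaps, which is used for the consistency (for example `L` even: `t 2 (L + 2) = 0 = t 0 L`).
-/

namespace Pool.Agent.Lib.MP_177a0e_gt.Sig

open Pool.Agent.Lib.MP_177a0e_gt.Tangle Pool.Agent.Lib.MP_177a0e_gt.Tangle.Gen

/-- the values of the middle level -/
private def vsF (m : ℕ) (u v : ℕ → ℚ) : ℕ → ℚ := fun i =>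
  if i ≤ m then u i else if i = m + 1 then v (m + 1) else u (i - 2)

private theorem vsF_add (m : ℕ) (u v u' v' : ℕ → ℚ) : vsF m (u + u') (v + v') = vsF m u v + vsF m u' v' := by
  funext i
  simp only [vsF, Pi.add_apply]
  split_ifs <;> rfl

private theorem vsF_smul (m : ℕ) (r : ℚ) (u v : ℕ → ℚ) : vsF m (r • u) (r • v) = r • vsF m u v := by
  funext i
  simp only [vsF, Pi.smul_apply]
  split_ifs <;> rfl

private theorem vsF_le {m i : ℕ} (u v : ℕ → ℚ) (h : i ≤ m) : vsF m u v i = u i := if_pos h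

private theorem vsF_eq {m i : ℕ} (u v : ℕ → ℚ) (h : i = m + 1) : vsF m u v i = v i := by
  subst h
  simp [vsF]

private theorem vsF_gt {m i : ℕ} (u v : ℕ → ℚ) (h : m + 2 ≤ i) : vsF m u v i = u (i - 2) := by
  have h1 : ¬ i ≤ m := by omega
  have h2 : ¬ i = m + 1 := by omega
  simp [vsF, h1, h2]

private theorem vsF_white {m : ℕ} {u v : ℕ → ℚ} (hu : u ∈ whiteM ℚ) (hv : v ∈ whiteM ℚ) : vsF m u v ∈ whiteM ℚ := by
  intro i hi
  rcases lt_trichotomy i (m + 1) with h | h | h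
  · rw [vsF_le u v (by omega)]
    exact hu i hi
  · rw [vsF_eq u v h]
    exact hv i hi
  · rw [vsF_gt u v (by omega)]
    exact hu (i - 2) (by omega)

/-- replace the middle level -/
private def vsU (f : (ℕ → ℕ → ℚ) →ₗ[ℚ] (ℕ → ℚ)) : (ℕ → ℕ → ℚ) →ₗ[ℚ] (ℕ → ℕ → ℚ) where
  toFun x := fun j => if j = 1 then f x else x j
  map_add' x y := by
    funext j
    simp only [Pi.add_apply, map_add]
    split_ifs <;> rfl
  map_smul' r x := by
    funext j
    simp only [Pi.smul_apply, map_smul, RingHom.id_apply]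
    split_ifs <;> rfl

private theorem vsU_0 (f : (ℕ → ℕ → ℚ) →ₗ[ℚ] (ℕ → ℚ)) (x : ℕ → ℕ → ℚ) : vsU f x 0 = x 0 := rfl
private theorem vsU_1 (f : (ℕ → ℕ → ℚ) →ₗ[ℚ] (ℕ → ℚ)) (x : ℕ → ℕ → ℚ) : vsU f x 1 = f x := rfl
private theorem vsU_2 (f : (ℕ → ℕ → ℚ) →ₗ[ℚ] (ℕ → ℚ)) (x : ℕ → ℕ → ℚ) : vsU f x 2 = x 2 := rfl
private theorem vsU_j (f : (ℕ → ℕ → ℚ) →ₗ[ℚ] (ℕ → ℚ)) (x : ℕ → ℕ → ℚ) {j : ℕ} (hj : j ≠ 1) : vsU f x j = x j := if_neg hj

private def vsA (m : ℕ) : (ℕ → ℕ → ℚ) →ₗ[ℚ] (ℕ → ℚ) where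
  toFun x := vsF m (x 0) (x 2)
  map_add' x y := vsF_add m _ _ _ _
  map_smul' r x := vsF_smul m r _ _

private def vsB (m : ℕ) : (ℕ → ℕ → ℚ) →ₗ[ℚ] (ℕ → ℚ) where
  toFun x := vsF m (x 2) (x 0)
  map_add' x y := vsF_add m _ _ _ _
  map_smul' r x := vsF_smul m r _ _

private theorem vs_mem {s s' : Slice} {x : ℕ → ℕ → ℚ} : x ∈ Wh [s, s'] ↔
    Fit s (x 0) (x 1) ∧ Fit s' (x 1) (x 2) ∧ (∀ j, x j ∈ whiteM ℚ) ∧ ∀ j, 2 < j → x j = 0 := by
  constructor
  · rintro ⟨⟨h1, h2, -⟩, h3, h4⟩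
    exact ⟨h1, h2, h3, h4⟩
  · rintro ⟨h1, h2, h3, h4⟩
    exact ⟨⟨h1, h2, trivial⟩, h3, h4⟩

private theorem vs_iso {s s' r r' : Slice} (f g : (ℕ → ℕ → ℚ) →ₗ[ℚ] (ℕ → ℚ))
    (h1 : ∀ x ∈ Wh [s, s'], vsU f x ∈ Wh [r, r']) (h2 : ∀ x ∈ Wh [r, r'], vsU g x ∈ Wh [s, s'])
    (h3 : ∀ x ∈ Wh [s, s'], g (vsU f x) = x 1) (h4 : ∀ x ∈ Wh [r, r'], f (vsU g x) = x 1)
    (h5 : ∀ x ∈ Wh [s, s'], ∀ y ∈ Wh [s, s'], gq [r, r'] (vsU f x) (vsU f y) = gq [s, s'] x y) :
    VIso [s, s'] [r, r'] := by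
  refine ⟨LinearEquiv.ofLinearMap ((vsU f).restrict h1) ((vsU g).restrict h2) ?_ ?_, ?_⟩
  · apply LinearMap.ext
    rintro ⟨x, hx⟩
    apply Subtype.ext
    change vsU f (vsU g x) = x
    funext j
    by_cases hj : j = 1
    · subst hj
      rw [vsU_1, h4 x hx]
    · rw [vsU_j f _ hj, vsU_j g _ hj]
  · apply LinearMap.ext
    rintro ⟨x, hx⟩
    apply Subtype.ext
    change vsU g (vsU f x) = x
    funext j
    by_cases hj : j = 1
    · subst hj
      rw [vsU_1, h3 x hx]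
    · rw [vsU_j g _ hj, vsU_j f _ hj]
  · rintro ⟨x, hx⟩
    exact ⟨rfl, rfl, fun ⟨y, hy⟩ => h5 x hx y hy⟩

private theorem vs_gq2 (s s' : Slice) (x y : ℕ → ℕ → ℚ) : gq [s, s'] x y =
    (eps s : ℚ) * (jmp s (x 0) (x 1) * jmp s (y 0) (y 1)) + (eps s' : ℚ) * (jmp s' (x 1) (x 2) * jmp s' (y 1) (y 2)) := by
  simp [gq, sh]

private theorem vs_sz (s : Bool) : sz (!s) = - sz s := by
  cases s <;> simp [sz]

private theorem vs_even {c x y : Bool} {p q : List Bool} {n : ℕ} (hn : p.length = n) (h : n % 2 = 0) (u v : ℕ → ℚ) :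
    jmp ⟨p, cross c x y, q⟩ u v = v (n + 1) - u (n + 1) := by
  subst hn
  exact if_pos h

private theorem vs_odd {c x y : Bool} {p q : List Bool} {n : ℕ} (hn : p.length = n) (h : ¬ n % 2 = 0) (u v : ℕ → ℚ) :
    jmp ⟨p, cross c x y, q⟩ u v = u n - u (n + 2) := by
  subst hn
  exact if_neg h

private theorem vs_eps (c x y : Bool) {p q : List Bool} {n : ℕ} (hn : p.length = n) :
    eps ⟨p, cross c x y, q⟩ = sz c * (-1) ^ n := by
  subst hn
  rfl

private theorem vs_e0 (e : Bool) (p q : List Bool) : eps ⟨p, cup e, q⟩ = 0 := rfl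

private theorem vs_e1 (e : Bool) (p q : List Bool) : eps ⟨p, cap e, q⟩ = 0 := rfl

theorem v_slide_cup (s e x : Bool) (p q : List Bool) :
    VIso [⟨p, cup e, [x] ++ q⟩, ⟨p ++ [e], cross s (!e) x, q⟩] [⟨p ++ [x], cup e, q⟩, ⟨p, cross (!s) x e, [!e] ++ q⟩] := by
  have hL (z : Bool) : (p ++ [z]).length = p.length + 1 := by simp
  have ha : ∀ t ∈ Wh [⟨p, cup e, [x] ++ q⟩, ⟨p ++ [e], cross s (!e) x, q⟩],
      (∀ i, i ≤ p.length → t 1 i = t 0 i) ∧ (∀ i, p.length ≤ i → t 1 (i + 2) = t 0 i) ∧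
      (∀ i, i ≠ p.length + 2 → t 2 i = t 1 i) ∧ (∀ j, t j ∈ whiteM ℚ) ∧ ∀ j, 2 < j → t j = 0 := by
    intro t ht
    obtain ⟨h1, h2, h3, h4⟩ := vs_mem.mp ht
    refine ⟨h1.1, h1.2, fun i hi => h2 i ?_, h3, h4⟩
    simpa [lp] using hi
  have hb : ∀ t ∈ Wh [⟨p ++ [x], cup e, q⟩, ⟨p, cross (!s) x e, [!e] ++ q⟩],
      (∀ i, i ≤ p.length + 1 → t 1 i = t 0 i) ∧ (∀ i, p.length + 1 ≤ i → t 1 (i + 2) = t 0 i) ∧
      (∀ i, i ≠ p.length + 1 → t 2 i = t 1 i) ∧ (∀ j, t j ∈ whiteM ℚ) ∧ ∀ j, 2 < j → t j = 0 := by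
    intro t ht
    obtain ⟨h1, h2, h3, h4⟩ := vs_mem.mp ht
    refine ⟨fun i hi => h1.1 i ?_, fun i hi => h1.2 i ?_, h2, h3, h4⟩
    · simpa [lp] using hi
    · simpa [lp] using hi
  refine vs_iso (vsA (p.length + 1)) (vsA p.length) ?_ ?_ ?_ ?_ ?_
  · intro t ht
    obtain ⟨h1, h2, h3, h4, h5⟩ := ha t ht
    refine vs_mem.mpr ⟨⟨?_, ?_⟩, ?_, ?_, ?_⟩
    · intro i hi
      simp only [lp, hL] at hi
      rw [vsU_0, vsU_1]
      exact vsF_le _ _ hi
    · intro i hi
      simp only [lp, hL] at hi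
      rw [vsU_0, vsU_1]
      exact vsF_gt _ _ (by omega)
    · intro i hi
      simp only [lp] at hi
      rw [vsU_2, vsU_1]
      change t 2 i = vsF (p.length + 1) (t 0) (t 2) i
      rcases lt_trichotomy i (p.length + 2) with h | h | h
      · rw [vsF_le _ _ (by omega), h3 i (by omega), h1 i (by omega)]
      · rw [vsF_eq _ _ h]
      · rw [vsF_gt _ _ (by omega), h3 i (by omega), ← h2 (i - 2) (by omega)]
        congr 1
        omega
    · intro j
      by_cases hj : j = 1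
      · subst hj
        rw [vsU_1]
        exact vsF_white (h4 0) (h4 2)
      · rw [vsU_j _ _ hj]
        exact h4 j
    · intro j hj
      rw [vsU_j _ _ (by omega)]
      exact h5 j hj
  · intro t ht
    obtain ⟨h1, h2, h3, h4, h5⟩ := hb t ht
    refine vs_mem.mpr ⟨⟨?_, ?_⟩, ?_, ?_, ?_⟩
    · intro i hi
      simp only [lp] at hi
      rw [vsU_0, vsU_1]
      exact vsF_le _ _ hi
    · intro i hi
      simp only [lp] at hi
      rw [vsU_0, vsU_1]
      exact vsF_gt _ _ (by omega)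
    · intro i hi
      simp only [lp, hL] at hi
      rw [vsU_2, vsU_1]
      change t 2 i = vsF p.length (t 0) (t 2) i
      rcases lt_trichotomy i (p.length + 1) with h | h | h
      · rw [vsF_le _ _ (by omega), h3 i (by omega), h1 i (by omega)]
      · rw [vsF_eq _ _ h]
      · rw [vsF_gt _ _ (by omega), h3 i (by omega), ← h2 (i - 2) (by omega)]
        congr 1
        omega
    · intro j
      by_cases hj : j = 1
      · subst hj
        rw [vsU_1]
        exact vsF_white (h4 0) (h4 2)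
      · rw [vsU_j _ _ hj]
        exact h4 j
    · intro j hj
      rw [vsU_j _ _ (by omega)]
      exact h5 j hj
  · intro t ht
    obtain ⟨h1, h2, h3, h4, h5⟩ := ha t ht
    funext i
    change vsF p.length (t 0) (t 2) i = t 1 i
    rcases lt_trichotomy i (p.length + 1) with h | h | h
    · rw [vsF_le _ _ (by omega), h1 i (by omega)]
    · rw [vsF_eq _ _ h, h3 i (by omega)]
    · rw [vsF_gt _ _ (by omega), ← h2 (i - 2) (by omega)]
      congr 1
      omega
  · intro t ht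
    obtain ⟨h1, h2, h3, h4, h5⟩ := hb t ht
    funext i
    change vsF (p.length + 1) (t 0) (t 2) i = t 1 i
    rcases lt_trichotomy i (p.length + 2) with h | h | h
    · rw [vsF_le _ _ (by omega), h1 i (by omega)]
    · rw [vsF_eq _ _ h, h3 i (by omega)]
    · rw [vsF_gt _ _ (by omega), ← h2 (i - 2) (by omega)]
      congr 1
      omega
  · intro t ht t' ht'
    obtain ⟨h1, h2, h3, h4, h5⟩ := ha t ht
    obtain ⟨h1', h2', h3', h4', h5'⟩ := ha t' ht'
    rw [vs_gq2, vs_gq2, vs_e0, vs_e0, vs_eps _ _ _ rfl, vs_eps _ _ _ (hL e), vs_sz]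
    simp only [vsU_0, vsU_1, vsU_2]
    change _ + _ * (jmp _ (vsF (p.length + 1) (t 0) (t 2)) (t 2) * jmp _ (vsF (p.length + 1) (t' 0) (t' 2)) (t' 2)) = _
    rcases Nat.even_or_odd p.length with he | ho
    · have e0 : p.length % 2 = 0 := Nat.even_iff.mp he
      have e1 : ¬ (p.length + 1) % 2 = 0 := by omega
      rw [vs_even rfl e0, vs_even rfl e0, vs_odd (hL e) e1, vs_odd (hL e) e1, he.neg_one_pow, he.add_one.neg_one_pow]
      rw [vsF_le _ _ (le_refl _), vsF_le _ _ (le_refl _)]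
      have a1 := h3 (p.length + 1) (by omega)
      have a2 := h3' (p.length + 1) (by omega)
      have a3 := h2 (p.length + 1) (by omega)
      have a4 := h2' (p.length + 1) (by omega)
      have a5 : p.length + 1 + 2 = p.length + 3 := by omega
      rw [a5] at a3 a4
      rw [a5, a1, a2, a3, a4]
      push_cast
      ring
    · have e0 : ¬ p.length % 2 = 0 := by
        have := Nat.odd_iff.mp ho
        omega
      have e1 : (p.length + 1) % 2 = 0 := by omega
      rw [vs_odd rfl e0, vs_odd rfl e0, vs_even (hL e) e1, vs_even (hL e) e1, ho.neg_one_pow, ho.add_one.neg_one_pow]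
      have a3 := h2 p.length (by omega)
      have a4 := h2' p.length (by omega)
      have a5 : p.length + 1 + 1 = p.length + 2 := by omega
      have b1 (u v : ℕ → ℚ) : vsF (p.length + 1) u v p.length = u p.length := vsF_le _ _ (by omega)
      have b2 (u v : ℕ → ℚ) : vsF (p.length + 1) u v (p.length + 2) = v (p.length + 2) := vsF_eq _ _ rfl
      rw [a5, a3, a4, b1, b1, b2, b2]
      push_cast
      ring

theorem v_slide_cap (s e x : Bool) (p q : List Bool) :
    VIso [⟨p ++ [e], cross s x (!e), q⟩, ⟨p, cap e, [x] ++ q⟩] [⟨p, cross (!s) e x, [!e] ++ q⟩, ⟨p ++ [x], cap e, q⟩] := by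
  have hL (z : Bool) : (p ++ [z]).length = p.length + 1 := by simp
  have ha : ∀ t ∈ Wh [⟨p ++ [e], cross s x (!e), q⟩, ⟨p, cap e, [x] ++ q⟩],
      (∀ i, i ≤ p.length → t 1 i = t 2 i) ∧ (∀ i, p.length ≤ i → t 1 (i + 2) = t 2 i) ∧
      (∀ i, i ≠ p.length + 2 → t 1 i = t 0 i) ∧ (∀ j, t j ∈ whiteM ℚ) ∧ ∀ j, 2 < j → t j = 0 := by
    intro t ht
    obtain ⟨h1, h2, h3, h4⟩ := vs_mem.mp ht
    refine ⟨h2.1, h2.2, fun i hi => h1 i ?_, h3, h4⟩
    simpa [lp] using hi
  have hb : ∀ t ∈ Wh [⟨p, cross (!s) e x, [!e] ++ q⟩, ⟨p ++ [x], cap e, q⟩],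
      (∀ i, i ≤ p.length + 1 → t 1 i = t 2 i) ∧ (∀ i, p.length + 1 ≤ i → t 1 (i + 2) = t 2 i) ∧
      (∀ i, i ≠ p.length + 1 → t 1 i = t 0 i) ∧ (∀ j, t j ∈ whiteM ℚ) ∧ ∀ j, 2 < j → t j = 0 := by
    intro t ht
    obtain ⟨h1, h2, h3, h4⟩ := vs_mem.mp ht
    refine ⟨fun i hi => h2.1 i ?_, fun i hi => h2.2 i ?_, h1, h3, h4⟩
    · simpa [lp] using hi
    · simpa [lp] using hi
  refine vs_iso (vsB (p.length + 1)) (vsB p.length) ?_ ?_ ?_ ?_ ?_
  · intro t ht
    obtain ⟨h1, h2, h3, h4, h5⟩ := ha t ht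
    refine vs_mem.mpr ⟨?_, ⟨?_, ?_⟩, ?_, ?_⟩
    · intro i hi
      simp only [lp] at hi
      rw [vsU_0, vsU_1]
      change vsF (p.length + 1) (t 2) (t 0) i = t 0 i
      rcases lt_trichotomy i (p.length + 2) with h | h | h
      · rw [vsF_le _ _ (by omega), ← h3 i (by omega), h1 i (by omega)]
      · rw [vsF_eq _ _ h]
      · rw [vsF_gt _ _ (by omega), ← h3 i (by omega), ← h2 (i - 2) (by omega)]
        congr 1
        omega
    · intro i hi
      simp only [lp, hL] at hi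
      rw [vsU_2, vsU_1]
      exact vsF_le _ _ hi
    · intro i hi
      simp only [lp, hL] at hi
      rw [vsU_2, vsU_1]
      exact vsF_gt _ _ (by omega)
    · intro j
      by_cases hj : j = 1
      · subst hj
        rw [vsU_1]
        exact vsF_white (h4 2) (h4 0)
      · rw [vsU_j _ _ hj]
        exact h4 j
    · intro j hj
      rw [vsU_j _ _ (by omega)]
      exact h5 j hj
  · intro t ht
    obtain ⟨h1, h2, h3, h4, h5⟩ := hb t ht
    refine vs_mem.mpr ⟨?_, ⟨?_, ?_⟩, ?_, ?_⟩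
    · intro i hi
      simp only [lp, hL] at hi
      rw [vsU_0, vsU_1]
      change vsF p.length (t 2) (t 0) i = t 0 i
      rcases lt_trichotomy i (p.length + 1) with h | h | h
      · rw [vsF_le _ _ (by omega), ← h3 i (by omega), h1 i (by omega)]
      · rw [vsF_eq _ _ h]
      · rw [vsF_gt _ _ (by omega), ← h3 i (by omega), ← h2 (i - 2) (by omega)]
        congr 1
        omega
    · intro i hi
      simp only [lp] at hi
      rw [vsU_2, vsU_1]
      exact vsF_le _ _ hi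
    · intro i hi
      simp only [lp] at hi
      rw [vsU_2, vsU_1]
      exact vsF_gt _ _ (by omega)
    · intro j
      by_cases hj : j = 1
      · subst hj
        rw [vsU_1]
        exact vsF_white (h4 2) (h4 0)
      · rw [vsU_j _ _ hj]
        exact h4 j
    · intro j hj
      rw [vsU_j _ _ (by omega)]
      exact h5 j hj
  · intro t ht
    obtain ⟨h1, h2, h3, h4, h5⟩ := ha t ht
    funext i
    change vsF p.length (t 2) (t 0) i = t 1 i
    rcases lt_trichotomy i (p.length + 1) with h | h | h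
    · rw [vsF_le _ _ (by omega), h1 i (by omega)]
    · rw [vsF_eq _ _ h, h3 i (by omega)]
    · rw [vsF_gt _ _ (by omega), ← h2 (i - 2) (by omega)]
      congr 1
      omega
  · intro t ht
    obtain ⟨h1, h2, h3, h4, h5⟩ := hb t ht
    funext i
    change vsF (p.length + 1) (t 2) (t 0) i = t 1 i
    rcases lt_trichotomy i (p.length + 2) with h | h | h
    · rw [vsF_le _ _ (by omega), h1 i (by omega)]
    · rw [vsF_eq _ _ h, h3 i (by omega)]
    · rw [vsF_gt _ _ (by omega), ← h2 (i - 2) (by omega)]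
      congr 1
      omega
  · intro t ht t' ht'
    obtain ⟨h1, h2, h3, h4, h5⟩ := ha t ht
    obtain ⟨h1', h2', h3', h4', h5'⟩ := ha t' ht'
    rw [vs_gq2, vs_gq2, vs_e1, vs_e1, vs_eps _ _ _ rfl, vs_eps _ _ _ (hL e), vs_sz]
    simp only [vsU_0, vsU_1, vsU_2]
    change _ * (jmp _ (t 0) (vsF (p.length + 1) (t 2) (t 0)) * jmp _ (t' 0) (vsF (p.length + 1) (t' 2) (t' 0))) + _ = _
    rcases Nat.even_or_odd p.length with he | ho
    · have e0 : p.length % 2 = 0 := Nat.even_iff.mp he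
      have e1 : ¬ (p.length + 1) % 2 = 0 := by omega
      rw [vs_even rfl e0, vs_even rfl e0, vs_odd (hL e) e1, vs_odd (hL e) e1, he.neg_one_pow, he.add_one.neg_one_pow]
      rw [vsF_le _ _ (le_refl _), vsF_le _ _ (le_refl _)]
      have a1 := h3 (p.length + 1) (by omega)
      have a2 := h3' (p.length + 1) (by omega)
      have b1 := h3 (p.length + 3) (by omega)
      have b2 := h3' (p.length + 3) (by omega)
      have a3 := h2 (p.length + 1) (by omega)
      have a4 := h2' (p.length + 1) (by omega)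
      have a5 : p.length + 1 + 2 = p.length + 3 := by omega
      rw [a5] at a3 a4
      rw [b1] at a3
      rw [b2] at a4
      rw [a5, ← a3, ← a4]
      push_cast
      ring
    · have e0 : ¬ p.length % 2 = 0 := by
        have := Nat.odd_iff.mp ho
        omega
      have e1 : (p.length + 1) % 2 = 0 := by omega
      rw [vs_odd rfl e0, vs_odd rfl e0, vs_even (hL e) e1, vs_even (hL e) e1, ho.neg_one_pow, ho.add_one.neg_one_pow]
      have a3 := h2 p.length (by omega)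
      have a4 := h2' p.length (by omega)
      have a6 := h1 p.length (by omega)
      have a7 := h1' p.length (by omega)
      have a8 := h3 p.length (by omega)
      have a9 := h3' p.length (by omega)
      have a5 : p.length + 1 + 1 = p.length + 2 := by omega
      rw [a5, a3, a4, ← a6, ← a7, a8, a9]
      push_cast
      ring

end Pool.Agent.Lib.MP_177a0e_gt.Sig
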