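import Pool.Agent.Lib.MP_177a0e_gt.Sig.Cx1
import Pool.Agent.Lib.MP_177a0e_gt.Sig.Cx3
import Pool.Agent.Lib.MP_177a0e_gt.Sig.Cor
import Pool.Agent.Lib.MP_177a0e_gt.Sig.VI
import Pool.Agent.Lib.MP_177a0e_gt.Sig.VZ
import Pool.Agent.Lib.MP_177a0e_gt.Sig.VR1
import Pool.Agent.Lib.MP_177a0e_gt.Sig.VR1b
import Pool.Agent.Lib.MP_177a0e_gt.Sig.VR3
import Pool.Agent.Lib.MP_177a0e_gt.Sig.VS

/-!
# the signature is invariant under isotopies and births.

PROOFS. `cases` on `Local` and `Rel`; `signature (u ++ a ++ v) = sg (gw ..) - (corr u + corr a + corr v)` (`corr_append`); `sg_viso`, `sg_vadd`, `sg_r2` and the lemmas of `Cor`; parity of `p.length` in the cases `r1`, `r2`, `r3`, birth. (`VAdd (sz s)`: `sz s = 1` or `-1`. `u ++ [] ++ v = u ++ v`.)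
-/

namespace Pool.Agent.Lib.MP_177a0e_gt.Sig

open Pool.Agent.Lib.MP_177a0e_gt.Tangle Pool.Agent.Lib.MP_177a0e_gt.Tangle.Gen

private theorem Inv_split (u a v : Word) :
    signature (u ++ a ++ v) = sg (gw (u ++ a ++ v)) - (corr u + corr a + corr v) := by
  unfold signature
  rw [corr_append, corr_append]

private theorem Inv_sz (c : Bool) : sz c = 1 ∨ sz c = -1 ∨ sz c = 0 := by
  cases c
  · exact Or.inr (Or.inl rfl)
  · exact Or.inl rfl

private theorem Inv_of_viso {a b : Word} (h : VIso a b) (hc : corr a = corr b) (u v : Word) :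
    signature (u ++ a ++ v) = signature (u ++ b ++ v) := by
  rw [Inv_split, Inv_split, sg_viso h, hc]

private theorem Inv_of_vadd {ε : ℤ} (hε : ε = 1 ∨ ε = -1 ∨ ε = 0) {a b : Word} (h : VAdd ε a b)
    (hc : corr a = corr b + ε) (u v : Word) :
    signature (u ++ a ++ v) = signature (u ++ b ++ v) := by
  rw [Inv_split, Inv_split, sg_vadd hε h, hc]
  ring

theorem sig_rel {a b : Word} (h : Rel a b) (u v : Word) : signature (u ++ a ++ v) = signature (u ++ b ++ v) := by
  cases h with
  | interchange g g' p q r => exact Inv_of_viso (v_inter g g' p q r) (cor_inter g g' p q r) u v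
  | zigzag₁ x p q => exact Inv_of_viso (v_zig1 x p q) (cor_zig _ _ _ _ _ _) u v
  | zigzag₂ x p q => exact Inv_of_viso (v_zig2 x p q) (cor_zig _ _ _ _ _ _) u v
  | r1_cup s x p q =>
    rcases Nat.mod_two_eq_zero_or_one p.length with h | h
    · refine Inv_of_vadd (Inv_sz s) (v_r1cup_even s x p q h) ?_ u v
      rw [cor_r1cup, cor_cup, if_pos h, zero_add]
    · refine Inv_of_viso (v_r1cup_odd s x p q h) ?_ u v
      rw [cor_r1cup, cor_cup, if_neg (by omega)]
  | r1_cap s x p q =>
    rcases Nat.mod_two_eq_zero_or_one p.length with h | h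
    · refine Inv_of_vadd (Inv_sz s) (v_r1cap_even s x p q h) ?_ u v
      rw [cor_r1cap, cor_cap, if_pos h, zero_add]
    · refine Inv_of_viso (v_r1cap_odd s x p q h) ?_ u v
      rw [cor_r1cap, cor_cap, if_neg (by omega)]
  | r2 s x y p q =>
    rcases Nat.mod_two_eq_zero_or_one p.length with h | h
    · rw [Inv_split, Inv_split, sg_r2 s x y p q h, cor_r2, List.append_nil]
      rfl
    · exact Inv_of_viso (v_r2_odd s x y p q h) (cor_r2 _ _ _ _ _) u v
  | r3 s x y z p q =>
    rcases Nat.mod_two_eq_zero_or_one p.length with h | h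
    · refine Inv_of_vadd (Inv_sz s) (v_r3_even s x y z p q h) ?_ u v
      rw [cor_r3, if_pos h]
    · refine (Inv_of_vadd (Inv_sz s) (v_r3_odd s x y z p q h) ?_ u v).symm
      rw [cor_r3, if_neg (by omega)]
      ring
  | slide_cup s e x p q => exact Inv_of_viso (v_slide_cup s e x p q) (cor_slide_cup s e x p q) u v
  | slide_cap s e x p q => exact Inv_of_viso (v_slide_cap s e x p q) (cor_slide_cap s e x p q) u v

theorem sig_birth {a b : Word} (h : BirthRel a b) (u v : Word) : signature (u ++ a ++ v) = signature (u ++ b ++ v) := by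
  cases h with
  | mk x p q =>
    have hc : corr [⟨p, cup x, q⟩, ⟨p, cap x, q⟩] = 0 := by simp [corr, cor]
    rcases Nat.mod_two_eq_zero_or_one p.length with h | h
    · refine (Inv_of_vadd (Or.inr (Or.inr rfl)) (v_birth_even x p q h) ?_ u v).symm
      rw [hc]
      rfl
    · refine (Inv_of_viso (v_birth_odd x p q h) ?_ u v).symm
      rw [hc]
      rfl

theorem sig_local {c e : List Bool} {w w' : Word} (h : Local Rel c e w w') : signature w = signature w' := by
  cases h with
  | mk u a b v h _ _ => exact sig_rel h u v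

theorem sig_nil : signature [] = 0 := by
  have h : gw ([] : Word) = 0 := by
    ext x y
    rfl
  unfold signature sg
  rw [h, neg_zero, sub_self]
  rfl

end Pool.Agent.Lib.MP_177a0e_gt.Sig
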