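import Pool.Agent.Lib.MP_177a0e_gt.Sig.Defs

/-!
# the index of a bilinear form, basic facts.

PROOFS.
* `le_ix`, `ix_le`, `ix_att`: the set in the definition of `ix` is bounded by `finrank ℚ E` (`Submodule.finrank_le`) and contains `0` (`W = ⊥`): `le_csSup`, `csSup_le`, `Nat.sSup_mem`.
* `ex_orth`: `LinearMap.BilinForm.exists_orthogonal_basis` (`Invertible (2 : ℚ)`: `invertibleOfNonzero`); `B.IsSymm` from `h`.
* `ix_equiv`: the images and preimages of the subspaces `W` under `e` (`LinearEquiv.finrank_map_eq`); no finiteness is needed. `sg_equiv`: for `B` and `-B`.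
-/

namespace Pool.Agent.Lib.MP_177a0e_gt.Sig

section

variable {E : Type*} [AddCommGroup E] [Module ℚ E] [FiniteDimensional ℚ E]

private theorem la0_bdd (B : LinearMap.BilinForm ℚ E) :
    BddAbove {n | ∃ W : Submodule ℚ E, Module.finrank ℚ W = n ∧ ∀ x ∈ W, x ≠ 0 → 0 < B x x} := by
  refine ⟨Module.finrank ℚ E, ?_⟩
  rintro n ⟨W, rfl, _⟩
  exact Submodule.finrank_le W

private theorem la0_ne (B : LinearMap.BilinForm ℚ E) :
    Set.Nonempty {n | ∃ W : Submodule ℚ E, Module.finrank ℚ W = n ∧ ∀ x ∈ W, x ≠ 0 → 0 < B x x} := by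
  refine ⟨Module.finrank ℚ (⊥ : Submodule ℚ E), ⊥, rfl, ?_⟩
  intro x hx hx0
  exact absurd ((Submodule.mem_bot ℚ).1 hx) hx0

theorem le_ix {B : LinearMap.BilinForm ℚ E} (W : Submodule ℚ E) (h : ∀ x ∈ W, x ≠ 0 → 0 < B x x) :
    Module.finrank ℚ W ≤ ix B := by
  exact le_csSup (la0_bdd B) ⟨W, rfl, h⟩

theorem ix_le (B : LinearMap.BilinForm ℚ E) : ix B ≤ Module.finrank ℚ E := by
  refine csSup_le (la0_ne B) ?_
  rintro n ⟨W, rfl, _⟩
  exact Submodule.finrank_le W

theorem ix_att (B : LinearMap.BilinForm ℚ E) :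
    ∃ W : Submodule ℚ E, Module.finrank ℚ W = ix B ∧ ∀ x ∈ W, x ≠ 0 → 0 < B x x := by
  exact Nat.sSup_mem (la0_ne B) (la0_bdd B)

theorem ex_orth {B : LinearMap.BilinForm ℚ E} (h : ∀ x y, B x y = B y x) :
    ∃ v : Module.Basis (Fin (Module.finrank ℚ E)) ℚ E, ∀ i j, i ≠ j → B (v i) (v j) = 0 := by
  haveI : Invertible (2 : ℚ) := invertibleOfNonzero two_ne_zero
  obtain ⟨v, hv⟩ := LinearMap.BilinForm.exists_orthogonal_basis (B := B) ⟨fun x y => by simpa using h x y⟩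
  exact ⟨v, fun i j hij => hv hij⟩

end

section

variable {E F : Type*} [AddCommGroup E] [Module ℚ E] [AddCommGroup F] [Module ℚ F]

theorem ix_equiv (B : LinearMap.BilinForm ℚ E) (B' : LinearMap.BilinForm ℚ F) (e : E ≃ₗ[ℚ] F)
    (h : ∀ x, B' (e x) (e x) = B x x) : ix B' = ix B := by
  unfold ix
  congr 1
  ext n
  constructor
  · rintro ⟨W, hW, hp⟩
    refine ⟨W.map (e.symm : F →ₗ[ℚ] E), ?_, ?_⟩
    · rw [LinearEquiv.finrank_map_eq e.symm W, hW]
    · rintro x ⟨y, hy, rfl⟩ hx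
      have h1 := h (e.symm y)
      rw [LinearEquiv.apply_symm_apply] at h1
      have h2 : y ≠ 0 := by
        rintro rfl
        exact hx (map_zero _)
      have h3 := hp y hy h2
      rw [h1] at h3
      exact h3
  · rintro ⟨W, hW, hp⟩
    refine ⟨W.map (e : E →ₗ[ℚ] F), ?_, ?_⟩
    · rw [LinearEquiv.finrank_map_eq e W, hW]
    · rintro x ⟨y, hy, rfl⟩ hx
      have h2 : y ≠ 0 := by
        rintro rfl
        exact hx (map_zero _)
      have h3 := hp y hy h2
      rw [← h y] at h3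
      exact h3

theorem sg_equiv (B : LinearMap.BilinForm ℚ E) (B' : LinearMap.BilinForm ℚ F) (e : E ≃ₗ[ℚ] F)
    (h : ∀ x, B' (e x) (e x) = B x x) : sg B' = sg B := by
  unfold sg
  rw [ix_equiv B B' e h, ix_equiv (-B) (-B') e]
  intro x
  simp only [LinearMap.neg_apply, h x]

end

end Pool.Agent.Lib.MP_177a0e_gt.Sig
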