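import Pool.Agent.Lib.MP_177a0e_gt.Sig.Gl

/-!
# white states: the second Reidemeister move at an even position.

PROOF. `L = |p|` even, the gap `L + 1` is white. `glue3` for `a = [cross s, cross (!s)]`: `(y, t, z)`, `t = (t 0, t 1, t 2)`, `t 0 = y_|u|`, `t 2 = z 0`; all three agree except at the gap `L + 1`, with the values `b, τ, b'`. So the states are the pairs `(y, z)` in `Pair (fitM ℚ) (whiteM ℚ) u v (L + 1)` and the number `τ`
(inverse: `t 1 = Function.update (y_|u|) (L + 1) τ`, in `whiteM` as `L + 1` is odd). The form of the middle part is `σ ((τ - b) ^ 2 - (b' - τ) ^ 2)`, `σ = sz s` (`eps` of the second crossing is `sz (!s) = - σ`).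
-/

namespace Pool.Agent.Lib.MP_177a0e_gt.Sig

open Pool.Agent.Lib.MP_177a0e_gt.Tangle Pool.Agent.Lib.MP_177a0e_gt.Tangle.Gen

private theorem R2b_run {s₁ s₂ : Slice} {t : ℕ → ℕ → ℚ} :
    Run (fitM ℚ) [s₁, s₂] t ↔ Fit s₁ (t 0) (t 1) ∧ Fit s₂ (t 1) (t 2) := by
  constructor
  · rintro ⟨h1, h2, _⟩
    exact ⟨h1, h2⟩
  · rintro ⟨h1, h2⟩
    exact ⟨h1, h2, trivial⟩

private theorem R2b_mem {s x y : Bool} {p q : List Bool} {u v : Word}
    (t : Tri (fitM ℚ) (whiteM ℚ) u [⟨p, cross s x y, q⟩, ⟨p, cross (!s) y x, q⟩] v) :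
    ((t.1.1, t.1.2.2) : (ℕ → ℕ → ℚ) × (ℕ → ℕ → ℚ)) ∈ Pair (fitM ℚ) (whiteM ℚ) u v (p.length + 1) := by
  obtain ⟨⟨y', t', z'⟩, h1, h2, h3, h4, h5⟩ := t
  obtain ⟨h6, h7⟩ := R2b_run.1 h2.1
  refine ⟨h1, h3, fun i hi => ?_⟩
  have h8 : t' 1 i = t' 0 i := h6 i hi
  have h9 : t' 2 i = t' 1 i := h7 i hi
  have h4' : y' u.length = t' 0 := h4
  have h5' : t' 2 = z' 0 := h5
  show z' 0 i = y' u.length i
  rw [← h5', h4', h9, h8]

private def R2b_f (s x y : Bool) (p q : List Bool) (u v : Word) :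
    Tri (fitM ℚ) (whiteM ℚ) u [⟨p, cross s x y, q⟩, ⟨p, cross (!s) y x, q⟩] v →ₗ[ℚ]
      Pair (fitM ℚ) (whiteM ℚ) u v (p.length + 1) × ℚ where
  toFun t := (⟨(t.1.1, t.1.2.2), R2b_mem t⟩, t.1.2.1 1 (p.length + 1))
  map_add' _ _ := rfl
  map_smul' _ _ := rfl

private theorem R2b_inj (s x y : Bool) (p q : List Bool) (u v : Word) :
    Function.Injective (R2b_f s x y p q u v) := by
  rw [injective_iff_map_eq_zero]
  rintro ⟨⟨y', t', z'⟩, h1, h2, h3, h4, h5⟩ h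
  obtain ⟨h6, h7⟩ := R2b_run.1 h2.1
  have h8 := congrArg Prod.fst h
  have h9 : t' 1 (p.length + 1) = 0 := congrArg Prod.snd h
  have h10 : (y', z') = ((0, 0) : (ℕ → ℕ → ℚ) × (ℕ → ℕ → ℚ)) := congrArg Subtype.val h8
  have hy : y' = 0 := congrArg Prod.fst h10
  have hz : z' = 0 := congrArg Prod.snd h10
  have ht : t' = 0 := by
    funext j i
    have h4' : y' u.length = t' 0 := h4
    have h5' : t' 2 = z' 0 := h5
    have e0 : t' 0 = 0 := by rw [← h4', hy]; rfl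
    rcases j with _ | _ | _ | j
    · rw [e0]; rfl
    · show t' 1 i = 0
      by_cases hi : i = p.length + 1
      · rw [hi, h9]
      · have h11 : t' 1 i = t' 0 i := h6 i hi
        rw [h11, e0]; rfl
    · show t' 2 i = 0
      rw [h5', hz]; rfl
    · have h12 : t' (j + 3) = 0 := h2.2.2 (j + 3) (by simp)
      show t' (j + 3) i = 0
      rw [h12]; rfl
  subst hy hz ht
  rfl

private theorem R2b_surj (s x y : Bool) (p q : List Bool) (hp : p.length % 2 = 0) (u v : Word) :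
    Function.Surjective (R2b_f s x y p q u v) := by
  rintro ⟨⟨⟨y', z'⟩, h1, h2, h3⟩, τ⟩
  refine ⟨⟨(y', (fun j => if j = 0 then y' u.length else if j = 1 then
    Function.update (y' u.length) (p.length + 1) τ else if j = 2 then z' 0 else 0), z'), h1, ⟨?_, ?_, ?_⟩, h2, ?_, ?_⟩, ?_⟩
  · refine R2b_run.2 ⟨fun i hi => ?_, fun i hi => ?_⟩
    · have hi' : i ≠ p.length + 1 := hi
      simp [Function.update_of_ne hi']
    · have hi' : i ≠ p.length + 1 := hi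
      have h4 : z' 0 i = y' u.length i := h3 i hi'
      simp [Function.update_of_ne hi', h4]
  · intro j
    have hy : y' u.length ∈ whiteM ℚ := h1.1.2.1 _
    have hz : z' 0 ∈ whiteM ℚ := h2.2.1 _
    dsimp only
    split_ifs with ha hb hc
    · exact hy
    · intro i hi
      have hi' : i ≠ p.length + 1 := by
        rintro rfl
        omega
      rw [Function.update_of_ne hi']
      exact hy i hi
    · exact hz
    · exact Submodule.zero_mem _
  · intro j hj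
    have hj' : 2 < j := hj
    have e0 : j ≠ 0 := by omega
    have e1 : j ≠ 1 := by omega
    have e2 : j ≠ 2 := by omega
    simp [e0, e1, e2]
  · rfl
  · rfl
  · refine Prod.ext rfl ?_
    show (if (1 : ℕ) = 0 then y' u.length else if (1 : ℕ) = 1 then
      Function.update (y' u.length) (p.length + 1) τ else if (1 : ℕ) = 2 then z' 0 else 0) (p.length + 1) = τ
    simp

theorem r2_big (s x y : Bool) (p q : List Bool) (hp : p.length % 2 = 0) (u v : Word) :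
    ∃ Φ : White (u ++ [⟨p, cross s x y, q⟩, ⟨p, cross (!s) y x, q⟩] ++ v) ≃ₗ[ℚ] Pair (fitM ℚ) (whiteM ℚ) u v (p.length + 1) × ℚ,
      ∀ t, gq (u ++ [⟨p, cross s x y, q⟩, ⟨p, cross (!s) y x, q⟩] ++ v) t.1 t.1 = gp u v (p.length + 1) (Φ t).1 (Φ t).1 +
        (sz s : ℚ) * (((Φ t).2 - (Φ t).1.1.1 u.length (p.length + 1)) ^ 2 - ((Φ t).1.1.2 0 (p.length + 1) - (Φ t).2) ^ 2) := by
  obtain ⟨Φ₀, hΦ₀⟩ := glue3 (P := fitM ℚ) (Λ := whiteM ℚ) u [⟨p, cross s x y, q⟩, ⟨p, cross (!s) y x, q⟩] v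
  refine ⟨Φ₀.trans (LinearEquiv.ofBijective (R2b_f s x y p q u v)
    ⟨R2b_inj s x y p q u v, R2b_surj s x y p q hp u v⟩), fun t => ?_⟩
  rw [hΦ₀ t t]
  set T := Φ₀ t with hT
  have e1 : (Φ₀.trans (LinearEquiv.ofBijective (R2b_f s x y p q u v)
    ⟨R2b_inj s x y p q u v, R2b_surj s x y p q hp u v⟩)) t = R2b_f s x y p q u v T := rfl
  rw [e1]
  obtain ⟨⟨y', t', z'⟩, h1, h2, h3, h4, h5⟩ := T
  have h4' : y' u.length = t' 0 := h4
  have h5' : t' 2 = z' 0 := h5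
  show gq u y' y' + gq [⟨p, cross s x y, q⟩, ⟨p, cross (!s) y x, q⟩] t' t' + gq v z' z' =
    gq u y' y' + gq v z' z' + (sz s : ℚ) * ((t' 1 (p.length + 1) - y' u.length (p.length + 1)) ^ 2 -
      (z' 0 (p.length + 1) - t' 1 (p.length + 1)) ^ 2)
  have e2 : gq [⟨p, cross s x y, q⟩, ⟨p, cross (!s) y x, q⟩] t' t' =
      (eps ⟨p, cross s x y, q⟩ : ℚ) * (jmp ⟨p, cross s x y, q⟩ (t' 0) (t' 1) * jmp ⟨p, cross s x y, q⟩ (t' 0) (t' 1)) +
      ((eps ⟨p, cross (!s) y x, q⟩ : ℚ) * (jmp ⟨p, cross (!s) y x, q⟩ (t' 1) (t' 2) *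
        jmp ⟨p, cross (!s) y x, q⟩ (t' 1) (t' 2)) + 0) := rfl
  have e3 : ((-1 : ℤ)) ^ p.length = 1 := Even.neg_one_pow (Nat.even_iff.2 hp)
  have e4 : eps ⟨p, cross s x y, q⟩ = sz s := by
    simp only [eps, lp, e3, mul_one]
  have e5 : eps ⟨p, cross (!s) y x, q⟩ = - sz s := by
    simp only [eps, lp, e3, mul_one]
    cases s <;> simp [sz]
  have e6 : jmp ⟨p, cross s x y, q⟩ (t' 0) (t' 1) = t' 1 (p.length + 1) - t' 0 (p.length + 1) := by
    simp only [jmp, lp, hp, if_true]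
  have e7 : jmp ⟨p, cross (!s) y x, q⟩ (t' 1) (t' 2) = t' 2 (p.length + 1) - t' 1 (p.length + 1) := by
    simp only [jmp, lp, hp, if_true]
  rw [e2, e4, e5, e6, e7, h4', ← h5']
  push_cast
  ring

end Pool.Agent.Lib.MP_177a0e_gt.Sig
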