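import Pool.Agent.Lib.MP_177a0e_gt.Sig.StkB

/-!
# the form of a colouring and a white state is a boundary term.

PROOFS. `stk_slice`: cases: crossing: `om_cross` (`k = |left| + 2 + |right|`, the same above); cup: `om_cup` (`jmp = 0`); cap: `om_cup` with below and above exchanged. `odd_level`: the length changes by `0, ± 2`. `stk`: induction on the word (`s.src = c`, `Valid s.tgt w e`), telescoping.
-/

namespace Pool.Agent.Lib.MP_177a0e_gt.Sig

open Pool.Agent.Lib.MP_177a0e_gt.Tangle Pool.Agent.Lib.MP_177a0e_gt.Tangle.Gen

variable {R : Type} [Field R]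

private theorem Stk_len (s : Slice) : s.tgt.length = s.src.length ∨ s.tgt.length = s.src.length + 2 ∨
    s.src.length = s.tgt.length + 2 := by
  rcases s with ⟨p, _ | _ | _, q⟩
  · refine Or.inr (Or.inl ?_)
    simp only [Slice.src, Slice.tgt, Gen.src, Gen.tgt, List.length_append, List.length_cons, List.length_nil]
    omega
  · refine Or.inr (Or.inr ?_)
    simp only [Slice.src, Slice.tgt, Gen.src, Gen.tgt, List.length_append, List.length_cons, List.length_nil]
    omega
  · refine Or.inl ?_
    simp only [Slice.src, Slice.tgt, Gen.src, Gen.tgt, List.length_append, List.length_cons, List.length_nil]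

theorem stk_slice (s : Slice) (hk : s.src.length % 2 = 1) (y y' x x' : ℕ → R) (hy : (y, y') ∈ colM R s) (hx : (x, x') ∈ fitM R s)
    (h1 : x ∈ whiteM R) (h2 : x' ∈ whiteM R) :
    (eps s : R) * (jmp s y y' * jmp s x x') = om s.tgt.length y' x' - om s.src.length y x := by
  rcases s with ⟨p, a | a | ⟨c, a, b⟩, q⟩
  · have hyf : (∀ i, i ≤ p.length → y' i = y i) ∧ ∀ i, p.length ≤ i → y' (i + 2) = y i := hy.1
    have hxf : (∀ i, i ≤ p.length → x' i = x i) ∧ ∀ i, p.length ≤ i → x' (i + 2) = x i := hx
    have e1 : (Slice.mk p (cup a) q).src.length = p.length + q.length := by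
      simp [Slice.src, Gen.src]
    have e2 : (Slice.mk p (cup a) q).tgt.length = p.length + q.length + 2 := by
      simp only [Slice.tgt, Gen.tgt, List.length_append, List.length_cons, List.length_nil]
      omega
    have e3 : eps ⟨p, cup a, q⟩ = 0 := rfl
    rw [e1] at hk
    rw [e1, e2, e3, om_cup p.length (p.length + q.length) hk (Nat.le_add_right _ _) y y' x x' hyf.1 hyf.2
      hxf.1 hxf.2 h1 h2, Int.cast_zero, zero_mul, sub_self]
  · have hyf : (∀ i, i ≤ p.length → y i = y' i) ∧ ∀ i, p.length ≤ i → y (i + 2) = y' i := hy.1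
    have hxf : (∀ i, i ≤ p.length → x i = x' i) ∧ ∀ i, p.length ≤ i → x (i + 2) = x' i := hx
    have e1 : (Slice.mk p (cap a) q).tgt.length = p.length + q.length := by
      simp [Slice.tgt, Gen.tgt]
    have e2 : (Slice.mk p (cap a) q).src.length = p.length + q.length + 2 := by
      simp only [Slice.src, Gen.src, List.length_append, List.length_cons, List.length_nil]
      omega
    have e3 : eps ⟨p, cap a, q⟩ = 0 := rfl
    rw [e2] at hk
    rw [e1, e2, e3, om_cup p.length (p.length + q.length) (by omega) (Nat.le_add_right _ _) y' y x' x hyf.1 hyf.2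
      hxf.1 hxf.2 h2 h1, Int.cast_zero, zero_mul, sub_self]
  · have e1 : (Slice.mk p (cross c a b) q).src.length = p.length + q.length + 2 := by
      simp only [Slice.src, Gen.src, List.length_append, List.length_cons, List.length_nil]
      omega
    have e2 : (Slice.mk p (cross c a b) q).tgt.length = p.length + q.length + 2 := by
      simp only [Slice.tgt, Gen.tgt, List.length_append, List.length_cons, List.length_nil]
      omega
    rw [e1] at hk
    rw [e1, e2]
    exact om_cross c a b p q (p.length + q.length + 2) hk (by omega) y y' x x' hy hx h1 h2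

private theorem Stk_aux (w : Word) : ∀ (c e : List Bool), Valid c w e → c.length % 2 = 1 → ∀ y x : ℕ → ℕ → R,
    Run (colM R) w y → Run (fitM R) w x → (∀ j, x j ∈ whiteM R) →
    gq w y x = om e.length (y w.length) (x w.length) - om c.length (y 0) (x 0) := by
  induction w with
  | nil =>
    intro c e hv _ y x _ _ _
    have hce : c = e := hv
    subst hce
    simp [gq]
  | cons s w ih =>
    intro c e hv hc y x hy hx hw
    obtain ⟨hs, hv'⟩ := hv
    subst hs
    have ht : s.tgt.length % 2 = 1 := by
      have := Stk_len s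
      omega
    have h3 := ih s.tgt e hv' ht (sh 1 y) (sh 1 x) hy.2 hx.2 (fun j => hw (j + 1))
    have h4 := stk_slice s hc (y 0) (y 1) (x 0) (x 1) hy.1 hx.1 (hw 0) (hw 1)
    have e1 : gq (s :: w) y x = (eps s : R) * (jmp s (y 0) (y 1) * jmp s (x 0) (x 1)) +
        gq w (sh 1 y) (sh 1 x) := rfl
    have e2 : sh 1 y w.length = y (s :: w).length := rfl
    have e3 : sh 1 x w.length = x (s :: w).length := rfl
    have e4 : sh 1 y 0 = y 1 := rfl
    have e5 : sh 1 x 0 = x 1 := rfl
    rw [e1, h3, h4, e2, e3, e4, e5]
    ring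

theorem stk {w : Word} {c e : List Bool} (hv : Valid c w e) (hc : c.length % 2 = 1) (y x : ℕ → ℕ → R) (hy : Run (colM R) w y)
    (hx : Run (fitM R) w x) (hw : ∀ j, x j ∈ whiteM R) :
    gq w y x = om e.length (y w.length) (x w.length) - om c.length (y 0) (x 0) :=
  Stk_aux w c e hv hc y x hy hx hw

/-- the number of strands is odd at every level -/
theorem odd_level {w : Word} {c e : List Bool} (hv : Valid c w e) (hc : c.length % 2 = 1) : e.length % 2 = 1 := by
  induction w generalizing c with
  | nil =>
    have hce : c = e := hv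
    rw [← hce]
    exact hc
  | cons s w ih =>
    obtain ⟨hs, hv'⟩ := hv
    subst hs
    refine ih hv' ?_
    have := Stk_len s
    omega

end Pool.Agent.Lib.MP_177a0e_gt.Sig
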