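import Pool.Agent.Lib.MP_177a0e_gt.Sig.Defs

/-!
# the boundary term at a crossing.

`om k y x = ∑_{i < (k + 1) / 2} y (2 i) (x (2 i + 1) - x (2 i - 1))` (for a level with `k` strands, `k` odd; `x 0 = 0` in the term `i = 0`).
PROOF of `om_cross` (`L = |p|`, `L + 2 ≤ k`, `σ = sz c`, `σ ^ 2 = 1`, `y' (L + 1) - y (L + 1) = σ (y L - y (L + 2))`). `L = 2 m`: `x, x'` differ only at `2 m + 1`, `y, y'` only at an odd gap: `om' - om = (y (2 m) - y (2 m + 2)) (x' (L + 1) - x (L + 1))` (the terms `i = m` and `i = m + 1`; `2 m + 2 ≤ k`, `k` odd, so `m + 1 < (k + 1) / 2`)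
and `eps * jmp y * jmp x = σ (y' (L + 1) - y (L + 1)) (x' (L + 1) - x (L + 1)) = σ ^ 2 (y L - y (L + 2)) (..)`. `L = 2 m + 1`: `x = x'` (an even gap), `y, y'` differ at `2 m + 2`: `om' - om = (y' (L + 1) - y (L + 1)) (x (L + 2) - x L)`, and `eps * jmp y * jmp x = - σ (y L - y (L + 2)) (x L - x (L + 2))`.
(The difference of the two sums: `← Finset.sum_sub_distrib`, all terms but one or two vanish: `Finset.sum_eq_single`, or split off the terms with `Finset.sum_eq_sum_diff_singleton_add` / `Finset.add_sum_erase`.)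
-/

namespace Pool.Agent.Lib.MP_177a0e_gt.Sig

open Pool.Agent.Lib.MP_177a0e_gt.Tangle Pool.Agent.Lib.MP_177a0e_gt.Tangle.Gen

variable {R : Type} [Field R]

/-- the boundary term -/
def om (k : ℕ) (y x : ℕ → R) : R := ∑ i ∈ Finset.range ((k + 1) / 2), y (2 * i) * (x (2 * i + 1) - x (2 * i - 1))

private theorem sz_sq (c : Bool) : ((sz c : ℤ) : R) * ((sz c : ℤ) : R) = 1 := by
  cases c <;> simp [sz]

private theorem sum_two (n m : ℕ) (hm : m < n) (hm' : m + 1 < n) (A B : R) :
    ∑ i ∈ Finset.range n, ((if i = m then A else 0) + (if i = m + 1 then B else 0)) = A + B := by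
  rw [Finset.sum_add_distrib, Finset.sum_ite_eq', Finset.sum_ite_eq', if_pos (Finset.mem_range.mpr hm),
    if_pos (Finset.mem_range.mpr hm')]

private theorem sum_one (n m : ℕ) (hm : m < n) (A : R) :
    ∑ i ∈ Finset.range n, (if i = m then A else 0) = A := by
  rw [Finset.sum_ite_eq', if_pos (Finset.mem_range.mpr hm)]

theorem om_cross (c a b : Bool) (p q : List Bool) (k : ℕ) (hk : k % 2 = 1) (hL : p.length + 2 ≤ k) (y y' x x' : ℕ → R)
    (hy : (y, y') ∈ colM R ⟨p, cross c a b, q⟩) (hx : (x, x') ∈ fitM R ⟨p, cross c a b, q⟩) (h1 : x ∈ whiteM R) (h2 : x' ∈ whiteM R) :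
    (eps ⟨p, cross c a b, q⟩ : R) * (jmp ⟨p, cross c a b, q⟩ y y' * jmp ⟨p, cross c a b, q⟩ x x') = om k y' x' - om k y x := by
  obtain ⟨hyf, hyc⟩ := hy
  have hyf' : ∀ i, i ≠ p.length + 1 → y' i = y i := hyf
  have hyc' : y' (p.length + 1) - y (p.length + 1) =
      ((sz c : ℤ) : R) * (y p.length - y (p.length + 2)) := hyc
  have hxf : ∀ i, i ≠ p.length + 1 → x' i = x i := hx
  clear hyf hyc hx
  have he : eps ⟨p, cross c a b, q⟩ = sz c * (-1) ^ p.length := rfl
  have hj : ∀ u v : ℕ → R, jmp ⟨p, cross c a b, q⟩ u v = if p.length % 2 = 0 then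
      v (p.length + 1) - u (p.length + 1) else u p.length - u (p.length + 2) := fun _ _ => rfl
  rw [he, hj, hj]
  generalize p.length = L at *
  have hsum : om k y' x' - om k y x = ∑ i ∈ Finset.range ((k + 1) / 2),
      (y' (2 * i) * (x' (2 * i + 1) - x' (2 * i - 1)) - y (2 * i) * (x (2 * i + 1) - x (2 * i - 1))) := by
    unfold om
    rw [← Finset.sum_sub_distrib]
  rw [hsum]
  rcases Nat.even_or_odd' L with ⟨m, hm | hm⟩
  · have hpar : L % 2 = 0 := by omega
    have hterm : ∀ i ∈ Finset.range ((k + 1) / 2),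
        (y' (2 * i) * (x' (2 * i + 1) - x' (2 * i - 1)) - y (2 * i) * (x (2 * i + 1) - x (2 * i - 1))) =
        (if i = m then y L * (x' (L + 1) - x (L + 1)) else 0) +
        (if i = m + 1 then - (y (L + 2) * (x' (L + 1) - x (L + 1))) else 0) := by
      intro i _
      rw [hyf' (2 * i) (by omega)]
      by_cases h3 : i = m
      · have h4 : i ≠ m + 1 := by omega
        rw [if_pos h3, if_neg h4]
        have e1 : 2 * i = L := by omega
        rw [hxf (2 * i - 1) (by omega), e1]
        ring
      · rw [if_neg h3]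
        by_cases h4 : i = m + 1
        · rw [if_pos h4]
          have e1 : 2 * i = L + 2 := by omega
          have e2 : 2 * i - 1 = L + 1 := by omega
          rw [hxf (2 * i + 1) (by omega), e2, e1]
          ring
        · rw [if_neg h4, hxf (2 * i + 1) (by omega), hxf (2 * i - 1) (by omega)]
          ring
    rw [Finset.sum_congr rfl hterm, sum_two _ _ (by omega) (by omega), if_pos hpar, if_pos hpar, hyc',
      (Nat.even_iff.mpr hpar).neg_one_pow, mul_one]
    linear_combination ((y L - y (L + 2)) * (x' (L + 1) - x (L + 1))) * sz_sq (R := R) c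
  · have hpar : L % 2 = 1 := by omega
    have hpar0 : ¬ L % 2 = 0 := by omega
    have hxx : x' = x := by
      funext i
      by_cases hi : i = L + 1
      · rw [h1 i (by omega), h2 i (by omega)]
      · exact hxf i hi
    have hterm : ∀ i ∈ Finset.range ((k + 1) / 2),
        (y' (2 * i) * (x' (2 * i + 1) - x' (2 * i - 1)) - y (2 * i) * (x (2 * i + 1) - x (2 * i - 1))) =
        (if i = m + 1 then (y' (L + 1) - y (L + 1)) * (x (L + 2) - x L) else 0) := by
      intro i _
      rw [hxx]
      by_cases h3 : i = m + 1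
      · rw [if_pos h3]
        have e1 : 2 * i = L + 1 := by omega
        have e2 : 2 * i - 1 = L := by omega
        rw [e2, e1]
        ring
      · rw [if_neg h3, hyf' (2 * i) (by omega)]
        ring
    rw [Finset.sum_congr rfl hterm, sum_one _ _ (by omega), if_neg hpar0, if_neg hpar0, hyc',
      (Nat.odd_iff.mpr hpar).neg_one_pow]
    push_cast
    ring

end Pool.Agent.Lib.MP_177a0e_gt.Sig
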