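import Pool.Agent.Lib.MP_177a0e_gt.Sig.StkA

/-!
# the boundary term at a cup.

PROOF. `y' i = y i`, `x' i = x i` for `i ≤ L`, `y' (i + 2) = y i`, `x' (i + 2) = x i` for `i ≥ L`, `L ≤ k`, `k` odd. `L = 2 m`: the terms `i < m` agree; `i = m`: `y (2 m) (x' (2 m + 1) - x (2 m - 1))`, `i = m + 1`: `y (2 m) (x (2 m + 1) - x' (2 m + 1))`, sum `y (2 m) (x (2 m + 1) - x (2 m - 1))`; the term `i + 1`, `i > m`, is the old term `i`
(for `m = 0` the value `x (2 * 0 - 1) = x 0 = 0`, also `x' 0 = 0`: `whiteM`). `L = 2 m + 1`: the terms `i ≤ m` agree (`x' (2 m + 1) = x (2 m + 1)`), the term `i = m + 1` is `y' (2 m + 2) (x (2 m + 1) - x (2 m + 1)) = 0`, the term `i + 1`, `i ≥ m + 1`, is the old term `i` (`i = m + 1`: `y (2 m + 2) (x (2 m + 3) - x (2 m + 1))`).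
(Convenient: prove `∑_{i < n + 1} (new) = ∑_{i < n} (old)` for all `n > m` (`L = 2 m`), resp. `n ≥ m + 1` (`L = 2 m + 1`) by induction on `n` (`Nat.le_induction`), with the first part `∑_{i < m}` by `Finset.sum_congr`.)
-/

namespace Pool.Agent.Lib.MP_177a0e_gt.Sig

open Pool.Agent.Lib.MP_177a0e_gt.Tangle Pool.Agent.Lib.MP_177a0e_gt.Tangle.Gen

variable {R : Type} [Field R]

private theorem cup_step (n : ℕ) (L : ℕ) (y y' x x' : ℕ → R) (hy' : ∀ i, L ≤ i → y' (i + 2) = y i)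
    (hx' : ∀ i, L ≤ i → x' (i + 2) = x i) (hn : 1 ≤ n) (hL : L ≤ 2 * n - 1) :
    y' (2 * (n + 1)) * (x' (2 * (n + 1) + 1) - x' (2 * (n + 1) - 1)) = y (2 * n) * (x (2 * n + 1) - x (2 * n - 1)) := by
  have e1 : y' (2 * (n + 1)) = y (2 * n) := hy' (2 * n) (by omega)
  have e2 : x' (2 * (n + 1) + 1) = x (2 * n + 1) := hx' (2 * n + 1) (by omega)
  have e3 : x' (2 * (n + 1) - 1) = x (2 * n - 1) := by
    have := hx' (2 * n - 1) hL
    rw [show 2 * (n + 1) - 1 = 2 * n - 1 + 2 by omega]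
    exact this
  rw [e1, e2, e3]

private theorem cup_even (m : ℕ) (y y' x x' : ℕ → R) (hy : ∀ i, i ≤ 2 * m → y' i = y i)
    (hy' : ∀ i, 2 * m ≤ i → y' (i + 2) = y i) (hx : ∀ i, i ≤ 2 * m → x' i = x i)
    (hx' : ∀ i, 2 * m ≤ i → x' (i + 2) = x i) (n : ℕ) (hn : m + 1 ≤ n) :
    ∑ i ∈ Finset.range (n + 1), y' (2 * i) * (x' (2 * i + 1) - x' (2 * i - 1)) =
      ∑ i ∈ Finset.range n, y (2 * i) * (x (2 * i + 1) - x (2 * i - 1)) := by
  induction n, hn using Nat.le_induction with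
  | base =>
    rw [Finset.sum_range_succ, Finset.sum_range_succ, Finset.sum_range_succ]
    have h0 : ∑ i ∈ Finset.range m, y' (2 * i) * (x' (2 * i + 1) - x' (2 * i - 1)) =
        ∑ i ∈ Finset.range m, y (2 * i) * (x (2 * i + 1) - x (2 * i - 1)) := by
      refine Finset.sum_congr rfl fun i hi => ?_
      rw [Finset.mem_range] at hi
      rw [hy _ (by omega), hx _ (by omega), hx _ (by omega)]
    have e1 : y' (2 * m) = y (2 * m) := hy _ le_rfl
    have e2 : x' (2 * m - 1) = x (2 * m - 1) := hx _ (by omega)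
    have e3 : y' (2 * (m + 1)) = y (2 * m) := hy' (2 * m) le_rfl
    have e4 : x' (2 * (m + 1) + 1) = x (2 * m + 1) := hx' (2 * m + 1) (by omega)
    have e5 : 2 * (m + 1) - 1 = 2 * m + 1 := by omega
    rw [h0, e1, e2, e3, e4, e5]
    ring
  | succ n hn ih =>
    rw [Finset.sum_range_succ, ih, Finset.sum_range_succ _ n, cup_step n (2 * m) y y' x x' hy' hx' (by omega) (by omega)]

private theorem cup_odd (m : ℕ) (y y' x x' : ℕ → R) (hy : ∀ i, i ≤ 2 * m + 1 → y' i = y i)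
    (hy' : ∀ i, 2 * m + 1 ≤ i → y' (i + 2) = y i) (hx : ∀ i, i ≤ 2 * m + 1 → x' i = x i)
    (hx' : ∀ i, 2 * m + 1 ≤ i → x' (i + 2) = x i) (n : ℕ) (hn : m + 1 ≤ n) :
    ∑ i ∈ Finset.range (n + 1), y' (2 * i) * (x' (2 * i + 1) - x' (2 * i - 1)) =
      ∑ i ∈ Finset.range n, y (2 * i) * (x (2 * i + 1) - x (2 * i - 1)) := by
  induction n, hn using Nat.le_induction with
  | base =>
    rw [Finset.sum_range_succ]
    have h0 : ∑ i ∈ Finset.range (m + 1), y' (2 * i) * (x' (2 * i + 1) - x' (2 * i - 1)) =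
        ∑ i ∈ Finset.range (m + 1), y (2 * i) * (x (2 * i + 1) - x (2 * i - 1)) := by
      refine Finset.sum_congr rfl fun i hi => ?_
      rw [Finset.mem_range] at hi
      rw [hy _ (by omega), hx _ (by omega), hx _ (by omega)]
    have e4 : x' (2 * (m + 1) + 1) = x (2 * m + 1) := hx' (2 * m + 1) (by omega)
    have e5 : x' (2 * (m + 1) - 1) = x (2 * m + 1) := by
      rw [show 2 * (m + 1) - 1 = 2 * m + 1 by omega]
      exact hx _ le_rfl
    rw [h0, e4, e5]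
    ring
  | succ n hn ih =>
    rw [Finset.sum_range_succ, ih, Finset.sum_range_succ _ n, cup_step n (2 * m + 1) y y' x x' hy' hx' (by omega) (by omega)]

theorem om_cup (L k : ℕ) (hk : k % 2 = 1) (hL : L ≤ k) (y y' x x' : ℕ → R) (hy : ∀ i, i ≤ L → y' i = y i) (hy' : ∀ i, L ≤ i → y' (i + 2) = y i)
    (hx : ∀ i, i ≤ L → x' i = x i) (hx' : ∀ i, L ≤ i → x' (i + 2) = x i) (h1 : x ∈ whiteM R) (h2 : x' ∈ whiteM R) :
    om (k + 2) y' x' = om k y x := by
  have hq : (k + 2 + 1) / 2 = (k + 1) / 2 + 1 := by omega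
  unfold om
  rw [hq]
  rcases Nat.even_or_odd' L with ⟨m, rfl | rfl⟩
  · exact cup_even m y y' x x' hy hy' hx hx' _ (by omega)
  · exact cup_odd m y y' x x' hy hy' hx hx' _ (by omega)

end Pool.Agent.Lib.MP_177a0e_gt.Sig
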