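import Pool.Agent.Lib.MP_177a0e_gt.Sig.TbA

/-!
# saddles unknot the two-bridge knots.

Level `[true, true, false]` between the letters (`tbl_valid`: induction on `l`).
PROOFS.
* `tb_one`: `twoBridge [true]` is isotopic to `[]` (`Cob` with no saddles): `[⟨[true], cup true, []⟩, ⟨[], cross true true true, [false]⟩, ⟨[true], cap true, []⟩]`. The right side of `Rel.slide_cup` is `[⟨p ++ [x], cup e, q⟩, ⟨p, cross (!s) x e, [!e] ++ q⟩]`; with `p = q = []`, `x = e = true`, `s = false` it is the first two slices;
  the left side is `[⟨[], cup true, [true]⟩, ⟨[true], cross false false true, []⟩]`. Then `Rel.r1_cap` with `s = false`, `x = false`, `p = [true]`, `q = []`: `[⟨[true], cross false false true, []⟩, ⟨[true], cap true, []⟩] → [⟨[true], cap false, []⟩]`, and `Rel.zigzag₂ true [] []`: `[⟨[], cup true, [true]⟩, ⟨[true], cap false, []⟩] → []`.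
* `tb_first`: a letter `false` after the cup disappears: `Rel.r1_cup` twice: `[cup true, cross false true false] → [cup false]`, `[cup false, cross false false true] → [cup true]` (all at `[true]`). `tb_last`: a letter `false` before the cap disappears: `Rel.r1_cap` twice: `[cross false false true, cap true] → [cap false]`, `[cross false true false, cap false] → [cap true]`.
* `tb_saddles`: induction on the length of `l` (or on the list): if `l` has at least two letters `true`: remove one by `smooth_par` inside the word (`Cob.ctx`), one saddle; if it has exactly one: `l = false ^ a ++ [true] ++ false ^ b`: `tb_first`, `tb_last`, `tb_one`. (For example: prove for lists `l` with `true ∈ l` by strong induction on the length: if `l = false :: l'`: `tb_first`; if `l = true :: l'` and `true ∈ l'`: `smooth_par`;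
  if `l = true :: l'` and `l'` has only `false`: `tb_last` or `l' = []`.)
-/

namespace Pool.Agent.Lib.MP_177a0e_gt.Sig

open Pool.Agent.Lib.MP_177a0e_gt.Tangle Pool.Agent.Lib.MP_177a0e_gt.Tangle.Gen

theorem tbl_valid (l : List Bool) : Valid [true, true, false] (tbl l) [true, true, false] := by
  induction l with
  | nil => exact rfl
  | cons b l ih =>
    cases b
    · exact ⟨rfl, rfl, ih⟩
    · exact ⟨rfl, ih⟩

theorem tb_valid (l : List Bool) : Valid [true] (twoBridge l) [true] :=
  ⟨rfl, (tbl_valid l).append (⟨rfl, rfl⟩ : Valid [true, true, false] [⟨[true], cap true, []⟩] [true])⟩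

private theorem TbB_tail (l : List Bool) : Valid [true, true, false] (tbl l ++ [⟨[true], cap true, []⟩]) [true] :=
  (tbl_valid l).append (⟨rfl, rfl⟩ : Valid [true, true, false] [⟨[true], cap true, []⟩] [true])

private theorem TbB_app (l l' : List Bool) : tbl (l ++ l') = tbl l ++ tbl l' := by
  induction l with
  | nil => rfl
  | cons b l ih =>
    cases b
    · show _ :: _ :: tbl (l ++ l') = _
      rw [ih]
      rfl
    · show _ :: tbl (l ++ l') = _
      rw [ih]
      rfl

theorem tb_one : Cob [true] [true] 0 0 0 (twoBridge [true]) [] := by
  have v0 : Valid [true] (twoBridge [true]) [true] := tb_valid [true]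
  have v1 : Valid [true] [⟨[], cup true, [true]⟩, ⟨[true], cross false false true, []⟩, ⟨[true], cap true, []⟩] [true] :=
    ⟨rfl, rfl, rfl, rfl⟩
  have v2 : Valid [true] [⟨[], cup true, [true]⟩, ⟨[true], cap false, []⟩] [true] := ⟨rfl, rfl, rfl⟩
  have v3 : Valid [true] [] [true] := rfl
  refine (((Cob.refl v0).iso (w₂ := [⟨[], cup true, [true]⟩, ⟨[true], cross false false true, []⟩, ⟨[true], cap true, []⟩])
    (Or.inr ?_)).iso (w₂ := [⟨[], cup true, [true]⟩, ⟨[true], cap false, []⟩]) (Or.inl ?_)).iso (Or.inl ?_)
  · exact Local.mk [] _ _ [⟨[true], cap true, []⟩] (Rel.slide_cup false true true [] []) v1 v0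
  · exact Local.mk [⟨[], cup true, [true]⟩] _ _ [] (Rel.r1_cap false false [true] []) v1 v2
  · exact Local.mk [] _ _ [] (Rel.zigzag₂ true [] []) v2 v3

private theorem TbB_first (l : List Bool) : Cob [true] [true] 0 0 0 (twoBridge (false :: l)) (twoBridge l) := by
  have v0 : Valid [true] [⟨[true], cup true, []⟩, ⟨[true], cross false true false, []⟩, ⟨[true], cross false false true, []⟩]
      [true, true, false] := ⟨rfl, rfl, rfl, rfl⟩
  have v1 : Valid [true] [⟨[true], cup false, []⟩, ⟨[true], cross false false true, []⟩] [true, true, false] := ⟨rfl, rfl, rfl⟩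
  have v2 : Valid [true] [⟨[true], cup true, []⟩] [true, true, false] := ⟨rfl, rfl⟩
  have key : Cob [true] [true, true, false] 0 0 0
      [⟨[true], cup true, []⟩, ⟨[true], cross false true false, []⟩, ⟨[true], cross false false true, []⟩]
      [⟨[true], cup true, []⟩] := by
    refine ((Cob.refl v0).iso (w₂ := [⟨[true], cup false, []⟩, ⟨[true], cross false false true, []⟩]) (Or.inl ?_)).iso (Or.inl ?_)
    · exact Local.mk [] _ _ [⟨[true], cross false false true, []⟩] (Rel.r1_cup false true [true] []) v0 v1
    · exact Local.mk [] _ _ [] (Rel.r1_cup false false [true] []) v1 v2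
  exact key.ctx (u := []) (c₀ := [true]) rfl (TbB_tail l)

private theorem TbB_last (l : List Bool) : Cob [true] [true] 0 0 0 (twoBridge (l ++ [false])) (twoBridge l) := by
  have v0 : Valid [true, true, false] [⟨[true], cross false true false, []⟩, ⟨[true], cross false false true, []⟩, ⟨[true], cap true, []⟩]
      [true] := ⟨rfl, rfl, rfl, rfl⟩
  have v1 : Valid [true, true, false] [⟨[true], cross false true false, []⟩, ⟨[true], cap false, []⟩] [true] := ⟨rfl, rfl, rfl⟩
  have v2 : Valid [true, true, false] [⟨[true], cap true, []⟩] [true] := ⟨rfl, rfl⟩
  have key : Cob [true, true, false] [true] 0 0 0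
      [⟨[true], cross false true false, []⟩, ⟨[true], cross false false true, []⟩, ⟨[true], cap true, []⟩]
      [⟨[true], cap true, []⟩] := by
    refine ((Cob.refl v0).iso (w₂ := [⟨[true], cross false true false, []⟩, ⟨[true], cap false, []⟩]) (Or.inl ?_)).iso (Or.inl ?_)
    · exact Local.mk [⟨[true], cross false true false, []⟩] _ _ [] (Rel.r1_cap false false [true] []) v0 v1
    · exact Local.mk [] _ _ [] (Rel.r1_cap false true [true] []) v1 v2
  have hu : Valid [true] (⟨[true], cup true, []⟩ :: tbl l) [true, true, false] := ⟨rfl, tbl_valid l⟩
  have h1 := key.ctx (v := []) (e₀ := [true]) hu rfl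
  have e1 : twoBridge (l ++ [false]) = ⟨[true], cup true, []⟩ :: tbl l ++
      [⟨[true], cross false true false, []⟩, ⟨[true], cross false false true, []⟩, ⟨[true], cap true, []⟩] ++ [] := by
    unfold twoBridge
    rw [TbB_app]
    simp [tbl]
  have e2 : twoBridge l = ⟨[true], cup true, []⟩ :: tbl l ++ [⟨[true], cap true, []⟩] ++ [] := by
    unfold twoBridge
    simp
  rw [e1, e2]
  exact h1

private theorem TbB_smooth (l : List Bool) : Cob [true] [true] 0 1 0 (twoBridge (true :: l)) (twoBridge l) := by
  have h1 := smooth_par true true [] [false]
  have hu : Valid [true] [⟨[true], cup true, []⟩] ([] ++ [true, true] ++ [false]) := ⟨rfl, rfl⟩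
  exact h1.ctx hu (TbB_tail l)

private theorem TbB_ind (n : ℕ) : ∀ l : List Bool, l.length ≤ n → 1 ≤ l.count true →
    Cob [true] [true] 0 (l.count true - 1) 0 (twoBridge l) [] := by
  induction n with
  | zero =>
    intro l hl hc
    rw [List.length_eq_zero_iff.1 (Nat.le_zero.1 hl)] at hc
    simp at hc
  | succ n ih =>
    intro l hl hc
    rcases l with _ | ⟨b, l⟩
    · simp at hc
    · have hl' : l.length ≤ n := by
        simpa using hl
      cases b
      · have e1 : (false :: l).count true = l.count true := by
          rw [List.count_cons_of_ne (by decide)]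
        rw [e1] at hc ⊢
        exact ((TbB_first l).trans (ih l hl' hc)).cast (by omega) (by omega) (by omega)
      · have e1 : (true :: l).count true = l.count true + 1 := List.count_cons_self
        rw [e1, Nat.add_sub_cancel]
        rcases Nat.eq_zero_or_pos (l.count true) with h0 | hpos
        · rcases List.eq_nil_or_concat' l with h1 | ⟨L, b, h1⟩
          · subst h1
            exact tb_one.cast rfl (by simp) rfl
          · subst h1
            have hb : b = false := by
              cases b
              · rfl
              · rw [List.count_append] at h0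
                simp at h0
            subst hb
            have h2 : L.count true = 0 := by
              rw [List.count_append] at h0
              omega
            have h3 : (true :: L).count true = 1 := by
              rw [List.count_cons_self, h2]
            have h4 := ih (true :: L) (by
              rw [List.length_append] at hl'
              simpa using hl') (by omega)
            rw [h3] at h4
            have h5 := (TbB_last (true :: L)).trans h4
            rw [h0]
            exact h5
        · exact ((TbB_smooth l).trans (ih l hl' hpos)).cast (by omega) (by omega) (by omega)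

theorem tb_saddles (l : List Bool) (h : 1 ≤ l.count true) : Cob [true] [true] 0 (l.count true - 1) 0 (twoBridge l) [] :=
  TbB_ind l.length l le_rfl h

end Pool.Agent.Lib.MP_177a0e_gt.Sig
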